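import Pool.Agent.LibQR40.D1

/-! Interface for LibQR35 (QR, interface v2). -/

open MeasureTheory Set Filter Topology BGS
open scoped ContDiff ENNReal NNReal unitInterval

namespace QR

variable {Γ : Type} [Group Γ] [MulAction Γ Pl] {D : Set Pl}

theorem limit_eig (hX : Surface Γ D) (m : Mt Γ D) (w : TestS Γ) (_hw : ∀ z, 0 < w.1 z) (la : ℝ)
    (u : ℕ → TestS Γ)
    (hc : ∀ δ > 0, ∃ N, ∀ n ≥ N, ∀ k ≥ N, bF hX m (oneT Γ) (u n - u k) (u n - u k) ≤ δ)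
    (he : ∃ C, ∀ n, aF hX m (u n) (u n) ≤ C)
    (hl : ∀ h, Tendsto (fun n => aF hX m (u n) h - la * bF hX m w (u n) h) atTop (𝓝 0)) :
    ∃ U : TestS Γ, IsEig hX m w la U ∧
      Tendsto (fun n => bF hX m (oneT Γ) (u n - U) (u n - U)) atTop (𝓝 0) :=
  lim_eig hX m w la u hc he hl

theorem prod_zero (hX : Surface Γ D) (m : Mt Γ D) (w : TestS Γ) (_hw : ∀ z, 0 < w.1 z) {la : ℝ}
    {U V : TestS Γ} (hU : IsEig hX m w la U) (hV : IsEig hX m w la V)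
    (h : ∀ z, U.1 z * V.1 z = 0) : U = 0 ∨ V = 0 :=
  pr_zero hX m w la U V hU hV h

theorem sum_sq (hX : Surface Γ D) (m : Mt Γ D) (w : TestS Γ) (_hw : ∀ z, 0 < w.1 z) {la : ℝ}
    {U V W : TestS Γ} (hU : IsEig hX m w la U) (hV : IsEig hX m w la V)
    (hW : IsEig hX m w la W) (h : ∀ z, U.1 z ^ 2 + V.1 z ^ 2 = W.1 z ^ 2) :
    ∃ a b : ℝ, (a ≠ 0 ∨ b ≠ 0) ∧ a • U + b • V = 0 :=
  su_sq hX m w la U V W hU hV hW h

end QR
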