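import Pool.Agent.LibQR40.Defs

/-! ROW RGb. Put auxiliary lemmas in this file, names starting with `RGb_`.
(fundamental lemma). PLAN: `ae_eq_zero_of_integral_contDiff_smul_eq_zero` (Mathlib) and continuity; or directly: if g z₀ ≠ 0 take a
ContDiffBump around z₀ where g has constant sign. -/

open MeasureTheory Set Filter Topology
open scoped ContDiff ENNReal NNReal

namespace QR

open BGS

/-- A continuous function that is orthogonal to all test functions vanishes. -/
theorem eq_zero_of_test {g : Pl → ℝ} (hg : Continuous g) (h : ∀ χ, IsT χ → ∫ z, g z * χ z = 0) :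
    ∀ z, g z = 0 := by
  have h1 : ∀ᵐ z ∂(volume : Measure Pl), g z = 0 := by
    apply ae_eq_zero_of_integral_contDiff_smul_eq_zero hg.locallyIntegrable
    intro χ h1 h2
    have h3 := h χ ⟨h1, h2⟩
    rw [← h3]
    apply integral_congr_ae
    filter_upwards with z
    simp only [smul_eq_mul]
    ring
  have h2 : g =ᵐ[(volume : Measure Pl)] fun _ => (0 : ℝ) := h1
  have h3 := (Continuous.ae_eq_iff_eq (volume : Measure Pl) hg continuous_const).1 h2
  intro z
  rw [h3]

end QR
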