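import Pool.Agent.LibQR40.B1c
import Pool.Agent.LibQR40.RGb

/-! ROW B3a. Put auxiliary lemmas in this file, names starting with `B3a_`.
(the equation of an eigenfunction). PLAN: by `aF_per`, `bF_per`, `ip_q2`: ∫ (Lu A U + la w vol U) χ = 0 for every test function χ,
A = coefM m, so `eq_zero_of_test`. -/

open MeasureTheory Set Filter Topology
open scoped ContDiff ENNReal NNReal

namespace QR

open BGS

variable {Γ : Type} [Group Γ] [MulAction Γ Pl] {D : Set Pl}

theorem eig_pde (hX : Surface Γ D) (m : Mt Γ D) (w : TestS Γ) (la : ℝ) (U : TestS Γ)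
    (hU : IsEig hX m w la U) (z : Pl) :
    Lu (coefM m) U.1 z = - (la * (w.1 z * vol m z) * U.1 z) := by
  have hU1 : ContDiff ℝ ∞ U.1 := U.2.1
  have hw1 : ContDiff ℝ ∞ w.1 := w.2.1
  have hL : Continuous (Lu (coefM m) U.1) := (smooth_Lu (coefM m) hU1).continuous
  have hV : Continuous fun z => w.1 z * vol m z * U.1 z :=
    (hw1.continuous.mul (smooth_vol m).continuous).mul hU1.continuous
  have hg : Continuous fun z => Lu (coefM m) U.1 z + la * (w.1 z * vol m z * U.1 z) :=
    hL.add (continuous_const.mul hV)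
  have key : ∀ χ, IsT χ →
      ∫ z, (Lu (coefM m) U.1 z + la * (w.1 z * vol m z * U.1 z)) * χ z = 0 := by
    intro χ hχ
    have h1 := hU (perT hX hχ)
    rw [aF_per hX m U hχ, bF_per hX m w U hχ, ip_q2 (coefM m) hU1 hχ] at h1
    have i1 : Integrable fun z => Lu (coefM m) U.1 z * χ z :=
      (hL.mul hχ.1.continuous).integrable_of_hasCompactSupport hχ.2.mul_left
    have i2 : Integrable fun z => w.1 z * vol m z * U.1 z * χ z :=
      (hV.mul hχ.1.continuous).integrable_of_hasCompactSupport hχ.2.mul_left
    have h2 : (fun z => (Lu (coefM m) U.1 z + la * (w.1 z * vol m z * U.1 z)) * χ z) =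
        fun z => Lu (coefM m) U.1 z * χ z + la * (w.1 z * vol m z * U.1 z * χ z) := by
      funext z
      ring
    rw [h2, integral_add i1 (i2.const_mul la), integral_const_mul]
    linarith
  have h3 := eq_zero_of_test hg key z
  linarith

end QR
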