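import Pool.Agent.LibQR40.Defs

/-! ROW CU: cut-off functions and product rules. -/

open MeasureTheory Set Filter Topology
open scoped ContDiff ENNReal NNReal

namespace QR

open BGS

theorem exists_cut (R : ℝ) {s : ℝ} (hs : 0 < s) : ∃ χ : Pl → ℝ, IsT χ ∧ (∀ z, 0 ≤ χ z) ∧ (∀ z, χ z ≤ 1) ∧
    (∃ U : Set Pl, IsOpen U ∧ Q R ⊆ U ∧ ∀ z ∈ U, χ z = 1) ∧ tsupport χ ⊆ Q (R + s) := by
  rcases lt_or_ge R 0 with hR | hR
  · have h0 : tsupport (fun _ : Pl => (0 : ℝ)) = ∅ := by
      rw [tsupport_eq_empty_iff]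
      rfl
    refine ⟨fun _ => 0, ⟨contDiff_const, ?_⟩, fun _ => le_rfl, fun _ => zero_le_one,
      ⟨∅, isOpen_empty, ?_, fun z hz => absurd hz (Set.notMem_empty z)⟩, ?_⟩
    · rw [HasCompactSupport, h0]
      exact isCompact_empty
    · rw [Q, Metric.closedBall_eq_empty.2 hR]
    · rw [h0]
      exact Set.empty_subset _
  · let φ : ContDiffBump (0 : Pl) := ⟨R + s / 3, R + s / 2, by linarith, by linarith⟩
    refine ⟨φ, ⟨φ.contDiff, φ.hasCompactSupport⟩, fun z => φ.nonneg, fun z => φ.le_one,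
      ⟨Metric.ball 0 (R + s / 3), Metric.isOpen_ball, ?_, ?_⟩, ?_⟩
    · exact Metric.closedBall_subset_ball (by linarith)
    · intro z hz
      exact φ.one_of_mem_closedBall (Metric.ball_subset_closedBall hz)
    · rw [φ.tsupport_eq]
      exact Metric.closedBall_subset_closedBall (by
        change R + s / 2 ≤ R + s
        linarith)

/-- A smooth function is bounded on a square together with finitely many derivatives. -/
theorem bdd_Q {f : Pl → ℝ} (hf : Continuous f) (R : ℝ) : ∃ C : ℝ, 0 < C ∧ ∀ z ∈ Q R, |f z| ≤ C := by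
  obtain ⟨C, hC⟩ := (isCompact_closedBall (0 : Pl) R).exists_bound_of_continuousOn hf.continuousOn
  refine ⟨max C 1, lt_of_lt_of_le one_pos (le_max_right _ _), fun z hz => ?_⟩
  exact le_trans (hC z hz) (le_max_left _ _)

theorem CU_diff {f : Pl → ℝ} (hf : ContDiff ℝ ∞ f) (z : Pl) : DifferentiableAt ℝ f z :=
  (hf.differentiable (by simp)) z

theorem CU_mul {f g : Pl → ℝ} (hf : ContDiff ℝ ∞ f) (hg : ContDiff ℝ ∞ g) (z w : Pl) :
    fderiv ℝ (fun y => f y * g y) z w = fderiv ℝ f z w * g z + f z * fderiv ℝ g z w := by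
  rw [fderiv_fun_mul (CU_diff hf z) (CU_diff hg z)]
  simp only [ContinuousLinearMap.add_apply, ContinuousLinearMap.smul_apply, smul_eq_mul]
  ring

theorem CU_add {f g : Pl → ℝ} (hf : ContDiff ℝ ∞ f) (hg : ContDiff ℝ ∞ g) (z w : Pl) :
    fderiv ℝ (fun y => f y + g y) z w = fderiv ℝ f z w + fderiv ℝ g z w := by
  rw [fderiv_fun_add (CU_diff hf z) (CU_diff hg z)]
  rfl

theorem CU_sub {f g : Pl → ℝ} (hf : ContDiff ℝ ∞ f) (hg : ContDiff ℝ ∞ g) (z w : Pl) :
    fderiv ℝ (fun y => f y - g y) z w = fderiv ℝ f z w - fderiv ℝ g z w := by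
  rw [fderiv_fun_sub (CU_diff hf z) (CU_diff hg z)]
  rfl

/-- Product rules. -/
theorem pd_mul {f g : Pl → ℝ} (hf : ContDiff ℝ ∞ f) (hg : ContDiff ℝ ∞ g) (b : Bool) (z : Pl) :
    pd b (fun y => f y * g y) z = pd b f z * g z + f z * pd b g z := by
  cases b
  · exact CU_mul hf hg z (0, 1)
  · exact CU_mul hf hg z (1, 0)

theorem pd_add {f g : Pl → ℝ} (hf : ContDiff ℝ ∞ f) (hg : ContDiff ℝ ∞ g) (b : Bool) (z : Pl) :
    pd b (fun y => f y + g y) z = pd b f z + pd b g z := by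
  cases b
  · exact CU_add hf hg z (0, 1)
  · exact CU_add hf hg z (1, 0)

theorem pd_sub {f g : Pl → ℝ} (hf : ContDiff ℝ ∞ f) (hg : ContDiff ℝ ∞ g) (b : Bool) (z : Pl) :
    pd b (fun y => f y - g y) z = pd b f z - pd b g z := by
  cases b
  · exact CU_sub hf hg z (0, 1)
  · exact CU_sub hf hg z (1, 0)

theorem Dw_sub {f g : Pl → ℝ} (hf : ContDiff ℝ ∞ f) (hg : ContDiff ℝ ∞ g) (l : List Bool) (z : Pl) :
    Dw l (fun y => f y - g y) z = Dw l f z - Dw l g z := by
  induction l generalizing z with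
  | nil => rfl
  | cons b l ih =>
    have h1 : Dw l (fun y => f y - g y) = fun z => Dw l f z - Dw l g z := funext ih
    change pd b (Dw l (fun y => f y - g y)) z = pd b (Dw l f) z - pd b (Dw l g) z
    rw [h1]
    exact pd_sub (smooth_Dw hf l) (smooth_Dw hg l) b z

theorem CU_fx_mul (A : Coef) {f g : Pl → ℝ} (hf : ContDiff ℝ ∞ f) (hg : ContDiff ℝ ∞ g) (z : Pl) :
    fx A (fun y => f y * g y) z = fx A f z * g z + f z * fx A g z := by
  have h1 := pd_mul hf hg true z
  have h2 := pd_mul hf hg false z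
  simp only [pd, if_true, Bool.false_eq_true, if_false] at h1 h2
  unfold fx
  rw [h1, h2]
  ring

theorem CU_fy_mul (A : Coef) {f g : Pl → ℝ} (hf : ContDiff ℝ ∞ f) (hg : ContDiff ℝ ∞ g) (z : Pl) :
    fy A (fun y => f y * g y) z = fy A f z * g z + f z * fy A g z := by
  have h1 := pd_mul hf hg true z
  have h2 := pd_mul hf hg false z
  simp only [pd, if_true, Bool.false_eq_true, if_false] at h1 h2
  unfold fy
  rw [h1, h2]
  ring

theorem Lu_mul (A : Coef) {f g : Pl → ℝ} (hf : ContDiff ℝ ∞ f) (hg : ContDiff ℝ ∞ g) (z : Pl) :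
    Lu A (fun y => f y * g y) z = Lu A f z * g z + 2 * q2 A f g z + f z * Lu A g z := by
  have hx : dx (fx A (fun y => f y * g y)) z =
      (dx (fx A f) z * g z + fx A f z * dx g z) + (dx f z * fx A g z + f z * dx (fx A g) z) := by
    rw [show fx A (fun y => f y * g y) = fun z => fx A f z * g z + f z * fx A g z from
      funext (CU_fx_mul A hf hg)]
    have h1 := CU_add ((smooth_fx A hf).mul hg) (hf.mul (smooth_fx A hg)) z (1, 0)
    have h2 := CU_mul (smooth_fx A hf) hg z (1, 0)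
    have h3 := CU_mul hf (smooth_fx A hg) z (1, 0)
    unfold dx
    rw [← h2, ← h3]
    exact h1
  have hy : dy (fy A (fun y => f y * g y)) z =
      (dy (fy A f) z * g z + fy A f z * dy g z) + (dy f z * fy A g z + f z * dy (fy A g) z) := by
    rw [show fy A (fun y => f y * g y) = fun z => fy A f z * g z + f z * fy A g z from
      funext (CU_fy_mul A hf hg)]
    have h1 := CU_add ((smooth_fy A hf).mul hg) (hf.mul (smooth_fy A hg)) z (0, 1)
    have h2 := CU_mul (smooth_fy A hf) hg z (0, 1)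
    have h3 := CU_mul hf (smooth_fy A hg) z (0, 1)
    unfold dy
    rw [← h2, ← h3]
    exact h1
  have e1 : Lu A (fun y => f y * g y) z = dx (fx A (fun y => f y * g y)) z +
      dy (fy A (fun y => f y * g y)) z := rfl
  have e2 : Lu A f z = dx (fx A f) z + dy (fy A f) z := rfl
  have e3 : Lu A g z = dx (fx A g) z + dy (fy A g) z := rfl
  rw [e1, hx, hy, e2, e3]
  unfold q2 fx fy
  ring

end QR
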