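import Pool.Agent.LibQR40.Defs2

/-! ROW E1b. Put auxiliary lemmas in this file, names starting with `E1b_`.
(two facts on the curvature formula `BGS.curv`). `flat`: the metric (f_x² + g_x², f_x f_y + g_x g_y, f_y² + g_y²) has numerator of the curvature
zero: algebra with derivatives of f, g up to order 3 (`Egr_symm`; see `Curv_alg` (LibBGS/CurvAlg.lean) and the proof of `Egr_main` in LibBGS/Egr.lean,
`Egr_curv`: take T u = u ∘ (f, g), E = 1, F = 0, G = 1, all derivatives of constants vanish; or direct expansion and `ring`).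
`curv_smul`: the numerator is homogeneous of degree 3 and the denominator of degree 4. -/

open MeasureTheory Set Filter Topology
open scoped ContDiff ENNReal NNReal

namespace QR

open BGS

theorem E1b_N {f g : Pl → ℝ} (hf : ContDiff ℝ ∞ f) (hg : ContDiff ℝ ∞ g) (E F G : Egr_S)
    (hE : ∀ w, E.1 w = dx f w ^ 2 + dx g w ^ 2) (hF : ∀ w, F.1 w = dx f w * dy f w + dx g w * dy g w)
    (hG : ∀ w, G.1 w = dy f w ^ 2 + dy g w ^ 2) : Curv_N Egr_X Egr_Y E F G = 0 := by
  set f' : Egr_S := ⟨f, hf⟩ with hf'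
  set g' : Egr_S := ⟨g, hg⟩ with hg'
  have hφ : ContDiff ℝ ∞ fun z : Pl => (f z, g z) := hf.prodMk hg
  set T : Egr_S → Egr_S := Egr_T (fun z : Pl => (f z, g z)) hφ with hT
  have key := Curv_alg Egr_X Egr_Y T
    (fun u v => Subtype.ext (funext fun z => Egr_add u v (1, 0) z))
    (fun u v => Subtype.ext (funext fun z => Egr_add u v (0, 1) z))
    (fun u v => Subtype.ext (funext fun z => Egr_mul u v (1, 0) z))
    (fun u v => Subtype.ext (funext fun z => Egr_mul u v (0, 1) z))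
    (fun u => Subtype.ext (funext fun z => Egr_symm u.2 z))
    (Subtype.ext (funext fun z => Egr_const 2 2 rfl (1, 0) z))
    (Subtype.ext (funext fun z => Egr_const 2 2 rfl (0, 1) z))
    (Subtype.ext (funext fun z => Egr_const 0 0 rfl (1, 0) z))
    (Subtype.ext (funext fun z => Egr_const 0 0 rfl (0, 1) z))
    f' g'
    (fun u => Subtype.ext (funext fun z => Egr_chain (fun z : Pl => (f z, g z)) hφ u (1, 0) z))
    (fun u => Subtype.ext (funext fun z => Egr_chain (fun z : Pl => (f z, g z)) hφ u (0, 1) z))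
    1 0 1
  have hT1 : T 1 = 1 := rfl
  have hT0 : T 0 = 0 := rfl
  have hX1 : Egr_X 1 = 0 := Subtype.ext (funext fun z => Egr_const 1 1 rfl (1, 0) z)
  have hY1 : Egr_Y 1 = 0 := Subtype.ext (funext fun z => Egr_const 1 1 rfl (0, 1) z)
  have hX0 : Egr_X 0 = 0 := Subtype.ext (funext fun z => Egr_const 0 0 rfl (1, 0) z)
  have hY0 : Egr_Y 0 = 0 := Subtype.ext (funext fun z => Egr_const 0 0 rfl (0, 1) z)
  simp only [hX1, hY1, hX0, hY0, hT1, hT0] at key
  have e1 : (1 : Egr_S) * (Egr_X f' * Egr_X f') + 2 * (0 * (Egr_X f' * Egr_X g')) +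
      1 * (Egr_X g' * Egr_X g') = E := by
    apply Subtype.ext
    funext w
    rw [hE w]
    show (1 : ℝ) * (dx f w * dx f w) + 2 * (0 * (dx f w * dx g w)) + 1 * (dx g w * dx g w) = _
    ring
  have e2 : (1 : Egr_S) * (Egr_X f' * Egr_Y f') + 0 * (Egr_X f' * Egr_Y g' + Egr_Y f' * Egr_X g') +
      1 * (Egr_X g' * Egr_Y g') = F := by
    apply Subtype.ext
    funext w
    rw [hF w]
    show (1 : ℝ) * (dx f w * dy f w) + 0 * (dx f w * dy g w + dy f w * dx g w) +
      1 * (dx g w * dy g w) = _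
    ring
  have e3 : (1 : Egr_S) * (Egr_Y f' * Egr_Y f') + 2 * (0 * (Egr_Y f' * Egr_Y g')) +
      1 * (Egr_Y g' * Egr_Y g') = G := by
    apply Subtype.ext
    funext w
    rw [hG w]
    show (1 : ℝ) * (dy f w * dy f w) + 2 * (0 * (dy f w * dy g w)) + 1 * (dy g w * dy g w) = _
    ring
  rw [e1, e2, e3] at key
  rw [key]
  ring

theorem flat {f g : Pl → ℝ} (hf : ContDiff ℝ ∞ f) (hg : ContDiff ℝ ∞ g) (z : Pl) :
    curv (fun y => (dx f y ^ 2 + dx g y ^ 2, dx f y * dy f y + dx g y * dy g y,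
      dy f y ^ 2 + dy g y ^ 2)) z = 0 := by
  have hfx := Egr_smooth_dx hf
  have hfy := Egr_smooth_dy hf
  have hgx := Egr_smooth_dx hg
  have hgy := Egr_smooth_dy hg
  have h := Egr_curv (m := fun y => (dx f y ^ 2 + dx g y ^ 2, dx f y * dy f y + dx g y * dy g y,
      dy f y ^ 2 + dy g y ^ 2)) ⟨fun y => dx f y ^ 2 + dx g y ^ 2, (hfx.pow 2).add (hgx.pow 2)⟩
    ⟨fun y => dx f y * dy f y + dx g y * dy g y, (hfx.mul hfy).add (hgx.mul hgy)⟩
    ⟨fun y => dy f y ^ 2 + dy g y ^ 2, (hfy.pow 2).add (hgy.pow 2)⟩ (fun _ => rfl) (fun _ => rfl)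
    (fun _ => rfl) z
  rw [h, E1b_N hf hg _ _ _ (fun _ => rfl) (fun _ => rfl) (fun _ => rfl)]
  exact zero_div _

theorem curv_smul {m : Pl → Co} (hm : ContDiff ℝ ∞ m) {s : ℝ} (hs : 0 < s) (z : Pl) :
    curv (fun y => s • m y) z = curv m z / s := by
  have hE : ContDiff ℝ ∞ fun y => (m y).1 := hm.fst
  have hF : ContDiff ℝ ∞ fun y => (m y).2.1 := hm.snd.fst
  have hG : ContDiff ℝ ∞ fun y => (m y).2.2 := hm.snd.snd
  have dxs : ∀ h : Pl → ℝ, ContDiff ℝ ∞ h → dx (fun y => s * h y) = fun y => s * dx h y := by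
    intro h hh
    funext y
    exact BGR_dx_smul hh s y
  have dys : ∀ h : Pl → ℝ, ContDiff ℝ ∞ h → dy (fun y => s * h y) = fun y => s * dy h y := by
    intro h hh
    funext y
    exact BGR_dy_smul hh s y
  have e1 : (fun y => (s • m y).1) = fun y => s * (m y).1 := rfl
  have e2 : (fun y => (s • m y).2.1) = fun y => s * (m y).2.1 := rfl
  have e3 : (fun y => (s • m y).2.2) = fun y => s * (m y).2.2 := rfl
  have e4 : dt (s • m z) = s ^ 2 * dt (m z) := by
    show s * (m z).1 * (s * (m z).2.2) - (s * (m z).2.1) ^ 2 = _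
    unfold dt
    ring
  unfold curv
  simp only [e1, e2, e3, e4]
  rw [dxs _ hE, dxs _ hF, dxs _ hG, dys _ hE, dys _ hF, dys _ hG]
  rw [dys _ (Egr_smooth_dy hE), dys _ (Egr_smooth_dx hF), dxs _ (Egr_smooth_dx hG)]
  simp only [Matrix.det_fin_three, Matrix.of_apply, Matrix.cons_val]
  have h5 : ∀ A B : ℝ, A = s ^ 3 * B → A / (s ^ 2 * dt (m z)) ^ 2 = B / dt (m z) ^ 2 / s := by
    intro A B h
    rw [h, div_div]
    have : (s ^ 2 * dt (m z)) ^ 2 = s ^ 3 * (dt (m z) ^ 2 * s) := by ring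
    rw [this, mul_div_mul_left _ _ (by positivity)]
  apply h5
  have f1 : (s • m z).1 = s * (m z).1 := rfl
  have f2 : (s • m z).2.1 = s * (m z).2.1 := rfl
  have f3 : (s • m z).2.2 = s * (m z).2.2 := rfl
  rw [f1, f2, f3]
  ring

end QR
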