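import Pool.Agent.LibQR40.E1a
import Pool.Agent.LibQR40.E1b
import Pool.Agent.LibQR40.B3a
import Pool.Agent.LibQR40.CU

/-! ROW E1c. Put auxiliary lemmas in this file, names starting with `E1c_`.
(second layer: negative curvature excludes a circle of eigenfunctions).
Let U² + V² = 1, both eigenfunctions, la > 0, A = coefM m = (a, b, c), Λ z = la * (w z * vol m z) > 0.
ω = U ∇V - V ∇U = (ω₁, ω₂), η₁ = -(b ω₁ + c ω₂), η₂ = a ω₁ + b ω₂.
(1) U ∇U + V ∇V = 0, so ∇U = -V ω, ∇V = U ω; dy ω₁ = dx ω₂ (`Egr_symm` and ∇U parallel to ∇V).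
(2) dx η₂ - dy η₁ = dx (a ω₁ + b ω₂) + dy (b ω₁ + c ω₂) = U Lu V - V Lu U = 0.
(3) L(U² + V²) = 0 gives q2 U U + q2 V V = Λ, i.e. a ω₁² + 2 b ω₁ ω₂ + c ω₂² = Λ.
(4) with a c - b² = 1: ω₁² + η₁² = Λ c, ω₁ ω₂ + η₁ η₂ = - Λ b, ω₂² + η₂² = Λ a, and Λ (c, -b, a) = la w (E, F, G).
(5) `potential`: closed smooth forms on the plane have smooth potentials: ω = dθ, η = dη' (integrate along the axes:
f (x, y) = ∫_0^x ω₁ (s, 0) ds + ∫_0^y ω₂ (x, t) dt).
(6) `flat`: the metric (f_x² + g_x², f_x f_y + g_x g_y, f_y² + g_y²) has numerator of the curvature zero: `Curv_alg` with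
T = composition with any map, e.g. T u = u ∘ (f, g) (`Egr_T`), E = 1, F = 0, G = 1 (all derivatives of constants vanish),
see the proof of `Egr_main` in LibBGS/Egr.lean, and `Egr_curv`.
(7) so la w m = (la / q) m' has curvature 0; curvature scales: curv (s • m') = curv m' / s for a constant s > 0; but
curv m' < 0 (m'.2.neg): contradiction. -/

open MeasureTheory Set Filter Topology
open scoped ContDiff ENNReal NNReal

namespace QR

open BGS

variable {Γ : Type} [Group Γ] [MulAction Γ Pl] {D : Set Pl}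

theorem E1c_dx_mul {f g : Pl → ℝ} (hf : ContDiff ℝ ∞ f) (hg : ContDiff ℝ ∞ g) (z : Pl) :
    dx (fun y => f y * g y) z = dx f z * g z + f z * dx g z := by
  have h := pd_mul hf hg true z
  simpa [pd] using h

theorem E1c_dy_mul {f g : Pl → ℝ} (hf : ContDiff ℝ ∞ f) (hg : ContDiff ℝ ∞ g) (z : Pl) :
    dy (fun y => f y * g y) z = dy f z * g z + f z * dy g z := by
  have h := pd_mul hf hg false z
  simpa [pd] using h

theorem E1c_dx_add {f g : Pl → ℝ} (hf : ContDiff ℝ ∞ f) (hg : ContDiff ℝ ∞ g) (z : Pl) :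
    dx (fun y => f y + g y) z = dx f z + dx g z := by
  have h := pd_add hf hg true z
  simpa [pd] using h

theorem E1c_dy_add {f g : Pl → ℝ} (hf : ContDiff ℝ ∞ f) (hg : ContDiff ℝ ∞ g) (z : Pl) :
    dy (fun y => f y + g y) z = dy f z + dy g z := by
  have h := pd_add hf hg false z
  simpa [pd] using h

theorem E1c_dx_sub {f g : Pl → ℝ} (hf : ContDiff ℝ ∞ f) (hg : ContDiff ℝ ∞ g) (z : Pl) :
    dx (fun y => f y - g y) z = dx f z - dx g z := by
  have h := pd_sub hf hg true z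
  simpa [pd] using h

theorem E1c_dy_sub {f g : Pl → ℝ} (hf : ContDiff ℝ ∞ f) (hg : ContDiff ℝ ∞ g) (z : Pl) :
    dy (fun y => f y - g y) z = dy f z - dy g z := by
  have h := pd_sub hf hg false z
  simpa [pd] using h

theorem E1c_plane (A : Coef) {La U V : Pl → ℝ} (hU : ContDiff ℝ ∞ U) (hV : ContDiff ℝ ∞ V)
    (hLU : ∀ z, Lu A U z = - (La z * U z)) (hLV : ∀ z, Lu A V z = - (La z * V z))
    (h : ∀ z, U z ^ 2 + V z ^ 2 = 1) :
    curv (fun z => La z • ((A.c z, -A.b z, A.a z) : Co)) = fun _ => 0 := by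
  have hxU := Egr_smooth_dx hU
  have hyU := Egr_smooth_dy hU
  have hxV := Egr_smooth_dx hV
  have hyV := Egr_smooth_dy hV
  have hUU : ContDiff ℝ ∞ fun y => U y * U y := hU.mul hU
  have hVV : ContDiff ℝ ∞ fun y => V y * V y := hV.mul hV
  have hone : (fun y => U y * U y + V y * V y) = fun _ => (1 : ℝ) := by
    funext y
    have := h y
    nlinarith
  have h1x : ∀ z, U z * dx U z + V z * dx V z = 0 := by
    intro z
    have e1 : dx (fun y => U y * U y + V y * V y) z = 0 := by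
      rw [hone]
      simp [dx]
    rw [E1c_dx_add hUU hVV, E1c_dx_mul hU hU, E1c_dx_mul hV hV] at e1
    linarith
  have h1y : ∀ z, U z * dy U z + V z * dy V z = 0 := by
    intro z
    have e1 : dy (fun y => U y * U y + V y * V y) z = 0 := by
      rw [hone]
      simp [dy]
    rw [E1c_dy_add hUU hVV, E1c_dy_mul hU hU, E1c_dy_mul hV hV] at e1
    linarith
  set ω₁ : Pl → ℝ := fun z => U z * dx V z - V z * dx U z with hω₁
  set ω₂ : Pl → ℝ := fun z => U z * dy V z - V z * dy U z with hω₂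
  have hUdV : ContDiff ℝ ∞ fun z => U z * dx V z := hU.mul hxV
  have hVdU : ContDiff ℝ ∞ fun z => V z * dx U z := hV.mul hxU
  have hUeV : ContDiff ℝ ∞ fun z => U z * dy V z := hU.mul hyV
  have hVeU : ContDiff ℝ ∞ fun z => V z * dy U z := hV.mul hyU
  have hsω₁ : ContDiff ℝ ∞ ω₁ := hUdV.sub hVdU
  have hsω₂ : ContDiff ℝ ∞ ω₂ := hUeV.sub hVeU
  have eUx : ∀ z, dx U z = -(V z * ω₁ z) := by
    intro z
    have h1 := h z
    have h2 := h1x z
    show dx U z = -(V z * (U z * dx V z - V z * dx U z))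
    have h3 : V z * (U z * dx V z - V z * dx U z) =
      U z * (U z * dx U z + V z * dx V z) - (U z ^ 2 + V z ^ 2) * dx U z := by ring
    rw [h3, h2, h1]
    ring
  have eVx : ∀ z, dx V z = U z * ω₁ z := by
    intro z
    have h1 := h z
    have h2 := h1x z
    show dx V z = U z * (U z * dx V z - V z * dx U z)
    have h3 : U z * (U z * dx V z - V z * dx U z) =
      (U z ^ 2 + V z ^ 2) * dx V z - V z * (U z * dx U z + V z * dx V z) := by ring
    rw [h3, h2, h1]
    ring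
  have eUy : ∀ z, dy U z = -(V z * ω₂ z) := by
    intro z
    have h1 := h z
    have h2 := h1y z
    show dy U z = -(V z * (U z * dy V z - V z * dy U z))
    have h3 : V z * (U z * dy V z - V z * dy U z) =
      U z * (U z * dy U z + V z * dy V z) - (U z ^ 2 + V z ^ 2) * dy U z := by ring
    rw [h3, h2, h1]
    ring
  have eVy : ∀ z, dy V z = U z * ω₂ z := by
    intro z
    have h1 := h z
    have h2 := h1y z
    show dy V z = U z * (U z * dy V z - V z * dy U z)
    have h3 : U z * (U z * dy V z - V z * dy U z) =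
      (U z ^ 2 + V z ^ 2) * dy V z - V z * (U z * dy U z + V z * dy V z) := by ring
    rw [h3, h2, h1]
    ring
  have hclosed : ∀ z, dy ω₁ z = dx ω₂ z := by
    intro z
    show dy (fun z => U z * dx V z - V z * dx U z) z = dx (fun z => U z * dy V z - V z * dy U z) z
    rw [E1c_dy_sub hUdV hVdU, E1c_dx_sub hUeV hVeU, E1c_dy_mul hU hxV, E1c_dy_mul hV hxU,
      E1c_dx_mul hU hyV, E1c_dx_mul hV hyU, Egr_symm hU, Egr_symm hV, eUx z, eUy z, eVx z, eVy z]
    ring
  -- the conjugate form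
  have hsfU := smooth_fx A hU
  have hsgU := smooth_fy A hU
  have hsfV := smooth_fx A hV
  have hsgV := smooth_fy A hV
  set η₁ : Pl → ℝ := fun z => V z * fy A U z - U z * fy A V z with hη₁
  set η₂ : Pl → ℝ := fun z => U z * fx A V z - V z * fx A U z with hη₂
  have hsη₁ : ContDiff ℝ ∞ η₁ := (hV.mul hsgU).sub (hU.mul hsgV)
  have hsη₂ : ContDiff ℝ ∞ η₂ := (hU.mul hsfV).sub (hV.mul hsfU)
  have hclosed2 : ∀ z, dy η₁ z = dx η₂ z := by
    intro z
    show dy (fun z => V z * fy A U z - U z * fy A V z) z = dx (fun z => U z * fx A V z - V z * fx A U z) z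
    have a1 := hLU z
    have a2 := hLV z
    unfold Lu at a1 a2
    rw [E1c_dy_sub (hV.mul hsgU) (hU.mul hsgV), E1c_dx_sub (hU.mul hsfV) (hV.mul hsfU),
      E1c_dy_mul hV hsgU, E1c_dy_mul hU hsgV, E1c_dx_mul hU hsfV, E1c_dx_mul hV hsfU]
    have b1 : dy (fy A U) z = - (La z * U z) - dx (fx A U) z := by linarith
    have b2 : dy (fy A V) z = - (La z * V z) - dx (fx A V) z := by linarith
    rw [b1, b2]
    simp only [fx, fy]
    ring
  have eη₁ : ∀ z, η₁ z = -(A.b z * ω₁ z + A.c z * ω₂ z) := by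
    intro z
    show V z * (A.b z * dx U z + A.c z * dy U z) - U z * (A.b z * dx V z + A.c z * dy V z) =
      -(A.b z * (U z * dx V z - V z * dx U z) + A.c z * (U z * dy V z - V z * dy U z))
    ring
  have eη₂ : ∀ z, η₂ z = A.a z * ω₁ z + A.b z * ω₂ z := by
    intro z
    show U z * (A.a z * dx V z + A.b z * dy V z) - V z * (A.a z * dx U z + A.b z * dy U z) =
      A.a z * (U z * dx V z - V z * dx U z) + A.b z * (U z * dy V z - V z * dy U z)
    ring
  have hQ : ∀ z, A.a z * ω₁ z ^ 2 + 2 * A.b z * (ω₁ z * ω₂ z) + A.c z * ω₂ z ^ 2 = La z := by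
    intro z
    have e1 : Lu A (fun y => U y * U y + V y * V y) z = 0 := by
      rw [hone]
      unfold Lu
      have c1 : fx A (fun _ => (1 : ℝ)) = fun _ => 0 := by
        funext y
        simp [fx, dx, dy]
      have c2 : fy A (fun _ => (1 : ℝ)) = fun _ => 0 := by
        funext y
        simp [fy, dx, dy]
      rw [c1, c2]
      simp [dx, dy]
    have e2 : Lu A (fun y => U y * U y + V y * V y) z =
        Lu A (fun y => U y * U y) z + Lu A (fun y => V y * V y) z := by
      unfold Lu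
      have c1 : fx A (fun y => U y * U y + V y * V y) =
          fun y => fx A (fun y => U y * U y) y + fx A (fun y => V y * V y) y := by
        funext y
        simp only [fx]
        rw [E1c_dx_add hUU hVV, E1c_dy_add hUU hVV]
        ring
      have c2 : fy A (fun y => U y * U y + V y * V y) =
          fun y => fy A (fun y => U y * U y) y + fy A (fun y => V y * V y) y := by
        funext y
        simp only [fy]
        rw [E1c_dx_add hUU hVV, E1c_dy_add hUU hVV]
        ring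
      rw [c1, c2, E1c_dx_add (smooth_fx A hUU) (smooth_fx A hVV),
        E1c_dy_add (smooth_fy A hUU) (smooth_fy A hVV)]
      ring
    rw [e1, Lu_mul A hU hU, Lu_mul A hV hV, hLU, hLV] at e2
    simp only [q2, fx, fy] at e2
    rw [eUx z, eUy z, eVx z, eVy z] at e2
    have h1 := h z
    have h3 : (0 : ℝ) = 2 * ((U z ^ 2 + V z ^ 2) *
        (A.a z * ω₁ z ^ 2 + 2 * A.b z * (ω₁ z * ω₂ z) + A.c z * ω₂ z ^ 2)) -
        2 * (La z * (U z ^ 2 + V z ^ 2)) := by
      rw [e2]
      ring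
    rw [h1] at h3
    linarith
  obtain ⟨F, hF, hFx, hFy⟩ := potential hsω₁ hsω₂ hclosed
  obtain ⟨H, hH, hHx, hHy⟩ := potential hsη₁ hsη₂ hclosed2
  have hfun : (fun z => La z • ((A.c z, -A.b z, A.a z) : Co)) =
      fun y => (dx F y ^ 2 + dx H y ^ 2, dx F y * dy F y + dx H y * dy H y,
        dy F y ^ 2 + dy H y ^ 2) := by
    funext z
    rw [hFx, hFy, hHx, hHy, eη₁, eη₂, ← hQ z]
    have hd := A.det z
    have hd' : A.a z * A.c z = 1 + A.b z ^ 2 := by linarith
    refine Prod.ext ?_ (Prod.ext ?_ ?_)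
    · show (A.a z * ω₁ z ^ 2 + 2 * A.b z * (ω₁ z * ω₂ z) + A.c z * ω₂ z ^ 2) * A.c z =
        ω₁ z ^ 2 + (-(A.b z * ω₁ z + A.c z * ω₂ z)) ^ 2
      linear_combination (ω₁ z ^ 2) * hd'
    · show (A.a z * ω₁ z ^ 2 + 2 * A.b z * (ω₁ z * ω₂ z) + A.c z * ω₂ z ^ 2) * (-A.b z) =
        ω₁ z * ω₂ z + (-(A.b z * ω₁ z + A.c z * ω₂ z)) * (A.a z * ω₁ z + A.b z * ω₂ z)
      linear_combination (ω₁ z * ω₂ z) * hd'
    · show (A.a z * ω₁ z ^ 2 + 2 * A.b z * (ω₁ z * ω₂ z) + A.c z * ω₂ z ^ 2) * A.a z =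
        ω₂ z ^ 2 + (A.a z * ω₁ z + A.b z * ω₂ z) ^ 2
      linear_combination (ω₂ z ^ 2) * hd'
  rw [hfun]
  funext z
  exact flat hF hH z

theorem no_circle (hX : Surface Γ D) (m m' : Mt Γ D) (w : TestS Γ) (hw : ∀ z, 0 < w.1 z) {q la : ℝ}
    (hq : 0 < q) (hla : 0 < la) (hm : ∀ z, m'.1.1 z = (q * w.1 z) • m.1.1 z) (U V : TestS Γ)
    (hU : IsEig hX m w la U) (hV : IsEig hX m w la V) : ¬ ∀ z, U.1 z ^ 2 + V.1 z ^ 2 = 1 := by
  intro h
  have h1 := E1c_plane (coefM m) (La := fun z => la * (w.1 z * vol m z)) U.2.1 V.2.1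
    (eig_pde hX m w la U hU) (eig_pde hX m w la V hV) h
  have h2 : (fun z => (la * (w.1 z * vol m z)) • (((coefM m).c z, -(coefM m).b z, (coefM m).a z) : Co)) =
      fun z => (la / q) • m'.1.1 z := by
    funext z
    have hv := (vol_pos m z).ne'
    rw [hm z, smul_smul]
    refine Prod.ext ?_ (Prod.ext ?_ ?_)
    · show (la * (w.1 z * vol m z)) * ((m.1.1 z).1 / vol m z) = la / q * (q * w.1 z) * (m.1.1 z).1
      field_simp
    · show (la * (w.1 z * vol m z)) * (-(-(m.1.1 z).2.1 / vol m z)) =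
        la / q * (q * w.1 z) * (m.1.1 z).2.1
      field_simp
    · show (la * (w.1 z * vol m z)) * ((m.1.1 z).2.2 / vol m z) =
        la / q * (q * w.1 z) * (m.1.1 z).2.2
      field_simp
  have h3 := congrFun h1 (0 : Pl)
  rw [h2, curv_smul m'.1.2 (div_pos hla hq)] at h3
  have h4 := m'.2.neg 0
  have h5 : curv m'.1.1 0 / (la / q) < 0 := div_neg_of_neg_of_pos h4 (div_pos hla hq)
  linarith

end QR
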