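import Pool.Agent.LibQR40.B1a

/-! ROW E1d. Put auxiliary lemmas in this file, names starting with `E1d_`.
(zeros). PLAN: if U has no zero then U > 0 or U < 0 on the (connected) plane; test the equation with h = oneT Γ: aF U 1 = 0 (the derivatives of
the constant vanish), so la * ∫ z in D, w U vol = 0, but the integrand is positive (negative) and D has positive measure (D is a fundamental
domain: the plane is a countable union of translates of D; see `Surface` and LibBGS). -/

open MeasureTheory Set Filter Topology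
open scoped ContDiff ENNReal NNReal

namespace QR

open BGS

variable {Γ : Type} [Group Γ] [MulAction Γ Pl] {D : Set Pl}

theorem E1d_vol (m : Mt Γ D) : 0 < volume D := by
  rw [pos_iff_ne_zero]
  intro h
  have h1 := m.2.area
  rw [Measure.restrict_eq_zero.2 h, integral_zero_measure] at h1
  exact zero_ne_one h1

theorem E1d_int (hX : Surface Γ D) (m : Mt Γ D) (w : TestS Γ) (hw : ∀ z, 0 < w.1 z)
    (V : TestS Γ) (hV : ∀ z, 0 < V.1 z) : 0 < bF hX m w V (oneT Γ) := by
  rw [bF_apply]
  have hpos : ∀ z, 0 < w.1 z * V.1 z * (oneT Γ).1 z * √(dt (m.1.1 z)) := by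
    intro z
    have h1 : (oneT Γ).1 z = 1 := rfl
    rw [h1, mul_one]
    exact mul_pos (mul_pos (hw z) (hV z)) (Real.sqrt_pos.2 (m.2.pos z).2)
  have hint : IntegrableOn (fun z => w.1 z * V.1 z * (oneT Γ).1 z * √(dt (m.1.1 z))) D :=
    Cmp_int hX (BGR_b_cont m w.2.1 V.2.1 (oneT Γ).2.1)
  rw [setIntegral_pos_iff_support_of_nonneg_ae (Filter.Eventually.of_forall fun z => (hpos z).le) hint]
  have hs : Function.support (fun z => w.1 z * V.1 z * (oneT Γ).1 z * √(dt (m.1.1 z))) = univ := by
    rw [eq_univ_iff_forall]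
    intro z
    exact (hpos z).ne'
  rw [hs, univ_inter]
  exact E1d_vol m

theorem E1d_a (hX : Surface Γ D) (m : Mt Γ D) (U : TestS Γ) : aF hX m U (oneT Γ) = 0 := by
  rw [aF_apply]
  have h : ∀ z, wf2 (m.1.1 z) (dx U.1 z) (dy U.1 z) (dx (oneT Γ).1 z) (dy (oneT Γ).1 z) = 0 := by
    intro z
    have h1 : dx (oneT Γ).1 z = 0 := by
      unfold dx
      show fderiv ℝ (fun _ => (1 : ℝ)) z (1, 0) = 0
      simp
    have h2 : dy (oneT Γ).1 z = 0 := by
      unfold dy
      show fderiv ℝ (fun _ => (1 : ℝ)) z (0, 1) = 0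
      simp
    rw [h1, h2]
    unfold wf2
    ring
  simp only [h, integral_zero]

/-- Eigenfunctions with a positive eigenvalue have zeros. -/
theorem has_zero (hX : Surface Γ D) (m : Mt Γ D) (w : TestS Γ) (hw : ∀ z, 0 < w.1 z) {la : ℝ}
    (hla : 0 < la) (U : TestS Γ) (hU : IsEig hX m w la U) : ∃ z, U.1 z = 0 := by
  by_contra hcon
  push Not at hcon
  have hb : bF hX m w U (oneT Γ) = 0 := by
    have h1 := hU (oneT Γ)
    rw [E1d_a] at h1
    exact (mul_eq_zero.1 h1.symm).resolve_left hla.ne'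
  have hc : Continuous U.1 := U.2.1.continuous
  by_cases h1 : ∀ z, 0 < U.1 z
  · exact (E1d_int hX m w hw U h1).ne' hb
  · push Not at h1
    obtain ⟨z1, hz1⟩ := h1
    have h2 : ∀ z, 0 < (-U).1 z := by
      intro z
      show 0 < -(U.1 z)
      by_contra h3
      have h4 : 0 ≤ U.1 z := by linarith
      obtain ⟨y, hy⟩ := mem_range_of_exists_le_of_exists_ge hc ⟨z1, hz1⟩ ⟨z, h4⟩
      exact hcon y hy
    have h3 := E1d_int hX m w hw (-U) h2
    rw [map_neg, LinearMap.neg_apply, hb, neg_zero] at h3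
    exact lt_irrefl _ h3

end QR
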