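import Pool.Agent.LibQR40.E1c

/-! No circle of eigenfunctions, without hypothesis on the curvature of the conformal metric. -/

open MeasureTheory Set Filter Topology
open scoped ContDiff ENNReal NNReal

namespace QR

open BGS

variable {Γ : Type} [Group Γ] [MulAction Γ Pl] {D : Set Pl}

/-- The curvature of a conformal metric at a critical point of the factor. -/
theorem E2_curv {m : Pl → Co} (hm : ContDiff ℝ ∞ m) {W : Pl → ℝ} (hW : ContDiff ℝ ∞ W) {z : Pl}
    (hx : dx W z = 0) (hy : dy W z = 0) (hpos : 0 < W z) (hd : 0 < dt (m z)) :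
    curv (fun y => W y • m y) z = curv m z / W z -
      ((m z).2.2 * dx (dx W) z - 2 * (m z).2.1 * dx (dy W) z + (m z).1 * dy (dy W) z) /
        (2 * W z ^ 2 * dt (m z)) := by
  have hE : ContDiff ℝ ∞ fun y => (m y).1 := hm.fst
  have hF : ContDiff ℝ ∞ fun y => (m y).2.1 := hm.snd.fst
  have hG : ContDiff ℝ ∞ fun y => (m y).2.2 := hm.snd.snd
  have hWx := Egr_smooth_dx hW
  have hWy := Egr_smooth_dy hW
  have dxs : ∀ h : Pl → ℝ, ContDiff ℝ ∞ h → dx (fun y => W y * h y) =
      fun y => dx W y * h y + W y * dx h y := by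
    intro h hh
    funext y
    exact E1c_dx_mul hW hh y
  have dys : ∀ h : Pl → ℝ, ContDiff ℝ ∞ h → dy (fun y => W y * h y) =
      fun y => dy W y * h y + W y * dy h y := by
    intro h hh
    funext y
    exact E1c_dy_mul hW hh y
  have e1 : (fun y => (W y • m y).1) = fun y => W y * (m y).1 := rfl
  have e2 : (fun y => (W y • m y).2.1) = fun y => W y * (m y).2.1 := rfl
  have e3 : (fun y => (W y • m y).2.2) = fun y => W y * (m y).2.2 := rfl
  have f1 : (W z • m z).1 = W z * (m z).1 := rfl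
  have f2 : (W z • m z).2.1 = W z * (m z).2.1 := rfl
  have f3 : (W z • m z).2.2 = W z * (m z).2.2 := rfl
  have e4 : dt (W z • m z) = W z ^ 2 * dt (m z) := by
    show W z * (m z).1 * (W z * (m z).2.2) - (W z * (m z).2.1) ^ 2 = _
    unfold dt
    ring
  have d1 : dy (dy fun y => W y * (m y).1) z = dy (dy W) z * (m z).1 + W z * dy (dy fun y => (m y).1) z := by
    rw [dys _ hE, E1c_dy_add (hWy.mul hE) (hW.mul (Egr_smooth_dy hE)), E1c_dy_mul hWy hE,
      E1c_dy_mul hW (Egr_smooth_dy hE), hy]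
    ring
  have d2 : dy (dx fun y => W y * (m y).2.1) z =
      dx (dy W) z * (m z).2.1 + W z * dy (dx fun y => (m y).2.1) z := by
    rw [dxs _ hF, E1c_dy_add (hWx.mul hF) (hW.mul (Egr_smooth_dx hF)), E1c_dy_mul hWx hF,
      E1c_dy_mul hW (Egr_smooth_dx hF), hx, hy, Egr_symm hW]
    ring
  have d3 : dx (dx fun y => W y * (m y).2.2) z =
      dx (dx W) z * (m z).2.2 + W z * dx (dx fun y => (m y).2.2) z := by
    rw [dxs _ hG, E1c_dx_add (hWx.mul hG) (hW.mul (Egr_smooth_dx hG)), E1c_dx_mul hWx hG,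
      E1c_dx_mul hW (Egr_smooth_dx hG), hx]
    ring
  have g1 : dx (fun y => W y * (m y).1) z = W z * dx (fun y => (m y).1) z := by
    rw [E1c_dx_mul hW hE, hx]
    ring
  have g2 : dy (fun y => W y * (m y).1) z = W z * dy (fun y => (m y).1) z := by
    rw [E1c_dy_mul hW hE, hy]
    ring
  have g3 : dx (fun y => W y * (m y).2.1) z = W z * dx (fun y => (m y).2.1) z := by
    rw [E1c_dx_mul hW hF, hx]
    ring
  have g4 : dy (fun y => W y * (m y).2.1) z = W z * dy (fun y => (m y).2.1) z := by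
    rw [E1c_dy_mul hW hF, hy]
    ring
  have g5 : dx (fun y => W y * (m y).2.2) z = W z * dx (fun y => (m y).2.2) z := by
    rw [E1c_dx_mul hW hG, hx]
    ring
  have g6 : dy (fun y => W y * (m y).2.2) z = W z * dy (fun y => (m y).2.2) z := by
    rw [E1c_dy_mul hW hG, hy]
    ring
  unfold curv
  simp only [e1, e2, e3, e4, d1, d2, d3, g1, g2, g3, g4, g5, g6, f1, f2, f3]
  simp only [Matrix.det_fin_three, Matrix.of_apply, Matrix.cons_val]
  have hW0 := hpos.ne'
  have hd0 := hd.ne'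
  have h5 : ∀ A B S : ℝ, A = W z ^ 3 * B - W z ^ 2 * dt (m z) * S / 2 →
      A / (W z ^ 2 * dt (m z)) ^ 2 = B / dt (m z) ^ 2 / W z - S / (2 * W z ^ 2 * dt (m z)) := by
    intro A B S h
    rw [h]
    field_simp
  apply h5
  have hdt : dt (m z) = (m z).1 * (m z).2.2 - (m z).2.1 ^ 2 := rfl
  rw [hdt]
  ring

theorem E2_line {W : Pl → ℝ} (hW : ContDiff ℝ ∞ W) (z : Pl) (p q t : ℝ) :
    HasDerivAt (fun s : ℝ => W (z + s • ((p, q) : Pl)))
      (p * dx W (z + t • ((p, q) : Pl)) + q * dy W (z + t • ((p, q) : Pl))) t := by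
  have h1 : HasFDerivAt W (fderiv ℝ W (z + t • ((p, q) : Pl))) (z + t • ((p, q) : Pl)) :=
    (hW.differentiable (by simp) _).hasFDerivAt
  have h2 : HasDerivAt (fun s : ℝ => z + s • ((p, q) : Pl)) ((1 : ℝ) • ((p, q) : Pl)) t :=
    ((hasDerivAt_id t).smul_const _).const_add z
  have h3 := h1.comp_hasDerivAt t h2
  have h4 : fderiv ℝ W (z + t • ((p, q) : Pl)) ((1 : ℝ) • ((p, q) : Pl)) =
      p * dx W (z + t • ((p, q) : Pl)) + q * dy W (z + t • ((p, q) : Pl)) := by
    have h5 : (1 : ℝ) • ((p, q) : Pl) = p • ((1 : ℝ), (0 : ℝ)) + q • ((0 : ℝ), (1 : ℝ)) := by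
      ext <;> simp
    rw [h5, map_add, map_smul, map_smul]
    rfl
  rw [h4] at h3
  exact h3

/-- The second derivatives at a minimum. -/
theorem E2_min {W : Pl → ℝ} (hW : ContDiff ℝ ∞ W) {z : Pl} (hmin : ∀ y, W z ≤ W y) :
    dx W z = 0 ∧ dy W z = 0 ∧ ∀ p q : ℝ,
      0 ≤ dx (dx W) z * p ^ 2 + 2 * dx (dy W) z * (p * q) + dy (dy W) z * q ^ 2 := by
  have hWx := Egr_smooth_dx hW
  have hWy := Egr_smooth_dy hW
  have hcrit : ∀ p q : ℝ, p * dx W z + q * dy W z = 0 := by
    intro p q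
    have h1 := E2_line hW z p q 0
    have h2 : IsLocalMin (fun s : ℝ => W (z + s • ((p, q) : Pl))) 0 :=
      Filter.Eventually.of_forall fun s => by
        show W (z + (0 : ℝ) • ((p, q) : Pl)) ≤ _
        rw [zero_smul, add_zero]
        exact hmin _
    have h3 := h2.hasDerivAt_eq_zero h1
    rwa [zero_smul, add_zero] at h3
  have hx : dx W z = 0 := by
    have := hcrit 1 0
    linarith
  have hy : dy W z = 0 := by
    have := hcrit 0 1
    linarith
  refine ⟨hx, hy, fun p q => ?_⟩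
  by_contra hneg
  push Not at hneg
  set h : ℝ → ℝ := fun s => W (z + s • ((p, q) : Pl)) with hh
  have hd1 : deriv h = fun t => p * dx W (z + t • ((p, q) : Pl)) + q * dy W (z + t • ((p, q) : Pl)) :=
    funext fun t => (E2_line hW z p q t).deriv
  have hd2 : deriv (deriv h) 0 =
      dx (dx W) z * p ^ 2 + 2 * dx (dy W) z * (p * q) + dy (dy W) z * q ^ 2 := by
    rw [hd1]
    have a1 := (E2_line hWx z p q 0).const_mul p
    have a2 := (E2_line hWy z p q 0).const_mul q
    have a3 := (a1.add a2).deriv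
    refine Eq.trans (a3 : deriv (fun t : ℝ => p * dx W (z + t • ((p, q) : Pl)) +
      q * dy W (z + t • ((p, q) : Pl))) 0 = _) ?_
    rw [zero_smul, add_zero, Egr_symm hW]
    ring
  have h1 : IsLocalMin (fun s => - h s) 0 := by
    have e1 : deriv (fun s => - h s) = fun s => - deriv h s := by
      funext s
      exact deriv.fun_neg
    have e2 : deriv (deriv fun s => - h s) 0 = - deriv (deriv h) 0 := by
      rw [e1]
      exact deriv.fun_neg
    apply isLocalMin_of_deriv_deriv_pos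
    · rw [e2, hd2]
      linarith
    · rw [e1, hd1]
      show -(p * dx W (z + (0 : ℝ) • ((p, q) : Pl)) + q * dy W (z + (0 : ℝ) • ((p, q) : Pl))) = 0
      rw [zero_smul, add_zero, hcrit]
      simp
    · exact ((E2_line hW z p q 0).continuousAt).neg
  have h2 : h =ᶠ[𝓝 0] fun _ => h 0 := by
    filter_upwards [h1] with s hs
    have h3 : h 0 ≤ h s := by
      show W (z + (0 : ℝ) • ((p, q) : Pl)) ≤ _
      rw [zero_smul, add_zero]
      exact hmin _
    have h4 : - h 0 ≤ - h s := hs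
    linarith
  have h3 : deriv h =ᶠ[𝓝 0] deriv fun _ => h 0 := h2.deriv
  have h4 : deriv (deriv h) 0 = deriv (deriv fun _ : ℝ => h 0) 0 := h3.deriv_eq
  rw [hd2] at h4
  have h5 : deriv (deriv fun _ : ℝ => h 0) 0 = 0 := by
    have : (deriv fun _ : ℝ => h 0) = fun _ => 0 := funext fun _ => deriv_const _ _
    rw [this]
    exact deriv_const _ _
  rw [h5] at h4
  linarith

/-- No circle of eigenfunctions on a surface of negative curvature, for every conformal weight. -/
theorem no_circle2 (hX : Surface Γ D) (m : Mt Γ D) (w : TestS Γ) (hw : ∀ z, 0 < w.1 z) {la : ℝ}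
    (hla : 0 < la) (U V : TestS Γ) (hU : IsEig hX m w la U) (hV : IsEig hX m w la V) :
    ¬ ∀ z, U.1 z ^ 2 + V.1 z ^ 2 = 1 := by
  intro h
  have h1 := E1c_plane (coefM m) (La := fun z => la * (w.1 z * vol m z)) U.2.1 V.2.1
    (eig_pde hX m w la U hU) (eig_pde hX m w la V hV) h
  have hW : ContDiff ℝ ∞ fun z => la * w.1 z := contDiff_const.mul w.2.1
  have h2 : (fun z => (la * (w.1 z * vol m z)) • (((coefM m).c z, -(coefM m).b z, (coefM m).a z) : Co)) =
      fun z => (la * w.1 z) • m.1.1 z := by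
    funext z
    have hv := (vol_pos m z).ne'
    refine Prod.ext ?_ (Prod.ext ?_ ?_)
    · show (la * (w.1 z * vol m z)) * ((m.1.1 z).1 / vol m z) = la * w.1 z * (m.1.1 z).1
      field_simp
    · show (la * (w.1 z * vol m z)) * (-(-(m.1.1 z).2.1 / vol m z)) = la * w.1 z * (m.1.1 z).2.1
      field_simp
    · show (la * (w.1 z * vol m z)) * ((m.1.1 z).2.2 / vol m z) = la * w.1 z * (m.1.1 z).2.2
      field_simp
  -- a minimum of the weight
  obtain ⟨γ0, hγ0, -⟩ := hX.orbit 0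
  have hne : (closure D).Nonempty := ⟨_, subset_closure hγ0⟩
  obtain ⟨z, -, hz⟩ := (Cmp_compact hX).exists_isMinOn hne hW.continuous.continuousOn
  have hmin : ∀ y, la * w.1 z ≤ la * w.1 y := by
    intro y
    obtain ⟨γ, hγ, -⟩ := hX.orbit y
    have h3 := hz (subset_closure hγ)
    have h4 : la * w.1 z ≤ la * w.1 (γ • y) := h3
    rwa [w.2.2 γ y] at h4
  obtain ⟨hx, hy, hH⟩ := E2_min hW hmin
  have hWz : 0 < la * w.1 z := mul_pos hla (hw z)
  have hdt := (m.2.pos z).2
  have h3 := congrFun h1 z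
  rw [h2, E2_curv m.1.2 hW hx hy hWz hdt] at h3
  have h4 : curv m.1.1 z / (la * w.1 z) < 0 := div_neg_of_neg_of_pos (m.2.neg z) hWz
  have h5 : 0 ≤ (m.1.1 z).2.2 * dx (dx fun z => la * w.1 z) z
      - 2 * (m.1.1 z).2.1 * dx (dy fun z => la * w.1 z) z + (m.1.1 z).1 * dy (dy fun z => la * w.1 z) z := by
    have hE := (m.2.pos z).1
    have hdt' : 0 < (m.1.1 z).1 * (m.1.1 z).2.2 - (m.1.1 z).2.1 ^ 2 := hdt
    have k1 := hH (-(m.1.1 z).2.1) (m.1.1 z).1
    have k2 := hH 1 0
    have k3 : (m.1.1 z).1 * ((m.1.1 z).2.2 * dx (dx fun z => la * w.1 z) z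
      - 2 * (m.1.1 z).2.1 * dx (dy fun z => la * w.1 z) z + (m.1.1 z).1 * dy (dy fun z => la * w.1 z) z) =
      (dx (dx fun z => la * w.1 z) z * (-(m.1.1 z).2.1) ^ 2 + 2 * dx (dy fun z => la * w.1 z) z *
        (-(m.1.1 z).2.1 * (m.1.1 z).1) + dy (dy fun z => la * w.1 z) z * (m.1.1 z).1 ^ 2) +
      ((m.1.1 z).1 * (m.1.1 z).2.2 - (m.1.1 z).2.1 ^ 2) * dx (dx fun z => la * w.1 z) z := by ring
    have k4 : 0 ≤ dx (dx fun z => la * w.1 z) z := by linarith
    have k5 : 0 ≤ (m.1.1 z).1 * ((m.1.1 z).2.2 * dx (dx fun z => la * w.1 z) z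
      - 2 * (m.1.1 z).2.1 * dx (dy fun z => la * w.1 z) z + (m.1.1 z).1 * dy (dy fun z => la * w.1 z) z) := by
      rw [k3]
      have := mul_nonneg hdt'.le k4
      linarith
    exact nonneg_of_mul_nonneg_right k5 hE
  have h6 : 0 ≤ ((m.1.1 z).2.2 * dx (dx fun z => la * w.1 z) z
      - 2 * (m.1.1 z).2.1 * dx (dy fun z => la * w.1 z) z + (m.1.1 z).1 * dy (dy fun z => la * w.1 z) z) /
      (2 * (la * w.1 z) ^ 2 * dt (m.1.1 z)) := div_nonneg h5 (by positivity)
  linarith

end QR
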