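import Pool.Agent.LibQR40.D1a
import Pool.Agent.LibQR40.E1d
import Pool.Agent.LibQR40.E2

/-! Quadratic forms in two independent eigenfunctions are not constant, for every conformal
weight on a surface that carries a metric of negative curvature. -/

open MeasureTheory Set Filter Topology
open scoped ContDiff ENNReal NNReal

namespace QR

open BGS

variable {Γ : Type} [Group Γ] [MulAction Γ Pl] {D : Set Pl}

theorem E3_ext {U : TestS Γ} (h : ∀ z, U.1 z = 0) : U = 0 := Subtype.ext (funext h)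

theorem E3_add (U V : TestS Γ) (a b : ℝ) (z : Pl) :
    (a • U + b • V).1 z = a * U.1 z + b * V.1 z := rfl

/-- The diagonal case. -/
theorem E3_diag (hX : Surface Γ D) (m : Mt Γ D) (w : TestS Γ) (hw : ∀ z, 0 < w.1 z) {la : ℝ}
    (hla : 0 < la) (U V : TestS Γ)
    (hU : IsEig hX m w la U) (hV : IsEig hX m w la V)
    (hind : ∀ a b : ℝ, a • U + b • V = 0 → a = 0 ∧ b = 0) (s t δ : ℝ)
    (h : ∀ z, s * U.1 z ^ 2 + t * V.1 z ^ 2 = δ) : s = 0 ∧ t = 0 := by
  have hU0 : ¬ ∀ z, U.1 z = 0 := by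
    intro h0
    have h1 := hind 1 0 (E3_ext fun z => by rw [E3_add, h0 z]; ring)
    exact one_ne_zero h1.1
  have hV0 : ¬ ∀ z, V.1 z = 0 := by
    intro h0
    have h1 := hind 0 1 (E3_ext fun z => by rw [E3_add, h0 z]; ring)
    exact one_ne_zero h1.2
  by_cases hδ : δ = 0
  · subst hδ
    by_cases hs : s = 0
    · subst hs
      refine ⟨rfl, ?_⟩
      by_contra ht
      apply hV0
      intro z
      have h1 := h z
      rw [zero_mul, zero_add] at h1
      exact pow_eq_zero_iff (two_ne_zero) |>.1 ((mul_eq_zero.1 h1).resolve_left ht)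
    · exfalso
      by_cases hst : 0 ≤ t / s
      · apply hU0
        intro z
        have h1 := h z
        have h2 : U.1 z ^ 2 + t / s * V.1 z ^ 2 = 0 := by
          have h3 : U.1 z ^ 2 + t / s * V.1 z ^ 2 = (s * U.1 z ^ 2 + t * V.1 z ^ 2) / s := by
            field_simp
          rw [h3, h1, zero_div]
        have h4 : 0 ≤ t / s * V.1 z ^ 2 := mul_nonneg hst (sq_nonneg _)
        have h5 : U.1 z ^ 2 = 0 := le_antisymm (by linarith) (sq_nonneg _)
        exact pow_eq_zero_iff (two_ne_zero) |>.1 h5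
      · have hr : 0 < -(t / s) := by linarith [not_le.1 hst]
        have hrr : √(-(t / s)) ^ 2 = -(t / s) := Real.sq_sqrt hr.le
        have h1 : ∀ z, ((1 : ℝ) • U + (-√(-(t / s))) • V).1 z *
            ((1 : ℝ) • U + √(-(t / s)) • V).1 z = 0 := by
          intro z
          rw [E3_add, E3_add]
          have h2 : (1 * U.1 z + -√(-(t / s)) * V.1 z) * (1 * U.1 z + √(-(t / s)) * V.1 z) =
              U.1 z ^ 2 - √(-(t / s)) ^ 2 * V.1 z ^ 2 := by ring
          rw [h2, hrr]
          have h3 : U.1 z ^ 2 - -(t / s) * V.1 z ^ 2 = (s * U.1 z ^ 2 + t * V.1 z ^ 2) / s := by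
            field_simp
            ring
          rw [h3, h z, zero_div]
        rcases pr_zero hX m w la _ _ ((hU.smul 1).add (hV.smul (-√(-(t / s)))))
          ((hU.smul 1).add (hV.smul (√(-(t / s))))) h1 with h4 | h4
        · exact one_ne_zero (hind _ _ h4).1
        · exact one_ne_zero (hind _ _ h4).1
  · exfalso
    obtain ⟨z1, hz1⟩ := has_zero hX m w hw hla V hV
    obtain ⟨z2, hz2⟩ := has_zero hX m w hw hla U hU
    have h1 := h z1
    have h2 := h z2
    rw [hz1, zero_pow two_ne_zero, mul_zero, add_zero] at h1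
    rw [hz2, zero_pow two_ne_zero, mul_zero, zero_add] at h2
    have hsδ : 0 ≤ s / δ := by
      have h3 : s / δ = (s / δ) ^ 2 * U.1 z1 ^ 2 := by
        have h4 : (s / δ) ^ 2 * U.1 z1 ^ 2 = (s / δ) * (s * U.1 z1 ^ 2 / δ) := by ring
        rw [h4, h1, div_self hδ, mul_one]
      rw [h3]
      positivity
    have htδ : 0 ≤ t / δ := by
      have h3 : t / δ = (t / δ) ^ 2 * V.1 z2 ^ 2 := by
        have h4 : (t / δ) ^ 2 * V.1 z2 ^ 2 = (t / δ) * (t * V.1 z2 ^ 2 / δ) := by ring
        rw [h4, h2, div_self hδ, mul_one]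
      rw [h3]
      positivity
    refine no_circle2 hX m w hw hla (√(s / δ) • U) (√(t / δ) • V) (hU.smul _)
      (hV.smul _) ?_
    intro z
    have h5 : (√(s / δ) • U).1 z ^ 2 + (√(t / δ) • V).1 z ^ 2 =
        √(s / δ) ^ 2 * U.1 z ^ 2 + √(t / δ) ^ 2 * V.1 z ^ 2 := by
      change (√(s / δ) * U.1 z) ^ 2 + (√(t / δ) * V.1 z) ^ 2 = _
      ring
    rw [h5, Real.sq_sqrt hsδ, Real.sq_sqrt htδ]
    have h6 : s / δ * U.1 z ^ 2 + t / δ * V.1 z ^ 2 = (s * U.1 z ^ 2 + t * V.1 z ^ 2) / δ := by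
      ring
    rw [h6, h z, div_self hδ]

/-- A quadratic form in two independent eigenfunctions is not constant. -/
theorem no_const2 (hX : Surface Γ D) (m : Mt Γ D) (w : TestS Γ) (hw : ∀ z, 0 < w.1 z) {la : ℝ}
    (hla : 0 < la) (U V : TestS Γ)
    (hU : IsEig hX m w la U) (hV : IsEig hX m w la V)
    (hind : ∀ a b : ℝ, a • U + b • V = 0 → a = 0 ∧ b = 0) (α β γ δ : ℝ)
    (h : ∀ z, α * U.1 z ^ 2 + β * (U.1 z * V.1 z) + γ * V.1 z ^ 2 = δ) :
    α = 0 ∧ β = 0 ∧ γ = 0 ∧ δ = 0 := by
  have hα : α = 0 := by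
    by_contra hα
    have h1 := E3_diag hX m w hw hla ((1 : ℝ) • U + (β / (2 * α)) • V) V
      ((hU.smul 1).add (hV.smul _)) hV ?_ α (γ - β ^ 2 / (4 * α)) δ ?_
    · exact hα h1.1
    · intro a b hab
      have h2 := hind a (a * (β / (2 * α)) + b) (by
        rw [← hab]
        refine Subtype.ext (funext fun z => ?_)
        change a * U.1 z + (a * (β / (2 * α)) + b) * V.1 z =
          a * (1 * U.1 z + β / (2 * α) * V.1 z) + b * V.1 z
        ring)
      refine ⟨h2.1, ?_⟩
      have h3 := h2.2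
      rw [h2.1, zero_mul, zero_add] at h3
      exact h3
    · intro z
      rw [← h z, E3_add]
      field_simp
      ring
  have hγ : γ = 0 := by
    by_contra hγ
    have h1 := E3_diag hX m w hw hla ((1 : ℝ) • V + (β / (2 * γ)) • U) U
      ((hV.smul 1).add (hU.smul _)) hU ?_ γ (α - β ^ 2 / (4 * γ)) δ ?_
    · exact hγ h1.1
    · intro a b hab
      have h2 := hind (a * (β / (2 * γ)) + b) a (by
        rw [← hab]
        refine Subtype.ext (funext fun z => ?_)
        change (a * (β / (2 * γ)) + b) * U.1 z + a * V.1 z =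
          a * (1 * V.1 z + β / (2 * γ) * U.1 z) + b * U.1 z
        ring)
      refine ⟨h2.2, ?_⟩
      have h3 := h2.1
      rw [h2.2, zero_mul, zero_add] at h3
      exact h3
    · intro z
      rw [← h z, E3_add]
      field_simp
      ring
  subst hα hγ
  have hβ : β = 0 := by
    have h1 := E3_diag hX m w hw hla ((1 : ℝ) • U + (1 : ℝ) • V)
      ((1 : ℝ) • U + (-1 : ℝ) • V)
      ((hU.smul 1).add (hV.smul _)) ((hU.smul 1).add (hV.smul _)) ?_ (β / 4) (-(β / 4)) δ ?_
    · linarith [h1.1]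
    · intro a b hab
      have h2 := hind (a + b) (a - b) (by
        rw [← hab]
        refine Subtype.ext (funext fun z => ?_)
        change (a + b) * U.1 z + (a - b) * V.1 z =
          a * (1 * U.1 z + 1 * V.1 z) + b * (1 * U.1 z + -1 * V.1 z)
        ring)
      exact ⟨by linarith [h2.1, h2.2], by linarith [h2.1, h2.2]⟩
    · intro z
      rw [← h z, E3_add, E3_add]
      ring
  subst hβ
  refine ⟨rfl, rfl, rfl, ?_⟩
  rw [← h (0, 0)]
  ring

end QR
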