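import Pool.Agent.LibQR40.E3

/-! Squares of eigenfunctions with different eigenvalues: no linear relation with constants. -/

open MeasureTheory Set Filter Topology
open scoped ContDiff ENNReal NNReal

namespace QR

open BGS

variable {Γ : Type} [Group Γ] [MulAction Γ Pl] {D : Set Pl}

/-- A closed and coclosed form `Ω` makes the metric `|Ω|² m` flat. -/
theorem E4_flat (A : Coef) {P Q : Pl → ℝ} (hP : ContDiff ℝ ∞ P) (hQ : ContDiff ℝ ∞ Q)
    (hcl : ∀ z, dy P z = dx Q z)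
    (hco : ∀ z, dx (fun y => A.a y * P y + A.b y * Q y) z +
      dy (fun y => A.b y * P y + A.c y * Q y) z = 0) :
    curv (fun z => (A.a z * P z ^ 2 + 2 * A.b z * (P z * Q z) + A.c z * Q z ^ 2) •
      ((A.c z, -A.b z, A.a z) : Co)) = fun _ => 0 := by
  have h1 : ContDiff ℝ ∞ fun y => A.a y * P y + A.b y * Q y := (A.ha.mul hP).add (A.hb.mul hQ)
  have h2 : ContDiff ℝ ∞ fun y => -(A.b y * P y + A.c y * Q y) :=
    ((A.hb.mul hP).add (A.hc.mul hQ)).neg
  have h3 : ∀ z, dy (fun y => -(A.b y * P y + A.c y * Q y)) z =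
      dx (fun y => A.a y * P y + A.b y * Q y) z := by
    intro z
    have h4 : dy (fun y => -(A.b y * P y + A.c y * Q y)) z =
        - dy (fun y => A.b y * P y + A.c y * Q y) z := by
      unfold dy
      rw [fderiv_fun_neg]
      rfl
    rw [h4]
    linarith [hco z]
  obtain ⟨F, hF, hFx, hFy⟩ := potential hP hQ hcl
  obtain ⟨H, hH, hHx, hHy⟩ := potential h2 h1 h3
  have hfun : (fun z => (A.a z * P z ^ 2 + 2 * A.b z * (P z * Q z) + A.c z * Q z ^ 2) •
      ((A.c z, -A.b z, A.a z) : Co)) =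
      fun y => (dx F y ^ 2 + dx H y ^ 2, dx F y * dy F y + dx H y * dy H y,
        dy F y ^ 2 + dy H y ^ 2) := by
    funext z
    rw [hFx, hFy, hHx, hHy]
    have hd := A.det z
    have hd' : A.a z * A.c z = 1 + A.b z ^ 2 := by linarith
    refine Prod.ext ?_ (Prod.ext ?_ ?_)
    · show (A.a z * P z ^ 2 + 2 * A.b z * (P z * Q z) + A.c z * Q z ^ 2) * A.c z =
        P z ^ 2 + (-(A.b z * P z + A.c z * Q z)) ^ 2
      linear_combination (P z ^ 2) * hd'
    · show (A.a z * P z ^ 2 + 2 * A.b z * (P z * Q z) + A.c z * Q z ^ 2) * (-A.b z) =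
        P z * Q z + (-(A.b z * P z + A.c z * Q z)) * (A.a z * P z + A.b z * Q z)
      linear_combination (P z * Q z) * hd'
    · show (A.a z * P z ^ 2 + 2 * A.b z * (P z * Q z) + A.c z * Q z ^ 2) * A.a z =
        Q z ^ 2 + (A.a z * P z + A.b z * Q z) ^ 2
      linear_combination (Q z ^ 2) * hd'
  rw [hfun]
  funext z
  exact flat hF hH z

/-- No metric conformal to `m` is flat. -/
theorem E4_not_flat (hX : Surface Γ D) (m : Mt Γ D) (W : TestS Γ) (hW : ∀ z, 0 < W.1 z) :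
    ¬ (curv (fun z => W.1 z • m.1.1 z) = fun _ => 0) := by
  intro h1
  have hWs : ContDiff ℝ ∞ W.1 := W.2.1
  obtain ⟨γ0, hγ0, -⟩ := hX.orbit 0
  have hne : (closure D).Nonempty := ⟨_, subset_closure hγ0⟩
  obtain ⟨z, -, hz⟩ := (Cmp_compact hX).exists_isMinOn hne hWs.continuous.continuousOn
  have hmin : ∀ y, W.1 z ≤ W.1 y := by
    intro y
    obtain ⟨γ, hγ, -⟩ := hX.orbit y
    have h3 := hz (subset_closure hγ)
    have h4 : W.1 z ≤ W.1 (γ • y) := h3
    rwa [W.2.2 γ y] at h4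
  obtain ⟨hx, hy, hH⟩ := E2_min hWs hmin
  have hWz : 0 < W.1 z := hW z
  have hdt := (m.2.pos z).2
  have h3 := congrFun h1 z
  rw [E2_curv m.1.2 hWs hx hy hWz hdt] at h3
  have h4 : curv m.1.1 z / W.1 z < 0 := div_neg_of_neg_of_pos (m.2.neg z) hWz
  have h5 : 0 ≤ (m.1.1 z).2.2 * dx (dx W.1) z
      - 2 * (m.1.1 z).2.1 * dx (dy W.1) z + (m.1.1 z).1 * dy (dy W.1) z := by
    have hE := (m.2.pos z).1
    have hdt' : 0 < (m.1.1 z).1 * (m.1.1 z).2.2 - (m.1.1 z).2.1 ^ 2 := hdt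
    have k1 := hH (-(m.1.1 z).2.1) (m.1.1 z).1
    have k2 := hH 1 0
    have k3 : (m.1.1 z).1 * ((m.1.1 z).2.2 * dx (dx W.1) z
      - 2 * (m.1.1 z).2.1 * dx (dy W.1) z + (m.1.1 z).1 * dy (dy W.1) z) =
      (dx (dx W.1) z * (-(m.1.1 z).2.1) ^ 2 + 2 * dx (dy W.1) z *
        (-(m.1.1 z).2.1 * (m.1.1 z).1) + dy (dy W.1) z * (m.1.1 z).1 ^ 2) +
      ((m.1.1 z).1 * (m.1.1 z).2.2 - (m.1.1 z).2.1 ^ 2) * dx (dx W.1) z := by ring
    have k4 : 0 ≤ dx (dx W.1) z := by linarith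
    have k5 : 0 ≤ (m.1.1 z).1 * ((m.1.1 z).2.2 * dx (dx W.1) z
      - 2 * (m.1.1 z).2.1 * dx (dy W.1) z + (m.1.1 z).1 * dy (dy W.1) z) := by
      rw [k3]
      have := mul_nonneg hdt'.le k4
      linarith
    exact nonneg_of_mul_nonneg_right k5 hE
  have h6 : 0 ≤ ((m.1.1 z).2.2 * dx (dx W.1) z
      - 2 * (m.1.1 z).2.1 * dx (dy W.1) z + (m.1.1 z).1 * dy (dy W.1) z) /
      (2 * W.1 z ^ 2 * dt (m.1.1 z)) := div_nonneg h5 (by positivity)
  linarith

theorem E4_Lu_add (A : Coef) {f g : Pl → ℝ} (hf : ContDiff ℝ ∞ f) (hg : ContDiff ℝ ∞ g) (z : Pl) :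
    Lu A (fun y => f y + g y) z = Lu A f z + Lu A g z := by
  unfold Lu
  have c1 : fx A (fun y => f y + g y) = fun y => fx A f y + fx A g y := by
    funext y
    simp only [fx]
    rw [E1c_dx_add hf hg, E1c_dy_add hf hg]
    ring
  have c2 : fy A (fun y => f y + g y) = fun y => fy A f y + fy A g y := by
    funext y
    simp only [fy]
    rw [E1c_dx_add hf hg, E1c_dy_add hf hg]
    ring
  rw [c1, c2, E1c_dx_add (smooth_fx A hf) (smooth_fx A hg),
    E1c_dy_add (smooth_fy A hf) (smooth_fy A hg)]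
  ring

theorem E4_plane (A : Coef) {La U V : Pl → ℝ} {la lb : ℝ} (hla : 0 < la) (hlb : 0 < lb)
    (hU : ContDiff ℝ ∞ U) (hV : ContDiff ℝ ∞ V)
    (hLU : ∀ z, Lu A U z = - (la * La z * U z)) (hLV : ∀ z, Lu A V z = - (lb * La z * V z))
    (h : ∀ z, U z ^ 2 + V z ^ 2 = 1) :
    curv (fun z => (La z * (la * U z ^ 2 + lb * V z ^ 2) ^ 2) • ((A.c z, -A.b z, A.a z) : Co)) =
      fun _ => 0 := by
  have hxU := Egr_smooth_dx hU
  have hyU := Egr_smooth_dy hU
  have hxV := Egr_smooth_dx hV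
  have hyV := Egr_smooth_dy hV
  have hUU : ContDiff ℝ ∞ fun y => U y * U y := hU.mul hU
  have hVV : ContDiff ℝ ∞ fun y => V y * V y := hV.mul hV
  have hone : (fun y => U y * U y + V y * V y) = fun _ => (1 : ℝ) := by
    funext y
    have := h y
    nlinarith
  have h1x : ∀ z, U z * dx U z + V z * dx V z = 0 := by
    intro z
    have e1 : dx (fun y => U y * U y + V y * V y) z = 0 := by
      rw [hone]
      simp [dx]
    rw [E1c_dx_add hUU hVV, E1c_dx_mul hU hU, E1c_dx_mul hV hV] at e1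
    linarith
  have h1y : ∀ z, U z * dy U z + V z * dy V z = 0 := by
    intro z
    have e1 : dy (fun y => U y * U y + V y * V y) z = 0 := by
      rw [hone]
      simp [dy]
    rw [E1c_dy_add hUU hVV, E1c_dy_mul hU hU, E1c_dy_mul hV hV] at e1
    linarith
  set ω₁ : Pl → ℝ := fun z => U z * dx V z - V z * dx U z with hω₁
  set ω₂ : Pl → ℝ := fun z => U z * dy V z - V z * dy U z with hω₂
  have hUdV : ContDiff ℝ ∞ fun z => U z * dx V z := hU.mul hxV
  have hVdU : ContDiff ℝ ∞ fun z => V z * dx U z := hV.mul hxU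
  have hUeV : ContDiff ℝ ∞ fun z => U z * dy V z := hU.mul hyV
  have hVeU : ContDiff ℝ ∞ fun z => V z * dy U z := hV.mul hyU
  have hsω₁ : ContDiff ℝ ∞ ω₁ := hUdV.sub hVdU
  have hsω₂ : ContDiff ℝ ∞ ω₂ := hUeV.sub hVeU
  have eUx : ∀ z, dx U z = -(V z * ω₁ z) := by
    intro z
    have h1 := h z
    have h2 := h1x z
    show dx U z = -(V z * (U z * dx V z - V z * dx U z))
    have h3 : V z * (U z * dx V z - V z * dx U z) =
      U z * (U z * dx U z + V z * dx V z) - (U z ^ 2 + V z ^ 2) * dx U z := by ring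
    rw [h3, h2, h1]
    ring
  have eVx : ∀ z, dx V z = U z * ω₁ z := by
    intro z
    have h1 := h z
    have h2 := h1x z
    show dx V z = U z * (U z * dx V z - V z * dx U z)
    have h3 : U z * (U z * dx V z - V z * dx U z) =
      (U z ^ 2 + V z ^ 2) * dx V z - V z * (U z * dx U z + V z * dx V z) := by ring
    rw [h3, h2, h1]
    ring
  have eUy : ∀ z, dy U z = -(V z * ω₂ z) := by
    intro z
    have h1 := h z
    have h2 := h1y z
    show dy U z = -(V z * (U z * dy V z - V z * dy U z))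
    have h3 : V z * (U z * dy V z - V z * dy U z) =
      U z * (U z * dy U z + V z * dy V z) - (U z ^ 2 + V z ^ 2) * dy U z := by ring
    rw [h3, h2, h1]
    ring
  have eVy : ∀ z, dy V z = U z * ω₂ z := by
    intro z
    have h1 := h z
    have h2 := h1y z
    show dy V z = U z * (U z * dy V z - V z * dy U z)
    have h3 : U z * (U z * dy V z - V z * dy U z) =
      (U z ^ 2 + V z ^ 2) * dy V z - V z * (U z * dy U z + V z * dy V z) := by ring
    rw [h3, h2, h1]
    ring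
  have hclosed : ∀ z, dy ω₁ z = dx ω₂ z := by
    intro z
    show dy (fun z => U z * dx V z - V z * dx U z) z = dx (fun z => U z * dy V z - V z * dy U z) z
    rw [E1c_dy_sub hUdV hVdU, E1c_dx_sub hUeV hVeU, E1c_dy_mul hU hxV, E1c_dy_mul hV hxU,
      E1c_dx_mul hU hyV, E1c_dx_mul hV hyU, Egr_symm hU, Egr_symm hV, eUx z, eUy z, eVx z, eVy z]
    ring
  -- the factor
  set g : Pl → ℝ := fun z => la * U z ^ 2 + lb * V z ^ 2 with hg
  have hgpos : ∀ z, 0 < g z := by
    intro z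
    have h1 := h z
    have h2 : min la lb ≤ g z := by
      show min la lb ≤ la * U z ^ 2 + lb * V z ^ 2
      have h3 : min la lb * U z ^ 2 ≤ la * U z ^ 2 :=
        mul_le_mul_of_nonneg_right (min_le_left _ _) (sq_nonneg _)
      have h4 : min la lb * V z ^ 2 ≤ lb * V z ^ 2 :=
        mul_le_mul_of_nonneg_right (min_le_right _ _) (sq_nonneg _)
      have h5 : min la lb = min la lb * U z ^ 2 + min la lb * V z ^ 2 := by
        rw [← mul_add, h1, mul_one]
      linarith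
    exact lt_of_lt_of_le (lt_min hla hlb) h2
  have hgs : ContDiff ℝ ∞ g := (contDiff_const.mul (hU.pow 2)).add (contDiff_const.mul (hV.pow 2))
  set s : Pl → ℝ := fun z => √(g z) with hs
  have hss : ContDiff ℝ ∞ s := hgs.sqrt fun z => (hgpos z).ne'
  have hspos : ∀ z, 0 < s z := fun z => Real.sqrt_pos.2 (hgpos z)
  have hs2 : ∀ z, s z * s z = la * (U z * U z) + lb * (V z * V z) := by
    intro z
    show √(g z) * √(g z) = _
    rw [Real.mul_self_sqrt (hgpos z).le]
    show la * U z ^ 2 + lb * V z ^ 2 = _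
    ring
  have hs2f : (fun z => s z * s z) = fun z => la * (U z * U z) + lb * (V z * V z) := funext hs2
  have hdxs : ∀ z, s z * dx s z = -((la - lb) * (U z * V z) * ω₁ z) := by
    intro z
    have e1 : dx (fun z => s z * s z) z = dx (fun z => la * (U z * U z) + lb * (V z * V z)) z := by
      rw [hs2f]
    rw [E1c_dx_mul hss hss, E1c_dx_add (contDiff_const.mul hUU) (contDiff_const.mul hVV),
      E1c_dx_mul contDiff_const hUU, E1c_dx_mul contDiff_const hVV, E1c_dx_mul hU hU,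
      E1c_dx_mul hV hV, eUx z, eVx z] at e1
    have e2 : ∀ c : ℝ, dx (fun _ : Pl => c) z = 0 := by
      intro c
      simp [dx]
    rw [e2, e2] at e1
    linarith
  have hdys : ∀ z, s z * dy s z = -((la - lb) * (U z * V z) * ω₂ z) := by
    intro z
    have e1 : dy (fun z => s z * s z) z = dy (fun z => la * (U z * U z) + lb * (V z * V z)) z := by
      rw [hs2f]
    rw [E1c_dy_mul hss hss, E1c_dy_add (contDiff_const.mul hUU) (contDiff_const.mul hVV),
      E1c_dy_mul contDiff_const hUU, E1c_dy_mul contDiff_const hVV, E1c_dy_mul hU hU,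
      E1c_dy_mul hV hV, eUy z, eVy z] at e1
    have e2 : ∀ c : ℝ, dy (fun _ : Pl => c) z = 0 := by
      intro c
      simp [dy]
    rw [e2, e2] at e1
    linarith
  have hsfU := smooth_fx A hU
  have hsgU := smooth_fy A hU
  have hsfV := smooth_fx A hV
  have hsgV := smooth_fy A hV
  have hQ : ∀ z, A.a z * ω₁ z ^ 2 + 2 * A.b z * (ω₁ z * ω₂ z) + A.c z * ω₂ z ^ 2 =
      La z * (s z * s z) := by
    intro z
    have e1 : Lu A (fun y => U y * U y + V y * V y) z = 0 := by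
      rw [hone]
      unfold Lu
      have c1 : fx A (fun _ => (1 : ℝ)) = fun _ => 0 := by
        funext y
        simp [fx, dx, dy]
      have c2 : fy A (fun _ => (1 : ℝ)) = fun _ => 0 := by
        funext y
        simp [fy, dx, dy]
      rw [c1, c2]
      simp [dx, dy]
    have e2 := E4_Lu_add A hUU hVV z
    rw [e1, Lu_mul A hU hU, Lu_mul A hV hV, hLU, hLV] at e2
    simp only [q2, fx, fy] at e2
    rw [eUx z, eUy z, eVx z, eVy z] at e2
    have h1 := h z
    rw [hs2 z]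
    have h3 : (0 : ℝ) = 2 * ((U z ^ 2 + V z ^ 2) *
        (A.a z * ω₁ z ^ 2 + 2 * A.b z * (ω₁ z * ω₂ z) + A.c z * ω₂ z ^ 2)) -
        2 * (La z * (la * (U z * U z) + lb * (V z * V z))) := by
      rw [e2]
      ring
    rw [h1] at h3
    linarith
  have hdivω : ∀ z, dx (fun y => A.a y * ω₁ y + A.b y * ω₂ y) z +
      dy (fun y => A.b y * ω₁ y + A.c y * ω₂ y) z = (la - lb) * La z * (U z * V z) := by
    intro z
    have f1 : (fun y => A.a y * ω₁ y + A.b y * ω₂ y) = fun y => U y * fx A V y - V y * fx A U y := by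
      funext y
      show A.a y * (U y * dx V y - V y * dx U y) + A.b y * (U y * dy V y - V y * dy U y) =
        U y * (A.a y * dx V y + A.b y * dy V y) - V y * (A.a y * dx U y + A.b y * dy U y)
      ring
    have f2 : (fun y => A.b y * ω₁ y + A.c y * ω₂ y) = fun y => U y * fy A V y - V y * fy A U y := by
      funext y
      show A.b y * (U y * dx V y - V y * dx U y) + A.c y * (U y * dy V y - V y * dy U y) =
        U y * (A.b y * dx V y + A.c y * dy V y) - V y * (A.b y * dx U y + A.c y * dy U y)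
      ring
    have a1 := hLU z
    have a2 := hLV z
    unfold Lu at a1 a2
    rw [f1, f2, E1c_dx_sub (hU.mul hsfV) (hV.mul hsfU), E1c_dy_sub (hU.mul hsgV) (hV.mul hsgU),
      E1c_dx_mul hU hsfV, E1c_dx_mul hV hsfU, E1c_dy_mul hU hsgV, E1c_dy_mul hV hsgU]
    have b1 : dy (fy A U) z = - (la * La z * U z) - dx (fx A U) z := by linarith
    have b2 : dy (fy A V) z = - (lb * La z * V z) - dx (fx A V) z := by linarith
    rw [b1, b2]
    simp only [fx, fy]
    ring
  have hP1 : ContDiff ℝ ∞ fun y => A.a y * ω₁ y + A.b y * ω₂ y :=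
    (A.ha.mul hsω₁).add (A.hb.mul hsω₂)
  have hP2 : ContDiff ℝ ∞ fun y => A.b y * ω₁ y + A.c y * ω₂ y :=
    (A.hb.mul hsω₁).add (A.hc.mul hsω₂)
  have key := E4_flat A (P := fun z => s z * ω₁ z) (Q := fun z => s z * ω₂ z) (hss.mul hsω₁)
    (hss.mul hsω₂) ?_ ?_
  · refine Eq.trans ?_ key
    congr 1
    funext z
    congr 1
    have e1 := hQ z
    have e2 := hs2 z
    show La z * (la * U z ^ 2 + lb * V z ^ 2) ^ 2 =
      A.a z * (s z * ω₁ z) ^ 2 + 2 * A.b z * (s z * ω₁ z * (s z * ω₂ z)) + A.c z * (s z * ω₂ z) ^ 2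
    have e3 : A.a z * (s z * ω₁ z) ^ 2 + 2 * A.b z * (s z * ω₁ z * (s z * ω₂ z)) +
        A.c z * (s z * ω₂ z) ^ 2 = (s z * s z) *
        (A.a z * ω₁ z ^ 2 + 2 * A.b z * (ω₁ z * ω₂ z) + A.c z * ω₂ z ^ 2) := by ring
    rw [e3, e1, e2]
    ring
  · intro z
    rw [E1c_dy_mul hss hsω₁, E1c_dx_mul hss hsω₂, hclosed z]
    have k := (hspos z).ne'
    have k1 : dy s z * ω₁ z = dx s z * ω₂ z := by
      have k2 : s z * (dy s z * ω₁ z) = s z * (dx s z * ω₂ z) := by
        rw [← mul_assoc, ← mul_assoc, hdys z, hdxs z]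
        ring
      exact mul_left_cancel₀ k k2
    rw [k1]
  · intro z
    have f1 : (fun y => A.a y * (s y * ω₁ y) + A.b y * (s y * ω₂ y)) =
        fun y => s y * (A.a y * ω₁ y + A.b y * ω₂ y) := by
      funext y
      ring
    have f2 : (fun y => A.b y * (s y * ω₁ y) + A.c y * (s y * ω₂ y)) =
        fun y => s y * (A.b y * ω₁ y + A.c y * ω₂ y) := by
      funext y
      ring
    rw [f1, f2, E1c_dx_mul hss hP1, E1c_dy_mul hss hP2]
    have k := (hspos z).ne'
    have e0 := hdivω z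
    have e1 := hQ z
    have e2 := hdxs z
    have e3 := hdys z
    apply mul_left_cancel₀ k
    rw [mul_zero]
    have e4 : s z * (dx s z * (A.a z * ω₁ z + A.b z * ω₂ z) +
        s z * dx (fun y => A.a y * ω₁ y + A.b y * ω₂ y) z +
        (dy s z * (A.b z * ω₁ z + A.c z * ω₂ z) +
        s z * dy (fun y => A.b y * ω₁ y + A.c y * ω₂ y) z)) =
        (s z * dx s z) * (A.a z * ω₁ z + A.b z * ω₂ z) +
        (s z * dy s z) * (A.b z * ω₁ z + A.c z * ω₂ z) +
        (s z * s z) * (dx (fun y => A.a y * ω₁ y + A.b y * ω₂ y) z +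
          dy (fun y => A.b y * ω₁ y + A.c y * ω₂ y) z) := by ring
    rw [e4, e2, e3, e0]
    have e5 : -((la - lb) * (U z * V z) * ω₁ z) * (A.a z * ω₁ z + A.b z * ω₂ z) +
        -((la - lb) * (U z * V z) * ω₂ z) * (A.b z * ω₁ z + A.c z * ω₂ z) +
        s z * s z * ((la - lb) * La z * (U z * V z)) =
        (la - lb) * (U z * V z) * (La z * (s z * s z) -
          (A.a z * ω₁ z ^ 2 + 2 * A.b z * (ω₁ z * ω₂ z) + A.c z * ω₂ z ^ 2)) := by ring
    rw [e5, e1]
    ring

/-- No circle of eigenfunctions with two eigenvalues. -/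
theorem E4_circle (hX : Surface Γ D) (m : Mt Γ D) (w : TestS Γ) (hw : ∀ z, 0 < w.1 z) {la lb : ℝ}
    (hla : 0 < la) (hlb : 0 < lb) (U V : TestS Γ) (hU : IsEig hX m w la U)
    (hV : IsEig hX m w lb V) : ¬ ∀ z, U.1 z ^ 2 + V.1 z ^ 2 = 1 := by
  intro h
  have h1 := E4_plane (coefM m) (La := fun z => w.1 z * vol m z) hla hlb U.2.1 V.2.1
    (fun z => by rw [eig_pde hX m w la U hU z])
    (fun z => by rw [eig_pde hX m w lb V hV z]) h
  have hWs : ContDiff ℝ ∞ fun z => w.1 z * (la * U.1 z ^ 2 + lb * V.1 z ^ 2) ^ 2 :=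
    w.2.1.mul (((contDiff_const.mul (U.2.1.pow 2)).add (contDiff_const.mul (V.2.1.pow 2))).pow 2)
  let W : TestS Γ := ⟨fun z => w.1 z * (la * U.1 z ^ 2 + lb * V.1 z ^ 2) ^ 2, hWs, fun γ z => by
    show w.1 (γ • z) * (la * U.1 (γ • z) ^ 2 + lb * V.1 (γ • z) ^ 2) ^ 2 = _
    rw [w.2.2 γ z, U.2.2 γ z, V.2.2 γ z]⟩
  refine E4_not_flat hX m W (fun z => ?_) ?_
  · show 0 < w.1 z * (la * U.1 z ^ 2 + lb * V.1 z ^ 2) ^ 2
    have h2 := h z
    have h3 : 0 < la * U.1 z ^ 2 + lb * V.1 z ^ 2 := by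
      rcases (sq_nonneg (U.1 z)).eq_or_lt with h4 | h4
      · have h5 : V.1 z ^ 2 = 1 := by linarith
        rw [← h4, h5]
        linarith
      · have := mul_pos hla h4
        have := mul_nonneg hlb.le (sq_nonneg (V.1 z))
        linarith
    exact mul_pos (hw z) (pow_pos h3 2)
  · rw [← h1]
    congr 1
    funext z
    have hv := (vol_pos m z).ne'
    refine Prod.ext ?_ (Prod.ext ?_ ?_)
    · show w.1 z * (la * U.1 z ^ 2 + lb * V.1 z ^ 2) ^ 2 * (m.1.1 z).1 =
        (w.1 z * vol m z) * (la * U.1 z ^ 2 + lb * V.1 z ^ 2) ^ 2 * ((m.1.1 z).1 / vol m z)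
      field_simp
    · show w.1 z * (la * U.1 z ^ 2 + lb * V.1 z ^ 2) ^ 2 * (m.1.1 z).2.1 =
        (w.1 z * vol m z) * (la * U.1 z ^ 2 + lb * V.1 z ^ 2) ^ 2 * (-(-(m.1.1 z).2.1 / vol m z))
      field_simp
    · show w.1 z * (la * U.1 z ^ 2 + lb * V.1 z ^ 2) ^ 2 * (m.1.1 z).2.2 =
        (w.1 z * vol m z) * (la * U.1 z ^ 2 + lb * V.1 z ^ 2) ^ 2 * ((m.1.1 z).2.2 / vol m z)
      field_simp

/-- Eigenfunctions with different eigenvalues that agree on an open set vanish. -/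
theorem E4_sep (hX : Surface Γ D) (m : Mt Γ D) (w : TestS Γ) (hw : ∀ z, 0 < w.1 z) {la lb : ℝ}
    (hab : la ≠ lb) (U V : TestS Γ) (hU : IsEig hX m w la U)
    (hV : IsEig hX m w lb V) (O : Set Pl) (hO : IsOpen O) (hne : O.Nonempty)
    (h : ∀ z ∈ O, U.1 z = V.1 z) : U = 0 := by
  refine ucp hX m w la U hU O hO hne fun z hz => ?_
  have h1 : Lu (coefM m) U.1 z = Lu (coefM m) V.1 z := by
    have e : U.1 =ᶠ[𝓝 z] V.1 := by
      filter_upwards [hO.mem_nhds hz] with y hy
      exact h y hy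
    have dxe : ∀ f g : Pl → ℝ, f =ᶠ[𝓝 z] g → dx f =ᶠ[𝓝 z] dx g := by
      intro f g hfg
      filter_upwards [hfg.fderiv (𝕜 := ℝ)] with y hy
      show fderiv ℝ f y (1, 0) = fderiv ℝ g y (1, 0)
      rw [hy]
    have dye : ∀ f g : Pl → ℝ, f =ᶠ[𝓝 z] g → dy f =ᶠ[𝓝 z] dy g := by
      intro f g hfg
      filter_upwards [hfg.fderiv (𝕜 := ℝ)] with y hy
      show fderiv ℝ f y (0, 1) = fderiv ℝ g y (0, 1)
      rw [hy]
    have e1 := dxe _ _ e
    have e2 := dye _ _ e
    have e3 : fx (coefM m) U.1 =ᶠ[𝓝 z] fx (coefM m) V.1 := by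
      filter_upwards [e1, e2] with y h1 h2
      show _ * dx U.1 y + _ * dy U.1 y = _ * dx V.1 y + _ * dy V.1 y
      rw [h1, h2]
    have e4 : fy (coefM m) U.1 =ᶠ[𝓝 z] fy (coefM m) V.1 := by
      filter_upwards [e1, e2] with y h1 h2
      show _ * dx U.1 y + _ * dy U.1 y = _ * dx V.1 y + _ * dy V.1 y
      rw [h1, h2]
    show dx (fx (coefM m) U.1) z + dy (fy (coefM m) U.1) z =
      dx (fx (coefM m) V.1) z + dy (fy (coefM m) V.1) z
    rw [(dxe _ _ e3).eq_of_nhds, (dye _ _ e4).eq_of_nhds]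
  rw [eig_pde hX m w la U hU, eig_pde hX m w lb V hV, ← h z hz] at h1
  have hwv : w.1 z * vol m z ≠ 0 := (mul_pos (hw z) (vol_pos m z)).ne'
  have h2 : (la - lb) * (w.1 z * vol m z) * U.1 z = 0 := by linarith
  rcases mul_eq_zero.1 h2 with h3 | h3
  · exact absurd (mul_eq_zero.1 h3) (by push Not; exact ⟨sub_ne_zero.2 hab, hwv⟩)
  · exact h3

/-- Squares of eigenfunctions with different eigenvalues satisfy no linear relation with
constants. -/
theorem no_const_sep (hX : Surface Γ D) (m : Mt Γ D) (w : TestS Γ) (hw : ∀ z, 0 < w.1 z) {la lb : ℝ}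
    (hla : 0 < la) (hlb : 0 < lb) (hab : la ≠ lb) (U V : TestS Γ) (hU : IsEig hX m w la U)
    (hV : IsEig hX m w lb V) (hU0 : U ≠ 0) (hV0 : V ≠ 0) (al ga C : ℝ)
    (h : ∀ z, al * U.1 z ^ 2 + ga * V.1 z ^ 2 = C) : al = 0 ∧ ga = 0 := by
  obtain ⟨zU, hzU⟩ := has_zero hX m w hw hla U hU
  obtain ⟨zV, hzV⟩ := has_zero hX m w hw hlb V hV
  have hCa : ga * V.1 zU ^ 2 = C := by
    have h1 := h zU
    rwa [hzU, zero_pow two_ne_zero, mul_zero, zero_add] at h1
  have hCb : al * U.1 zV ^ 2 = C := by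
    have h1 := h zV
    rwa [hzV, zero_pow two_ne_zero, mul_zero, add_zero] at h1
  by_cases ha : al = 0
  · refine ⟨ha, ?_⟩
    by_contra hg
    rw [ha, zero_mul] at hCb
    apply hV0
    refine Subtype.ext (funext fun z => ?_)
    have h1 := h z
    rw [ha, zero_mul, zero_add, ← hCb] at h1
    exact pow_eq_zero_iff (two_ne_zero) |>.1 ((mul_eq_zero.1 h1).resolve_left hg)
  by_cases hg : ga = 0
  · exfalso
    rw [hg, zero_mul] at hCa
    apply hU0
    refine Subtype.ext (funext fun z => ?_)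
    have h1 := h z
    rw [hg, zero_mul, add_zero, ← hCa] at h1
    exact pow_eq_zero_iff (two_ne_zero) |>.1 ((mul_eq_zero.1 h1).resolve_left ha)
  exfalso
  by_cases hC : C = 0
  · rw [hC] at h
    by_cases hst : 0 ≤ ga / al
    · apply hU0
      refine Subtype.ext (funext fun z => ?_)
      have h1 := h z
      have h2 : U.1 z ^ 2 + ga / al * V.1 z ^ 2 = 0 := by
        have h3 : U.1 z ^ 2 + ga / al * V.1 z ^ 2 = (al * U.1 z ^ 2 + ga * V.1 z ^ 2) / al := by
          field_simp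
        rw [h3, h1, zero_div]
      have h4 : 0 ≤ ga / al * V.1 z ^ 2 := mul_nonneg hst (sq_nonneg _)
      have h5 : U.1 z ^ 2 = 0 := le_antisymm (by linarith) (sq_nonneg _)
      exact pow_eq_zero_iff (two_ne_zero) |>.1 h5
    · have hr : 0 < -(ga / al) := by linarith [not_le.1 hst]
      have hrr : √(-(ga / al)) ^ 2 = -(ga / al) := Real.sq_sqrt hr.le
      set r := √(-(ga / al)) with hr'
      have h1 : ∀ z, (U.1 z - r * V.1 z) * (U.1 z + r * V.1 z) = 0 := by
        intro z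
        have h2 : (U.1 z - r * V.1 z) * (U.1 z + r * V.1 z) = U.1 z ^ 2 - r ^ 2 * V.1 z ^ 2 := by ring
        rw [h2, hrr]
        have h3 : U.1 z ^ 2 - -(ga / al) * V.1 z ^ 2 = (al * U.1 z ^ 2 + ga * V.1 z ^ 2) / al := by
          field_simp
          ring
        rw [h3, h z, zero_div]
      by_cases hall : ∀ z, U.1 z - r * V.1 z = 0
      · apply hU0
        refine E4_sep hX m w hw hab U (r • V) hU (hV.smul r) univ isOpen_univ univ_nonempty
          fun z _ => ?_
        show U.1 z = r * V.1 z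
        linarith [hall z]
      · push Not at hall
        obtain ⟨z0, hz0⟩ := hall
        apply hU0
        have hopen : IsOpen {z | U.1 z - r * V.1 z ≠ 0} :=
          isOpen_ne_fun (U.2.1.continuous.sub (continuous_const.mul V.2.1.continuous))
            continuous_const
        refine E4_sep hX m w hw hab U ((-r) • V) hU (hV.smul (-r)) _ hopen ⟨z0, hz0⟩ fun z hz => ?_
        show U.1 z = -r * V.1 z
        have h2 := (mul_eq_zero.1 (h1 z)).resolve_left hz
        linarith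
  · have hsδ : 0 ≤ al / C := by
      have h3 : al / C = (al / C) ^ 2 * U.1 zV ^ 2 := by
        have h4 : (al / C) ^ 2 * U.1 zV ^ 2 = (al / C) * (al * U.1 zV ^ 2 / C) := by ring
        rw [h4, hCb, div_self hC, mul_one]
      rw [h3]
      positivity
    have htδ : 0 ≤ ga / C := by
      have h3 : ga / C = (ga / C) ^ 2 * V.1 zU ^ 2 := by
        have h4 : (ga / C) ^ 2 * V.1 zU ^ 2 = (ga / C) * (ga * V.1 zU ^ 2 / C) := by ring
        rw [h4, hCa, div_self hC, mul_one]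
      rw [h3]
      positivity
    refine E4_circle hX m w hw hla hlb (√(al / C) • U) (√(ga / C) • V) (hU.smul _)
      (hV.smul _) ?_
    intro z
    have h5 : (√(al / C) • U).1 z ^ 2 + (√(ga / C) • V).1 z ^ 2 =
        √(al / C) ^ 2 * U.1 z ^ 2 + √(ga / C) ^ 2 * V.1 z ^ 2 := by
      change (√(al / C) * U.1 z) ^ 2 + (√(ga / C) * V.1 z) ^ 2 = _
      ring
    rw [h5, Real.sq_sqrt hsδ, Real.sq_sqrt htδ]
    have h6 : al / C * U.1 z ^ 2 + ga / C * V.1 z ^ 2 = (al * U.1 z ^ 2 + ga * V.1 z ^ 2) / C := by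
      ring
    rw [h6, h z, div_self hC]

end QR
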