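import Pool.Agent.LibQR40.Defs2

/-! ROW B1a. Put auxiliary lemmas in this file, names starting with `B1a_`.
(easy). `aF_q2`: by definition (`aF_apply`, wf2, coefM: pointwise identity, `field_simp; ring`). `bF_per`: `BGS.per_int` with
f = χ, g = w U (`bF_apply`). -/

open MeasureTheory Set Filter Topology
open scoped ContDiff ENNReal NNReal

namespace QR

open BGS

variable {Γ : Type} [Group Γ] [MulAction Γ Pl] {D : Set Pl}

theorem aF_q2 (hX : Surface Γ D) (m : Mt Γ D) (u v : TestS Γ) :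
    aF hX m u v = ∫ z in D, q2 (coefM m) u.1 v.1 z := by
  rw [aF_apply]
  congr 1
  funext z
  simp only [wf2, q2, fx, fy, coefM, vol]
  ring

theorem bF_per (hX : Surface Γ D) (m : Mt Γ D) (w U : TestS Γ) {χ : Pl → ℝ} (hχ : IsT χ) :
    bF hX m w U (perT hX hχ) = ∫ z, w.1 z * vol m z * U.1 z * χ z := by
  rw [bF_apply]
  have h1 := per_int hX m hχ.1 hχ.2 (g := fun z => w.1 z * U.1 z)
    (w.2.1.continuous.mul U.2.1.continuous) (fun γ z => by
      show w.1 (γ • z) * U.1 (γ • z) = w.1 z * U.1 z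
      rw [w.2.2 γ z, U.2.2 γ z])
  have h2 : ∫ z in D, w.1 z * U.1 z * (perT hX hχ).1 z * √(dt (m.1.1 z)) =
      ∫ z in D, per Γ χ z * (w.1 z * U.1 z) * √(dt (m.1.1 z)) := by
    congr 1
    funext z
    show w.1 z * U.1 z * per Γ χ z * √(dt (m.1.1 z)) = _
    ring
  rw [h2]
  refine h1.trans ?_
  congr 1
  funext z
  simp only [vol]
  ring

end QR
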