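import Pool.Agent.LibQR40.Defs2

/-! ROW B1b. Put auxiliary lemmas in this file, names starting with `B1b_`.
(invariance of the Dirichlet integrand). PLAN: copy the proof of `BGS.wf_change` (LibBGS/Cover.lean): chain rule for f ∘ γ and g ∘ γ
(fderiv (f ∘ γ) z = fderiv f (γ z) ∘ A, A = fderiv γ z; dx (f ∘ γ) z = (A (1,0)).1 * dx f (γ z) + (A (1,0)).2 * dy f (γ z), same for dy with
A (0,1); see `PER_apply`, `PER_det`), the metric is invariant (`m.2.inv`: see the proof of `PER_rho` for the three relations between E, F, G at z and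
at γ z, and `PER_rho` for vol). Then it is algebra (cleared of denominators: `field_simp`, then a polynomial identity modulo the three relations:
substitute E, F, G at z, as in `PER_algebra`). -/

open MeasureTheory Set Filter Topology
open scoped ContDiff ENNReal NNReal

namespace QR

open BGS

variable {Γ : Type} [Group Γ] [MulAction Γ Pl] {D : Set Pl}

/-- Pure algebra behind the change of variables. -/
theorem B1b_algebra {E F G E' F' G' a b c d p q r s p' q' r' s' : ℝ}
    (hE : E' * a ^ 2 + 2 * F' * a * c + G' * c ^ 2 = E)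
    (hG : E' * b ^ 2 + 2 * F' * b * d + G' * d ^ 2 = G)
    (hF : E' * a * b + F' * (a * d + b * c) + G' * c * d = F)
    (hp : p = p' * a + q' * c) (hq : q = p' * b + q' * d)
    (hr : r = r' * a + s' * c) (hs : s = r' * b + s' * d) :
    G * p * r - F * (q * r + p * s) + E * q * s =
        (a * d - b * c) ^ 2 * (G' * p' * r' - F' * (q' * r' + p' * s') + E' * q' * s') ∧
      E * G - F ^ 2 = (a * d - b * c) ^ 2 * (E' * G' - F' ^ 2) := by
  subst hE hG hF hp hq hr hs
  constructor <;> ring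

theorem B1b_lin (f : Pl → ℝ) (y v : Pl) : fderiv ℝ f y v = dx f y * v.1 + dy f y * v.2 := by
  have h1 : v = v.1 • ((1 : ℝ), (0 : ℝ)) + v.2 • ((0 : ℝ), (1 : ℝ)) := by
    ext <;> simp
  conv_lhs => rw [h1]
  rw [map_add, map_smul, map_smul]
  simp only [dx, dy, smul_eq_mul]
  ring

theorem B1b_chain (hX : Surface Γ D) (γ : Γ) {f : Pl → ℝ} (hf : ContDiff ℝ ∞ f) (z : Pl) :
    dx (fun y => f (γ • y)) z =
        dx f (γ • z) * (fderiv ℝ (fun w : Pl => γ • w) z (1, 0)).1 +
          dy f (γ • z) * (fderiv ℝ (fun w : Pl => γ • w) z (1, 0)).2 ∧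
      dy (fun y => f (γ • y)) z =
        dx f (γ • z) * (fderiv ℝ (fun w : Pl => γ • w) z (0, 1)).1 +
          dy f (γ • z) * (fderiv ℝ (fun w : Pl => γ • w) z (0, 1)).2 := by
  have hγ : HasFDerivAt (fun w : Pl => γ • w) (fderiv ℝ (fun w : Pl => γ • w) z) z :=
    ((hX.smooth γ).differentiable (by simp) z).hasFDerivAt
  have hf1 : HasFDerivAt f (fderiv ℝ f (γ • z)) (γ • z) :=
    (hf.differentiable (by simp) _).hasFDerivAt
  have hcomp : HasFDerivAt (fun w : Pl => f (γ • w))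
      ((fderiv ℝ f (γ • z)).comp (fderiv ℝ (fun w : Pl => γ • w) z)) z := hf1.comp z hγ
  have hfd := hcomp.fderiv
  constructor
  · have : dx (fun y => f (γ • y)) z =
        fderiv ℝ f (γ • z) (fderiv ℝ (fun w : Pl => γ • w) z (1, 0)) := by
      unfold dx
      rw [hfd]
      rfl
    rw [this, B1b_lin]
  · have : dy (fun y => f (γ • y)) z =
        fderiv ℝ f (γ • z) (fderiv ℝ (fun w : Pl => γ • w) z (0, 1)) := by
      unfold dy
      rw [hfd]
      rfl
    rw [this, B1b_lin]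

theorem q2_change (hX : Surface Γ D) (m : Mt Γ D) (γ : Γ) {f g : Pl → ℝ} (hf : ContDiff ℝ ∞ f)
    (hg : ContDiff ℝ ∞ g) (z : Pl) :
    q2 (coefM m) (fun y => f (γ • y)) (fun y => g (γ • y)) z =
      |(fderiv ℝ (fun w : Pl => γ • w) z).det| * q2 (coefM m) f g (γ • z) := by
  obtain ⟨hp, hq⟩ := B1b_chain hX γ hf z
  obtain ⟨hr, hs⟩ := B1b_chain hX γ hg z
  set A := fderiv ℝ (fun w : Pl => γ • w) z with hA
  have hi := m.2.inv γ z
  have h10 := hi (1, 0)
  have h01 := hi (0, 1)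
  have h11 := hi (1, 1)
  rw [← hA, Cover_apply A (1, 1)] at h11
  rw [← hA] at h10 h01
  simp only [qf] at h10 h01 h11
  obtain ⟨hN, hd⟩ := B1b_algebra (E := (m.1.1 z).1) (F := (m.1.1 z).2.1) (G := (m.1.1 z).2.2)
    (E' := (m.1.1 (γ • z)).1) (F' := (m.1.1 (γ • z)).2.1) (G' := (m.1.1 (γ • z)).2.2)
    (a := (A (1, 0)).1) (b := (A (0, 1)).1) (c := (A (1, 0)).2) (d := (A (0, 1)).2)
    (by linarith) (by linarith) (by linarith) hp hq hr hs
  have hdet : A.det = (A (1, 0)).1 * (A (0, 1)).2 - (A (0, 1)).1 * (A (1, 0)).2 := Cover_det A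
  have hd' : dt (m.1.1 z) = A.det ^ 2 * dt (m.1.1 (γ • z)) := by
    rw [hdet]
    exact hd
  have hpos := (m.2.pos z).2
  have hpos' := (m.2.pos (γ • z)).2
  have hdet0 : A.det ≠ 0 := by
    intro h0
    rw [h0] at hd'
    rw [hd'] at hpos
    norm_num at hpos
  have hs' : vol m z = |A.det| * vol m (γ • z) := by
    unfold vol
    rw [hd', Real.sqrt_mul (sq_nonneg _), Real.sqrt_sq_eq_abs]
  have h1 : |A.det| ≠ 0 := abs_ne_zero.2 hdet0
  have h2 : vol m (γ • z) ≠ 0 := (vol_pos m _).ne'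
  have h3 : A.det ^ 2 = |A.det| * |A.det| := by rw [← sq, sq_abs]
  rw [← hdet] at hN
  have e1 : q2 (coefM m) (fun y => f (γ • y)) (fun y => g (γ • y)) z =
      ((m.1.1 z).2.2 * dx (fun y => f (γ • y)) z * dx (fun y => g (γ • y)) z -
        (m.1.1 z).2.1 * (dy (fun y => f (γ • y)) z * dx (fun y => g (γ • y)) z +
          dx (fun y => f (γ • y)) z * dy (fun y => g (γ • y)) z) +
        (m.1.1 z).1 * dy (fun y => f (γ • y)) z * dy (fun y => g (γ • y)) z) / vol m z := by
    simp only [q2, fx, fy, coefM]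
    ring
  have e2 : q2 (coefM m) f g (γ • z) =
      ((m.1.1 (γ • z)).2.2 * dx f (γ • z) * dx g (γ • z) -
        (m.1.1 (γ • z)).2.1 * (dy f (γ • z) * dx g (γ • z) + dx f (γ • z) * dy g (γ • z)) +
        (m.1.1 (γ • z)).1 * dy f (γ • z) * dy g (γ • z)) / vol m (γ • z) := by
    simp only [q2, fx, fy, coefM]
    ring
  rw [e1, e2, hN, hs', h3]
  field_simp

end QR
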