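import Pool.Agent.LibQR40.Defs

/-! ROW IP. Put auxiliary lemmas in this file, names starting with `IP_`.
(integration by parts, easy). `ip_mul`: ∫ (pd b f) χ = - ∫ f (pd b χ) for smooth `f` and a test
function `χ`. PLAN: `pd b` is `fderiv` in the direction (1,0) or (0,1); Mathlib has
`integral_mul_fderiv_eq_neg_fderiv_mul_of_integrable` (Mathlib.Analysis.Calculus.LineDeriv.IntegrationByParts);
integrability: continuous with compact support (`Continuous.integrable_of_hasCompactSupport`).
`ip_q2`: expand `q2 A f χ = fx A f * dx χ + fy A f * dy χ` and use `ip_mul` twice (with f := fx A f, fy A f).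
`ip_sym`: `ip_q2` for (f, χ); then q2 is symmetric (`ring`: q2 A f χ = q2 A χ f) and
∫ q2 A χ f = ∫ (fx A χ * dx f + fy A χ * dy f) = - ∫ (Lu A χ) f by `ip_mul` with the test functions fx A χ, fy A χ
(compact support: they vanish where χ vanishes locally, e.g. `HasCompactSupport` of dx χ by
`HasCompactSupport.fderiv` and `.mul_left`).
`ip_both`: both functions smooth, one of them a test function, `∫ (Lu A f) χ = ∫ f (Lu A χ)`. -/

open MeasureTheory Set Filter Topology
open scoped ContDiff ENNReal NNReal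

namespace QR

open BGS

theorem cpt_pd {χ : Pl → ℝ} (h : IsT χ) (b : Bool) : IsT (pd b χ) := by
  refine ⟨smooth_pd h.1 b, ?_⟩
  cases b
  · exact h.2.fderiv_apply ℝ (0, 1)
  · exact h.2.fderiv_apply ℝ (1, 0)

theorem cpt_mul {χ : Pl → ℝ} (h : IsT χ) {f : Pl → ℝ} (hf : ContDiff ℝ ∞ f) :
    IsT (fun z => f z * χ z) :=
  ⟨hf.mul h.1, h.2.mul_left⟩

private theorem IP_add {χ ψ : Pl → ℝ} (h : IsT χ) (h' : IsT ψ) : IsT (fun z => χ z + ψ z) :=
  ⟨h.1.add h'.1, h.2.add h'.2⟩

private theorem IP_int {f χ : Pl → ℝ} (hf : Continuous f) (h : IsT χ) :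
    Integrable (fun z => f z * χ z) volume :=
  (hf.mul h.1.continuous).integrable_of_hasCompactSupport h.2.mul_left

private theorem IP_v {f χ : Pl → ℝ} (hf : ContDiff ℝ ∞ f) (h : IsT χ) (v : Pl) :
    ∫ z, fderiv ℝ f z v * χ z = - ∫ z, f z * fderiv ℝ χ z v := by
  have h1 : Continuous fun z => fderiv ℝ f z v := (Egr_smooth_v hf v).continuous
  have h2 : IsT fun z => fderiv ℝ χ z v := ⟨Egr_smooth_v h.1 v, h.2.fderiv_apply ℝ v⟩
  have h3 := integral_mul_fderiv_eq_neg_fderiv_mul_of_integrable (μ := (volume : Measure Pl))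
    (f := f) (g := χ) (v := v) (IP_int h1 h) (IP_int hf.continuous h2) (IP_int hf.continuous h)
    (fun x _ => (hf.differentiable (by simp)) x) (fun x _ => (h.1.differentiable (by simp)) x)
  rw [h3, neg_neg]

theorem ip_mul {f χ : Pl → ℝ} (hf : ContDiff ℝ ∞ f) (h : IsT χ) (b : Bool) :
    ∫ z, pd b f z * χ z = - ∫ z, f z * pd b χ z := by
  cases b
  · exact IP_v hf h (0, 1)
  · exact IP_v hf h (1, 0)

theorem ip_q2 (A : Coef) {f χ : Pl → ℝ} (hf : ContDiff ℝ ∞ f) (h : IsT χ) :
    ∫ z, q2 A f χ z = - ∫ z, Lu A f z * χ z := by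
  have sx := smooth_fx A hf
  have sy := smooth_fy A hf
  have e1 := ip_mul sx h true
  have e2 := ip_mul sy h false
  have i1 : Integrable (fun z => fx A f z * pd true χ z) volume :=
    IP_int sx.continuous (cpt_pd h true)
  have i2 : Integrable (fun z => fy A f z * pd false χ z) volume :=
    IP_int sy.continuous (cpt_pd h false)
  have i3 : Integrable (fun z => pd true (fx A f) z * χ z) volume :=
    IP_int (smooth_pd sx true).continuous h
  have i4 : Integrable (fun z => pd false (fy A f) z * χ z) volume :=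
    IP_int (smooth_pd sy false).continuous h
  have e3 : ∫ z, q2 A f χ z = (∫ z, fx A f z * pd true χ z) + ∫ z, fy A f z * pd false χ z := by
    rw [← integral_add i1 i2]
    rfl
  have e4 : ∫ z, Lu A f z * χ z =
      (∫ z, pd true (fx A f) z * χ z) + ∫ z, pd false (fy A f) z * χ z := by
    rw [← integral_add i3 i4]
    refine integral_congr_ae (ae_of_all _ fun z => ?_)
    exact add_mul _ _ _
  rw [e3, e4, e1, e2]
  ring

private theorem IP_fx (A : Coef) {χ : Pl → ℝ} (h : IsT χ) : IsT (fx A χ) :=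
  IP_add (cpt_mul (cpt_pd h true) A.ha) (cpt_mul (cpt_pd h false) A.hb)

private theorem IP_fy (A : Coef) {χ : Pl → ℝ} (h : IsT χ) : IsT (fy A χ) :=
  IP_add (cpt_mul (cpt_pd h true) A.hb) (cpt_mul (cpt_pd h false) A.hc)

theorem cpt_Lu (A : Coef) {χ : Pl → ℝ} (h : IsT χ) : IsT (Lu A χ) :=
  IP_add (cpt_pd (IP_fx A h) true) (cpt_pd (IP_fy A h) false)

theorem ip_sym (A : Coef) {f χ : Pl → ℝ} (hf : ContDiff ℝ ∞ f) (h : IsT χ) :
    ∫ z, q2 A f χ z = - ∫ z, f z * Lu A χ z := by
  have tx := IP_fx A h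
  have ty := IP_fy A h
  have e1 := ip_mul hf tx true
  have e2 := ip_mul hf ty false
  have i1 : Integrable (fun z => pd true f z * fx A χ z) volume :=
    IP_int (smooth_pd hf true).continuous tx
  have i2 : Integrable (fun z => pd false f z * fy A χ z) volume :=
    IP_int (smooth_pd hf false).continuous ty
  have i3 : Integrable (fun z => f z * pd true (fx A χ) z) volume :=
    IP_int hf.continuous (cpt_pd tx true)
  have i4 : Integrable (fun z => f z * pd false (fy A χ) z) volume :=
    IP_int hf.continuous (cpt_pd ty false)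
  have e3 : ∫ z, q2 A f χ z = (∫ z, pd true f z * fx A χ z) + ∫ z, pd false f z * fy A χ z := by
    rw [← integral_add i1 i2]
    refine integral_congr_ae (ae_of_all _ fun z => ?_)
    show (A.a z * dx f z + A.b z * dy f z) * dx χ z + (A.b z * dx f z + A.c z * dy f z) * dy χ z =
      dx f z * (A.a z * dx χ z + A.b z * dy χ z) + dy f z * (A.b z * dx χ z + A.c z * dy χ z)
    ring
  have e4 : ∫ z, f z * Lu A χ z =
      (∫ z, f z * pd true (fx A χ) z) + ∫ z, f z * pd false (fy A χ) z := by
    rw [← integral_add i3 i4]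
    refine integral_congr_ae (ae_of_all _ fun z => ?_)
    exact mul_add _ _ _
  rw [e3, e4, e1, e2]
  ring

end QR
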