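import Pool.Agent.LibQR40.B1a
import Pool.Agent.LibQR40.B1b
import Pool.Agent.LibQR40.IP

/-! ROW B1c. Put auxiliary lemmas in this file, names starting with `B1c_`.
(unfolding of the energy). PLAN: on the compact closure of D, per Γ χ is the finite sum of χ ∘ γ over a finite set S (`PER_fin`; take K a
compact neighbourhood of closure D so that the derivatives agree on D as well), so
aF U (per χ) = ∑_{γ ∈ S} ∫ z in D, q2 A U (χ ∘ γ); since U = U ∘ γ, `q2_change` and the change of variables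
(`integral_image_eq_integral_abs_det_fderiv_smul`, see `BGS.PER_one`) give ∫ z in γ '' D, q2 A U χ; the sets
γ '' D are disjoint and cover the plane; χ vanishes on all but finitely many of them: copy the proof of `BGS.per_int` (LibBGR/Per.lean). -/

open MeasureTheory Set Filter Topology
open scoped ContDiff ENNReal NNReal

namespace QR

open BGS

variable {Γ : Type} [Group Γ] [MulAction Γ Pl] {D : Set Pl}

theorem B1c_cpt {χ : Pl → ℝ} (hχ : IsT χ) (A : Coef) (u : Pl → ℝ) :
    HasCompactSupport (q2 A u χ) := by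
  have h1 : HasCompactSupport (dx χ) := (cpt_pd hχ true).2
  have h2 : HasCompactSupport (dy χ) := (cpt_pd hχ false).2
  show HasCompactSupport (fx A u * dx χ + fy A u * dy χ)
  exact (h1.mul_left).add (h2.mul_left)

theorem B1c_congr (A : Coef) (u : Pl → ℝ) {v v' : Pl → ℝ} {z : Pl} (h : v =ᶠ[𝓝 z] v') :
    q2 A u v z = q2 A u v' z := by
  unfold q2 dx dy
  rw [h.fderiv_eq]

theorem B1c_zero (A : Coef) (u : Pl → ℝ) {v : Pl → ℝ} {z : Pl} (h : v =ᶠ[𝓝 z] fun _ => 0) :
    q2 A u v z = 0 := by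
  rw [B1c_congr A u h]
  unfold q2 dx dy
  rw [fderiv_fun_const]
  simp

theorem B1c_sum {ι : Type} (A : Coef) (u : Pl → ℝ) (S : Finset ι) (g : ι → Pl → ℝ)
    (hg : ∀ i, ContDiff ℝ ∞ (g i)) (z : Pl) :
    q2 A u (fun y => ∑ i ∈ S, g i y) z = ∑ i ∈ S, q2 A u (g i) z := by
  have h1 : fderiv ℝ (fun y => ∑ i ∈ S, g i y) z = ∑ i ∈ S, fderiv ℝ (g i) z :=
    fderiv_fun_sum fun i _ => ((hg i).differentiable (by simp)) z
  unfold q2
  have h2 : dx (fun y => ∑ i ∈ S, g i y) z = ∑ i ∈ S, dx (g i) z := by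
    unfold dx
    rw [h1, ContinuousLinearMap.sum_apply]
  have h3 : dy (fun y => ∑ i ∈ S, g i y) z = ∑ i ∈ S, dy (g i) z := by
    unfold dy
    rw [h1, ContinuousLinearMap.sum_apply]
  rw [h2, h3, Finset.mul_sum, Finset.mul_sum, ← Finset.sum_add_distrib]

theorem aF_per (hX : Surface Γ D) (m : Mt Γ D) (U : TestS Γ) {χ : Pl → ℝ} (hχ : IsT χ) :
    aF hX m U (perT hX hχ) = ∫ z, q2 (coefM m) U.1 χ z := by
  have hU : ContDiff ℝ ∞ U.1 := U.2.1
  have hUi : ∀ (γ : Γ) z, U.1 (γ • z) = U.1 z := U.2.2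
  have hK0 : IsCompact (closure D) := Cmp_compact hX
  obtain ⟨K, hK, hDK⟩ := exists_compact_superset hK0
  obtain ⟨S, hS0, hS⟩ := PER_fin hX hχ.2 hK
  set A := coefM m with hA
  have hcont : Continuous (q2 A U.1 χ) := (smooth_q2 A hU hχ.1).continuous
  have hint : Integrable (q2 A U.1 χ) :=
    hcont.integrable_of_hasCompactSupport (B1c_cpt hχ A U.1)
  have hsm : ∀ γ : Γ, ContDiff ℝ ∞ fun y : Pl => χ (γ • y) := fun γ => hχ.1.comp (hX.smooth γ)
  have hDn : ∀ z ∈ D, K ∈ 𝓝 z := fun z hz =>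
    mem_interior_iff_mem_nhds.1 (hDK (subset_closure hz))
  have h1 : ∫ z in D, q2 A U.1 (per Γ χ) z =
      ∑ γ ∈ S, ∫ z in D, q2 A U.1 (fun y => χ (γ • y)) z := by
    rw [← integral_finsetSum]
    · apply setIntegral_congr_fun hX.meas
      intro z hz
      show q2 A U.1 (per Γ χ) z = ∑ γ ∈ S, q2 A U.1 (fun y => χ (γ • y)) z
      rw [← B1c_sum A U.1 S (fun γ y => χ (γ • y)) hsm z]
      apply B1c_congr
      filter_upwards [hDn z hz] with y hy
      exact hS y hy
    · intro γ _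
      exact Cmp_int hX (smooth_q2 A hU (hsm γ)).continuous
  have h2 : (fun z => q2 A U.1 χ z) = fun z =>
      ∑ γ ∈ S, indicator ((fun w : Pl => γ • w) '' D) (fun z => q2 A U.1 χ z) z := by
    funext z
    obtain ⟨γ, hγ, hun⟩ := hX.orbit z
    have hz' : z ∈ (fun w : Pl => γ⁻¹ • w) '' D := ⟨γ • z, hγ, by simp⟩
    have hothers : ∀ δ ∈ S, δ ≠ γ⁻¹ → indicator ((fun w : Pl => δ • w) '' D)
        (fun z => q2 A U.1 χ z) z = 0 := by
      intro δ _ hδ
      apply indicator_of_notMem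
      rw [PER_image]
      intro h
      apply hδ
      rw [← hun δ⁻¹ h, inv_inv]
    by_cases hmem : γ⁻¹ ∈ S
    · rw [Finset.sum_eq_single_of_mem _ hmem hothers, indicator_of_mem hz']
    · rw [Finset.sum_eq_zero]
      · apply B1c_zero
        have h3 : ∀ᶠ y in 𝓝 z, γ • y ∈ K :=
          (hX.smooth γ).continuous.continuousAt (hDn _ hγ)
        filter_upwards [h3] with y hy
        have h4 := hS0 (γ • y) hy γ⁻¹ hmem
        rwa [inv_smul_smul] at h4
      · intro δ hδ
        exact hothers δ hδ (fun h => hmem (h ▸ hδ))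
  rw [aF_q2]
  show ∫ z in D, q2 A U.1 (per Γ χ) z = _
  rw [h1]
  conv_rhs => rw [h2]
  rw [integral_finsetSum]
  · refine Finset.sum_congr rfl fun γ _ => ?_
    rw [integral_indicator (PER_meas hX γ)]
    rw [integral_image_eq_integral_abs_det_fderiv_smul volume hX.meas
      (f' := fun z => fderiv ℝ (fun w : Pl => γ • w) z)
      (fun z _ => ((hX.smooth γ).differentiable (by simp) z).hasFDerivAt.hasFDerivWithinAt)
      (PER_inj γ).injOn]
    congr 1
    funext z
    rw [smul_eq_mul, ← q2_change hX m γ hU hχ.1 z]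
    have h5 : (fun y : Pl => U.1 (γ • y)) = U.1 := funext fun y => hUi γ y
    rw [h5]
  · intro γ _
    exact hint.indicator (PER_meas hX γ)

end QR
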