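import Pool.Agent.LibQR40.B1a

/-! ROW B2a. (norms on squares are bounded by norms on the surface). -/

open MeasureTheory Set Filter Topology
open scoped ContDiff ENNReal NNReal

namespace QR

open BGS

variable {Γ : Type} [Group Γ] [MulAction Γ Pl] {D : Set Pl}

theorem B2a_cover (hX : Surface Γ D) (R : ℝ) :
    ∃ P : ℝ, 0 < P ∧ ∀ g : Pl → ℝ, Continuous g → (∀ z, 0 ≤ g z) →
      (∀ γ : Γ, ∫ z in (fun w : Pl => γ • w) '' D, g z = ∫ z in D, g z) →
      ∫ z in Q R, g z ≤ P * ∫ z in D, g z := by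
  have hQ : Bornology.IsBounded (Q R) := Metric.isBounded_closedBall
  have hQm : MeasurableSet (Q R) := Metric.isClosed_closedBall.measurableSet
  have hK : IsCompact (closure (Q R ∪ D)) :=
    Metric.isCompact_of_isClosed_isBounded isClosed_closure (hQ.union hX.bdd).closure
  have hfin := hX.proper _ hK
  set S := hfin.toFinset with hS
  refine ⟨S.card + 1, by positivity, fun g hcont hnng hgam => ?_⟩
  have hen : 0 ≤ ∫ z in D, g z := integral_nonneg fun z => hnng z
  have h1 : ∫ z in Q R, g z ≤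
      ∑ γ ∈ S, ∫ z in (fun w : Pl => γ • w) '' D, g z := by
    rw [← integral_indicator hQm]
    have h2 : ∀ γ ∈ S, ∫ z in (fun w : Pl => γ • w) '' D, g z =
        ∫ z, indicator ((fun w : Pl => γ • w) '' D) g z := fun γ _ =>
      (integral_indicator (Cover_meas hX γ)).symm
    rw [Finset.sum_congr rfl h2, ← integral_finsetSum]
    · apply integral_mono
      · rw [integrable_indicator_iff hQm]
        exact (hcont.continuousOn.integrableOn_compact hK).mono_set
          (subset_union_left.trans subset_closure)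
      · apply integrable_finsetSum
        intro γ _
        rw [integrable_indicator_iff (Cover_meas hX γ)]
        exact Cover_int hX γ hcont
      · intro z
        have hnn : ∀ γ ∈ S, 0 ≤ indicator ((fun w : Pl => γ • w) '' D) g z := fun γ _ =>
          indicator_nonneg (fun y _ => hnng y) z
        by_cases hz : z ∈ Q R
        · obtain ⟨γ, hγ, -⟩ := hX.orbit z
          have hmem : γ⁻¹ ∈ S := by
            rw [hS, Finite.mem_toFinset]
            have h5 : γ⁻¹ • γ • z = z := by simp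
            refine ⟨γ • z, subset_closure (Or.inr hγ), ?_⟩
            rw [h5]
            exact subset_closure (Or.inl hz)
          have hz' : z ∈ (fun w : Pl => γ⁻¹ • w) '' D := ⟨γ • z, hγ, by simp⟩
          have h6 := Finset.single_le_sum hnn hmem
          rw [indicator_of_mem hz'] at h6
          rw [indicator_of_mem hz]
          exact h6
        · rw [indicator_of_notMem hz]
          exact Finset.sum_nonneg hnn
    · intro γ _
      rw [integrable_indicator_iff (Cover_meas hX γ)]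
      exact Cover_int hX γ hcont
  have h3 : ∑ γ ∈ S, ∫ z in (fun w : Pl => γ • w) '' D, g z =
      S.card * ∫ z in D, g z := by
    rw [Finset.sum_congr rfl (fun γ _ => hgam γ), Finset.sum_const, nsmul_eq_mul]
  calc _ ≤ _ := h1
    _ = S.card * ∫ z in D, g z := h3
    _ ≤ (S.card + 1) * ∫ z in D, g z := by
        apply mul_le_mul_of_nonneg_right _ hen
        linarith

/-- A positive continuous function is bounded above on `Q R` by a positive constant. -/
theorem B2a_bd (R : ℝ) {g : Pl → ℝ} (hg : Continuous g) :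
    ∃ M : ℝ, 0 < M ∧ ∀ z ∈ Q R, g z ≤ M := by
  obtain ⟨M, hM⟩ := (isCompact_closedBall (0 : Pl) R).exists_bound_of_continuousOn
    (f := g) hg.continuousOn
  refine ⟨|M| + 1, by positivity, fun z hz => ?_⟩
  have h1 := hM z hz
  have h2 : g z ≤ ‖g z‖ := Real.le_norm_self _
  have h3 := le_abs_self M
  linarith

theorem n0_le (hX : Surface Γ D) (m : Mt Γ D) (R : ℝ) : ∃ C : ℝ, 0 < C ∧ ∀ v : TestS Γ,
    n0 R v.1 ≤ C * bF hX m (oneT Γ) v v := by
  obtain ⟨P, hP, hP2⟩ := B2a_cover hX R
  have hv1 : Continuous fun z => 1 / vol m z :=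
    continuous_const.div (smooth_vol m).continuous fun z => (vol_pos m z).ne'
  obtain ⟨M, hM, hM2⟩ := B2a_bd R hv1
  refine ⟨M * P, by positivity, fun v => ?_⟩
  have hvs : Continuous v.1 := v.2.1.continuous
  have hgc : Continuous fun z => v.1 z ^ 2 * vol m z := (hvs.pow 2).mul (smooth_vol m).continuous
  have h1 := hP2 (fun z => v.1 z ^ 2 * vol m z) hgc
    (fun z => mul_nonneg (sq_nonneg _) (vol_pos m z).le) (fun γ => by
      have := PER_one hX m γ (f := fun _ => 1) (g := fun z => v.1 z ^ 2)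
        (fun δ z => by show v.1 (δ • z) ^ 2 = v.1 z ^ 2; rw [v.2.2 δ z])
      simpa only [one_mul, vol] using this)
  have h2 : bF hX m (oneT Γ) v v = ∫ z in D, v.1 z ^ 2 * vol m z := by
    rw [bF_one_self]
    rfl
  rw [h2]
  have h3 : n0 R v.1 ≤ M * ∫ z in Q R, v.1 z ^ 2 * vol m z := by
    unfold n0
    rw [← integral_const_mul]
    apply setIntegral_mono_on (intQ (hvs.pow 2) R) ((intQ hgc R).const_mul M)
      Metric.isClosed_closedBall.measurableSet
    intro z hz
    have h4 := hM2 z hz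
    have h5 := vol_pos m z
    have h6 : 1 ≤ M * vol m z := by
      rw [div_le_iff₀ h5] at h4
      exact h4
    show v.1 z ^ 2 ≤ M * (v.1 z ^ 2 * vol m z)
    nlinarith [sq_nonneg (v.1 z)]
  calc n0 R v.1 ≤ M * ∫ z in Q R, v.1 z ^ 2 * vol m z := h3
    _ ≤ M * (P * ∫ z in D, v.1 z ^ 2 * vol m z) := mul_le_mul_of_nonneg_left h1 hM.le
    _ = M * P * ∫ z in D, v.1 z ^ 2 * vol m z := by ring

theorem B2a_wf (m : Mt Γ D) (z : Pl) (p q : ℝ) :
    p ^ 2 + q ^ 2 ≤ ((m.1.1 z).2.2 / vol m z + (m.1.1 z).1 / vol m z) * wf (m.1.1 z) p q := by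
  have h := m.2.pos z
  have h1 := Cmp_one h.2
  rw [Cmp_wf]
  unfold vol
  set A := (m.1.1 z).2.2 / √(dt (m.1.1 z))
  set B := (m.1.1 z).2.1 / √(dt (m.1.1 z))
  set C := (m.1.1 z).1 / √(dt (m.1.1 z))
  have e : (A + C) * (A * p ^ 2 - 2 * B * p * q + C * q ^ 2) =
      (A * p - B * q) ^ 2 + (B * p - C * q) ^ 2 + (A * C - B ^ 2) * (p ^ 2 + q ^ 2) := by ring
  rw [h1] at e
  rw [e]
  nlinarith [sq_nonneg (A * p - B * q), sq_nonneg (B * p - C * q)]

theorem n1_le (hX : Surface Γ D) (m : Mt Γ D) (R : ℝ) : ∃ C : ℝ, 0 < C ∧ ∀ v : TestS Γ,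
    n1 R v.1 ≤ C * aF hX m v v := by
  obtain ⟨P, hP, hP2⟩ := en_cover hX m (Q R) Metric.isBounded_closedBall
    Metric.isClosed_closedBall.measurableSet
  have hmc : Continuous m.1.1 := m.1.2.continuous
  have hv1 : Continuous fun z => (m.1.1 z).2.2 / vol m z + (m.1.1 z).1 / vol m z :=
    (hmc.snd.snd.div (smooth_vol m).continuous fun z => (vol_pos m z).ne').add
      (hmc.fst.div (smooth_vol m).continuous fun z => (vol_pos m z).ne')
  obtain ⟨M, hM, hM2⟩ := B2a_bd R hv1
  refine ⟨M * P, by positivity, fun v => ?_⟩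
  have h1 := hP2 v.1 v.2
  have h3 : n1 R v.1 ≤ M * ∫ z in Q R, wf (m.1.1 z) (dx v.1 z) (dy v.1 z) := by
    unfold n1
    rw [← integral_const_mul]
    apply setIntegral_mono_on (intQ (smooth_G1 v.2.1).continuous R)
      ((intQ (Cmp_wf_cont m v.2.1) R).const_mul M)
      Metric.isClosed_closedBall.measurableSet
    intro z hz
    have h4 := hM2 z hz
    have h5 := B2a_wf m z (dx v.1 z) (dy v.1 z)
    have h6 := Cover_wf_nonneg m z (dx v.1 z) (dy v.1 z)
    calc G1 v.1 z ≤ _ := h5
      _ ≤ M * wf (m.1.1 z) (dx v.1 z) (dy v.1 z) := mul_le_mul_of_nonneg_right h4 h6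
  rw [aF_self]
  calc n1 R v.1 ≤ M * ∫ z in Q R, wf (m.1.1 z) (dx v.1 z) (dy v.1 z) := h3
    _ ≤ M * (P * en D m.1.1 v.1) := mul_le_mul_of_nonneg_left h1 hM.le
    _ = M * P * en D m.1.1 v.1 := by ring

end QR
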