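import Pool.Agent.LibQR40.B1a

/-! ROW B2b. (partition of unity). -/

open MeasureTheory Set Filter Topology
open scoped ContDiff ENNReal NNReal

namespace QR

open BGS

variable {Γ : Type} [Group Γ] [MulAction Γ Pl] {D : Set Pl}

theorem b_le_n0 (hX : Surface Γ D) (m : Mt Γ D) : ∃ R C : ℝ, 0 < C ∧ ∀ v : TestS Γ,
    bF hX m (oneT Γ) v v ≤ C * n0 R v.1 := by
  obtain ⟨R, hR⟩ := hX.bdd.subset_closedBall (0 : Pl)
  obtain ⟨M, hM⟩ := (isCompact_closedBall (0 : Pl) R).exists_bound_of_continuousOn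
    (f := vol m) (smooth_vol m).continuous.continuousOn
  have hM2 : ∀ z ∈ Q R, vol m z ≤ |M| + 1 := fun z hz => by
    have h1 := hM z hz
    have h2 : vol m z ≤ ‖vol m z‖ := Real.le_norm_self _
    have h3 := le_abs_self M
    linarith
  refine ⟨R, |M| + 1, by positivity, fun v => ?_⟩
  have hvs : Continuous v.1 := v.2.1.continuous
  have hgc : Continuous fun z => v.1 z ^ 2 * vol m z := (hvs.pow 2).mul (smooth_vol m).continuous
  have h2 : bF hX m (oneT Γ) v v = ∫ z in D, v.1 z ^ 2 * vol m z := by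
    rw [bF_one_self]
    rfl
  rw [h2]
  have h3 : ∫ z in D, v.1 z ^ 2 * vol m z ≤ ∫ z in Q R, v.1 z ^ 2 * vol m z :=
    setIntegral_mono_set (intQ hgc R)
      (ae_of_all _ fun z => mul_nonneg (sq_nonneg _) (vol_pos m z).le) hR.eventuallyLE
  refine h3.trans ?_
  unfold n0
  rw [← integral_const_mul]
  apply setIntegral_mono_on (intQ hgc R) ((intQ (hvs.pow 2) R).const_mul _)
    Metric.isClosed_closedBall.measurableSet
  intro z hz
  have h4 := hM2 z hz
  show v.1 z ^ 2 * vol m z ≤ (|M| + 1) * v.1 z ^ 2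
  rw [mul_comm]
  exact mul_le_mul_of_nonneg_right h4 (sq_nonneg _)

theorem exists_pou (hX : Surface Γ D) : ∃ χ : Pl → ℝ, IsT χ ∧ ∀ z, per Γ χ z = 1 := by
  obtain ⟨R, hR⟩ := hX.bdd.subset_closedBall (0 : Pl)
  have hRp : 0 < |R| + 1 := by positivity
  set f : ContDiffBump (0 : Pl) := ⟨|R| + 1, |R| + 2, hRp, by linarith⟩ with hf
  have hfs : ContDiff ℝ ∞ (f : Pl → ℝ) := f.contDiff
  have hfc : HasCompactSupport (f : Pl → ℝ) := f.hasCompactSupport
  have hf1 : ∀ z ∈ D, f z = 1 := by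
    intro z hz
    apply f.one_of_mem_closedBall
    have h1 := hR hz
    rw [mem_closedBall_zero_iff] at h1 ⊢
    have h2 := le_abs_self R
    show ‖z‖ ≤ |R| + 1
    linarith
  have hp := per_mem hX hfs hfc
  have hp1 : ∀ z, 1 ≤ per Γ f z := by
    intro z
    obtain ⟨γ, hγ, -⟩ := hX.orbit z
    obtain ⟨S, hS0, hS⟩ := PER_fin hX hfc (isCompact_singleton (x := z))
    rw [hS z rfl]
    have hmem : γ ∈ S := by
      by_contra h
      have h1 := hS0 z rfl γ h
      rw [hf1 _ hγ] at h1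
      exact one_ne_zero h1
    have h6 := Finset.single_le_sum (f := fun γ : Γ => f (γ • z)) (fun γ _ => f.nonneg) hmem
    have h7 : f (γ • z) = 1 := hf1 _ hγ
    calc (1 : ℝ) = f (γ • z) := h7.symm
      _ ≤ _ := h6
  have hpne : ∀ z, per Γ f z ≠ 0 := fun z => (lt_of_lt_of_le one_pos (hp1 z)).ne'
  refine ⟨fun z => f z / per Γ f z, ⟨hfs.div hp.1 hpne, ?_⟩, fun z => ?_⟩
  · have : (fun z => f z / per Γ f z) = fun z => f z * (per Γ f z)⁻¹ := by
      funext z
      rw [div_eq_mul_inv]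
    rw [this]
    exact hfc.mul_right
  · have h1 : per Γ (fun z => f z / per Γ f z) z = per Γ f z / per Γ f z := by
      have h2 : ∀ γ : Γ, f (γ • z) / per Γ f (γ • z) = f (γ • z) * (per Γ f z)⁻¹ := fun γ => by
        rw [PER_inv, div_eq_mul_inv]
      show ∑ᶠ γ : Γ, f (γ • z) / per Γ f (γ • z) = _
      rw [finsum_congr h2, ← finsum_mul', div_eq_mul_inv]
      · rfl
      · have hfin := hX.proper ({z} ∪ tsupport (f : Pl → ℝ)) (isCompact_singleton.union hfc)
        apply hfin.subset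
        intro γ hγ
        exact ⟨z, Or.inl rfl, Or.inr (subset_tsupport (f : Pl → ℝ) hγ)⟩
    rw [h1, div_self (hpne z)]

end QR
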