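import Pool.Agent.LibQR40.B1c
import Pool.Agent.LibQR40.B2a
import Pool.Agent.LibQR40.B2b

/-! ROW B2c. Put auxiliary lemmas in this file, names starting with `B2c_`.
(the energy against a fixed function is L²-continuous). PLAN: with χ of `exists_pou`: v = per Γ (χ v) (v invariant), so
aF v h = aF h v (symmetric: unfold, q2 is symmetric) = aF h (perT (χ v)) = ∫ q2 A h (χ v) = - ∫ Lu A h * (χ v) (`aF_per`, `ip_q2`), at most
C sqrt(n0 R v) with supp χ in Q R (Cauchy–Schwarz), and `n0_le`. -/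

open MeasureTheory Set Filter Topology
open scoped ContDiff ENNReal NNReal

namespace QR

open BGS

variable {Γ : Type} [Group Γ] [MulAction Γ Pl] {D : Set Pl}

theorem B2c_symm (hX : Surface Γ D) (m : Mt Γ D) (u v : TestS Γ) : aF hX m u v = aF hX m v u := by
  rw [aF_apply, aF_apply]
  congr 1
  funext z
  unfold wf2
  congr 1
  ring

theorem B2c_per (hX : Surface Γ D) {χ : Pl → ℝ} (hχ1 : ∀ z, per Γ χ z = 1) (v : TestS Γ)
    (hv : IsT (fun z => v.1 z * χ z)) : perT hX hv = v := by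
  apply Subtype.ext
  funext z
  show per Γ (fun z => v.1 z * χ z) z = v.1 z
  have h1 := hχ1 z
  unfold per at h1 ⊢
  have h2 : ∀ γ : Γ, v.1 (γ • z) * χ (γ • z) = v.1 z • χ (γ • z) := by
    intro γ
    rw [v.2.2 γ z, smul_eq_mul]
  rw [finsum_congr h2, ← smul_finsum, h1, smul_eq_mul, mul_one]

/-- Cauchy–Schwarz on a square. -/
theorem B2c_cs (R : ℝ) {g v : Pl → ℝ} (hg : Continuous g) (hv : Continuous v) :
    |∫ z in Q R, g z * v z| ≤ √(n0 R g) * √(n0 R v) := by
  have hd : discrim (n0 R v) (-2 * ∫ z in Q R, g z * v z) (n0 R g) ≤ 0 := by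
    apply discrim_le_zero
    intro s
    have hnn : 0 ≤ ∫ z in Q R, (g z - s * v z) ^ 2 := integral_nonneg fun _ => sq_nonneg _
    have he : ∫ z in Q R, (g z - s * v z) ^ 2 =
        n0 R v * (s * s) + (-2 * ∫ z in Q R, g z * v z) * s + n0 R g := by
      have i1 : IntegrableOn (fun z => v z ^ 2) (Q R) := intQ (hv.pow 2) R
      have i2 : IntegrableOn (fun z => g z * v z) (Q R) := intQ (hg.mul hv) R
      have i3 : IntegrableOn (fun z => g z ^ 2) (Q R) := intQ (hg.pow 2) R
      have e1 : ∀ z, (g z - s * v z) ^ 2 =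
          (s * s) * v z ^ 2 + (-2 * s) * (g z * v z) + g z ^ 2 := fun z => by ring
      simp only [e1]
      have j1 : Integrable (fun z => (s * s) * v z ^ 2) (volume.restrict (Q R)) := i1.const_mul _
      have j2 : Integrable (fun z => (-2 * s) * (g z * v z)) (volume.restrict (Q R)) := i2.const_mul _
      have j12 : Integrable (fun z => (s * s) * v z ^ 2 + (-2 * s) * (g z * v z))
          (volume.restrict (Q R)) := j1.add j2
      rw [integral_add j12 i3, integral_add j1 j2, integral_const_mul, integral_const_mul]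
      unfold n0
      ring
    rw [← he]
    exact hnn
  have h1 : (∫ z in Q R, g z * v z) ^ 2 ≤ n0 R g * n0 R v := by
    unfold discrim at hd
    nlinarith
  rw [← Real.sqrt_mul (n0_nonneg R g)]
  exact Real.abs_le_sqrt h1

theorem aF_small (hX : Surface Γ D) (m : Mt Γ D) (h : TestS Γ) : ∃ C : ℝ, 0 < C ∧
    ∀ v : TestS Γ, |aF hX m v h| ≤ C * √(bF hX m (oneT Γ) v v) := by
  obtain ⟨χ, hχ, hχ1⟩ := exists_pou hX
  -- the support of `χ`
  obtain ⟨R, hR⟩ : ∃ R : ℝ, tsupport χ ⊆ Q R := by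
    obtain ⟨R, hR⟩ := hχ.2.isCompact.isBounded.subset_closedBall (0 : Pl)
    exact ⟨R, hR⟩
  obtain ⟨C1, hC1, hn⟩ := n0_le hX m R
  set g : Pl → ℝ := fun z => Lu (coefM m) h.1 z * χ z with hg
  have hgc : Continuous g := ((smooth_Lu (coefM m) h.2.1).continuous).mul hχ.1.continuous
  refine ⟨√(n0 R g) * √C1 + 1, by positivity, fun v => ?_⟩
  have hvc : Continuous v.1 := v.2.1.continuous
  have hvχ : IsT (fun z => v.1 z * χ z) := cpt_mul hχ v.2.1
  have e1 : aF hX m v h = - ∫ z, Lu (coefM m) h.1 z * (v.1 z * χ z) := by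
    rw [B2c_symm hX m v h]
    conv_lhs => rw [← B2c_per hX hχ1 v hvχ]
    rw [aF_per hX m h hvχ]
    exact ip_q2 (coefM m) h.2.1 hvχ
  have e2 : ∫ z, Lu (coefM m) h.1 z * (v.1 z * χ z) = ∫ z in Q R, g z * v.1 z := by
    rw [setIntegral_eq_integral_of_forall_compl_eq_zero]
    · congr 1
      funext z
      simp only [hg]
      ring
    · intro z hz
      have : χ z = 0 := image_eq_zero_of_notMem_tsupport fun h => hz (hR h)
      simp only [hg]
      rw [this]
      ring
  rw [e1, abs_neg, e2]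
  have h3 := B2c_cs R hgc hvc
  have h4 : √(n0 R v.1) ≤ √C1 * √(bF hX m (oneT Γ) v v) := by
    rw [← Real.sqrt_mul hC1.le]
    exact Real.sqrt_le_sqrt (hn v)
  calc |∫ z in Q R, g z * v.1 z| ≤ √(n0 R g) * √(n0 R v.1) := h3
    _ ≤ √(n0 R g) * (√C1 * √(bF hX m (oneT Γ) v v)) :=
        mul_le_mul_of_nonneg_left h4 (Real.sqrt_nonneg _)
    _ ≤ (√(n0 R g) * √C1 + 1) * √(bF hX m (oneT Γ) v v) := by
        have := Real.sqrt_nonneg (bF hX m (oneT Γ) v v)
        nlinarith

end QR
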