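import Pool.Agent.LibQR40.RGa
import Pool.Agent.LibQR40.RGb

/-! ROW RG. Put auxiliary lemmas in this file, names starting with `RG_`.
(the regularity theorem). PLAN: choose Ue k (`exists_Ue`). All sequences Dw l (Ue ·) are L²-Cauchy (`cauchy_Dw`, `bd_all`), and uniformly
Cauchy on squares by `interp2` applied to the differences (n0 small, n1 and n2 bounded by `bd_all`). `smooth_limit` gives U with
ULim Ue U. L² convergence of u n: n0 R (u n - U) ≤ 2 n0 R (u n - Ue k) + 2 n0 R (Ue k - U), `Ue_close` and `ULim_n0`.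
Equation: ∫ (q2 A U χ - V U χ) = lim_k ∫ (q2 A (Ue k) χ - V Ue k χ) = 0 (`weak_Ue`, uniform convergence of Ue and its first derivatives on the
support of χ), so ∫ (Lu A U + V U) χ = 0 for all test functions (`ip_q2`), hence Lu A U + V U = 0 (`eq_zero_of_test`). -/

open MeasureTheory Set Filter Topology
open scoped ContDiff ENNReal NNReal

namespace QR

open BGS

theorem RG_mul_int {g χ : Pl → ℝ} (hg : ContDiff ℝ ∞ g) (hχ : IsT χ) :
    Integrable (fun z => g z * χ z) :=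
  (cpt_mul hχ hg).1.continuous.integrable_of_hasCompactSupport (cpt_mul hχ hg).2

theorem RG_q2_int (A : Coef) {g χ : Pl → ℝ} (hg : ContDiff ℝ ∞ g) (hχ : IsT χ) :
    Integrable (fun z => q2 A g χ z) := by
  have : Continuous (fun z => q2 A g χ z) := (smooth_q2 A hg hχ.1).continuous
  refine this.integrable_of_hasCompactSupport ?_
  have c1 := (cpt_mul (cpt_pd hχ true) (smooth_fx A hg)).2
  have c2 := (cpt_mul (cpt_pd hχ false) (smooth_fy A hg)).2
  exact c1.add c2

/-- The weak form, everything on the test function. -/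
theorem RG_weak (A : Coef) {V g χ : Pl → ℝ} (hV : ContDiff ℝ ∞ V) (hg : ContDiff ℝ ∞ g) (hχ : IsT χ) :
    ∫ z, (q2 A g χ z - V z * g z * χ z) = - ∫ z, g z * (Lu A χ z + V z * χ z) := by
  have h1 : ∫ z, (q2 A g χ z - V z * g z * χ z) = (∫ z, q2 A g χ z) - ∫ z, V z * g z * χ z :=
    integral_sub (RG_q2_int A hg hχ) (RG_mul_int (hV.mul hg) hχ)
  have h2 : ∫ z, (g z * Lu A χ z + g z * (V z * χ z)) =
      (∫ z, g z * Lu A χ z) + ∫ z, g z * (V z * χ z) :=
    integral_add (RG_mul_int hg (cpt_Lu A hχ)) (RG_mul_int hg (cpt_mul hχ hV))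
  have h3 : ∫ z, g z * (Lu A χ z + V z * χ z) = ∫ z, (g z * Lu A χ z + g z * (V z * χ z)) :=
    integral_congr_ae (ae_of_all _ fun z => by ring)
  have h4 : ∫ z, V z * g z * χ z = ∫ z, g z * (V z * χ z) :=
    integral_congr_ae (ae_of_all _ fun z => by ring)
  rw [h1, h3, h2, ip_sym A hg hχ, h4]
  ring

/-- The weak form, everything on the function. -/
theorem RG_weak' (A : Coef) {V g χ : Pl → ℝ} (hV : ContDiff ℝ ∞ V) (hg : ContDiff ℝ ∞ g) (hχ : IsT χ) :
    ∫ z, (q2 A g χ z - V z * g z * χ z) = - ∫ z, (Lu A g z + V z * g z) * χ z := by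
  have h1 : ∫ z, (q2 A g χ z - V z * g z * χ z) = (∫ z, q2 A g χ z) - ∫ z, V z * g z * χ z :=
    integral_sub (RG_q2_int A hg hχ) (RG_mul_int (hV.mul hg) hχ)
  have h2 : ∫ z, (Lu A g z * χ z + V z * g z * χ z) =
      (∫ z, Lu A g z * χ z) + ∫ z, V z * g z * χ z :=
    integral_add (RG_mul_int (smooth_Lu A hg) hχ) (RG_mul_int (hV.mul hg) hχ)
  have h3 : ∫ z, (Lu A g z + V z * g z) * χ z = ∫ z, (Lu A g z * χ z + V z * g z * χ z) :=
    integral_congr_ae (ae_of_all _ fun z => by ring)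
  rw [h1, h3, h2, ip_q2 A hg hχ]
  ring

theorem RG_cut {g : Pl → ℝ} (hg : HasCompactSupport g) : ∃ S : ℝ, ∀ z, z ∉ Q S → g z = 0 := by
  obtain ⟨S, hS⟩ := hg.isBounded.subset_closedBall (0 : Pl)
  exact ⟨S, fun z hz => image_eq_zero_of_notMem_tsupport fun h => hz (hS h)⟩

theorem RG_Dw_one (b : Bool) {f g : Pl → ℝ} (hf : ContDiff ℝ ∞ f) (hg : ContDiff ℝ ∞ g) (l : List Bool) :
    Dw [b] (fun z => Dw l f z - Dw l g z) = fun z => Dw (b :: l) f z - Dw (b :: l) g z := by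
  funext z
  exact pd_sub (smooth_Dw hf l) (smooth_Dw hg l) b z

theorem RG_Dw_two (b b' : Bool) {f g : Pl → ℝ} (hf : ContDiff ℝ ∞ f) (hg : ContDiff ℝ ∞ g) (l : List Bool) :
    Dw [b, b'] (fun z => Dw l f z - Dw l g z) =
      fun z => Dw (b :: b' :: l) f z - Dw (b :: b' :: l) g z := by
  have h1 : Dw [b, b'] (fun z => Dw l f z - Dw l g z) =
      Dw [b] (Dw [b'] (fun z => Dw l f z - Dw l g z)) := rfl
  rw [h1, RG_Dw_one b' hf hg l, RG_Dw_one b hf hg (b' :: l)]

theorem regular (A : Coef) {V : Pl → ℝ} (hV : ContDiff ℝ ∞ V) (u : ℕ → Pl → ℝ)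
    (hu : ∀ n, ContDiff ℝ ∞ (u n)) (hc : CauchyL u) (he : ∀ R : ℝ, ∃ C : ℝ, ∀ n, n1 R (u n) ≤ C)
    (hw : ∀ χ : Pl → ℝ, IsT χ →
      Tendsto (fun n => ∫ z, (q2 A (u n) χ z - V z * u n z * χ z)) atTop (𝓝 0)) :
    ∃ U : Pl → ℝ, ContDiff ℝ ∞ U ∧ (∀ R : ℝ, Tendsto (fun n => n0 R (fun z => u n z - U z)) atTop (𝓝 0)) ∧
      ∀ z, Lu A U z = - (V z * U z) := by
  have hpos : ∀ k : ℕ, (0 : ℝ) < 1 / ((k : ℝ) + 1) := fun k => by positivity
  have hone : ∀ k : ℕ, 1 / ((k : ℝ) + 1) ≤ 1 := fun k => by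
    rw [div_le_one (by positivity)]
    linarith [(Nat.cast_nonneg k : (0 : ℝ) ≤ k)]
  have hU : ∀ k : ℕ, ∃ V : Pl → ℝ, ULim (fun n => J (1 / ((k : ℝ) + 1)) (u n)) V := fun k =>
    exists_Ue u hu hc (hpos k) (hone k)
  choose Ue hUe using hU
  have hUs : ∀ n, ContDiff ℝ ∞ (Ue n) := fun n => (hUe n).1
  have hB : ∀ k : ℕ, Bd u k := bd_all A hV u hu hc he hw
  have hbd : ∀ (l : List Bool) (R : ℝ), ∃ C : ℝ, 0 < C ∧ ∀ n m,
      n0 R (fun z => Dw l (Ue n) z - Dw l (Ue m) z) ≤ C := by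
    intro l R
    obtain ⟨C, hC, h⟩ := IT2_bd (hB l.length) hUe (l := l) le_rfl R
    refine ⟨4 * C, by positivity, fun n m => ?_⟩
    refine (IT2_n0_sub_le R (smooth_Dw (hUs n) l).continuous (smooth_Dw (hUs m) l).continuous).trans ?_
    linarith [h n, h m]
  have hcau : ∀ (l : List Bool) (R δ : ℝ), 0 < δ → ∃ N : ℕ, ∀ n, N ≤ n → ∀ m, N ≤ m → ∀ z ∈ Q R,
      |Dw l (Ue n) z - Dw l (Ue m) z| ≤ δ := by
    intro l R δ hδ
    obtain ⟨C, hC, hint⟩ := interp2 R
    obtain ⟨B₀, hB₀, h₀⟩ := hbd l (R + 1)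
    obtain ⟨B₁, hB₁, h₁⟩ := hbd (true :: l) (R + 1)
    obtain ⟨B₂, hB₂, h₂⟩ := hbd (false :: l) (R + 1)
    obtain ⟨B₃, hB₃, h₃⟩ := hbd (true :: true :: l) (R + 1)
    obtain ⟨B₄, hB₄, h₄⟩ := hbd (true :: false :: l) (R + 1)
    obtain ⟨B₅, hB₅, h₅⟩ := hbd (false :: false :: l) (R + 1)
    set S : ℝ := √(B₀ + (B₁ + B₂) + (B₃ + B₄ + B₅)) + 1 with hS
    have hS0 : 0 < S := by positivity
    set τ : ℝ := (δ ^ 2 / (C * S)) with hτ
    have hτ0 : 0 < τ := by positivity
    obtain ⟨N, hN⟩ := cauchy_Dw u hu he (hB (l.length + 1)) Ue hUe l le_rfl (R + 1) (τ ^ 2) (by positivity)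
    refine ⟨N, fun n hn m hm z hz => ?_⟩
    have hsm : ContDiff ℝ ∞ (fun z => Dw l (Ue n) z - Dw l (Ue m) z) :=
      (smooth_Dw (hUs n) l).sub (smooth_Dw (hUs m) l)
    have hi := hint _ hsm z hz
    have hn1 : n1 (R + 1) (fun z => Dw l (Ue n) z - Dw l (Ue m) z) ≤ B₁ + B₂ := by
      rw [IT2_n1 (R + 1) hsm, RG_Dw_one true (hUs n) (hUs m) l, RG_Dw_one false (hUs n) (hUs m) l]
      exact add_le_add (h₁ n m) (h₂ n m)
    have hn2 : n2 (R + 1) (fun z => Dw l (Ue n) z - Dw l (Ue m) z) ≤ B₃ + B₄ + B₅ := by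
      rw [IT2_n2 (R + 1) hsm, RG_Dw_two true true (hUs n) (hUs m) l,
        RG_Dw_two true false (hUs n) (hUs m) l, RG_Dw_two false false (hUs n) (hUs m) l]
      exact add_le_add (add_le_add (h₃ n m) (h₄ n m)) (h₅ n m)
    have hs1 : √(n0 (R + 1) (fun z => Dw l (Ue n) z - Dw l (Ue m) z)) ≤ τ :=
      Real.sqrt_le_iff.2 ⟨hτ0.le, hN n hn m hm⟩
    have hs2 : √(n0 (R + 1) (fun z => Dw l (Ue n) z - Dw l (Ue m) z) +
        n1 (R + 1) (fun z => Dw l (Ue n) z - Dw l (Ue m) z) +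
        n2 (R + 1) (fun z => Dw l (Ue n) z - Dw l (Ue m) z)) ≤ S := by
      have := Real.sqrt_le_sqrt (add_le_add (add_le_add (h₀ n m) hn1) hn2)
      linarith
    have hprod := mul_le_mul hs1 hs2 (Real.sqrt_nonneg _) hτ0.le
    have hfin : (Dw l (Ue n) z - Dw l (Ue m) z) ^ 2 ≤ δ ^ 2 := by
      refine hi.trans ((mul_le_mul_of_nonneg_left hprod hC.le).trans (le_of_eq ?_))
      rw [hτ]
      field_simp
    exact abs_le_of_sq_le_sq hfin hδ.le
  obtain ⟨U, hUlim⟩ := smooth_limit Ue hUs hcau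
  have hUsm : ContDiff ℝ ∞ U := hUlim.1
  refine ⟨U, hUsm, fun R => ?_, ?_⟩
  · rw [Metric.tendsto_atTop]
    intro δ hδ
    obtain ⟨C, hC, hcl⟩ := Ue_close u hu he R
    have hz := (ULim_n0 hUs hUlim [] R).1
    rw [Metric.tendsto_atTop] at hz
    obtain ⟨N₁, hN₁⟩ := hz (δ / 8) (by positivity)
    obtain ⟨N₂, hN₂⟩ := exists_nat_gt (8 * C / δ)
    set k := max N₁ N₂ with hk
    have hk1 := hN₁ k (le_max_left _ _)
    rw [Real.dist_eq, sub_zero] at hk1
    have hk1' : n0 R (fun z => Ue k z - U z) < δ / 8 := (le_abs_self _).trans_lt hk1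
    obtain ⟨N, hN⟩ := hcl (1 / ((k : ℝ) + 1)) (Ue k) (hpos k) (hone k) (hUe k)
    refine ⟨N, fun n hn => ?_⟩
    rw [Real.dist_eq, sub_zero, abs_of_nonneg (n0_nonneg _ _)]
    have h1 := hN n hn
    have h2 : C * (1 / ((k : ℝ) + 1)) ^ 2 ≤ δ / 8 := by
      have hkN : (N₂ : ℝ) ≤ k := by exact_mod_cast le_max_right _ _
      have hk0 : (0 : ℝ) < (k : ℝ) + 1 := by positivity
      have h8 : 8 * C / δ < (k : ℝ) + 1 := by linarith
      rw [div_lt_iff₀ hδ] at h8
      have hle : (1 / ((k : ℝ) + 1)) ^ 2 ≤ 1 / ((k : ℝ) + 1) := by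
        rw [sq]
        exact mul_le_of_le_one_left (hpos k).le (hone k)
      refine (mul_le_mul_of_nonneg_left hle hC.le).trans ?_
      rw [mul_one_div, div_le_iff₀ hk0]
      linarith
    have h3 : n0 R (fun z => u n z - U z) ≤
        2 * n0 R (fun z => u n z - Ue k z) + 2 * n0 R (fun z => Ue k z - U z) := by
      have h := n0_add_le R (u := fun z => u n z - Ue k z) (v := fun z => Ue k z - U z)
        ((hu n).continuous.sub (hUs k).continuous) ((hUs k).continuous.sub hUsm.continuous)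
      have e : (fun z => (u n z - Ue k z) + (Ue k z - U z)) = fun z => u n z - U z := by
        funext z
        ring
      rw [e] at h
      exact h
    have h4 : n0 R (fun z => u n z - Ue k z) = n0 R (fun z => Ue k z - u n z) := by
      unfold n0
      refine integral_congr_ae (ae_of_all _ fun z => ?_)
      show (u n z - Ue k z) ^ 2 = (Ue k z - u n z) ^ 2
      ring
    rw [h4] at h3
    linarith
  · -- the equation
    have hweak : ∀ χ : Pl → ℝ, IsT χ → ∫ z, (q2 A U χ z - V z * U z * χ z) = 0 := by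
      intro χ hχ
      set g : Pl → ℝ := fun z => Lu A χ z + V z * χ z with hg
      have hgT : IsT g := by
        refine ⟨(smooth_Lu A hχ.1).add (hV.mul hχ.1), ?_⟩
        exact (cpt_Lu A hχ).2.add (cpt_mul hχ hV).2
      obtain ⟨S, hS⟩ := RG_cut hgT.2
      have hgi : Integrable (fun z => |g z|) :=
        (hgT.1.continuous.integrable_of_hasCompactSupport hgT.2).abs
      have hlim := weak_Ue A hV u hu he hw Ue hUe χ hχ
      have hlim2 : Tendsto (fun k => ∫ z, (q2 A (Ue k) χ z - V z * Ue k z * χ z)) atTop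
          (𝓝 (∫ z, (q2 A U χ z - V z * U z * χ z))) := by
        rw [Metric.tendsto_atTop]
        intro δ hδ
        set I : ℝ := ∫ z, |g z| with hI
        have hI0 : 0 ≤ I := integral_nonneg fun _ => abs_nonneg _
        obtain ⟨N, hN⟩ := hUlim.2 [] S (δ / (2 * (I + 1))) (by positivity)
        refine ⟨N, fun n hn => ?_⟩
        rw [RG_weak A hV (hUs n) hχ, RG_weak A hV hUsm hχ, Real.dist_eq]
        have e1 : -(∫ z, Ue n z * (Lu A χ z + V z * χ z)) - -(∫ z, U z * (Lu A χ z + V z * χ z)) =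
            - ∫ z, (Ue n z * g z - U z * g z) := by
          have : ∫ z, (Ue n z * g z - U z * g z) = (∫ z, Ue n z * g z) - ∫ z, U z * g z :=
            integral_sub (RG_mul_int (hUs n) hgT) (RG_mul_int hUsm hgT)
          rw [this]
          simp only [hg]
          ring
        rw [e1, abs_neg]
        have e2 : |∫ z, (Ue n z * g z - U z * g z)| ≤ ∫ z, δ / (2 * (I + 1)) * |g z| := by
          rw [← Real.norm_eq_abs]
          refine norm_integral_le_of_norm_le (hgi.const_mul (δ / (2 * (I + 1)))) (ae_of_all _ fun z => ?_)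
          by_cases hz : z ∈ Q S
          · have h1 := hN n hn z hz
            have h2 : Ue n z * g z - U z * g z = (Ue n z - U z) * g z := by ring
            rw [h2, norm_mul]
            exact mul_le_mul_of_nonneg_right h1 (abs_nonneg _)
          · rw [hS z hz]
            simp
        rw [integral_const_mul] at e2
        have e3 : δ / (2 * (I + 1)) * I < δ := by
          rw [div_mul_eq_mul_div, div_lt_iff₀ (by positivity)]
          nlinarith
        exact e2.trans_lt e3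
      exact tendsto_nhds_unique hlim2 hlim
    have hcont : Continuous fun z => Lu A U z + V z * U z :=
      (smooth_Lu A hUsm).continuous.add (hV.continuous.mul hUsm.continuous)
    have hz := eq_zero_of_test hcont (fun χ hχ => by
      have h := hweak χ hχ
      rw [RG_weak' A hV hUsm hχ] at h
      linarith)
    intro z
    have := hz z
    linarith

end QR
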