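import Pool.Agent.LibQR40.B2
import Pool.Agent.LibQR40.B3a
import Pool.Agent.LibQR40.RG

/-! ROW B3. Put auxiliary lemmas in this file, names starting with `B3_`.
(limits of approximate eigenfunctions are smooth eigenfunctions). PLAN of `lim_eig`: apply `regular` with
A = coefM m, V z = la * (w z * vol m z), u n = (u n).1: `CauchyL` from hc and `n0_le`; bounded energy from he and `n1_le`;
the weak equation from hl with h = perT hX hχ (`aF_per`, `bF_per`). The limit U is invariant: U ∘ γ and U are both the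
L²(Q R) limit of u n (u n ∘ γ = u n; change of variables y = γ z on Q R: γ '' Q R is compact, contained in some Q R', the
Jacobian of γ⁻¹ is bounded there), both continuous, so equal (n0 R (U - U ∘ γ) = 0 for all R). So U ∈ TestS Γ;
bF 1 (u n - U) (u n - U) ≤ C n0 R (..) → 0 (`b_le_n0`); finally aF U h = lim aF (u n) h (`aF_small` for u n - U) and
bF w U h = lim bF w (u n) h (Cauchy–Schwarz, w bounded on D), so `hl` gives the equation. -/

open MeasureTheory Set Filter Topology
open scoped ContDiff ENNReal NNReal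

namespace QR

open BGS

variable {Γ : Type} [Group Γ] [MulAction Γ Pl] {D : Set Pl}

theorem B3_change (hX : Surface Γ D) (m : Mt Γ D) (γ : Γ) (R : ℝ) : ∃ C R' : ℝ, 0 < C ∧
    ∀ h : Pl → ℝ, Continuous h → (∀ z, 0 ≤ h z) → ∫ z in Q R, h (γ • z) ≤ C * ∫ z in Q R', h z := by
  have hγ : Continuous fun z : Pl => γ • z := (hX.smooth γ).continuous
  have hv : Continuous (vol m) := (smooth_vol m).continuous
  have hk : Continuous fun z : Pl => vol m (γ • z) / vol m z :=
    (hv.comp hγ).div hv fun z => (vol_pos m z).ne'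
  have hk2 : Continuous fun z : Pl => vol m z / vol m (γ • z) :=
    hv.div (hv.comp hγ) fun z => (vol_pos m (γ • z)).ne'
  obtain ⟨C, hC, hCb⟩ := bdd_Q hk R
  have hQ : IsCompact (Q R) := isCompact_closedBall 0 R
  obtain ⟨R', hR'⟩ := (Metric.isBounded_iff_subset_closedBall (0 : Pl)).1
    ((hQ.image hγ).isBounded)
  refine ⟨C, R', hC, fun h hh h0 => ?_⟩
  have hhγ : Continuous fun z : Pl => h (γ • z) := hh.comp hγ
  have hdet : ∀ z : Pl, |(fderiv ℝ (fun w : Pl => γ • w) z).det| = vol m z / vol m (γ • z) := by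
    intro z
    rw [eq_div_iff (vol_pos m (γ • z)).ne']
    exact (PER_rho hX m γ z).symm
  have e1 : ∫ z in (fun w : Pl => γ • w) '' (Q R), h z =
      ∫ z in Q R, vol m z / vol m (γ • z) * h (γ • z) := by
    rw [integral_image_eq_integral_abs_det_fderiv_smul volume hQ.measurableSet
      (f' := fun z => fderiv ℝ (fun w : Pl => γ • w) z)
      (fun z _ => ((hX.smooth γ).differentiable (by simp) z).hasFDerivAt.hasFDerivWithinAt)
      (PER_inj γ).injOn]
    congr 1
    funext z
    rw [smul_eq_mul, hdet]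
  have e2 : ∫ z in Q R, h (γ • z) ≤ ∫ z in Q R, C * (vol m z / vol m (γ • z) * h (γ • z)) := by
    apply setIntegral_mono_on (intQ hhγ R) (intQ ((hk2.mul hhγ).const_smul C) R) hQ.measurableSet
    intro z hz
    have h1 := hCb z hz
    rw [abs_of_pos (div_pos (vol_pos m (γ • z)) (vol_pos m z))] at h1
    have h2 : 0 ≤ vol m z / vol m (γ • z) * h (γ • z) :=
      mul_nonneg (div_pos (vol_pos m z) (vol_pos m (γ • z))).le (h0 _)
    have h3 := mul_le_mul_of_nonneg_right h1 h2
    have h4 : vol m (γ • z) / vol m z * (vol m z / vol m (γ • z) * h (γ • z)) = h (γ • z) := by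
      have := (vol_pos m (γ • z)).ne'
      have := (vol_pos m z).ne'
      field_simp
    rw [h4] at h3
    exact h3
  refine e2.trans ?_
  rw [integral_const_mul, ← e1]
  refine mul_le_mul_of_nonneg_left ?_ hC.le
  exact setIntegral_mono_set (intQ hh R') (ae_of_all _ fun z => h0 z) hR'.eventuallyLE

theorem B3_zero {g : Pl → ℝ} (hg : Continuous g) (h : ∀ R, n0 R g = 0) (z : Pl) : g z = 0 := by
  have hg2 : Continuous fun y => g y ^ 2 := hg.pow 2
  have h1 := h (‖z‖ + 1)
  unfold n0 at h1
  rw [integral_eq_zero_iff_of_nonneg (fun y => sq_nonneg _) (intQ hg2 _)] at h1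
  have h2 : (fun y => g y ^ 2) =ᵐ[volume.restrict (Metric.ball (0 : Pl) (‖z‖ + 1))] fun _ => 0 :=
    ae_restrict_of_ae_restrict_of_subset Metric.ball_subset_closedBall h1
  have h3 := Measure.eqOn_open_of_ae_eq h2 Metric.isOpen_ball hg2.continuousOn continuousOn_const
  have h4 : z ∈ Metric.ball (0 : Pl) (‖z‖ + 1) := by
    rw [mem_ball_zero_iff]
    linarith
  have h5 : g z ^ 2 = 0 := h3 h4
  exact pow_eq_zero_iff (two_ne_zero) |>.1 h5

theorem B3_b_nonneg (hX : Surface Γ D) (m : Mt Γ D) (v : TestS Γ) :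
    0 ≤ bF hX m (oneT Γ) v v := by
  rw [bF_apply]
  apply integral_nonneg
  intro z
  show 0 ≤ 1 * v.1 z * v.1 z * √(dt (m.1.1 z))
  have := mul_self_nonneg (v.1 z)
  have := Real.sqrt_nonneg (dt (m.1.1 z))
  rw [one_mul]
  positivity

theorem B3_b_symm (hX : Surface Γ D) (m : Mt Γ D) (v v' : TestS Γ) :
    bF hX m (oneT Γ) v v' = bF hX m (oneT Γ) v' v := by
  rw [bF_apply, bF_apply]
  congr 1
  funext z
  ring

theorem B3_b_w (hX : Surface Γ D) (m : Mt Γ D) (w h : TestS Γ) : ∃ K : ℝ, ∀ v : TestS Γ,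
    bF hX m w v h ^ 2 ≤ bF hX m (oneT Γ) v v * K := by
  obtain ⟨wh, hwh⟩ : ∃ wh : TestS Γ, ∀ z, wh.1 z = w.1 z * h.1 z :=
    ⟨⟨fun z => w.1 z * h.1 z, w.2.1.mul h.2.1, fun γ z => by
      show w.1 (γ • z) * h.1 (γ • z) = w.1 z * h.1 z
      rw [w.2.2, h.2.2]⟩, fun z => rfl⟩
  refine ⟨bF hX m (oneT Γ) wh wh, fun v => ?_⟩
  have e1 : bF hX m w v h = bF hX m (oneT Γ) v wh := by
    rw [bF_apply, bF_apply]
    congr 1
    funext z
    rw [hwh]
    show _ = 1 * v.1 z * (w.1 z * h.1 z) * √(dt (m.1.1 z))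
    ring
  rw [e1, sq]
  conv_lhs => rw [mul_comm, B3_b_symm hX m v wh, mul_comm, B3_b_symm hX m wh v]
  have h2 := LinearMap.BilinForm.apply_mul_apply_le_of_forall_zero_le (bF hX m (oneT Γ))
    (B3_b_nonneg hX m) v wh
  rw [B3_b_symm hX m wh v] at h2
  exact h2

theorem lim_eig (hX : Surface Γ D) (m : Mt Γ D) (w : TestS Γ) (la : ℝ)
    (u : ℕ → TestS Γ)
    (hc : ∀ δ : ℝ, 0 < δ → ∃ N : ℕ, ∀ n, N ≤ n → ∀ k, N ≤ k →
      bF hX m (oneT Γ) (u n - u k) (u n - u k) ≤ δ)
    (he : ∃ C : ℝ, ∀ n, aF hX m (u n) (u n) ≤ C)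
    (hl : ∀ h : TestS Γ, Tendsto (fun n => aF hX m (u n) h - la * bF hX m w (u n) h) atTop (𝓝 0)) :
    ∃ U : TestS Γ, IsEig hX m w la U ∧
      Tendsto (fun n => bF hX m (oneT Γ) (u n - U) (u n - U)) atTop (𝓝 0) := by
  have hV : ContDiff ℝ ∞ fun z => la * (w.1 z * vol m z) :=
    contDiff_const.mul (w.2.1.mul (smooth_vol m))
  have hcL : CauchyL fun n => (u n).1 := by
    intro R δ hδ
    obtain ⟨C, hC, hCb⟩ := n0_le hX m R
    obtain ⟨N, hN⟩ := hc (δ / C) (div_pos hδ hC)
    refine ⟨N, fun n hn k hk => ?_⟩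
    have h1 := hCb (u n - u k)
    have h2 := mul_le_mul_of_nonneg_left (hN n hn k hk) hC.le
    rw [mul_div_cancel₀ _ hC.ne'] at h2
    exact h1.trans h2
  have he' : ∀ R : ℝ, ∃ C : ℝ, ∀ n, n1 R (u n).1 ≤ C := by
    intro R
    obtain ⟨C, hC, hCb⟩ := n1_le hX m R
    obtain ⟨C', hC'⟩ := he
    exact ⟨C * C', fun n => (hCb (u n)).trans (mul_le_mul_of_nonneg_left (hC' n) hC.le)⟩
  have hw : ∀ χ : Pl → ℝ, IsT χ → Tendsto (fun n => ∫ z, (q2 (coefM m) (u n).1 χ z -
      (la * (w.1 z * vol m z)) * (u n).1 z * χ z)) atTop (𝓝 0) := by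
    intro χ hχ
    refine (hl (perT hX hχ)).congr fun n => ?_
    rw [aF_per, bF_per, ← integral_const_mul, ← integral_sub]
    · congr 1
      funext z
      ring
    · have hs : HasCompactSupport (q2 (coefM m) (u n).1 χ) := by
        have h1 : HasCompactSupport (pd true χ) := (cpt_pd hχ true).2
        have h2 : HasCompactSupport (pd false χ) := (cpt_pd hχ false).2
        exact (h1.mul_left (f := fx (coefM m) (u n).1)).add
          (h2.mul_left (f := fy (coefM m) (u n).1))
      exact (smooth_q2 (coefM m) (u n).2.1 hχ.1).continuous.integrable_of_hasCompactSupport hs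
    · have hcont : Continuous fun z => la * (w.1 z * vol m z * (u n).1 z * χ z) :=
        continuous_const.mul (((w.2.1.continuous.mul (smooth_vol m).continuous).mul
          (u n).2.1.continuous).mul hχ.1.continuous)
      refine hcont.integrable_of_hasCompactSupport ?_
      have : (fun z => la * (w.1 z * vol m z * (u n).1 z * χ z)) =
          (fun z => la * (w.1 z * vol m z * (u n).1 z)) * χ := by
        funext z
        show _ = la * (w.1 z * vol m z * (u n).1 z) * χ z
        ring
      rw [this]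
      exact hχ.2.mul_left
  obtain ⟨U, hU, hUn, -⟩ := regular (coefM m) hV (fun n => (u n).1) (fun n => (u n).2.1) hcL he' hw
  -- invariance
  have hinv : ∀ (γ : Γ) (z : Pl), U (γ • z) = U z := by
    intro γ z
    have hγ : Continuous fun z : Pl => γ • z := (hX.smooth γ).continuous
    have hUγ : Continuous fun z : Pl => U (γ • z) := hU.continuous.comp hγ
    have h1 : ∀ R, n0 R (fun y => U (γ • y) - U y) = 0 := by
      intro R
      obtain ⟨C, R', hC, hCb⟩ := B3_change hX m γ R
      have h2 : ∀ n, n0 R (fun y => U (γ • y) - U y) ≤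
          2 * (C * n0 R' (fun y => (u n).1 y - U y)) + 2 * n0 R (fun y => (u n).1 y - U y) := by
        intro n
        have hun := (u n).2.1.continuous
        have h3 := n0_add_le R (hUγ.sub (hun.comp hγ)) (hun.sub hU.continuous)
        have h4 : n0 R (fun y => U (γ • y) - (u n).1 (γ • y)) ≤
            C * n0 R' (fun y => (u n).1 y - U y) := by
          have h5 := hCb (fun y => ((u n).1 y - U y) ^ 2) ((hun.sub hU.continuous).pow 2)
            (fun y => sq_nonneg _)
          refine le_trans (le_of_eq ?_) h5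
          unfold n0
          congr 1
          funext y
          ring
        have h6 : n0 R (fun y => U (γ • y) - U y) =
            n0 R (fun y => (U (γ • y) - (u n).1 (γ • y)) + ((u n).1 y - U y)) := by
          congr 1
          funext y
          rw [(u n).2.2]
          ring
        rw [h6]
        have h3' : n0 R (fun y => (U (γ • y) - (u n).1 (γ • y)) + ((u n).1 y - U y)) ≤
            2 * n0 R (fun y => U (γ • y) - (u n).1 (γ • y)) +
              2 * n0 R (fun y => (u n).1 y - U y) := h3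
        linarith
      have h3 : Tendsto (fun n => 2 * (C * n0 R' (fun y => (u n).1 y - U y)) +
          2 * n0 R (fun y => (u n).1 y - U y)) atTop (𝓝 (2 * (C * 0) + 2 * 0)) :=
        (((hUn R').const_mul C).const_mul 2).add ((hUn R).const_mul 2)
      have h4 := ge_of_tendsto' h3 h2
      have h5 := n0_nonneg R (fun y => U (γ • y) - U y)
      linarith
    have h2 : U (γ • z) - U z = 0 := B3_zero (hUγ.sub hU.continuous) h1 z
    linarith
  obtain ⟨Ut, hUt⟩ : ∃ Ut : TestS Γ, Ut.1 = U := ⟨⟨U, hU, hinv⟩, rfl⟩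
  -- convergence in the `L²` norm of the surface
  have hconv : Tendsto (fun n => bF hX m (oneT Γ) (u n - Ut) (u n - Ut)) atTop (𝓝 0) := by
    obtain ⟨R, C, hC, hCb⟩ := b_le_n0 hX m
    have h1 := (hUn R).const_mul C
    rw [mul_zero] at h1
    refine squeeze_zero (fun n => B3_b_nonneg hX m _) (fun n => ?_) h1
    have h2 := hCb (u n - Ut)
    have h3 : (u n - Ut).1 = fun z => (u n).1 z - U z := by
      rw [← hUt]
      rfl
    rw [h3] at h2
    exact h2
  refine ⟨Ut, fun h => ?_, hconv⟩
  have t1 : Tendsto (fun n => aF hX m (u n) h) atTop (𝓝 (aF hX m Ut h)) := by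
    obtain ⟨C, hC, hCb⟩ := aF_small hX m h
    have h1 : Tendsto (fun n => C * √(bF hX m (oneT Γ) (u n - Ut) (u n - Ut))) atTop (𝓝 0) := by
      have h2 := (hconv.sqrt).const_mul C
      rw [Real.sqrt_zero, mul_zero] at h2
      exact h2
    rw [tendsto_iff_dist_tendsto_zero]
    refine squeeze_zero (fun n => dist_nonneg) (fun n => ?_) h1
    rw [Real.dist_eq]
    have h3 := hCb (u n - Ut)
    rw [map_sub, LinearMap.sub_apply] at h3
    exact h3
  have t2 : Tendsto (fun n => bF hX m w (u n) h) atTop (𝓝 (bF hX m w Ut h)) := by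
    obtain ⟨K, hK⟩ := B3_b_w hX m w h
    have h1 : Tendsto (fun n => √(bF hX m (oneT Γ) (u n - Ut) (u n - Ut) * K)) atTop (𝓝 0) := by
      have h2 := (hconv.mul_const K).sqrt
      rw [zero_mul, Real.sqrt_zero] at h2
      exact h2
    rw [tendsto_iff_dist_tendsto_zero]
    refine squeeze_zero (fun n => dist_nonneg) (fun n => ?_) h1
    rw [Real.dist_eq]
    have h3 := hK (u n - Ut)
    rw [map_sub, LinearMap.sub_apply] at h3
    exact Real.abs_le_sqrt h3
  have t3 := t1.sub (t2.const_mul la)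
  have t4 := tendsto_nhds_unique t3 (hl h)
  linarith

end QR
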