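import Pool.Agent.LibQR40.C1a

/-! ROW C1. Put auxiliary lemmas in this file, names starting with `C1_`.
(the Carleman identity). PLAN: D = X - iY with X = ∂x - α ∂y, Y = β ∂y (real vector fields acting on complex
functions). Put v = e^{τψ} f = p + i q with real test functions p, q. Then e^{τψ} D f = P1 - P2 with P1 = X v + i τ (Yψ) v, P2 = i Y v + τ (Xψ) v, and
|P1 - P2|² = |P1|² + |P2|² - 2 Re (P1 conj P2). Integrate over the plane (all compactly supported, smooth):
-2 Re ∫ P1 conj P2 = - 2 Im ∫ Xv conj(Yv) - τ ∫ Xψ X|v|² - τ ∫ Yψ Y|v|² (the fourth term is purely imaginary)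
= - 2 ∫ (Xq Yp - Xp Yq) + τ ∫ (X²ψ + Y²ψ - (dy α) Xψ + (dy β) Yψ) |v|² (`ip_mul`; |v|² = p² + q²).
The first term is ≤ 2 K ∫ |q| (|Xp| + |Yp|) by `carl_cross`; |Xp| ≤ |Xv| ≤ |P1| + τ |Yψ| |v|, |Yp| ≤ |Yv| ≤ |P2| + τ |Xψ| |v|, |q| ≤ |v|, so it is at most
(1/2) ∫ (|P1|² + |P2|²) + C' ∫ (1 + τ(|dx ψ| + |dy ψ|)) |v|². Hence the claim with a constant K that depends only on α, β, z₀, S
(not on ψ, τ ≥ 0, f). Useful: real and imaginary parts of f are test functions; ‖f‖² = (re f)² + (im f)²; cdx f = dx (re f) + i dx (im f). -/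

open MeasureTheory Set Filter Topology
open scoped ContDiff ENNReal NNReal

namespace QR

open BGS

theorem C1_re {f : Pl → ℂ} (hf : ContDiff ℝ ∞ f) : ContDiff ℝ ∞ fun z => (f z).re :=
  Complex.reCLM.contDiff.comp hf

theorem C1_im {f : Pl → ℂ} (hf : ContDiff ℝ ∞ f) : ContDiff ℝ ∞ fun z => (f z).im :=
  Complex.imCLM.contDiff.comp hf

theorem C1_fre {f : Pl → ℂ} (hf : ContDiff ℝ ∞ f) (z v : Pl) :
    fderiv ℝ (fun z => (f z).re) z v = (fderiv ℝ f z v).re := by
  have h1 : HasFDerivAt f (fderiv ℝ f z) z := ((hf.differentiable (by simp)) z).hasFDerivAt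
  have h2 : HasFDerivAt (fun z => (f z).re) (Complex.reCLM.comp (fderiv ℝ f z)) z :=
    Complex.reCLM.hasFDerivAt.comp z h1
  rw [h2.fderiv]
  rfl

theorem C1_fim {f : Pl → ℂ} (hf : ContDiff ℝ ∞ f) (z v : Pl) :
    fderiv ℝ (fun z => (f z).im) z v = (fderiv ℝ f z v).im := by
  have h1 : HasFDerivAt f (fderiv ℝ f z) z := ((hf.differentiable (by simp)) z).hasFDerivAt
  have h2 : HasFDerivAt (fun z => (f z).im) (Complex.imCLM.comp (fderiv ℝ f z)) z :=
    Complex.imCLM.hasFDerivAt.comp z h1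
  rw [h2.fderiv]
  rfl

theorem C1_dop {f : Pl → ℂ} (hf : ContDiff ℝ ∞ f) (al be : Pl → ℝ) (z : Pl) :
    ‖Dop al be f z‖ ^ 2 =
      (XX al (fun z => (f z).re) z + YY be (fun z => (f z).im) z) ^ 2 +
      (XX al (fun z => (f z).im) z - YY be (fun z => (f z).re) z) ^ 2 := by
  rw [Complex.sq_norm, Complex.normSq_apply]
  have e1 : (Dop al be f z).re = XX al (fun z => (f z).re) z + YY be (fun z => (f z).im) z := by
    unfold Dop XX YY cdx cdy dx dy
    rw [C1_fre hf, C1_fre hf, C1_fim hf]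
    simp only [Complex.sub_re, Complex.mul_re, Complex.add_re, Complex.add_im, Complex.ofReal_re,
      Complex.ofReal_im, Complex.mul_im, Complex.I_re, Complex.I_im]
    ring
  have e2 : (Dop al be f z).im = XX al (fun z => (f z).im) z - YY be (fun z => (f z).re) z := by
    unfold Dop XX YY cdx cdy dx dy
    rw [C1_fre hf, C1_fim hf, C1_fim hf]
    simp only [Complex.sub_im, Complex.mul_re, Complex.add_re, Complex.add_im, Complex.ofReal_re,
      Complex.ofReal_im, Complex.mul_im, Complex.I_re, Complex.I_im]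
    ring
  rw [e1, e2]
  ring

theorem C1_E {ψ : Pl → ℝ} (hψ : ContDiff ℝ ∞ ψ) (τ : ℝ) :
    ContDiff ℝ ∞ fun z => Real.exp (τ * ψ z) := (contDiff_const.mul hψ).exp

theorem C1_fE {ψ : Pl → ℝ} (hψ : ContDiff ℝ ∞ ψ) (τ : ℝ) (z v : Pl) :
    fderiv ℝ (fun z => Real.exp (τ * ψ z)) z v = Real.exp (τ * ψ z) * (τ * fderiv ℝ ψ z v) := by
  have h1 : HasFDerivAt ψ (fderiv ℝ ψ z) z := (C1a_diff hψ z).hasFDerivAt
  have h2 := (h1.const_mul τ).exp
  rw [h2.fderiv]
  rfl

theorem C1_X {ψ a : Pl → ℝ} (hψ : ContDiff ℝ ∞ ψ) (ha : ContDiff ℝ ∞ a) (al : Pl → ℝ) (τ : ℝ)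
    (z : Pl) : XX al (fun z => Real.exp (τ * ψ z) * a z) z =
      Real.exp (τ * ψ z) * XX al a z + τ * XX al ψ z * (Real.exp (τ * ψ z) * a z) := by
  have h1 := C1a_dx_mul (C1_E hψ τ) ha z
  have h2 := C1a_dy_mul (C1_E hψ τ) ha z
  have h3 : dx (fun z => Real.exp (τ * ψ z)) z = Real.exp (τ * ψ z) * (τ * dx ψ z) :=
    C1_fE hψ τ z (1, 0)
  have h4 : dy (fun z => Real.exp (τ * ψ z)) z = Real.exp (τ * ψ z) * (τ * dy ψ z) :=
    C1_fE hψ τ z (0, 1)
  unfold XX
  rw [h1, h2, h3, h4]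
  ring

theorem C1_Y {ψ a : Pl → ℝ} (hψ : ContDiff ℝ ∞ ψ) (ha : ContDiff ℝ ∞ a) (be : Pl → ℝ) (τ : ℝ)
    (z : Pl) : YY be (fun z => Real.exp (τ * ψ z) * a z) z =
      Real.exp (τ * ψ z) * YY be a z + τ * YY be ψ z * (Real.exp (τ * ψ z) * a z) := by
  have h2 := C1a_dy_mul (C1_E hψ τ) ha z
  have h4 : dy (fun z => Real.exp (τ * ψ z)) z = Real.exp (τ * ψ z) * (τ * dy ψ z) :=
    C1_fE hψ τ z (0, 1)
  unfold YY
  rw [h2, h4]
  ring

theorem C1_smX {al f : Pl → ℝ} (hal : ContDiff ℝ ∞ al) (hf : ContDiff ℝ ∞ f) :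
    ContDiff ℝ ∞ (XX al f) := (Egr_smooth_dx hf).sub (hal.mul (Egr_smooth_dy hf))

theorem C1_smY {be f : Pl → ℝ} (hbe : ContDiff ℝ ∞ be) (hf : ContDiff ℝ ∞ f) :
    ContDiff ℝ ∞ (YY be f) := hbe.mul (Egr_smooth_dy hf)

theorem C1_TX {al f : Pl → ℝ} (hal : ContDiff ℝ ∞ al) (hf : IsT f) : IsT (XX al f) := by
  refine ⟨C1_smX hal hf.1, ?_⟩
  have h1 : HasCompactSupport (dx f) := (cpt_pd hf true).2
  have h2 : HasCompactSupport (dy f) := (cpt_pd hf false).2
  exact h1.sub (h2.mul_left)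

theorem C1_TY {be f : Pl → ℝ} (hbe : ContDiff ℝ ∞ be) (hf : IsT f) : IsT (YY be f) := by
  refine ⟨C1_smY hbe hf.1, ?_⟩
  have h2 : HasCompactSupport (dy f) := (cpt_pd hf false).2
  exact h2.mul_left

theorem C1_add {f g : Pl → ℝ} (hf : IsT f) (hg : IsT g) : IsT (fun z => f z + g z) :=
  ⟨hf.1.add hg.1, hf.2.add hg.2⟩

theorem C1_sub {f g : Pl → ℝ} (hf : IsT f) (hg : IsT g) : IsT (fun z => f z - g z) :=
  ⟨hf.1.sub hg.1, hf.2.sub hg.2⟩

theorem C1_sqT {f : Pl → ℝ} (hf : IsT f) : IsT (fun z => f z ^ 2) := by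
  refine ⟨hf.1.pow 2, ?_⟩
  refine HasCompactSupport.intro hf.2 fun z hz => ?_
  rw [image_eq_zero_of_notMem_tsupport hz]
  norm_num

theorem C1_XN {al p q : Pl → ℝ} (hp : ContDiff ℝ ∞ p) (hq : ContDiff ℝ ∞ q) (z : Pl) :
    XX al (fun z => p z * p z + q z * q z) z = 2 * p z * XX al p z + 2 * q z * XX al q z := by
  have h1 : ∀ v : Pl, fderiv ℝ (fun z => p z * p z + q z * q z) z v =
      2 * p z * fderiv ℝ p z v + 2 * q z * fderiv ℝ q z v := by
    intro v
    have d1 : DifferentiableAt ℝ (fun z => p z * p z) z := (C1a_diff hp z).mul (C1a_diff hp z)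
    have d2 : DifferentiableAt ℝ (fun z => q z * q z) z := (C1a_diff hq z).mul (C1a_diff hq z)
    rw [fderiv_fun_add d1 d2,
      fderiv_fun_mul (C1a_diff hp z) (C1a_diff hp z), fderiv_fun_mul (C1a_diff hq z) (C1a_diff hq z)]
    simp only [add_apply, smul_apply, smul_eq_mul]
    ring
  unfold XX dx dy
  rw [h1, h1]
  ring

theorem C1_YN {be p q : Pl → ℝ} (hp : ContDiff ℝ ∞ p) (hq : ContDiff ℝ ∞ q) (z : Pl) :
    YY be (fun z => p z * p z + q z * q z) z = 2 * p z * YY be p z + 2 * q z * YY be q z := by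
  have h1 : ∀ v : Pl, fderiv ℝ (fun z => p z * p z + q z * q z) z v =
      2 * p z * fderiv ℝ p z v + 2 * q z * fderiv ℝ q z v := by
    intro v
    have d1 : DifferentiableAt ℝ (fun z => p z * p z) z := (C1a_diff hp z).mul (C1a_diff hp z)
    have d2 : DifferentiableAt ℝ (fun z => q z * q z) z := (C1a_diff hq z).mul (C1a_diff hq z)
    rw [fderiv_fun_add d1 d2,
      fderiv_fun_mul (C1a_diff hp z) (C1a_diff hp z), fderiv_fun_mul (C1a_diff hq z) (C1a_diff hq z)]
    simp only [add_apply, smul_apply, smul_eq_mul]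
    ring
  unfold YY dy
  rw [h1]
  ring

theorem C1_i3 {F G H : Pl → ℝ} (hF : Integrable F) (hG : Integrable G) (hH : Integrable H) :
    ∫ z, (F z - G z + H z) = (∫ z, F z) - (∫ z, G z) + ∫ z, H z := by
  have h1 : Integrable (fun z => F z - G z) := hF.sub hG
  rw [integral_add h1 hH, integral_sub hF hG]

/-- the integration by parts in the term of first order in `τ` -/
theorem C1_parts {al be u w N : Pl → ℝ} (hal : ContDiff ℝ ∞ al) (hbe : ContDiff ℝ ∞ be)
    (hu : ContDiff ℝ ∞ u) (hw : ContDiff ℝ ∞ w) (hN : IsT N) :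
    ∫ z, -(u z * XX al N z + w z * YY be N z) =
      ∫ z, N z * (XX al u z + YY be w z - dy al z * u z + dy be z * w z) := by
  have i1 := ip_mul hu hN true
  have i2 := ip_mul (hal.mul hu) hN false
  have i3 := ip_mul (hbe.mul hw) hN false
  simp only [pd, if_true, Bool.false_eq_true, if_false] at i1 i2 i3
  have hdx : IsT (dx N) := cpt_pd hN true
  have hdy : IsT (dy N) := cpt_pd hN false
  have t1 : IsT (fun z => u z * dx N z) := cpt_mul hdx hu
  have t2 : IsT (fun z => (al z * u z) * dy N z) := cpt_mul hdy (hal.mul hu)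
  have t3 : IsT (fun z => (be z * w z) * dy N z) := cpt_mul hdy (hbe.mul hw)
  have s1 : IsT (fun z => dx u z * N z) := cpt_mul hN (Egr_smooth_dx hu)
  have s2 : IsT (fun z => dy (fun z => al z * u z) z * N z) :=
    cpt_mul hN (Egr_smooth_dy (hal.mul hu))
  have s3 : IsT (fun z => dy (fun z => be z * w z) z * N z) :=
    cpt_mul hN (Egr_smooth_dy (hbe.mul hw))
  have e1 : ∀ z, -(u z * XX al N z + w z * YY be N z) =
      (al z * u z) * dy N z - u z * dx N z + -((be z * w z) * dy N z) := by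
    intro z
    unfold XX YY
    ring
  have e2 : ∀ z, N z * (XX al u z + YY be w z - dy al z * u z + dy be z * w z) =
      dx u z * N z - dy (fun z => al z * u z) z * N z + dy (fun z => be z * w z) z * N z := by
    intro z
    rw [C1a_dy_mul hal hu, C1a_dy_mul hbe hw]
    unfold XX YY
    ring
  rw [integral_congr_ae (ae_of_all _ e1), integral_congr_ae (ae_of_all _ e2),
    C1_i3 (C1a_int t2) (C1a_int t1) (C1a_int t3).fun_neg, integral_neg,
    C1_i3 (C1a_int s1) (C1a_int s2) (C1a_int s3)]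
  have i2' : ∫ z, dy (fun z => al z * u z) z * N z = - ∫ z, al z * u z * dy N z := i2
  have i3' : ∫ z, dy (fun z => be z * w z) z * N z = - ∫ z, be z * w z * dy N z := i3
  rw [i1, i2', i3']
  ring

theorem carl_id {al be : Pl → ℝ} (hal : ContDiff ℝ ∞ al) (hbe : ContDiff ℝ ∞ be)
    (h0 : ∀ z, be z ≠ 0) (z₀ : Pl) (S : ℝ) :
    ∃ K : ℝ, 0 < K ∧ ∀ ψ : Pl → ℝ, ContDiff ℝ ∞ ψ → ∀ τ : ℝ, 0 ≤ τ → ∀ f : Pl → ℂ, InAnn z₀ 0 S f →
      ∫ z, (τ * (XX al (XX al ψ) z + YY be (YY be ψ) z - K * (|dx ψ z| + |dy ψ z|)) - K)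
          * Real.exp (2 * τ * ψ z) * ‖f z‖ ^ 2 ≤
        ∫ z, Real.exp (2 * τ * ψ z) * ‖Dop al be f z‖ ^ 2 := by
  obtain ⟨K0, hK0, hcross⟩ := carl_cross hal hbe h0 z₀ S
  have hc1 : Continuous fun z => 1 + |al z| + |be z| :=
    (continuous_const.add hal.continuous.abs).add hbe.continuous.abs
  have hc2 : Continuous fun z => |dy al z| + |dy be z| :=
    (Egr_smooth_dy hal).continuous.abs.add (Egr_smooth_dy hbe).continuous.abs
  obtain ⟨A1, hA1, hA1'⟩ := C1a_bound hc1 z₀ S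
  obtain ⟨A2, hA2, hA2'⟩ := C1a_bound hc2 z₀ S
  refine ⟨2 * K0 ^ 2 + (2 * K0 + A2) * A1, by positivity, fun ψ hψ τ hτ f hf => ?_⟩
  obtain ⟨hf1, hf2, hf3⟩ := hf
  set K : ℝ := 2 * K0 ^ 2 + (2 * K0 + A2) * A1 with hK
  -- the functions
  set a : Pl → ℝ := fun z => (f z).re with ha
  set b : Pl → ℝ := fun z => (f z).im with hb
  have haS : ContDiff ℝ ∞ a := C1_re hf1
  have hbS : ContDiff ℝ ∞ b := C1_im hf1
  have haT : IsT a := ⟨haS, hf2.comp_left (g := Complex.re) Complex.zero_re⟩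
  have hbT : IsT b := ⟨hbS, hf2.comp_left (g := Complex.im) Complex.zero_im⟩
  set p : Pl → ℝ := fun z => Real.exp (τ * ψ z) * a z with hp
  set q : Pl → ℝ := fun z => Real.exp (τ * ψ z) * b z with hq
  have hpT : IsT p := cpt_mul haT (C1_E hψ τ)
  have hqT : IsT q := cpt_mul hbT (C1_E hψ τ)
  set u : Pl → ℝ := XX al ψ with hu
  set w : Pl → ℝ := YY be ψ with hw
  have huS : ContDiff ℝ ∞ u := C1_smX hal hψ
  have hwS : ContDiff ℝ ∞ w := C1_smY hbe hψ
  set N : Pl → ℝ := fun z => p z * p z + q z * q z with hN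
  have hNT : IsT N := C1_add (cpt_mul hpT hpT.1) (cpt_mul hqT hqT.1)
  have hpf : ∀ z, f z = 0 → p z = 0 ∧ q z = 0 := by
    intro z hz
    simp only [hp, hq, ha, hb, hz, Complex.zero_re, Complex.zero_im, mul_zero, and_self]
  have hqsupp : ∀ z ∈ tsupport q, qq z₀ z ≤ S ^ 2 := by
    intro z hz
    have h1 : tsupport q ⊆ tsupport f := by
      apply closure_mono
      intro y hy hfy
      exact hy (hpf y hfy).2
    exact (hf3 z (h1 hz)).2
  have hNf : ∀ z, N z = Real.exp (2 * τ * ψ z) * ‖f z‖ ^ 2 := by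
    intro z
    rw [Complex.sq_norm, Complex.normSq_apply]
    have h1 : Real.exp (2 * τ * ψ z) = Real.exp (τ * ψ z) * Real.exp (τ * ψ z) := by
      rw [← Real.exp_add]
      ring_nf
    rw [h1]
    simp only [hN, hp, hq, ha, hb]
    ring
  -- the decomposition of the right hand side
  set Sq : Pl → ℝ := fun z => (XX al p z - τ * w z * q z) ^ 2 + (XX al q z + τ * w z * p z) ^ 2 +
    ((-YY be q z + τ * u z * p z) ^ 2 + (YY be p z + τ * u z * q z) ^ 2) with hSq
  have hR : ∀ z, Real.exp (2 * τ * ψ z) * ‖Dop al be f z‖ ^ 2 =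
      Sq z - 2 * (XX al q z * YY be p z - XX al p z * YY be q z) +
        τ * (-(u z * XX al N z + w z * YY be N z)) := by
    intro z
    rw [C1_dop hf1, C1_XN hpT.1 hqT.1, C1_YN hpT.1 hqT.1]
    have h1 : Real.exp (2 * τ * ψ z) = Real.exp (τ * ψ z) ^ 2 := by
      rw [sq, ← Real.exp_add]
      ring_nf
    have e1 : XX al p z = Real.exp (τ * ψ z) * XX al a z + τ * u z * p z := C1_X hψ haS al τ z
    have e2 : XX al q z = Real.exp (τ * ψ z) * XX al b z + τ * u z * q z := C1_X hψ hbS al τ z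
    have e3 : YY be p z = Real.exp (τ * ψ z) * YY be a z + τ * w z * p z := C1_Y hψ haS be τ z
    have e4 : YY be q z = Real.exp (τ * ψ z) * YY be b z + τ * w z * q z := C1_Y hψ hbS be τ z
    rw [h1]
    simp only [hSq]
    rw [e1, e2, e3, e4]
    ring
  have hSqT : IsT Sq := by
    have m : ∀ {g h : Pl → ℝ}, ContDiff ℝ ∞ g → IsT h → IsT (fun z => τ * g z * h z) :=
      fun hg hh => cpt_mul hh (contDiff_const.mul hg)
    have hnY : IsT (fun z => -YY be q z) := ⟨(C1_TY hbe hqT).1.neg, (C1_TY hbe hqT).2.neg⟩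
    exact C1_add (C1_add (C1_sqT (C1_sub (C1_TX hal hpT) (m hwS hqT)))
      (C1_sqT (C1_add (C1_TX hal hqT) (m hwS hpT))))
      (C1_add (C1_sqT (C1_add hnY (m huS hpT))) (C1_sqT (C1_add (C1_TY hbe hpT) (m huS hqT))))
  have hJT : IsT (fun z => XX al q z * YY be p z - XX al p z * YY be q z) :=
    C1_sub (cpt_mul (C1_TY hbe hpT) (C1_smX hal hqT.1)) (cpt_mul (C1_TY hbe hqT) (C1_smX hal hpT.1))
  have hTT : IsT (fun z => -(u z * XX al N z + w z * YY be N z)) := by
    have h1 := C1_add (cpt_mul (C1_TX hal hNT) huS) (cpt_mul (C1_TY hbe hNT) hwS)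
    exact ⟨h1.1.neg, h1.2.neg⟩
  have hMT : IsT (fun z => N z * (XX al u z + YY be w z - dy al z * u z + dy be z * w z)) := by
    have h1 : ContDiff ℝ ∞ fun z => XX al u z + YY be w z - dy al z * u z + dy be z * w z :=
      (((C1_smX hal huS).add (C1_smY hbe hwS)).sub ((Egr_smooth_dy hal).mul huS)).add
        ((Egr_smooth_dy hbe).mul hwS)
    have h2 := cpt_mul hNT h1
    have h3 : (fun z => N z * (XX al u z + YY be w z - dy al z * u z + dy be z * w z)) =
        fun z => (XX al u z + YY be w z - dy al z * u z + dy be z * w z) * N z := by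
      funext z
      ring
    rw [h3]
    exact h2
  have hXp : Continuous (XX al p) := (C1_smX hal hpT.1).continuous
  have hYp : Continuous (YY be p) := (C1_smY hbe hpT.1).continuous
  have hQint : Integrable fun z => |q z| * (|XX al p z| + |YY be p z|) := by
    refine (hqT.1.continuous.abs.mul (hXp.abs.add hYp.abs)).integrable_of_hasCompactSupport ?_
    refine HasCompactSupport.intro hqT.2 fun z hz => ?_
    show |q z| * (|XX al p z| + |YY be p z|) = 0
    rw [image_eq_zero_of_notMem_tsupport hz, abs_zero, zero_mul]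
  have hRint : ∫ z, Real.exp (2 * τ * ψ z) * ‖Dop al be f z‖ ^ 2 =
      (∫ z, Sq z) - 2 * (∫ z, (XX al q z * YY be p z - XX al p z * YY be q z)) +
        τ * ∫ z, N z * (XX al u z + YY be w z - dy al z * u z + dy be z * w z) := by
    rw [integral_congr_ae (ae_of_all _ hR),
      C1_i3 (C1a_int hSqT) ((C1a_int hJT).const_mul 2) ((C1a_int hTT).const_mul τ),
      integral_const_mul, integral_const_mul, C1_parts hal hbe huS hwS hNT]
  have hcr := hcross p q hpT hqT hqsupp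
  have hcr2 := (abs_le.1 hcr).2
  have hlow : ∫ z, (Sq z - 2 * (K0 * (|q z| * (|XX al p z| + |YY be p z|))) +
      τ * (N z * (XX al u z + YY be w z - dy al z * u z + dy be z * w z))) ≤
      ∫ z, Real.exp (2 * τ * ψ z) * ‖Dop al be f z‖ ^ 2 := by
    rw [hRint, C1_i3 (C1a_int hSqT) ((hQint.const_mul K0).const_mul 2) ((C1a_int hMT).const_mul τ),
      integral_const_mul, integral_const_mul, integral_const_mul]
    linarith
  refine le_trans ?_ hlow
  have hLc : Continuous fun z => (τ * (XX al u z + YY be w z - K * (|dx ψ z| + |dy ψ z|)) - K)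
      * Real.exp (2 * τ * ψ z) * ‖f z‖ ^ 2 := by
    have h1 := (C1_smX hal huS).continuous
    have h2 := (C1_smY hbe hwS).continuous
    have h3 := (Egr_smooth_dx hψ).continuous
    have h4 := (Egr_smooth_dy hψ).continuous
    have h5 := hψ.continuous
    have h6 := hf1.continuous
    fun_prop
  have hLint : Integrable fun z => (τ * (XX al u z + YY be w z - K * (|dx ψ z| + |dy ψ z|)) - K)
      * Real.exp (2 * τ * ψ z) * ‖f z‖ ^ 2 := by
    refine hLc.integrable_of_hasCompactSupport ?_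
    refine HasCompactSupport.intro hf2 fun z hz => ?_
    rw [image_eq_zero_of_notMem_tsupport hz, norm_zero]
    ring
  refine integral_mono hLint (((C1a_int hSqT).sub ((hQint.const_mul K0).const_mul 2)).add
    ((C1a_int hMT).const_mul τ)) fun z => ?_
  show (τ * (XX al u z + YY be w z - K * (|dx ψ z| + |dy ψ z|)) - K)
      * Real.exp (2 * τ * ψ z) * ‖f z‖ ^ 2 ≤
    Sq z - 2 * (K0 * (|q z| * (|XX al p z| + |YY be p z|))) +
      τ * (N z * (XX al u z + YY be w z - dy al z * u z + dy be z * w z))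
  by_cases hz : z ∈ tsupport f
  · have hz2 := (hf3 z hz).2
    have b1 := hA1' z hz2
    have b2 := hA2' z hz2
    rw [abs_of_nonneg (by positivity)] at b1 b2
    rw [mul_assoc, ← hNf z]
    set g : ℝ := |dx ψ z| + |dy ψ z| with hg
    have hg0 : 0 ≤ g := by positivity
    have hN0 : 0 ≤ N z := by
      simp only [hN]
      nlinarith [mul_self_nonneg (p z), mul_self_nonneg (q z)]
    have hqN : q z ^ 2 ≤ N z := by
      simp only [hN]
      nlinarith [mul_self_nonneg (p z)]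
    have huw : |u z| + |w z| ≤ A1 * g := by
      have h1 : |u z| ≤ |dx ψ z| + |al z| * |dy ψ z| := by
        rw [hu, XX, ← abs_mul]
        exact abs_sub _ _
      have h2 : |w z| = |be z| * |dy ψ z| := by
        rw [hw, YY, abs_mul]
      have h3 : 0 ≤ |al z| := abs_nonneg _
      have h4 : 0 ≤ |be z| := abs_nonneg _
      have h5 : 0 ≤ |dx ψ z| := abs_nonneg _
      have h6 : 0 ≤ |dy ψ z| := abs_nonneg _
      calc |u z| + |w z| ≤ (|dx ψ z| + |al z| * |dy ψ z|) + |be z| * |dy ψ z| := by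
            rw [h2]; exact add_le_add h1 le_rfl
        _ ≤ (1 + |al z| + |be z|) * g := by
            rw [hg]
            nlinarith [mul_nonneg h3 h5, mul_nonneg h4 h5]
        _ ≤ A1 * g := mul_le_mul_of_nonneg_right b1 hg0
    have hM : dy al z * u z - dy be z * w z ≤ A2 * (|u z| + |w z|) := by
      have h3 : 0 ≤ |dy al z| := abs_nonneg _
      have h4 : 0 ≤ |dy be z| := abs_nonneg _
      have h5 : 0 ≤ |u z| := abs_nonneg _
      have h6 : 0 ≤ |w z| := abs_nonneg _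
      calc dy al z * u z - dy be z * w z ≤ |dy al z| * |u z| + |dy be z| * |w z| := by
            rw [← abs_mul, ← abs_mul]
            have := le_abs_self (dy al z * u z)
            have := neg_abs_le (dy be z * w z)
            linarith
        _ ≤ (|dy al z| + |dy be z|) * (|u z| + |w z|) := by
            nlinarith [mul_nonneg h3 h6, mul_nonneg h4 h5]
        _ ≤ A2 * (|u z| + |w z|) := mul_le_mul_of_nonneg_right b2 (by positivity)
    -- the squares
    have hX1 : |XX al p z| ≤ |XX al p z - τ * w z * q z| + τ * |w z| * |q z| := by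
      have h1 : XX al p z = (XX al p z - τ * w z * q z) + τ * w z * q z := by ring
      have h2 : |τ * w z * q z| = τ * |w z| * |q z| := by
        rw [abs_mul, abs_mul, abs_of_nonneg hτ]
      calc |XX al p z| = |(XX al p z - τ * w z * q z) + τ * w z * q z| := by rw [← h1]
        _ ≤ _ := (abs_add_le _ _).trans (by rw [h2])
    have hY1 : |YY be p z| ≤ |YY be p z + τ * u z * q z| + τ * |u z| * |q z| := by
      have h1 : YY be p z = (YY be p z + τ * u z * q z) - τ * u z * q z := by ring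
      have h2 : |τ * u z * q z| = τ * |u z| * |q z| := by
        rw [abs_mul, abs_mul, abs_of_nonneg hτ]
      calc |YY be p z| = |(YY be p z + τ * u z * q z) - τ * u z * q z| := by rw [← h1]
        _ ≤ _ := (abs_sub _ _).trans (by rw [h2])
    set x1 : ℝ := XX al p z - τ * w z * q z with hx1
    set y1 : ℝ := YY be p z + τ * u z * q z with hy1
    have hSq0 : x1 ^ 2 + y1 ^ 2 ≤ Sq z := by
      simp only [hSq]
      rw [← hx1, ← hy1]
      nlinarith [sq_nonneg (XX al q z + τ * w z * p z), sq_nonneg (-YY be q z + τ * u z * p z)]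
    have hq0 : 0 ≤ |q z| := abs_nonneg _
    have hqq : |q z| * |q z| = q z ^ 2 := by rw [← abs_mul, ← sq, abs_of_nonneg (sq_nonneg _)]
    have c1 : 2 * K0 * (|q z| * |x1|) ≤ x1 ^ 2 + K0 ^ 2 * q z ^ 2 := by
      have h1 : 0 ≤ (|x1| - K0 * |q z|) ^ 2 := sq_nonneg _
      have h2 : |x1| ^ 2 = x1 ^ 2 := sq_abs _
      have h3 : |q z| ^ 2 = q z ^ 2 := sq_abs _
      nlinarith
    have c2 : 2 * K0 * (|q z| * |y1|) ≤ y1 ^ 2 + K0 ^ 2 * q z ^ 2 := by
      have h1 : 0 ≤ (|y1| - K0 * |q z|) ^ 2 := sq_nonneg _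
      have h2 : |y1| ^ 2 = y1 ^ 2 := sq_abs _
      have h3 : |q z| ^ 2 = q z ^ 2 := sq_abs _
      nlinarith
    have c3 : |q z| * (|XX al p z| + |YY be p z|) ≤
        |q z| * |x1| + |q z| * |y1| + τ * (|u z| + |w z|) * q z ^ 2 := by
      calc |q z| * (|XX al p z| + |YY be p z|) ≤
            |q z| * ((|x1| + τ * |w z| * |q z|) + (|y1| + τ * |u z| * |q z|)) :=
            mul_le_mul_of_nonneg_left (add_le_add hX1 hY1) hq0
        _ = |q z| * |x1| + |q z| * |y1| + τ * (|u z| + |w z|) * (|q z| * |q z|) := by ring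
        _ = _ := by rw [hqq]
    have c4 : 2 * (K0 * (|q z| * (|XX al p z| + |YY be p z|))) ≤
        x1 ^ 2 + y1 ^ 2 + 2 * K0 ^ 2 * q z ^ 2 + 2 * K0 * (τ * (|u z| + |w z|)) * q z ^ 2 := by
      have := mul_le_mul_of_nonneg_left c3 (by positivity : (0 : ℝ) ≤ 2 * K0)
      linarith
    have c5 : 2 * K0 ^ 2 * q z ^ 2 + 2 * K0 * (τ * (|u z| + |w z|)) * q z ^ 2 ≤
        (2 * K0 ^ 2 + 2 * K0 * (τ * (A1 * g))) * N z := by
      have h1 : 2 * K0 ^ 2 + 2 * K0 * (τ * (|u z| + |w z|)) ≤ 2 * K0 ^ 2 + 2 * K0 * (τ * (A1 * g)) := by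
        have := mul_le_mul_of_nonneg_left (mul_le_mul_of_nonneg_left huw hτ)
          (by positivity : (0 : ℝ) ≤ 2 * K0)
        linarith
      calc 2 * K0 ^ 2 * q z ^ 2 + 2 * K0 * (τ * (|u z| + |w z|)) * q z ^ 2 =
            (2 * K0 ^ 2 + 2 * K0 * (τ * (|u z| + |w z|))) * q z ^ 2 := by ring
        _ ≤ (2 * K0 ^ 2 + 2 * K0 * (τ * (|u z| + |w z|))) * N z :=
            mul_le_mul_of_nonneg_left hqN (by positivity)
        _ ≤ _ := mul_le_mul_of_nonneg_right h1 hN0
    have c6 : τ * (N z * (dy al z * u z - dy be z * w z)) ≤ τ * (N z * (A2 * (A1 * g))) := by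
      apply mul_le_mul_of_nonneg_left _ hτ
      apply mul_le_mul_of_nonneg_left _ hN0
      exact hM.trans (mul_le_mul_of_nonneg_left huw hA2.le)
    have c7 : (2 * K0 ^ 2 + 2 * K0 * (τ * (A1 * g))) * N z + τ * (N z * (A2 * (A1 * g))) ≤
        K * N z + τ * (K * g) * N z := by
      have h1 : 0 ≤ (2 * K0 + A2) * A1 * N z := by positivity
      have h2 : 0 ≤ τ * (2 * K0 ^ 2 * g) * N z := by positivity
      rw [hK]
      linarith
    linarith
  · have hfz : f z = 0 := image_eq_zero_of_notMem_tsupport hz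
    obtain ⟨h1, h2⟩ := hpf z hfz
    have h3 : N z = 0 := by simp only [hN, h1, h2]; ring
    rw [hfz, h2, h3, norm_zero, abs_zero]
    have h4 : 0 ≤ Sq z := by simp only [hSq]; positivity
    linarith

end QR
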