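import Pool.Agent.LibQR40.Defs2
import Pool.Agent.LibQR40.IP

/-! ROW C1a. Put auxiliary lemmas in this file, names starting with `C1a_`.
(the cross term of the Carleman identity, real form). X = ∂x - α ∂y (`XX al`), Y = β ∂y (`YY be`).
Proof: `Xq Yp - Xp Yq = β (dx q dy p - dx p dy q) = β (dx (q dy p) - dy (q dx p))`; integrate by parts. -/

open MeasureTheory Set Filter Topology
open scoped ContDiff ENNReal NNReal

namespace QR

open BGS

theorem C1a_diff {f : Pl → ℝ} (hf : ContDiff ℝ ∞ f) (z : Pl) : DifferentiableAt ℝ f z :=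
  (hf.differentiable (by simp)) z

theorem C1a_dx_mul {f g : Pl → ℝ} (hf : ContDiff ℝ ∞ f) (hg : ContDiff ℝ ∞ g) (z : Pl) :
    dx (fun z => f z * g z) z = dx f z * g z + f z * dx g z := by
  unfold dx
  rw [fderiv_fun_mul (C1a_diff hf z) (C1a_diff hg z)]
  simp only [add_apply, smul_apply, smul_eq_mul]
  ring

theorem C1a_dy_mul {f g : Pl → ℝ} (hf : ContDiff ℝ ∞ f) (hg : ContDiff ℝ ∞ g) (z : Pl) :
    dy (fun z => f z * g z) z = dy f z * g z + f z * dy g z := by
  unfold dy
  rw [fderiv_fun_mul (C1a_diff hf z) (C1a_diff hg z)]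
  simp only [add_apply, smul_apply, smul_eq_mul]
  ring

/-- A continuous function is bounded on the disc. -/
theorem C1a_bound {k : Pl → ℝ} (hk : Continuous k) (z₀ : Pl) (S : ℝ) :
    ∃ K : ℝ, 0 < K ∧ ∀ z, qq z₀ z ≤ S ^ 2 → |k z| ≤ K := by
  obtain ⟨K, hK⟩ := (isCompact_closedBall z₀ |S|).exists_bound_of_continuousOn hk.continuousOn
  refine ⟨max K 1, lt_of_lt_of_le one_pos (le_max_right _ _), fun z hz => ?_⟩
  refine le_trans (hK z ?_) (le_max_left _ _)
  rw [Metric.mem_closedBall, dist_eq_norm, Prod.norm_def, max_le_iff]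
  unfold qq at hz
  have h1 : (z.1 - z₀.1) ^ 2 ≤ S ^ 2 := by nlinarith [sq_nonneg (z.2 - z₀.2)]
  have h2 : (z.2 - z₀.2) ^ 2 ≤ S ^ 2 := by nlinarith [sq_nonneg (z.1 - z₀.1)]
  exact ⟨sq_le_sq.1 h1, sq_le_sq.1 h2⟩

theorem C1a_int {g : Pl → ℝ} (hg : IsT g) : Integrable g :=
  hg.1.continuous.integrable_of_hasCompactSupport hg.2

theorem carl_cross {al be : Pl → ℝ} (hal : ContDiff ℝ ∞ al) (hbe : ContDiff ℝ ∞ be)
    (h0 : ∀ z, be z ≠ 0) (z₀ : Pl) (S : ℝ) :
    ∃ K : ℝ, 0 < K ∧ ∀ p q : Pl → ℝ, IsT p → IsT q → (∀ z ∈ tsupport q, qq z₀ z ≤ S ^ 2) →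
      |∫ z, (XX al q z * YY be p z - XX al p z * YY be q z)| ≤
        K * ∫ z, |q z| * (|XX al p z| + |YY be p z|) := by
  have hdxb := (Egr_smooth_dx hbe).continuous
  have hdyb := (Egr_smooth_dy hbe).continuous
  have hk : Continuous fun z => |dx be z| / |be z| + |dy be z| * (1 + |al z| / |be z|) := by
    have h1 : ∀ z, |be z| ≠ 0 := fun z => abs_ne_zero.2 (h0 z)
    exact (hdxb.abs.div hbe.continuous.abs h1).add
      (hdyb.abs.mul (continuous_const.add (hal.continuous.abs.div hbe.continuous.abs h1)))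
  obtain ⟨K, hK0, hK⟩ := C1a_bound hk z₀ S
  refine ⟨K, hK0, fun p q hp hq hsupp => ?_⟩
  have hA : IsT (fun z => dy p z * q z) := cpt_mul hq (Egr_smooth_dy hp.1)
  have hB : IsT (fun z => dx p z * q z) := cpt_mul hq (Egr_smooth_dx hp.1)
  have i1 := ip_mul hbe hA true
  have i2 := ip_mul hbe hB false
  simp only [pd, if_true, Bool.false_eq_true, if_false] at i1 i2
  have hA' : IsT (fun z => be z * dx (fun z => dy p z * q z) z) := cpt_mul (cpt_pd hA true) hbe
  have hB' : IsT (fun z => be z * dy (fun z => dx p z * q z) z) := cpt_mul (cpt_pd hB false) hbe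
  have hA2 : IsT (fun z => dx be z * (dy p z * q z)) := cpt_mul hA (Egr_smooth_dx hbe)
  have hB2 : IsT (fun z => dy be z * (dx p z * q z)) := cpt_mul hB (Egr_smooth_dy hbe)
  have e1 : ∀ z, XX al q z * YY be p z - XX al p z * YY be q z =
      be z * dx (fun z => dy p z * q z) z - be z * dy (fun z => dx p z * q z) z := by
    intro z
    rw [C1a_dx_mul (Egr_smooth_dy hp.1) hq.1, C1a_dy_mul (Egr_smooth_dx hp.1) hq.1, Egr_symm hp.1]
    unfold XX YY
    ring
  have e2 : ∫ z, (XX al q z * YY be p z - XX al p z * YY be q z) =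
      ∫ z, (dy be z * (dx p z * q z) - dx be z * (dy p z * q z)) := by
    rw [integral_congr_ae (ae_of_all _ e1), integral_sub (C1a_int hA') (C1a_int hB'),
      integral_sub (C1a_int hB2) (C1a_int hA2), i1, i2]
    ring
  rw [e2]
  refine (abs_integral_le_integral_abs).trans ?_
  rw [← integral_const_mul]
  have hXp : Continuous (XX al p) := (Egr_smooth_dx hp.1).continuous.sub
    (hal.continuous.mul (Egr_smooth_dy hp.1).continuous)
  have hYp : Continuous (YY be p) := hbe.continuous.mul (Egr_smooth_dy hp.1).continuous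
  have hR : Integrable fun z => K * (|q z| * (|XX al p z| + |YY be p z|)) := by
    apply Integrable.const_mul
    refine (hq.1.continuous.abs.mul (hXp.abs.add hYp.abs)).integrable_of_hasCompactSupport ?_
    refine HasCompactSupport.intro hq.2 fun z hz => ?_
    show |q z| * (|XX al p z| + |YY be p z|) = 0
    rw [image_eq_zero_of_notMem_tsupport hz, abs_zero, zero_mul]
  refine integral_mono ((C1a_int hB2).sub (C1a_int hA2)).abs hR fun z => ?_
  show |dy be z * (dx p z * q z) - dx be z * (dy p z * q z)| ≤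
    K * (|q z| * (|XX al p z| + |YY be p z|))
  by_cases hz : z ∈ tsupport q
  · have hKz := hK z (hsupp z hz)
    have hb : 0 < |be z| := abs_pos.2 (h0 z)
    rw [abs_of_nonneg (by positivity)] at hKz
    have e3 : dy be z * (dx p z * q z) - dx be z * (dy p z * q z) =
        q z * (dy be z * dx p z - dx be z * dy p z) := by ring
    rw [e3, abs_mul]
    have hy : |dy p z| = |YY be p z| / |be z| := by
      rw [YY, abs_mul, mul_div_cancel_left₀ _ hb.ne']
    have hx : |dx p z| ≤ |XX al p z| + |al z| * (|YY be p z| / |be z|) := by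
      have : dx p z = XX al p z + al z * dy p z := by unfold XX; ring
      rw [← hy, ← abs_mul]
      calc |dx p z| = |XX al p z + al z * dy p z| := by rw [← this]
        _ ≤ _ := abs_add_le _ _
    have h1 : |dy be z * dx p z - dx be z * dy p z| ≤ K * (|XX al p z| + |YY be p z|) := by
      calc |dy be z * dx p z - dx be z * dy p z| ≤ |dy be z * dx p z| + |dx be z * dy p z| :=
            abs_sub _ _
        _ = |dy be z| * |dx p z| + |dx be z| * |dy p z| := by rw [abs_mul, abs_mul]
        _ ≤ |dy be z| * (|XX al p z| + |al z| * (|YY be p z| / |be z|)) +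
            |dx be z| * (|YY be p z| / |be z|) := by
            rw [hy]
            exact add_le_add (mul_le_mul_of_nonneg_left hx (abs_nonneg _)) le_rfl
        _ = |dy be z| * |XX al p z| + (|dx be z| / |be z| + |dy be z| * (|al z| / |be z|)) *
            |YY be p z| := by ring
        _ ≤ (|dx be z| / |be z| + |dy be z| * (1 + |al z| / |be z|)) *
            (|XX al p z| + |YY be p z|) := by
            have h2 : 0 ≤ |dx be z| / |be z| := by positivity
            have h3 : 0 ≤ |al z| / |be z| := by positivity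
            have h4 : 0 ≤ |XX al p z| := abs_nonneg _
            have h5 : 0 ≤ |YY be p z| := abs_nonneg _
            have h6 : 0 ≤ |dy be z| := abs_nonneg _
            have : (|dx be z| / |be z| + |dy be z| * (1 + |al z| / |be z|)) *
                (|XX al p z| + |YY be p z|) - (|dy be z| * |XX al p z| +
                (|dx be z| / |be z| + |dy be z| * (|al z| / |be z|)) * |YY be p z|) =
                |dx be z| / |be z| * |XX al p z| + |dy be z| * (|al z| / |be z|) * |XX al p z| +
                |dy be z| * |YY be p z| := by ring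
            have h7 : 0 ≤ |dx be z| / |be z| * |XX al p z| + |dy be z| * (|al z| / |be z|) * |XX al p z| +
                |dy be z| * |YY be p z| := by positivity
            linarith
        _ ≤ K * (|XX al p z| + |YY be p z|) := by
            apply mul_le_mul_of_nonneg_right hKz (by positivity)
    calc |q z| * |dy be z * dx p z - dx be z * dy p z| ≤
          |q z| * (K * (|XX al p z| + |YY be p z|)) := mul_le_mul_of_nonneg_left h1 (abs_nonneg _)
      _ = K * (|q z| * (|XX al p z| + |YY be p z|)) := by ring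
  · rw [image_eq_zero_of_notMem_tsupport hz]
    simp

end QR
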