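import Pool.Agent.LibQR40.Defs2

/-! ROW C2. Put auxiliary lemmas in this file, names starting with `C2_`.
(the weight). q = qq z₀, ψ = e^{-κ q}. On the annulus r² ≤ q ≤ S² (compact):
X ψ = -κ ψ X q, X(X ψ) = κ² ψ (X q)² - κ ψ X(X q), same for Y, |dx ψ| + |dy ψ| = κ ψ (|dx q| + |dy q|), so the expression is
κ ψ (κ ((X q)² + (Y q)²) - (X X q + Y Y q) - K (|dx q| + |dy q|)). (X q)² + (Y q)² > 0 there (β ≠ 0: Yq = 0 gives dy q = 0,
then Xq = dx q = 0, so q = 0), hence ≥ c₁ > 0 by compactness, the other terms are bounded by C₂: for κ ≥ κ₀ := (C₂ + 1)/c₁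
and κ ≥ 1 the expression is ≥ κ e^{-κ S²} =: c > 0 (for κ ≥ κ₀ ≥ 1). -/

open MeasureTheory Set Filter Topology
open scoped ContDiff ENNReal NNReal

namespace QR

open BGS

theorem C2_qq_hd (z₀ z : Pl) : HasFDerivAt (qq z₀)
    ((2 * (z.1 - z₀.1)) • ContinuousLinearMap.fst ℝ ℝ ℝ +
      (2 * (z.2 - z₀.2)) • ContinuousLinearMap.snd ℝ ℝ ℝ) z := by
  have h1 : HasFDerivAt (fun z : Pl => z.1 - z₀.1) (ContinuousLinearMap.fst ℝ ℝ ℝ) z :=
    hasFDerivAt_fst.sub_const _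
  have h2 : HasFDerivAt (fun z : Pl => z.2 - z₀.2) (ContinuousLinearMap.snd ℝ ℝ ℝ) z :=
    hasFDerivAt_snd.sub_const _
  have h3 := (h1.mul h1).add (h2.mul h2)
  have h4 : qq z₀ = fun z : Pl => (z.1 - z₀.1) * (z.1 - z₀.1) + (z.2 - z₀.2) * (z.2 - z₀.2) := by
    funext y
    unfold qq
    ring
  rw [h4]
  refine h3.congr_fderiv ?_
  ext <;> simp <;> ring

theorem C2_qq_smooth (z₀ : Pl) : ContDiff ℝ ∞ (qq z₀) := by
  unfold qq
  exact ((contDiff_fst.sub contDiff_const).pow 2).add ((contDiff_snd.sub contDiff_const).pow 2)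

theorem C2_exp_smooth (z₀ : Pl) (κ : ℝ) : ContDiff ℝ ∞ fun y => Real.exp (-κ * qq z₀ y) :=
  (contDiff_const.mul (C2_qq_smooth z₀)).exp

theorem C2_exp_d (z₀ : Pl) (κ : ℝ) (z : Pl) :
    dx (fun y => Real.exp (-κ * qq z₀ y)) z =
      -κ * (Real.exp (-κ * qq z₀ z) * (2 * (z.1 - z₀.1))) ∧
    dy (fun y => Real.exp (-κ * qq z₀ y)) z =
      -κ * (Real.exp (-κ * qq z₀ z) * (2 * (z.2 - z₀.2))) := by
  have h1 := ((C2_qq_hd z₀ z).const_mul (-κ)).exp
  constructor
  · unfold dx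
    rw [h1.fderiv]
    simp
    ring
  · unfold dy
    rw [h1.fderiv]
    simp
    ring

theorem C2_mul_d {f g : Pl → ℝ} (hf : ContDiff ℝ ∞ f) (hg : ContDiff ℝ ∞ g) (k : ℝ) (z : Pl) :
    dx (fun y => k * (f y * g y)) z = k * (dx f z * g z + f z * dx g z) ∧
    dy (fun y => k * (f y * g y)) z = k * (dy f z * g z + f z * dy g z) := by
  have h1 : DifferentiableAt ℝ f z := hf.differentiable (by simp) z
  have h2 : DifferentiableAt ℝ g z := hg.differentiable (by simp) z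
  have h3 : HasFDerivAt (fun y => k * (f y * g y))
      (k • (f z • fderiv ℝ g z + g z • fderiv ℝ f z)) z :=
    (h1.hasFDerivAt.mul h2.hasFDerivAt).const_mul k
  constructor
  · unfold dx
    rw [h3.fderiv]
    simp
    ring
  · unfold dy
    rw [h3.fderiv]
    simp
    ring

theorem C2_cpt (z₀ : Pl) (r S : ℝ) : IsCompact {z : Pl | r ^ 2 ≤ qq z₀ z ∧ qq z₀ z ≤ S ^ 2} := by
  have hc : Continuous (qq z₀) := (C2_qq_smooth z₀).continuous
  apply Metric.isCompact_of_isClosed_isBounded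
  · exact (isClosed_le continuous_const hc).inter (isClosed_le hc continuous_const)
  · apply (Metric.isBounded_closedBall (x := z₀) (r := |S|)).subset
    rintro z ⟨-, hz⟩
    rw [Metric.mem_closedBall, Prod.dist_eq, Real.dist_eq, Real.dist_eq]
    unfold qq at hz
    apply max_le
    · apply abs_le_of_sq_le_sq' _ (abs_nonneg S) |> abs_le.2
      rw [sq_abs]
      nlinarith [sq_nonneg (z.2 - z₀.2)]
    · apply abs_le_of_sq_le_sq' _ (abs_nonneg S) |> abs_le.2
      rw [sq_abs]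
      nlinarith [sq_nonneg (z.1 - z₀.1)]

theorem weight_ok {al be : Pl → ℝ} (hal : ContDiff ℝ ∞ al) (hbe : ContDiff ℝ ∞ be)
    (h0 : ∀ z, be z ≠ 0) (z₀ : Pl) {r S : ℝ} (hr : 0 < r) (K : ℝ) :
    ∃ κ₀ : ℝ, 0 < κ₀ ∧ ∀ κ : ℝ, κ₀ ≤ κ → ∃ c : ℝ, 0 < c ∧ ∀ z : Pl, r ^ 2 ≤ qq z₀ z →
      qq z₀ z ≤ S ^ 2 →
      c ≤ XX al (XX al fun y => Real.exp (-κ * qq z₀ y)) z
        + YY be (YY be fun y => Real.exp (-κ * qq z₀ y)) z
        - K * (|dx (fun y => Real.exp (-κ * qq z₀ y)) z| + |dy (fun y => Real.exp (-κ * qq z₀ y)) z|) := by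
  set X := {z : Pl | r ^ 2 ≤ qq z₀ z ∧ qq z₀ z ≤ S ^ 2} with hX
  have hXc : IsCompact X := C2_cpt z₀ r S
  set Af : Pl → ℝ := fun z => 2 * (z.1 - z₀.1) - al z * (2 * (z.2 - z₀.2)) with hAf
  set Bf : Pl → ℝ := fun z => be z * (2 * (z.2 - z₀.2)) with hBf
  have hs1 : ContDiff ℝ ∞ fun z : Pl => 2 * (z.1 - z₀.1) :=
    contDiff_const.mul (contDiff_fst.sub contDiff_const)
  have hs2 : ContDiff ℝ ∞ fun z : Pl => 2 * (z.2 - z₀.2) :=
    contDiff_const.mul (contDiff_snd.sub contDiff_const)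
  have hAs : ContDiff ℝ ∞ Af := hs1.sub (hal.mul hs2)
  have hBs : ContDiff ℝ ∞ Bf := hbe.mul hs2
  -- the continuous functions
  set g0 : Pl → ℝ := fun z => Af z ^ 2 + Bf z ^ 2 with hg0
  set g1 : Pl → ℝ := fun z => (XX al Af z + YY be Bf z) +
    K * (|2 * (z.1 - z₀.1)| + |2 * (z.2 - z₀.2)|) with hg1
  have hg0c : Continuous g0 := (hAs.continuous.pow 2).add (hBs.continuous.pow 2)
  have hg1c : Continuous g1 := by
    have e1 : Continuous (XX al Af) :=
      (Egr_smooth_dx hAs).continuous.sub (hal.continuous.mul (Egr_smooth_dy hAs).continuous)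
    have e2 : Continuous (YY be Bf) := hbe.continuous.mul (Egr_smooth_dy hBs).continuous
    exact (e1.add e2).add (continuous_const.mul (hs1.continuous.abs.add hs2.continuous.abs))
  have key : ∀ κ : ℝ, 0 < κ → ∀ z : Pl, XX al (XX al fun y => Real.exp (-κ * qq z₀ y)) z
        + YY be (YY be fun y => Real.exp (-κ * qq z₀ y)) z
        - K * (|dx (fun y => Real.exp (-κ * qq z₀ y)) z| +
          |dy (fun y => Real.exp (-κ * qq z₀ y)) z|) =
      κ * Real.exp (-κ * qq z₀ z) * (κ * g0 z - g1 z) := by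
    intro κ hκ z
    have hψ := C2_exp_smooth z₀ κ
    have e1 : (XX al fun y => Real.exp (-κ * qq z₀ y)) =
        fun y => -κ * (Real.exp (-κ * qq z₀ y) * Af y) := by
      funext y
      unfold XX
      rw [(C2_exp_d z₀ κ y).1, (C2_exp_d z₀ κ y).2, hAf]
      ring
    have e2 : (YY be fun y => Real.exp (-κ * qq z₀ y)) =
        fun y => -κ * (Real.exp (-κ * qq z₀ y) * Bf y) := by
      funext y
      unfold YY
      rw [(C2_exp_d z₀ κ y).2, hBf]
      ring
    rw [e1, e2]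
    have e3 : XX al (fun y => -κ * (Real.exp (-κ * qq z₀ y) * Af y)) z =
        κ ^ 2 * Real.exp (-κ * qq z₀ z) * Af z ^ 2 - κ * Real.exp (-κ * qq z₀ z) * XX al Af z := by
      unfold XX
      rw [(C2_mul_d hψ hAs (-κ) z).1, (C2_mul_d hψ hAs (-κ) z).2, (C2_exp_d z₀ κ z).1,
        (C2_exp_d z₀ κ z).2]
      have : Af z = 2 * (z.1 - z₀.1) - al z * (2 * (z.2 - z₀.2)) := rfl
      rw [this]
      ring
    have e4 : YY be (fun y => -κ * (Real.exp (-κ * qq z₀ y) * Bf y)) z =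
        κ ^ 2 * Real.exp (-κ * qq z₀ z) * Bf z ^ 2 - κ * Real.exp (-κ * qq z₀ z) * YY be Bf z := by
      unfold YY
      rw [(C2_mul_d hψ hBs (-κ) z).2, (C2_exp_d z₀ κ z).2]
      have : Bf z = be z * (2 * (z.2 - z₀.2)) := rfl
      rw [this]
      ring
    have hep : 0 < Real.exp (-κ * qq z₀ z) := Real.exp_pos _
    have habs : ∀ t : ℝ, |-κ * (Real.exp (-κ * qq z₀ z) * t)| =
        κ * (Real.exp (-κ * qq z₀ z) * |t|) := by
      intro t
      rw [abs_mul, abs_mul, abs_neg, abs_of_pos hκ, abs_of_pos hep]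
    rw [e3, e4, (C2_exp_d z₀ κ z).1, (C2_exp_d z₀ κ z).2, habs, habs]
    simp only [hg0, hg1]
    ring
  obtain ⟨C₂, hC₂⟩ := hXc.exists_bound_of_continuousOn hg1c.continuousOn
  rcases X.eq_empty_or_nonempty with hemp | hne
  · refine ⟨1, one_pos, fun κ _ => ⟨1, one_pos, fun z h1 h2 => ?_⟩⟩
    exfalso
    have : z ∈ X := ⟨h1, h2⟩
    rw [hemp] at this
    exact this
  · obtain ⟨z₁, hz₁, hmin⟩ := hXc.exists_isMinOn hne hg0c.continuousOn
    have hpos : 0 < g0 z₁ := by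
      have h1 : 0 ≤ g0 z₁ := add_nonneg (sq_nonneg _) (sq_nonneg _)
      rcases h1.eq_or_lt with h2 | h2
      · exfalso
        have h3 : Bf z₁ ^ 2 = 0 := by
          have := sq_nonneg (Af z₁)
          have := sq_nonneg (Bf z₁)
          simp only [hg0] at h2
          linarith
        have h4 : Af z₁ ^ 2 = 0 := by
          have := sq_nonneg (Af z₁)
          have := sq_nonneg (Bf z₁)
          simp only [hg0] at h2
          linarith
        have h5 : Bf z₁ = 0 := by simpa using h3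
        have h6 : Af z₁ = 0 := by simpa using h4
        have h7 : 2 * (z₁.2 - z₀.2) = 0 := (mul_eq_zero.1 h5).resolve_left (h0 z₁)
        have h8 : 2 * (z₁.1 - z₀.1) = 0 := by
          have : Af z₁ = 2 * (z₁.1 - z₀.1) - al z₁ * (2 * (z₁.2 - z₀.2)) := rfl
          rw [this, h7, mul_zero, sub_zero] at h6
          exact h6
        have h9 : qq z₀ z₁ = 0 := by
          unfold qq
          have e1 : z₁.1 - z₀.1 = 0 := by linarith
          have e2 : z₁.2 - z₀.2 = 0 := by linarith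
          rw [e1, e2]
          ring
        have h10 := hz₁.1
        rw [h9] at h10
        have : 0 < r ^ 2 := pow_pos hr 2
        linarith
      · exact h2
    have hC₂0 : 0 ≤ C₂ := (norm_nonneg _).trans (hC₂ z₁ hz₁)
    refine ⟨(C₂ + 1) / g0 z₁, by positivity, fun κ hκ => ?_⟩
    have hκ0 : 0 < κ := lt_of_lt_of_le (by positivity) hκ
    refine ⟨κ * Real.exp (-κ * S ^ 2), by positivity, fun z h1 h2 => ?_⟩
    rw [key κ hκ0 z]
    have hz : z ∈ X := ⟨h1, h2⟩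
    have e1 : g0 z₁ ≤ g0 z := hmin hz
    have e2 : g1 z ≤ C₂ := (le_abs_self _).trans (hC₂ z hz)
    have e3 : C₂ + 1 ≤ κ * g0 z := by
      rw [div_le_iff₀ hpos] at hκ
      exact hκ.trans (mul_le_mul_of_nonneg_left e1 hκ0.le)
    have e4 : Real.exp (-κ * S ^ 2) ≤ Real.exp (-κ * qq z₀ z) := by
      apply Real.exp_le_exp.2
      nlinarith
    have e5 : 1 ≤ κ * g0 z - g1 z := by linarith
    calc κ * Real.exp (-κ * S ^ 2) ≤ κ * Real.exp (-κ * qq z₀ z) :=
          mul_le_mul_of_nonneg_left e4 hκ0.le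
      _ = κ * Real.exp (-κ * qq z₀ z) * 1 := (mul_one _).symm
      _ ≤ κ * Real.exp (-κ * qq z₀ z) * (κ * g0 z - g1 z) :=
          mul_le_mul_of_nonneg_left e5 (by positivity)

end QR
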