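import Pool.Agent.LibQR40.C1
import Pool.Agent.LibQR40.C2

/-! ROW C3. Put auxiliary lemmas in this file, names starting with `C3_`.
(Carleman estimate; short). K from `carl_id`, κ₀ from `weight_ok` with this K; for κ ≥ κ₀ take c of
`weight_ok`, τ₀ = 2 K / c + 1, and the constant c / 2: τ c' - K ≥ τ c / 2 for τ ≥ τ₀ on the support of f. The integrals
are of continuous functions with compact support (`integral_mono`). -/

open MeasureTheory Set Filter Topology
open scoped ContDiff ENNReal NNReal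

namespace QR

open BGS

theorem carleman {al be : Pl → ℝ} (hal : ContDiff ℝ ∞ al) (hbe : ContDiff ℝ ∞ be)
    (h0 : ∀ z, be z ≠ 0) (z₀ : Pl) {r S : ℝ} (hr : 0 < r) :
    ∃ κ₀ : ℝ, 0 < κ₀ ∧ ∀ κ : ℝ, κ₀ ≤ κ → ∃ τ₀ c : ℝ, 0 < c ∧ ∀ τ : ℝ, τ₀ ≤ τ →
      ∀ f : Pl → ℂ, InAnn z₀ r S f →
      c * τ * ∫ z, Real.exp (2 * τ * Real.exp (-κ * qq z₀ z)) * ‖f z‖ ^ 2 ≤
        ∫ z, Real.exp (2 * τ * Real.exp (-κ * qq z₀ z)) * ‖Dop al be f z‖ ^ 2 := by
  obtain ⟨K, hK, hC⟩ := carl_id hal hbe h0 z₀ S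
  obtain ⟨κ₀, hκ₀, hW⟩ := weight_ok hal hbe h0 z₀ (S := S) hr K
  refine ⟨κ₀, hκ₀, fun κ hκ => ?_⟩
  obtain ⟨c, hc, hc2⟩ := hW κ hκ
  refine ⟨2 * K / c + 1, c / 2, half_pos hc, fun τ hτ f hf => ?_⟩
  have hτ0 : 0 < τ := by
    have : 0 < 2 * K / c := by positivity
    linarith
  have hτc : K ≤ τ * c / 2 := by
    have h1 : 2 * K / c ≤ τ := by linarith
    rw [div_le_iff₀ hc] at h1
    linarith
  set ψ : Pl → ℝ := fun y => Real.exp (-κ * qq z₀ y) with hψd
  have hqq : ContDiff ℝ ∞ (qq z₀) :=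
    ((contDiff_fst.sub contDiff_const).pow 2).add ((contDiff_snd.sub contDiff_const).pow 2)
  have hψ : ContDiff ℝ ∞ ψ := (contDiff_const.mul hqq).exp
  have h1 := hC ψ hψ τ hτ0.le f ⟨hf.1, hf.2.1, fun z hz => ⟨by
    rw [zero_pow two_ne_zero]; exact add_nonneg (sq_nonneg _) (sq_nonneg _), (hf.2.2 z hz).2⟩⟩
  refine le_trans ?_ h1
  have hXs : ∀ g : Pl → ℝ, ContDiff ℝ ∞ g → ContDiff ℝ ∞ (XX al g) := fun g hg =>
    (Egr_smooth_dx hg).sub (hal.mul (Egr_smooth_dy hg))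
  have hYs : ∀ g : Pl → ℝ, ContDiff ℝ ∞ g → ContDiff ℝ ∞ (YY be g) := fun g hg =>
    hbe.mul (Egr_smooth_dy hg)
  have hcs : HasCompactSupport fun z => ‖f z‖ ^ 2 :=
    hf.2.1.comp_left (g := fun w : ℂ => ‖w‖ ^ 2) (by simp)
  have hfc : Continuous fun z => ‖f z‖ ^ 2 := hf.1.continuous.norm.pow 2
  have hE : Continuous fun z => Real.exp (2 * τ * ψ z) :=
    Real.continuous_exp.comp (continuous_const.mul hψ.continuous)
  rw [← integral_const_mul]
  apply integral_mono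
  · refine Continuous.integrable_of_hasCompactSupport ?_ ?_
    · exact continuous_const.mul (hE.mul hfc)
    · exact (hcs.mul_left (f := fun z => Real.exp (2 * τ * ψ z))).mul_left
        (f := fun _ => c / 2 * τ)
  · refine Continuous.integrable_of_hasCompactSupport ?_ ?_
    · exact (((continuous_const.mul ((((hXs _ (hXs _ hψ)).continuous).add
        ((hYs _ (hYs _ hψ)).continuous)).sub (continuous_const.mul
          ((Egr_smooth_dx hψ).continuous.abs.add (Egr_smooth_dy hψ).continuous.abs)))).sub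
            continuous_const).mul hE).mul hfc
    · exact hcs.mul_left (f := fun z => (τ * (XX al (XX al ψ) z + YY be (YY be ψ) z -
        K * (|dx ψ z| + |dy ψ z|)) - K) * Real.exp (2 * τ * ψ z))
  · intro z
    show c / 2 * τ * (Real.exp (2 * τ * ψ z) * ‖f z‖ ^ 2) ≤
      (τ * (XX al (XX al ψ) z + YY be (YY be ψ) z - K * (|dx ψ z| + |dy ψ z|)) - K)
          * Real.exp (2 * τ * ψ z) * ‖f z‖ ^ 2
    by_cases hz : z ∈ tsupport f
    · have h2 := hc2 z (hf.2.2 z hz).1 (hf.2.2 z hz).2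
      have h3 : τ * c ≤ τ * (XX al (XX al ψ) z + YY be (YY be ψ) z -
          K * (|dx ψ z| + |dy ψ z|)) := mul_le_mul_of_nonneg_left h2 hτ0.le
      have h4 : 0 ≤ Real.exp (2 * τ * ψ z) * ‖f z‖ ^ 2 := by positivity
      rw [mul_assoc _ (Real.exp (2 * τ * ψ z))]
      exact mul_le_mul_of_nonneg_right (by linarith) h4
    · have h2 : f z = 0 := image_eq_zero_of_notMem_tsupport hz
      rw [h2]
      simp

end QR
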