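import Pool.Agent.LibQR40.Defs2

/-! ROW C4a. Put auxiliary lemmas in this file, names starting with `C4a_`.
(easy facts about `Wf` and `Dop`). `Dop_real`: cdx of a real function is the real dx, etc. `Dop_mul`: product rule. -/

open MeasureTheory Set Filter Topology
open scoped ContDiff ENNReal NNReal

namespace QR

open BGS

theorem smooth_ofReal {v : Pl → ℝ} (hv : ContDiff ℝ ∞ v) : ContDiff ℝ ∞ fun z => (v z : ℂ) :=
  Complex.ofRealCLM.contDiff.comp hv

theorem smooth_Wf (A : Coef) {v : Pl → ℝ} (hv : ContDiff ℝ ∞ v) : ContDiff ℝ ∞ (Wf A v) := by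
  unfold Wf
  refine (smooth_ofReal ?_).add (contDiff_const.mul (smooth_ofReal ?_))
  · exact (Egr_smooth_dx hv).sub ((smooth_alA A).mul (Egr_smooth_dy hv))
  · exact (smooth_beA A).mul (Egr_smooth_dy hv)

private theorem C4a_fderiv {v : Pl → ℝ} (hv : ContDiff ℝ ∞ v) (z h : Pl) :
    fderiv ℝ (fun z => (v z : ℂ)) z h = ((fderiv ℝ v z h : ℝ) : ℂ) := by
  have h1 : HasFDerivAt (fun z => (v z : ℂ)) (Complex.ofRealCLM.comp (fderiv ℝ v z)) z :=
    Complex.ofRealCLM.hasFDerivAt.comp z (hv.differentiable (by simp) z).hasFDerivAt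
  rw [h1.fderiv]
  rfl

theorem Dop_real (A : Coef) {v : Pl → ℝ} (hv : ContDiff ℝ ∞ v) (z : Pl) :
    Dop (alA A) (fun z => -beA A z) (fun z => (v z : ℂ)) z = Wf A v z := by
  unfold Dop Wf cdx cdy
  rw [C4a_fderiv hv, C4a_fderiv hv]
  unfold dx dy
  push_cast
  ring

/-- Product rule for `Dop`. -/
theorem Dop_mul {al be : Pl → ℝ} {χ : Pl → ℝ} {f : Pl → ℂ} (hχ : ContDiff ℝ ∞ χ) (hf : ContDiff ℝ ∞ f)
    (z : Pl) : Dop al be (fun y => (χ y : ℂ) * f y) z =
      (χ z : ℂ) * Dop al be f z + Dop al be (fun y => (χ y : ℂ)) z * f z := by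
  have hχ' : ContDiff ℝ ∞ fun y => (χ y : ℂ) := smooth_ofReal hχ
  have h1 : HasFDerivAt (fun y => (χ y : ℂ) * f y)
      ((χ z : ℂ) • fderiv ℝ f z + f z • fderiv ℝ (fun y => (χ y : ℂ)) z) z :=
    (hχ'.differentiable (by simp) z).hasFDerivAt.mul (hf.differentiable (by simp) z).hasFDerivAt
  unfold Dop cdx cdy
  rw [h1.fderiv]
  simp only [ContinuousLinearMap.add_apply, ContinuousLinearMap.smul_apply, smul_eq_mul]
  ring

end QR
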