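import Pool.Agent.LibQR40.C4a

/-! ROW C4b. Put auxiliary lemmas in this file, names starting with `C4b_`.
(the first order system; algebra). Λ = α + iβ with α = -b/a, β = 1/a. For a real smooth v put
W = (∂x - conj(Λ) ∂y) v = Dop α (-β) (v as a complex function). Then
(∂x - Λ ∂y) W = v_xx + 2 (b/a) v_xy + (c/a) v_yy + (Λ ∂y conj Λ - ∂x conj Λ) v_y [|Λ|² = (b² + 1)/a² = c/a], so
a (∂x - Λ ∂y) W = Lu A v + (first order terms in v with smooth coefficients). v_x, v_y are combinations of W and conj W with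
smooth coefficients: Im W = β v_y, Re W = v_x - α v_y. So on the compact set {qq z₀ ≤ S²}:
‖Dop α β W‖ ≤ K (|Lu A v| + ‖W‖) and |v_x| + |v_y| ≤ K ‖W‖. With Lu A v = -V v the claim. Second derivatives commute:
`Egr_symm`. Real and imaginary parts: W z = (dx v z - α z dy v z) + i (β z dy v z). -/

open MeasureTheory Set Filter Topology
open scoped ContDiff ENNReal NNReal

namespace QR

open BGS

theorem C4b_diff {f : Pl → ℝ} (hf : ContDiff ℝ ∞ f) (z : Pl) : DifferentiableAt ℝ f z :=
  (hf.differentiable (by simp)) z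

theorem C4b_mul {f g : Pl → ℝ} (hf : ContDiff ℝ ∞ f) (hg : ContDiff ℝ ∞ g) (z w : Pl) :
    fderiv ℝ (fun y => f y * g y) z w = fderiv ℝ f z w * g z + f z * fderiv ℝ g z w := by
  have h : (fun y => f y * g y) = f * g := rfl
  rw [h, fderiv_mul (C4b_diff hf z) (C4b_diff hg z)]
  show f z * fderiv ℝ g z w + g z * fderiv ℝ f z w = _
  ring

theorem C4b_add {f g : Pl → ℝ} (hf : ContDiff ℝ ∞ f) (hg : ContDiff ℝ ∞ g) (z w : Pl) :
    fderiv ℝ (fun y => f y + g y) z w = fderiv ℝ f z w + fderiv ℝ g z w := by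
  have h : (fun y => f y + g y) = f + g := rfl
  rw [h, fderiv_add (C4b_diff hf z) (C4b_diff hg z)]
  rfl

theorem C4b_sub {f g : Pl → ℝ} (hf : ContDiff ℝ ∞ f) (hg : ContDiff ℝ ∞ g) (z w : Pl) :
    fderiv ℝ (fun y => f y - g y) z w = fderiv ℝ f z w - fderiv ℝ g z w := by
  have h : (fun y => f y - g y) = f - g := rfl
  rw [h, fderiv_sub (C4b_diff hf z) (C4b_diff hg z)]
  rfl

theorem C4b_cd {R J : Pl → ℝ} (hR : ContDiff ℝ ∞ R) (hJ : ContDiff ℝ ∞ J) (z w : Pl) :
    fderiv ℝ (fun y => ((R y : ℝ) : ℂ) + Complex.I * ((J y : ℝ) : ℂ)) z w =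
      ((fderiv ℝ R z w : ℝ) : ℂ) + Complex.I * ((fderiv ℝ J z w : ℝ) : ℂ) := by
  have h1 : HasFDerivAt R (fderiv ℝ R z) z := (C4b_diff hR z).hasFDerivAt
  have h2 : HasFDerivAt J (fderiv ℝ J z) z := (C4b_diff hJ z).hasFDerivAt
  have h3 : HasFDerivAt (fun y => ((R y : ℝ) : ℂ)) (Complex.ofRealCLM.comp (fderiv ℝ R z)) z :=
    (Complex.ofRealCLM.hasFDerivAt (x := R z)).comp z h1
  have h4 : HasFDerivAt (fun y => ((J y : ℝ) : ℂ)) (Complex.ofRealCLM.comp (fderiv ℝ J z)) z :=
    (Complex.ofRealCLM.hasFDerivAt (x := J z)).comp z h2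
  have h5 := h3.add (h4.const_mul Complex.I)
  have h6 := h5.fderiv
  have h7 : (fun y => ((R y : ℝ) : ℂ) + Complex.I * ((J y : ℝ) : ℂ)) =
      (fun y => ((R y : ℝ) : ℂ)) + fun y => Complex.I * ((J y : ℝ) : ℂ) := rfl
  rw [h7, h6]
  rfl

/-- The equation of the first order system. -/
theorem C4b_eq (A : Coef) {v : Pl → ℝ} (hv : ContDiff ℝ ∞ v) (z : Pl) :
    Dop (alA A) (beA A) (Wf A v) z =
      ((Lu A v z * beA A z + (-(dx A.a z + dy A.b z) * beA A z) * dx v z +
        (-(dx A.b z + dy A.c z) * beA A z +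
          (-dx (alA A) z + alA A z * dy (alA A) z + beA A z * dy (beA A) z)) * dy v z : ℝ) : ℂ) +
      Complex.I * (((dx (beA A) z - alA A z * dy (beA A) z + beA A z * dy (alA A) z) * dy v z : ℝ) : ℂ) := by
  have hp : ContDiff ℝ ∞ (dx v) := Egr_smooth_dx hv
  have hq : ContDiff ℝ ∞ (dy v) := Egr_smooth_dy hv
  have hal := smooth_alA A
  have hbe := smooth_beA A
  have haq : ContDiff ℝ ∞ fun y => alA A y * dy v y := hal.mul hq
  have hR : ContDiff ℝ ∞ fun y => dx v y - alA A y * dy v y := hp.sub haq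
  have hJ : ContDiff ℝ ∞ fun y => beA A y * dy v y := hbe.mul hq
  have hW : Wf A v = fun y => (((fun y => dx v y - alA A y * dy v y) y : ℝ) : ℂ) +
      Complex.I * (((fun y => beA A y * dy v y) y : ℝ) : ℂ) := rfl
  have hR' : ∀ w, fderiv ℝ (fun y => dx v y - alA A y * dy v y) z w =
      fderiv ℝ (dx v) z w - (fderiv ℝ (alA A) z w * dy v z + alA A z * fderiv ℝ (dy v) z w) := by
    intro w
    rw [C4b_sub hp haq, C4b_mul hal hq]
  have hJ' : ∀ w, fderiv ℝ (fun y => beA A y * dy v y) z w =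
      fderiv ℝ (beA A) z w * dy v z + beA A z * fderiv ℝ (dy v) z w := by
    intro w
    rw [C4b_mul hbe hq]
  have hL : Lu A v z = (dx A.a z * dx v z + A.a z * dx (dx v) z + (dx A.b z * dy v z +
      A.b z * dx (dy v) z)) + (dy A.b z * dx v z + A.b z * dy (dx v) z + (dy A.c z * dy v z +
      A.c z * dy (dy v) z)) := by
    have e1 : dx (fx A v) z = dx A.a z * dx v z + A.a z * dx (dx v) z + (dx A.b z * dy v z +
      A.b z * dx (dy v) z) := by
      show fderiv ℝ (fun y => A.a y * dx v y + A.b y * dy v y) z (1, 0) = _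
      rw [C4b_add (A.ha.mul hp) (A.hb.mul hq), C4b_mul A.ha hp, C4b_mul A.hb hq]
      rfl
    have e2 : dy (fy A v) z = dy A.b z * dx v z + A.b z * dy (dx v) z + (dy A.c z * dy v z +
      A.c z * dy (dy v) z) := by
      show fderiv ℝ (fun y => A.b y * dx v y + A.c y * dy v y) z (0, 1) = _
      rw [C4b_add (A.hb.mul hp) (A.hc.mul hq), C4b_mul A.hb hp, C4b_mul A.hc hq]
      rfl
    show dx (fx A v) z + dy (fy A v) z = _
    rw [e1, e2]
  have ha0 : A.a z ≠ 0 := (A.pos z).ne'
  have g1 : alA A z = -A.b z * beA A z := by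
    unfold alA beA
    field_simp
  have g2 : A.a z * beA A z = 1 := by
    unfold beA
    field_simp
  have g3 := A.det z
  have g4 : dy (dx v) z = dx (dy v) z := Egr_symm hv z
  unfold Dop cdx cdy
  rw [hW, C4b_cd hR hJ, C4b_cd hR hJ, hR', hR', hJ', hJ']
  change ((dx (dx v) z - (dx (alA A) z * dy v z + alA A z * dx (dy v) z) : ℝ) : ℂ) +
      Complex.I * ((dx (beA A) z * dy v z + beA A z * dx (dy v) z : ℝ) : ℂ) -
      ((alA A z : ℂ) + Complex.I * (beA A z : ℂ)) *
      (((dy (dx v) z - (dy (alA A) z * dy v z + alA A z * dy (dy v) z) : ℝ) : ℂ) +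
      Complex.I * ((dy (beA A) z * dy v z + beA A z * dy (dy v) z : ℝ) : ℂ)) = _
  rw [hL, g4]
  generalize dx (dx v) z = X
  generalize dx (dy v) z = Y
  generalize dy (dy v) z = Z
  generalize dx v z = p
  generalize dy v z = q
  generalize dx (alA A) z = alx
  generalize dy (alA A) z = aly
  generalize dx (beA A) z = bex
  generalize dy (beA A) z = bey
  generalize dx A.a z = ax at *
  generalize dx A.b z = bx at *
  generalize dy A.b z = by' at *
  generalize dy A.c z = cy at *
  clear hR' hJ' hW hL hR hJ haq hal hbe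
  generalize alA A z = al at *
  generalize beA A z = be at *
  generalize A.a z = a at *
  generalize A.b z = b at *
  generalize A.c z = c at *
  have e1 : X - (alx * q + al * Y) - al * (Y - (aly * q + al * Z)) + be * (bey * q + be * Z) =
      (ax * p + a * X + (bx * q + b * Y) + (by' * p + b * Y + (cy * q + c * Z))) * be +
        -(ax + by') * be * p +
        (-(bx + cy) * be + (-alx + al * aly + be * bey)) * q := by
    linear_combination (-X + Z * be * c) * g2 + (-2 * Y + Z * (al - b * be)) * g1 -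
      Z * be ^ 2 * g3
  have e2 : (bex * q + be * Y) - al * (bey * q + be * Z) - be * (Y - (aly * q + al * Z)) =
      (bex - al * bey + be * aly) * q := by ring
  rw [← e1, ← e2]
  push_cast
  linear_combination (-(be : ℂ) * (bey * q + be * Z)) * Complex.I_sq

theorem system (A : Coef) {V v : Pl → ℝ} (hV : ContDiff ℝ ∞ V) (hv : ContDiff ℝ ∞ v)
    (hL : ∀ z, Lu A v z = - (V z * v z)) (z₀ : Pl) (S : ℝ) :
    ∃ K : ℝ, 0 < K ∧ ∀ z, qq z₀ z ≤ S ^ 2 → ‖Dop (alA A) (beA A) (Wf A v) z‖ ≤ K * (|v z| + ‖Wf A v z‖) := by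
  have hal := (smooth_alA A).continuous
  have hbe := (smooth_beA A).continuous
  have c1 := (Egr_smooth_dx A.ha).continuous
  have c2 := (Egr_smooth_dx A.hb).continuous
  have c3 := (Egr_smooth_dy A.hb).continuous
  have c4 := (Egr_smooth_dy A.hc).continuous
  have c5 := (Egr_smooth_dx (smooth_alA A)).continuous
  have c6 := (Egr_smooth_dy (smooth_alA A)).continuous
  have c7 := (Egr_smooth_dx (smooth_beA A)).continuous
  have c8 := (Egr_smooth_dy (smooth_beA A)).continuous
  have c9 := A.ha.continuous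
  have c10 := hV.continuous
  set k1 : Pl → ℝ := fun z => -(dx A.a z + dy A.b z) * beA A z with hk1
  set k2 : Pl → ℝ := fun z => -(dx A.b z + dy A.c z) * beA A z +
    (-dx (alA A) z + alA A z * dy (alA A) z + beA A z * dy (beA A) z) with hk2
  set k3 : Pl → ℝ := fun z => dx (beA A) z - alA A z * dy (beA A) z + beA A z * dy (alA A) z with hk3
  set Φ : Pl → ℝ := fun z => |V z * beA A z| + |k1 z| * (1 + |alA A z * A.a z|) +
    (|k2 z| + |k3 z|) * |A.a z| with hΦ
  have hk1c : Continuous k1 := ((c1.add c3).neg).mul hbe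
  have hk2c : Continuous k2 := (((c2.add c4).neg).mul hbe).add
    ((c5.neg.add (hal.mul c6)).add (hbe.mul c8))
  have hk3c : Continuous k3 := (c7.sub (hal.mul c8)).add (hbe.mul c6)
  have hΦc : Continuous Φ := (((c10.mul hbe).abs).add (hk1c.abs.mul
    (continuous_const.add (hal.mul c9).abs))).add ((hk2c.abs.add hk3c.abs).mul c9.abs)
  obtain ⟨C, hC⟩ := (isCompact_closedBall z₀ |S|).exists_bound_of_continuousOn hΦc.continuousOn
  refine ⟨|C| + 1, by positivity, ?_⟩
  intro z hz
  have hzb : z ∈ Metric.closedBall z₀ |S| := by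
    rw [Metric.mem_closedBall, Prod.dist_eq, max_le_iff, Real.dist_eq, Real.dist_eq]
    unfold qq at hz
    constructor
    · exact sq_le_sq.1 (by nlinarith [sq_nonneg (z.2 - z₀.2)])
    · exact sq_le_sq.1 (by nlinarith [sq_nonneg (z.1 - z₀.1)])
  have hΦz : Φ z ≤ |C| + 1 := by
    have h1 := hC z hzb
    rw [Real.norm_eq_abs] at h1
    linarith [le_abs_self (Φ z), le_abs_self C]
  have hW : Wf A v z = ((dx v z - alA A z * dy v z : ℝ) : ℂ) +
      Complex.I * ((beA A z * dy v z : ℝ) : ℂ) := rfl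
  set w := ‖Wf A v z‖ with hw
  have hw0 : 0 ≤ w := norm_nonneg _
  have hre : |dx v z - alA A z * dy v z| ≤ w := by
    have h1 := Complex.abs_re_le_norm (Wf A v z)
    have h2 : (Wf A v z).re = dx v z - alA A z * dy v z := by
      rw [hW]
      simp
    rwa [h2] at h1
  have him : |beA A z * dy v z| ≤ w := by
    have h1 := Complex.abs_im_le_norm (Wf A v z)
    have h2 : (Wf A v z).im = beA A z * dy v z := by
      rw [hW]
      simp
    rwa [h2] at h1
  have ha0 : A.a z ≠ 0 := (A.pos z).ne'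
  have hq : dy v z = A.a z * (beA A z * dy v z) := by
    unfold beA
    field_simp
  have hqw : |dy v z| ≤ |A.a z| * w := by
    rw [hq, abs_mul]
    exact mul_le_mul_of_nonneg_left him (abs_nonneg _)
  have hpw : |dx v z| ≤ (1 + |alA A z * A.a z|) * w := by
    have h1 : dx v z = (dx v z - alA A z * dy v z) + (alA A z * A.a z) * (beA A z * dy v z) := by
      have h2 : (alA A z * A.a z) * (beA A z * dy v z) = alA A z * (A.a z * (beA A z * dy v z)) := by
        ring
      rw [h2, ← hq]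
      ring
    rw [h1]
    refine (abs_add_le _ _).trans ?_
    rw [abs_mul (alA A z * A.a z)]
    have h3 := mul_le_mul_of_nonneg_left him (abs_nonneg (alA A z * A.a z))
    linarith
  rw [C4b_eq A hv z, hL z]
  have hn : ∀ x y : ℝ, ‖(x : ℂ) + Complex.I * (y : ℂ)‖ ≤ |x| + |y| := by
    intro x y
    refine (norm_add_le _ _).trans ?_
    rw [norm_mul, Complex.norm_I, one_mul, Complex.norm_real, Complex.norm_real]
    exact le_rfl
  refine (hn _ _).trans ?_
  have h1 : |-(V z * v z) * beA A z + -(dx A.a z + dy A.b z) * beA A z * dx v z +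
      (-(dx A.b z + dy A.c z) * beA A z +
        (-dx (alA A) z + alA A z * dy (alA A) z + beA A z * dy (beA A) z)) * dy v z| ≤
      |V z * beA A z| * |v z| + |k1 z| * |dx v z| + |k2 z| * |dy v z| := by
    have e : -(V z * v z) * beA A z + -(dx A.a z + dy A.b z) * beA A z * dx v z +
      (-(dx A.b z + dy A.c z) * beA A z +
        (-dx (alA A) z + alA A z * dy (alA A) z + beA A z * dy (beA A) z)) * dy v z =
        -((V z * beA A z) * v z) + k1 z * dx v z + k2 z * dy v z := by
      simp only [hk1, hk2]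
      ring
    rw [e]
    refine (abs_add_le _ _).trans (add_le_add ((abs_add_le _ _).trans (add_le_add ?_ ?_)) ?_)
    · rw [abs_neg, abs_mul]
    · rw [abs_mul]
    · rw [abs_mul]
  have h2 : |(dx (beA A) z - alA A z * dy (beA A) z + beA A z * dy (alA A) z) * dy v z| ≤
      |k3 z| * |dy v z| := by
    rw [abs_mul]
  have h3 : |k1 z| * |dx v z| ≤ |k1 z| * ((1 + |alA A z * A.a z|) * w) :=
    mul_le_mul_of_nonneg_left hpw (abs_nonneg _)
  have h4 : (|k2 z| + |k3 z|) * |dy v z| ≤ (|k2 z| + |k3 z|) * (|A.a z| * w) :=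
    mul_le_mul_of_nonneg_left hqw (by positivity)
  have h5 : 0 ≤ |v z| := abs_nonneg _
  have h6 : |V z * beA A z| * |v z| ≤ Φ z * |v z| := by
    refine mul_le_mul_of_nonneg_right ?_ h5
    simp only [hΦ]
    have : 0 ≤ |k1 z| * (1 + |alA A z * A.a z|) + (|k2 z| + |k3 z|) * |A.a z| := by positivity
    linarith
  have h7 : (|k1 z| * (1 + |alA A z * A.a z|) + (|k2 z| + |k3 z|) * |A.a z|) * w ≤ Φ z * w := by
    refine mul_le_mul_of_nonneg_right ?_ hw0
    simp only [hΦ]
    have : 0 ≤ |V z * beA A z| := abs_nonneg _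
    linarith
  have h8 : Φ z * (|v z| + w) ≤ (|C| + 1) * (|v z| + w) :=
    mul_le_mul_of_nonneg_right hΦz (by positivity)
  linarith

end QR
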