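import Pool.Agent.LibQR40.Defs2

/-! ROW C5a. Put auxiliary lemmas in this file, names starting with `C5a_`.
(radial cut-off). PLAN: χ z = g (qq z₀ z) with a smooth g : ℝ → ℝ made from `Real.smoothTransition`, g = 1 on (-∞, (R₁+1)²], g = 0 on
[(R₁+3/2)², ∞): then χ = 0 outside {qq ≤ (R₁+3/2)²} so tsupport χ ⊆ {qq ≤ (R₁+2)²}, compact (qq z₀ z ≥ ‖z - z₀‖²). -/

open MeasureTheory Set Filter Topology
open scoped ContDiff ENNReal NNReal

namespace QR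

open BGS

theorem C5a_qq_smooth (z₀ : Pl) : ContDiff ℝ ∞ (qq z₀) := by
  unfold qq
  fun_prop

theorem C5a_norm_sq_le (z₀ z : Pl) : ‖z - z₀‖ ^ 2 ≤ qq z₀ z := by
  have h : ‖z - z₀‖ = max |z.1 - z₀.1| |z.2 - z₀.2| := rfl
  rw [h]
  have h1 : qq z₀ z = (z.1 - z₀.1) ^ 2 + (z.2 - z₀.2) ^ 2 := rfl
  rw [h1]
  rcases max_choice |z.1 - z₀.1| |z.2 - z₀.2| with h2 | h2
  · rw [h2, sq_abs]
    nlinarith [sq_nonneg (z.2 - z₀.2)]
  · rw [h2, sq_abs]
    nlinarith [sq_nonneg (z.1 - z₀.1)]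

/-- Radial cut-off. -/
theorem radial_cut (z₀ : Pl) {R₁ : ℝ} (hR : 0 < R₁) : ∃ χ : Pl → ℝ, IsT χ ∧ (∀ z, 0 ≤ χ z) ∧ (∀ z, χ z ≤ 1) ∧
    (∀ z, qq z₀ z < (R₁ + 1) ^ 2 → χ z = 1) ∧ (∀ z ∈ tsupport χ, qq z₀ z ≤ (R₁ + 2) ^ 2) := by
  set d : ℝ := (R₁ + 2) ^ 2 - (R₁ + 1) ^ 2 with hd
  have hd0 : 0 < d := by rw [hd]; nlinarith
  set χ : Pl → ℝ := fun z => Real.smoothTransition (((R₁ + 2) ^ 2 - qq z₀ z) / d) with hχ
  have hsm : ContDiff ℝ ∞ χ := by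
    refine Real.smoothTransition.contDiff.comp ?_
    exact (contDiff_const.sub (C5a_qq_smooth z₀)).div_const d
  have hqc : Continuous (qq z₀) := (C5a_qq_smooth z₀).continuous
  have hsupp : tsupport χ ⊆ {z | qq z₀ z ≤ (R₁ + 2) ^ 2} := by
    apply closure_minimal _ (isClosed_le hqc continuous_const)
    intro z hz
    by_contra hlt
    apply hz
    apply Real.smoothTransition.zero_of_nonpos
    have hlt' : (R₁ + 2) ^ 2 < qq z₀ z := not_le.1 hlt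
    apply div_nonpos_of_nonpos_of_nonneg _ hd0.le
    linarith
  have hcpt : HasCompactSupport χ := by
    refine IsCompact.of_isClosed_subset (isCompact_closedBall z₀ (R₁ + 2)) (isClosed_tsupport χ) ?_
    intro z hz
    rw [Metric.mem_closedBall, dist_eq_norm]
    have h1 : qq z₀ z ≤ (R₁ + 2) ^ 2 := hsupp hz
    have h2 := (C5a_norm_sq_le z₀ z).trans h1
    exact abs_le_of_sq_le_sq' h2 (by linarith) |>.2
  refine ⟨χ, ⟨hsm, hcpt⟩, fun z => Real.smoothTransition.nonneg _,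
    fun z => Real.smoothTransition.le_one _, fun z hz => ?_, fun z hz => hsupp hz⟩
  apply Real.smoothTransition.one_of_one_le
  rw [le_div_iff₀ hd0, one_mul, hd]
  linarith

end QR
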