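import Pool.Agent.LibQR40.C3
import Pool.Agent.LibQR40.C4
import Pool.Agent.LibQR40.C5a

/-! ROW C5. Put auxiliary lemmas in this file, names starting with `C5_`.
(unique continuation in the plane). Given R₁ > 0 we show v = 0 on {q < R₁²}, q = qq z₀. Let S = R₁ + 2 and χ a
smooth cut-off, χ = 1 on {q ≤ (R₁+1)²}, support in {q ≤ S²} (e.g. χ z = g (q z) with a smooth g : ℝ → ℝ from
`Real.smoothTransition`). v and W = Wf A v vanish on {q < r²}, so χ v and χ W are in InAnn z₀ (r/2) S (in fact their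
supports are in {q ≥ r²}). Take κ = max of the two κ₀ of `carleman` for (α, β) and (α, -β), ψ = e^{-κ q}. With `Dop_mul`,
`Dop_real`, `system`: for τ large
c τ ∫ e^{2τψ} (|χ v|² + ‖χ W‖²) ≤ 2 K² ∫ e^{2τψ} χ² (|v| + ‖W‖)² + ... + C ∫_{supp ∇χ} e^{2τψ} (|v|² + ‖W‖²);
absorb the first term for τ large; on supp ∇χ one has q ≥ (R₁+1)², so e^{2τψ} ≤ e^{2τ e^{-κ (R₁+1)²}}; on {q < R₁²}
e^{2τψ} ≥ e^{2τ e^{-κ R₁²}}. Hence ∫_{q < R₁²} v² ≤ (C/τ) e^{-2τ (e^{-κR₁²} - e^{-κ(R₁+1)²})} → 0, so the integral is 0 and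
v = 0 on {q < R₁²} by continuity. -/

open MeasureTheory Set Filter Topology
open scoped ContDiff ENNReal NNReal

namespace QR

open BGS

theorem C5_qq_cont (z₀ : Pl) : Continuous (qq z₀) := by
  unfold qq
  fun_prop

theorem C5_d_const {u : Pl → ℝ} {z : Pl} {c : ℝ} (h : u =ᶠ[𝓝 z] fun _ => c) :
    dx u z = 0 ∧ dy u z = 0 := by
  have h1 : fderiv ℝ u z = 0 := by
    rw [h.fderiv_eq]
    simp
  unfold dx dy
  rw [h1]
  simp

theorem C5_cd_const {u : Pl → ℂ} {z : Pl} {c : ℂ} (h : u =ᶠ[𝓝 z] fun _ => c) :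
    cdx u z = 0 ∧ cdy u z = 0 := by
  have h1 : fderiv ℝ u z = 0 := by
    rw [h.fderiv_eq]
    simp
  unfold cdx cdy
  rw [h1]
  simp

theorem C5_Dop_cont {al be : Pl → ℝ} (hal : ContDiff ℝ ∞ al) (hbe : ContDiff ℝ ∞ be)
    {f : Pl → ℂ} (hf : ContDiff ℝ ∞ f) : Continuous (Dop al be f) := by
  have h1 : Continuous (fderiv ℝ f) := hf.continuous_fderiv (by simp)
  have h2 : Continuous (cdx f) := h1.clm_apply continuous_const
  have h3 : Continuous (cdy f) := h1.clm_apply continuous_const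
  have h4 := hal.continuous
  have h5 := hbe.continuous
  unfold Dop
  exact h2.sub (((Complex.continuous_ofReal.comp h4).add
    (continuous_const.mul (Complex.continuous_ofReal.comp h5))).mul h3)

/-- A product with a cut-off is supported in an annulus. -/
theorem C5_inAnn {z₀ : Pl} {r S : ℝ} {χ : Pl → ℝ} (hχ : IsT χ)
    (hχS : ∀ z ∈ tsupport χ, qq z₀ z ≤ S ^ 2) {f : Pl → ℂ} (hf : ContDiff ℝ ∞ f)
    (h0 : ∀ z, qq z₀ z < r ^ 2 → f z = 0) : InAnn z₀ r S (fun z => (χ z : ℂ) * f z) := by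
  have hχc : ContDiff ℝ ∞ fun z => (χ z : ℂ) := smooth_ofReal hχ.1
  refine ⟨hχc.mul hf, ?_, ?_⟩
  · apply HasCompactSupport.intro hχ.2
    intro z hz
    rw [image_eq_zero_of_notMem_tsupport hz]
    simp
  · intro z hz
    constructor
    · have h1 : tsupport (fun z => (χ z : ℂ) * f z) ⊆ {z | r ^ 2 ≤ qq z₀ z} := by
        apply closure_minimal _ (isClosed_le continuous_const (C5_qq_cont z₀))
        intro y hy
        by_contra hcon
        rw [mem_setOf_eq, not_le] at hcon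
        apply hy
        show (χ y : ℂ) * f y = 0
        rw [h0 y hcon, mul_zero]
      exact h1 hz
    · apply hχS
      have h1 : tsupport (fun z => (χ z : ℂ) * f z) ⊆ tsupport χ := by
        apply closure_minimal _ (isClosed_tsupport χ)
        intro y hy
        by_contra hcon
        apply hy
        show (χ y : ℂ) * f y = 0
        rw [image_eq_zero_of_notMem_tsupport hcon]
        simp
      exact h1 hz

/-- `|a + b|^2 ≤ 2 |a|^2 + 2 |b|^2`. -/
theorem C5_sq (a b : ℂ) : ‖a + b‖ ^ 2 ≤ 2 * ‖a‖ ^ 2 + 2 * ‖b‖ ^ 2 := by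
  have h1 := norm_add_le a b
  have h2 : ‖a + b‖ ^ 2 ≤ (‖a‖ + ‖b‖) ^ 2 := pow_le_pow_left₀ (norm_nonneg _) h1 2
  nlinarith [sq_nonneg (‖a‖ - ‖b‖)]

theorem ucp_plane (A : Coef) {V v : Pl → ℝ} (hV : ContDiff ℝ ∞ V) (hv : ContDiff ℝ ∞ v)
    (hL : ∀ z, Lu A v z = - (V z * v z)) (z₀ : Pl) {r : ℝ} (hr : 0 < r)
    (h0 : ∀ z, qq z₀ z < r ^ 2 → v z = 0) : ∀ z, v z = 0 := by
  -- it is enough to treat the discs
  suffices hdisc : ∀ R₁ : ℝ, 0 < R₁ → ∀ z, qq z₀ z < R₁ ^ 2 → v z = 0 by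
    intro z
    have h1 : 0 ≤ qq z₀ z := add_nonneg (sq_nonneg _) (sq_nonneg _)
    refine hdisc (qq z₀ z + 1) (by linarith) z ?_
    nlinarith
  intro R₁ hR
  set al := alA A with hal'
  set be := beA A with hbe'
  have hal : ContDiff ℝ ∞ al := smooth_alA A
  have hbe : ContDiff ℝ ∞ be := smooth_beA A
  have hbn : ContDiff ℝ ∞ fun z => -be z := hbe.neg
  have hb0 : ∀ z, be z ≠ 0 := fun z => (beA_pos A z).ne'
  have hbn0 : ∀ z, (fun z => -be z) z ≠ 0 := fun z => neg_ne_zero.2 (hb0 z)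
  set S := R₁ + 2 with hS
  obtain ⟨χ, hχ, hχ0, hχ1, hχR, hχS⟩ := radial_cut z₀ hR
  obtain ⟨K, hK, hsys⟩ := system A hV hv hL z₀ S
  obtain ⟨κ₁, hκ₁, hcar1⟩ := carleman hal hbn hbn0 z₀ (r := r) (S := S) hr
  obtain ⟨κ₂, hκ₂, hcar2⟩ := carleman hal hbe hb0 z₀ (r := r) (S := S) hr
  set κ := max κ₁ κ₂ with hκ
  have hκ0 : 0 < κ := lt_of_lt_of_le hκ₁ (le_max_left _ _)
  obtain ⟨τ₁, c₁, hc₁, hcar1⟩ := hcar1 κ (le_max_left _ _)
  obtain ⟨τ₂, c₂, hc₂, hcar2⟩ := hcar2 κ (le_max_right _ _)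
  set W := Wf A v with hW
  have hWs : ContDiff ℝ ∞ W := smooth_Wf A hv
  have hvc : ContDiff ℝ ∞ fun z => (v z : ℂ) := smooth_ofReal hv
  have hχc : ContDiff ℝ ∞ fun z => (χ z : ℂ) := smooth_ofReal hχ.1
  have hopen : ∀ a : ℝ, IsOpen {z : Pl | qq z₀ z < a} := fun a =>
    isOpen_lt (C5_qq_cont z₀) continuous_const
  have hv0 : ∀ z, qq z₀ z < r ^ 2 → (fun z => (v z : ℂ)) z = 0 := by
    intro z hz
    show (v z : ℂ) = 0
    rw [h0 z hz]
    simp
  have hW0 : ∀ z, qq z₀ z < r ^ 2 → W z = 0 := by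
    intro z hz
    have h1 : v =ᶠ[𝓝 z] fun _ => (0 : ℝ) := by
      filter_upwards [(hopen (r ^ 2)).mem_nhds hz] with y hy
      exact h0 y hy
    obtain ⟨h2, h3⟩ := C5_d_const h1
    rw [hW]
    unfold Wf
    rw [h2, h3]
    simp
  set f : Pl → ℂ := fun z => (χ z : ℂ) * (v z : ℂ) with hf
  set F : Pl → ℂ := fun z => (χ z : ℂ) * W z with hF
  have hfA : InAnn z₀ r S f := C5_inAnn hχ hχS hvc hv0
  have hFA : InAnn z₀ r S F := C5_inAnn hχ hχS hWs hW0
  -- the remainders
  set g1 : Pl → ℝ := fun z => 2 * ‖Dop al (fun z => -be z) (fun y => (χ y : ℂ)) z * (v z : ℂ)‖ ^ 2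
    with hg1
  set g2 : Pl → ℝ := fun z => 2 * ‖Dop al be (fun y => (χ y : ℂ)) z * W z‖ ^ 2 with hg2
  have hg1c : Continuous g1 :=
    continuous_const.mul ((((C5_Dop_cont hal hbn hχc).mul hvc.continuous).norm).pow 2)
  have hg2c : Continuous g2 :=
    continuous_const.mul ((((C5_Dop_cont hal hbe hχc).mul hWs.continuous).norm).pow 2)
  have hDz : ∀ (b : Pl → ℝ) (z : Pl) (c : ℝ), χ =ᶠ[𝓝 z] (fun _ => c) →
      Dop al b (fun y => (χ y : ℂ)) z = 0 := by
    intro b z c h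
    have h1 : (fun y => (χ y : ℂ)) =ᶠ[𝓝 z] fun _ => (c : ℂ) := by
      filter_upwards [h] with y hy
      rw [hy]
    obtain ⟨h2, h3⟩ := C5_cd_const h1
    unfold Dop
    rw [h2, h3]
    simp
  have hDt : ∀ (b : Pl → ℝ) (z : Pl), z ∉ tsupport χ → Dop al b (fun y => (χ y : ℂ)) z = 0 := by
    intro b z hz
    apply hDz b z 0
    exact notMem_tsupport_iff_eventuallyEq.1 hz
  have hD1 : ∀ (b : Pl → ℝ) (z : Pl), qq z₀ z < (R₁ + 1) ^ 2 →
      Dop al b (fun y => (χ y : ℂ)) z = 0 := by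
    intro b z hz
    apply hDz b z 1
    filter_upwards [(hopen ((R₁ + 1) ^ 2)).mem_nhds hz] with y hy
    exact hχR y hy
  have hg1s : HasCompactSupport g1 := by
    apply HasCompactSupport.intro hχ.2
    intro z hz
    simp only [hg1]
    rw [hDt _ z hz]
    simp
  have hg2s : HasCompactSupport g2 := by
    apply HasCompactSupport.intro hχ.2
    intro z hz
    simp only [hg2]
    rw [hDt _ z hz]
    simp
  have hg1i : Integrable g1 := hg1c.integrable_of_hasCompactSupport hg1s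
  have hg2i : Integrable g2 := hg2c.integrable_of_hasCompactSupport hg2s
  have hg1n : ∀ z, 0 ≤ g1 z := fun z => by simp only [hg1]; positivity
  have hg2n : ∀ z, 0 ≤ g2 z := fun z => by simp only [hg2]; positivity
  set G := (∫ z, g1 z) + (∫ z, g2 z) with hG
  set V0 := ∫ z in {z : Pl | qq z₀ z < R₁ ^ 2}, v z ^ 2 with hV0
  have hV0i : IntegrableOn (fun z => v z ^ 2) {z : Pl | qq z₀ z < R₁ ^ 2} := by
    have h1 : Continuous fun z => ‖f z‖ ^ 2 := (hfA.1.continuous.norm).pow 2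
    have h2 : HasCompactSupport fun z => ‖f z‖ ^ 2 := by
      apply HasCompactSupport.intro hfA.2.1
      intro z hz
      rw [image_eq_zero_of_notMem_tsupport hz]
      simp
    have h3 := (h1.integrable_of_hasCompactSupport h2 (μ := volume)).integrableOn
      (s := {z : Pl | qq z₀ z < R₁ ^ 2})
    refine h3.congr_fun ?_ (hopen _).measurableSet
    intro z hz
    have hz' : qq z₀ z < (R₁ + 1) ^ 2 := lt_trans hz (by nlinarith)
    show ‖(χ z : ℂ) * (v z : ℂ)‖ ^ 2 = v z ^ 2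
    rw [hχR z hz']
    simp
  -- the main inequality
  set c := min c₁ c₂ with hc
  have hc0 : 0 < c := lt_min hc₁ hc₂
  have hmain : ∀ τ : ℝ, 0 < τ → τ₁ ≤ τ → τ₂ ≤ τ → 2 * (2 + 4 * K ^ 2) ≤ c * τ →
      (c * τ / 2) * V0 ≤ G := by
    intro τ hτ0 hτ1 hτ2 hτ3
    set E : Pl → ℝ := fun z => Real.exp (2 * τ * Real.exp (-κ * qq z₀ z)) with hE
    have hEc : Continuous E := by
      have := C5_qq_cont z₀
      simp only [hE]
      fun_prop
    have hEp : ∀ z, 0 < E z := fun z => Real.exp_pos _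
    set e₁ := Real.exp (2 * τ * Real.exp (-κ * (R₁ + 1) ^ 2)) with he₁
    have he₁p : 0 < e₁ := Real.exp_pos _
    have hint : ∀ h : Pl → ℂ, Continuous h → HasCompactSupport h →
        Integrable fun z => E z * ‖h z‖ ^ 2 := by
      intro h hh hs
      apply (hEc.mul ((hh.norm).pow 2)).integrable_of_hasCompactSupport
      apply HasCompactSupport.intro hs
      intro z hz
      show E z * ‖h z‖ ^ 2 = 0
      rw [image_eq_zero_of_notMem_tsupport hz]
      simp
    have hi1 := hint f hfA.1.continuous hfA.2.1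
    have hi2 := hint F hFA.1.continuous hFA.2.1
    set I1 := ∫ z, E z * ‖f z‖ ^ 2 with hI1
    set I2 := ∫ z, E z * ‖F z‖ ^ 2 with hI2
    have hI2n : 0 ≤ I2 := integral_nonneg fun z => mul_nonneg (hEp z).le (sq_nonneg _)
    have hI1n : 0 ≤ I1 := integral_nonneg fun z => mul_nonneg (hEp z).le (sq_nonneg _)
    have hEg : ∀ (g : Pl → ℝ), (∀ z, 0 ≤ g z) → (∀ z, qq z₀ z < (R₁ + 1) ^ 2 → g z = 0) → ∀ z,
        E z * g z ≤ e₁ * g z := by
      intro g hg hg0 z
      by_cases hz : qq z₀ z < (R₁ + 1) ^ 2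
      · rw [hg0 z hz]
        simp
      · rw [not_lt] at hz
        apply mul_le_mul_of_nonneg_right _ (hg z)
        apply Real.exp_le_exp.2
        apply mul_le_mul_of_nonneg_left _ (by positivity)
        apply Real.exp_le_exp.2
        nlinarith
    have hg10 : ∀ z, qq z₀ z < (R₁ + 1) ^ 2 → g1 z = 0 := by
      intro z hz
      simp only [hg1]
      rw [hD1 _ z hz]
      simp
    have hg20 : ∀ z, qq z₀ z < (R₁ + 1) ^ 2 → g2 z = 0 := by
      intro z hz
      simp only [hg2]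
      rw [hD1 _ z hz]
      simp
    have hA1 : c₁ * τ * I1 ≤ 2 * I2 + e₁ * ∫ z, g1 z := by
      refine (hcar1 τ hτ1 f hfA).trans ?_
      have h1 : ∫ z, E z * ‖Dop al (fun z => -be z) f z‖ ^ 2 ≤
          ∫ z, (2 * (E z * ‖F z‖ ^ 2) + e₁ * g1 z) := by
        apply integral_mono_of_nonneg
        · exact ae_of_all _ fun z => mul_nonneg (hEp z).le (sq_nonneg _)
        · exact (hi2.const_mul 2).add (hg1i.const_mul e₁)
        · refine ae_of_all _ fun z => ?_
          show E z * ‖Dop al (fun z => -be z) f z‖ ^ 2 ≤ 2 * (E z * ‖F z‖ ^ 2) + e₁ * g1 z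
          have h2 : Dop al (fun z => -be z) f z = F z +
              Dop al (fun z => -be z) (fun y => (χ y : ℂ)) z * (v z : ℂ) := by
            rw [hf, Dop_mul hχ.1 hvc z, Dop_real A hv z]
          have h3 := hEg g1 hg1n hg10 z
          have h4 : ‖Dop al (fun z => -be z) f z‖ ^ 2 ≤ 2 * ‖F z‖ ^ 2 + g1 z := by
            rw [h2]
            exact C5_sq _ _
          calc E z * ‖Dop al (fun z => -be z) f z‖ ^ 2 ≤ E z * (2 * ‖F z‖ ^ 2 + g1 z) :=
                mul_le_mul_of_nonneg_left h4 (hEp z).le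
            _ = 2 * (E z * ‖F z‖ ^ 2) + E z * g1 z := by ring
            _ ≤ 2 * (E z * ‖F z‖ ^ 2) + e₁ * g1 z := by linarith
      refine h1.trans (le_of_eq ?_)
      rw [integral_add (hi2.const_mul 2) (hg1i.const_mul e₁), integral_const_mul,
        integral_const_mul]
    have hA2 : c₂ * τ * I2 ≤ 4 * K ^ 2 * (I1 + I2) + e₁ * ∫ z, g2 z := by
      refine (hcar2 τ hτ2 F hFA).trans ?_
      have h1 : ∫ z, E z * ‖Dop al be F z‖ ^ 2 ≤
          ∫ z, (4 * K ^ 2 * (E z * ‖f z‖ ^ 2 + E z * ‖F z‖ ^ 2) + e₁ * g2 z) := by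
        apply integral_mono_of_nonneg
        · exact ae_of_all _ fun z => mul_nonneg (hEp z).le (sq_nonneg _)
        · exact ((hi1.add hi2).const_mul (4 * K ^ 2)).add (hg2i.const_mul e₁)
        · refine ae_of_all _ fun z => ?_
          show E z * ‖Dop al be F z‖ ^ 2 ≤
            4 * K ^ 2 * (E z * ‖f z‖ ^ 2 + E z * ‖F z‖ ^ 2) + e₁ * g2 z
          have h2 : Dop al be F z = (χ z : ℂ) * Dop al be W z +
              Dop al be (fun y => (χ y : ℂ)) z * W z := by
            rw [hF, Dop_mul hχ.1 hWs z]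
          have h3 := hEg g2 hg2n hg20 z
          have h5 : ‖(χ z : ℂ) * Dop al be W z‖ ^ 2 ≤
              2 * K ^ 2 * (‖f z‖ ^ 2 + ‖F z‖ ^ 2) := by
            have hfz : ‖f z‖ = |χ z| * |v z| := by
              simp only [hf]
              rw [norm_mul, Complex.norm_real, Complex.norm_real, Real.norm_eq_abs,
                Real.norm_eq_abs]
            have hFz : ‖F z‖ = |χ z| * ‖W z‖ := by
              simp only [hF]
              rw [norm_mul, Complex.norm_real, Real.norm_eq_abs]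
            rw [hfz, hFz, norm_mul, Complex.norm_real, Real.norm_eq_abs]
            by_cases hz : z ∈ tsupport χ
            · have h6 := hsys z (hχS z hz)
              have h7 : ‖Dop al be W z‖ ^ 2 ≤ (K * (|v z| + ‖W z‖)) ^ 2 :=
                pow_le_pow_left₀ (norm_nonneg _) h6 2
              have h8 : (K * (|v z| + ‖W z‖)) ^ 2 ≤ 2 * K ^ 2 * (|v z| ^ 2 + ‖W z‖ ^ 2) := by
                have h9 : 0 ≤ K ^ 2 * (|v z| - ‖W z‖) ^ 2 := by positivity
                nlinarith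
              have h10 : 0 ≤ |χ z| ^ 2 := sq_nonneg _
              calc (|χ z| * ‖Dop al be W z‖) ^ 2 = |χ z| ^ 2 * ‖Dop al be W z‖ ^ 2 := by ring
                _ ≤ |χ z| ^ 2 * (2 * K ^ 2 * (|v z| ^ 2 + ‖W z‖ ^ 2)) :=
                    mul_le_mul_of_nonneg_left (h7.trans h8) h10
                _ = 2 * K ^ 2 * ((|χ z| * |v z|) ^ 2 + (|χ z| * ‖W z‖) ^ 2) := by ring
            · rw [image_eq_zero_of_notMem_tsupport hz]
              simp
          have h4 : ‖Dop al be F z‖ ^ 2 ≤ 4 * K ^ 2 * (‖f z‖ ^ 2 + ‖F z‖ ^ 2) + g2 z := by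
            rw [h2]
            refine (C5_sq _ _).trans ?_
            have h6 : g2 z = 2 * ‖Dop al be (fun y => (χ y : ℂ)) z * W z‖ ^ 2 := rfl
            rw [h6]
            linarith
          calc E z * ‖Dop al be F z‖ ^ 2
              ≤ E z * (4 * K ^ 2 * (‖f z‖ ^ 2 + ‖F z‖ ^ 2) + g2 z) :=
                mul_le_mul_of_nonneg_left h4 (hEp z).le
            _ = 4 * K ^ 2 * (E z * ‖f z‖ ^ 2 + E z * ‖F z‖ ^ 2) + E z * g2 z := by ring
            _ ≤ 4 * K ^ 2 * (E z * ‖f z‖ ^ 2 + E z * ‖F z‖ ^ 2) + e₁ * g2 z := by linarith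
      refine h1.trans (le_of_eq ?_)
      have hi3 : Integrable fun z => 4 * K ^ 2 * (E z * ‖f z‖ ^ 2 + E z * ‖F z‖ ^ 2) :=
        (hi1.add hi2).const_mul _
      have hi4 : Integrable fun z => e₁ * g2 z := hg2i.const_mul e₁
      rw [integral_add hi3 hi4, integral_const_mul, integral_const_mul, integral_add hi1 hi2]
    have hA3 : c * τ / 2 * (I1 + I2) ≤ e₁ * G := by
      have h1 : c * τ * I1 ≤ c₁ * τ * I1 := by
        apply mul_le_mul_of_nonneg_right _ hI1n
        exact mul_le_mul_of_nonneg_right (min_le_left _ _) hτ0.le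
      have h2 : c * τ * I2 ≤ c₂ * τ * I2 := by
        apply mul_le_mul_of_nonneg_right _ hI2n
        exact mul_le_mul_of_nonneg_right (min_le_right _ _) hτ0.le
      have h3 : 2 * (2 + 4 * K ^ 2) * (I1 + I2) ≤ c * τ * (I1 + I2) :=
        mul_le_mul_of_nonneg_right hτ3 (add_nonneg hI1n hI2n)
      have h4 : e₁ * G = e₁ * (∫ z, g1 z) + e₁ * (∫ z, g2 z) := by
        rw [hG]
        ring
      rw [h4]
      nlinarith
    -- lower bound
    have hA4 : e₁ * V0 ≤ I1 := by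
      have h1 : e₁ * V0 = ∫ z in {z : Pl | qq z₀ z < R₁ ^ 2}, e₁ * v z ^ 2 := by
        rw [hV0, integral_const_mul]
      rw [h1]
      calc ∫ z in {z : Pl | qq z₀ z < R₁ ^ 2}, e₁ * v z ^ 2
          ≤ ∫ z in {z : Pl | qq z₀ z < R₁ ^ 2}, E z * ‖f z‖ ^ 2 := by
            apply setIntegral_mono_on (hV0i.const_mul e₁) hi1.integrableOn
              (hopen _).measurableSet
            intro z hz
            have hz' : qq z₀ z < (R₁ + 1) ^ 2 := lt_trans hz (by nlinarith)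
            have h2 : ‖f z‖ ^ 2 = v z ^ 2 := by
              show ‖(χ z : ℂ) * (v z : ℂ)‖ ^ 2 = v z ^ 2
              rw [hχR z hz']
              simp
            rw [h2]
            apply mul_le_mul_of_nonneg_right _ (sq_nonneg _)
            apply Real.exp_le_exp.2
            apply mul_le_mul_of_nonneg_left _ (by positivity)
            apply Real.exp_le_exp.2
            nlinarith
        _ ≤ ∫ z, E z * ‖f z‖ ^ 2 :=
            setIntegral_le_integral hi1 (ae_of_all _ fun z => mul_nonneg (hEp z).le (sq_nonneg _))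
    have hcτ : 0 ≤ c * τ / 2 := by positivity
    have h5 : c * τ / 2 * (e₁ * V0) ≤ e₁ * G :=
      (mul_le_mul_of_nonneg_left (hA4.trans (le_add_of_nonneg_right hI2n)) hcτ).trans hA3
    have h6 : e₁ * (c * τ / 2 * V0) ≤ e₁ * G := by
      calc e₁ * (c * τ / 2 * V0) = c * τ / 2 * (e₁ * V0) := by ring
        _ ≤ e₁ * G := h5
    exact le_of_mul_le_mul_left h6 he₁p
  -- conclusion
  have hG0 : 0 ≤ G := add_nonneg (integral_nonneg hg1n) (integral_nonneg hg2n)
  have hV00 : V0 ≤ 0 := by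
    by_contra hcon
    rw [not_le] at hcon
    set τ := max (max 1 (max τ₁ τ₂)) (max (2 * (2 + 4 * K ^ 2) / c) (2 * (G + 1) / (c * V0)))
      with hτ
    have t1 : 1 ≤ τ := (le_max_left _ _).trans (le_max_left _ _)
    have t2 : τ₁ ≤ τ := ((le_max_left _ _).trans (le_max_right _ _)).trans (le_max_left _ _)
    have t3 : τ₂ ≤ τ := ((le_max_right _ _).trans (le_max_right _ _)).trans (le_max_left _ _)
    have t4 : 2 * (2 + 4 * K ^ 2) / c ≤ τ := (le_max_left _ _).trans (le_max_right _ _)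
    have t5 : 2 * (G + 1) / (c * V0) ≤ τ := (le_max_right _ _).trans (le_max_right _ _)
    rw [div_le_iff₀ hc0] at t4
    rw [div_le_iff₀ (mul_pos hc0 hcon)] at t5
    have h1 := hmain τ (by linarith) t2 t3 (by linarith)
    nlinarith
  intro z hz
  by_contra hne
  have hpos : 0 < V0 := by
    rw [hV0, setIntegral_pos_iff_support_of_nonneg_ae (ae_of_all _ fun z => sq_nonneg _) hV0i]
    have h1 : IsOpen (Function.support (fun z => v z ^ 2) ∩ {z : Pl | qq z₀ z < R₁ ^ 2}) :=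
      ((hv.continuous.pow 2).isOpen_support).inter (hopen _)
    have h2 : (Function.support (fun z => v z ^ 2) ∩ {z : Pl | qq z₀ z < R₁ ^ 2}).Nonempty :=
      ⟨z, Function.mem_support.2 (pow_ne_zero 2 hne), hz⟩
    exact h1.measure_pos volume h2
  linarith

end QR
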