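import Pool.Agent.LibQR40.B3a
import Pool.Agent.LibQR40.C5

/-! ROW D1a. Put auxiliary lemmas in this file, names starting with `D1a_`.
(unique continuation for eigenfunctions). `ucp`: `eig_pde` and `ucp_plane` (an open set contains a small Euclidean ball).
`pr_zero`: if U ≠ 0 then U ≠ 0 on a nonempty open set, there V = 0. -/

open MeasureTheory Set Filter Topology
open scoped ContDiff ENNReal NNReal

namespace QR

open BGS

variable {Γ : Type} [Group Γ] [MulAction Γ Pl] {D : Set Pl}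

theorem ucp (hX : Surface Γ D) (m : Mt Γ D) (w : TestS Γ) (la : ℝ) (U : TestS Γ)
    (hU : IsEig hX m w la U) (O : Set Pl) (hO : IsOpen O) (hne : O.Nonempty) (h0 : ∀ z ∈ O, U.1 z = 0) :
    U = 0 := by
  obtain ⟨z₀, hz₀⟩ := hne
  obtain ⟨r, hr, hball⟩ := Metric.isOpen_iff.1 hO z₀ hz₀
  have h1 : ∀ z, qq z₀ z < r ^ 2 → U.1 z = 0 := by
    intro z hz
    apply h0
    apply hball
    unfold qq at hz
    rw [Metric.mem_ball, Prod.dist_eq, max_lt_iff, Real.dist_eq, Real.dist_eq]
    constructor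
    · exact abs_lt_of_sq_lt_sq (by nlinarith [sq_nonneg (z.2 - z₀.2)]) hr.le
    · exact abs_lt_of_sq_lt_sq (by nlinarith [sq_nonneg (z.1 - z₀.1)]) hr.le
  have hV : ContDiff ℝ ∞ (fun z => la * (w.1 z * vol m z)) :=
    contDiff_const.mul (w.2.1.mul (smooth_vol m))
  have h2 := ucp_plane (coefM m) hV U.2.1 (fun z => eig_pde hX m w la U hU z) z₀ hr h1
  apply Subtype.ext
  funext z
  exact h2 z

theorem pr_zero (hX : Surface Γ D) (m : Mt Γ D) (w : TestS Γ) (la : ℝ) (U V : TestS Γ)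
    (hU : IsEig hX m w la U) (hV : IsEig hX m w la V) (h : ∀ z, U.1 z * V.1 z = 0) : U = 0 ∨ V = 0 := by
  by_cases h1 : ∀ z, U.1 z = 0
  · left
    apply Subtype.ext
    funext z
    exact h1 z
  · right
    push Not at h1
    obtain ⟨z₀, hz₀⟩ := h1
    have hO : IsOpen {z : Pl | U.1 z ≠ 0} := isOpen_ne_fun U.2.1.continuous continuous_const
    refine ucp hX m w la V hV _ hO ⟨z₀, hz₀⟩ fun z hz => ?_
    exact (mul_eq_zero.1 (h z)).resolve_left hz

end QR
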