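import Pool.Agent.LibQR40.D1a
import Pool.Agent.LibQR40.CU

/-! ROW D1b. Put auxiliary lemmas in this file, names starting with `D1b_`.
(independence of squares). PLAN: write A = coefM m, Λ z = la w vol. (1) From L(U²) = 2 U L U + 2 q2 U U (`Lu_mul`) and `eig_pde`: L(U² + V² - W²) = 0 gives
q2 U U + q2 V V = q2 W W everywhere. (2) U ∇U + V ∇V = W ∇W (differentiate). (3) Lagrange identity for the positive form q2:
(U² + V²)(q2 U U + q2 V V) - Q(U∇U + V∇V) = Q(U∇V - V∇U), Q(p,q) = a p² + 2 b p q + c q² positive definite; the left side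
is W² q2 W W - Q(W ∇W) = 0, so U ∇V = V ∇U. (4) If U = 0 take (1,0). Otherwise on a ball where U ≠ 0 the function V/U has
zero gradient, so V = c U on the ball, and V - c U is an eigenfunction that vanishes on an open set: V = c U, take (-c, 1) (i.e. a = -c, b = 1). -/

open MeasureTheory Set Filter Topology
open scoped ContDiff ENNReal NNReal

namespace QR

open BGS

variable {Γ : Type} [Group Γ] [MulAction Γ Pl] {D : Set Pl}

theorem D1b_dx_add {f g : Pl → ℝ} (hf : ContDiff ℝ ∞ f) (hg : ContDiff ℝ ∞ g) (z : Pl) :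
    dx (fun y => f y + g y) z = dx f z + dx g z := by
  have h := pd_add hf hg true z
  simpa [pd] using h

theorem D1b_dy_add {f g : Pl → ℝ} (hf : ContDiff ℝ ∞ f) (hg : ContDiff ℝ ∞ g) (z : Pl) :
    dy (fun y => f y + g y) z = dy f z + dy g z := by
  have h := pd_add hf hg false z
  simpa [pd] using h

theorem D1b_dx_mul {f g : Pl → ℝ} (hf : ContDiff ℝ ∞ f) (hg : ContDiff ℝ ∞ g) (z : Pl) :
    dx (fun y => f y * g y) z = dx f z * g z + f z * dx g z := by
  have h := pd_mul hf hg true z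
  simpa [pd] using h

theorem D1b_dy_mul {f g : Pl → ℝ} (hf : ContDiff ℝ ∞ f) (hg : ContDiff ℝ ∞ g) (z : Pl) :
    dy (fun y => f y * g y) z = dy f z * g z + f z * dy g z := by
  have h := pd_mul hf hg false z
  simpa [pd] using h

theorem D1b_Lu_add (A : Coef) {f g : Pl → ℝ} (hf : ContDiff ℝ ∞ f) (hg : ContDiff ℝ ∞ g) (z : Pl) :
    Lu A (fun y => f y + g y) z = Lu A f z + Lu A g z := by
  have h1 : fx A (fun y => f y + g y) = fun y => fx A f y + fx A g y := by
    funext y
    unfold fx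
    rw [D1b_dx_add hf hg, D1b_dy_add hf hg]
    ring
  have h2 : fy A (fun y => f y + g y) = fun y => fy A f y + fy A g y := by
    funext y
    unfold fy
    rw [D1b_dx_add hf hg, D1b_dy_add hf hg]
    ring
  unfold Lu
  rw [h1, h2, D1b_dx_add (smooth_fx A hf) (smooth_fx A hg),
    D1b_dy_add (smooth_fy A hf) (smooth_fy A hg)]
  ring

/-- The Lagrange identity for a positive form. -/
theorem D1b_lagrange {a b c u v w ux uy vx vy wx wy : ℝ} (ha : 0 < a) (hd : a * c - b ^ 2 = 1)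
    (h1 : u * u + v * v = w * w) (hx : u * ux + v * vx = w * wx) (hy : u * uy + v * vy = w * wy)
    (hq : ((a * ux + b * uy) * ux + (b * ux + c * uy) * uy) +
      ((a * vx + b * vy) * vx + (b * vx + c * vy) * vy) =
      (a * wx + b * wy) * wx + (b * wx + c * wy) * wy) :
    u * vx = v * ux ∧ u * vy = v * uy := by
  obtain ⟨p, hp⟩ : ∃ p, p = u * vx - v * ux := ⟨_, rfl⟩
  obtain ⟨q, hq'⟩ : ∃ q, q = u * vy - v * uy := ⟨_, rfl⟩
  have k1 : a * p ^ 2 + 2 * b * p * q + c * q ^ 2 = 0 := by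
    have e1 : a * p ^ 2 + 2 * b * p * q + c * q ^ 2 =
        (u * u + v * v) * (((a * ux + b * uy) * ux + (b * ux + c * uy) * uy) +
          ((a * vx + b * vy) * vx + (b * vx + c * vy) * vy)) -
        (a * (u * ux + v * vx) ^ 2 + 2 * b * (u * ux + v * vx) * (u * uy + v * vy) +
          c * (u * uy + v * vy) ^ 2) := by
      rw [hp, hq']; ring
    rw [e1, hq, h1, hx, hy]
    ring
  have k2 : (a * p + b * q) ^ 2 + q ^ 2 = 0 := by
    have : (a * p + b * q) ^ 2 + q ^ 2 =
        a * (a * p ^ 2 + 2 * b * p * q + c * q ^ 2) - (a * c - b ^ 2 - 1) * q ^ 2 := by ring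
    rw [this, k1, hd]
    ring
  have k3 : q = 0 := by nlinarith [sq_nonneg (a * p + b * q), sq_nonneg q]
  have k4 : p = 0 := by
    rw [k3] at k2
    have : a * p = 0 := by nlinarith [sq_nonneg (a * p)]
    rcases mul_eq_zero.1 this with h | h
    · exact absurd h ha.ne'
    · exact h
  exact ⟨by linarith, by linarith⟩

theorem su_sq (hX : Surface Γ D) (m : Mt Γ D) (w : TestS Γ) (la : ℝ) (U V W : TestS Γ)
    (hU : IsEig hX m w la U) (hV : IsEig hX m w la V) (hW : IsEig hX m w la W)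
    (h : ∀ z, U.1 z ^ 2 + V.1 z ^ 2 = W.1 z ^ 2) :
    ∃ a b : ℝ, (a ≠ 0 ∨ b ≠ 0) ∧ a • U + b • V = 0 := by
  have su : ContDiff ℝ ∞ U.1 := U.2.1
  have sv : ContDiff ℝ ∞ V.1 := V.2.1
  have sw : ContDiff ℝ ∞ W.1 := W.2.1
  have hfun : (fun y => U.1 y * U.1 y + V.1 y * V.1 y) = fun y => W.1 y * W.1 y := by
    funext y
    have := h y
    linarith [sq (U.1 y), sq (V.1 y), sq (W.1 y)]
  have hgrad : ∀ z, U.1 z * dx V.1 z = V.1 z * dx U.1 z ∧ U.1 z * dy V.1 z = V.1 z * dy U.1 z := by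
    intro z
    have h1 : U.1 z * U.1 z + V.1 z * V.1 z = W.1 z * W.1 z := congrFun hfun z
    have hx : U.1 z * dx U.1 z + V.1 z * dx V.1 z = W.1 z * dx W.1 z := by
      have := congrFun (congrArg dx hfun) z
      rw [D1b_dx_add (su.mul su) (sv.mul sv), D1b_dx_mul su su, D1b_dx_mul sv sv,
        D1b_dx_mul sw sw] at this
      linarith
    have hy : U.1 z * dy U.1 z + V.1 z * dy V.1 z = W.1 z * dy W.1 z := by
      have := congrFun (congrArg dy hfun) z
      rw [D1b_dy_add (su.mul su) (sv.mul sv), D1b_dy_mul su su, D1b_dy_mul sv sv,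
        D1b_dy_mul sw sw] at this
      linarith
    have hq : q2 (coefM m) U.1 U.1 z + q2 (coefM m) V.1 V.1 z = q2 (coefM m) W.1 W.1 z := by
      have := congrFun (congrArg (Lu (coefM m)) hfun) z
      rw [D1b_Lu_add _ (su.mul su) (sv.mul sv), Lu_mul _ su su, Lu_mul _ sv sv, Lu_mul _ sw sw,
        eig_pde hX m w la U hU, eig_pde hX m w la V hV, eig_pde hX m w la W hW] at this
      linear_combination this / 2 + (la * (w.1 z * vol m z)) * h1
    exact D1b_lagrange ((coefM m).pos z) ((coefM m).det z) h1 hx hy hq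
  by_cases hU0 : U = 0
  · exact ⟨1, 0, Or.inl one_ne_zero, by rw [hU0]; simp⟩
  obtain ⟨z₀, hz₀⟩ : ∃ z₀, U.1 z₀ ≠ 0 := by
    by_contra hc
    push Not at hc
    exact hU0 (Subtype.ext (funext hc))
  have hopen : IsOpen {z | U.1 z ≠ 0} := isOpen_ne_fun su.continuous continuous_const
  obtain ⟨ε, hε, hball⟩ := Metric.isOpen_iff.1 hopen z₀ hz₀
  obtain ⟨r, hr⟩ : ∃ r : Pl → ℝ, r = fun y => V.1 y / U.1 y := ⟨_, rfl⟩
  have hrd : ∀ y ∈ Metric.ball z₀ ε, DifferentiableAt ℝ r y := by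
    intro y hy
    rw [hr]
    exact (sv.contDiffAt.div su.contDiffAt (hball hy)).differentiableAt (by simp)
  have hr0 : ∀ y ∈ Metric.ball z₀ ε, fderiv ℝ r y = 0 := by
    intro y hy
    have hyu : U.1 y ≠ 0 := hball hy
    have hEq : V.1 =ᶠ[𝓝 y] fun z => r z * U.1 z := by
      filter_upwards [hopen.mem_nhds hyu] with z hz
      rw [hr]
      have hz' : U.1 z ≠ 0 := hz
      field_simp
    have hf := hEq.fderiv_eq (𝕜 := ℝ)
    rw [fderiv_fun_mul (hrd y hy) (su.differentiable (by simp) y)] at hf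
    have hry : r y * U.1 y = V.1 y := hEq.eq_of_nhds.symm
    have key : ∀ e : Pl, U.1 y * fderiv ℝ V.1 y e = V.1 y * fderiv ℝ U.1 y e →
        fderiv ℝ r y e = 0 := by
      intro e he
      have h2 := congrArg (fun L => L e) hf
      simp only [ContinuousLinearMap.add_apply, ContinuousLinearMap.smul_apply, smul_eq_mul] at h2
      have h3 : U.1 y * U.1 y * fderiv ℝ r y e = 0 := by
        have h4 : U.1 y * fderiv ℝ V.1 y e =
            (r y * U.1 y) * fderiv ℝ U.1 y e + U.1 y * U.1 y * fderiv ℝ r y e := by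
          rw [h2]; ring
        rw [hry] at h4
        linarith
      rcases mul_eq_zero.1 h3 with h5 | h5
      · exact absurd h5 (mul_ne_zero hyu hyu)
      · exact h5
    have k1 := key (1, 0) (hgrad y).1
    have k2 := key (0, 1) (hgrad y).2
    refine ContinuousLinearMap.ext fun e => ?_
    have he : e = e.1 • ((1, 0) : Pl) + e.2 • ((0, 1) : Pl) := by
      ext <;> simp
    rw [he, map_add, map_smul, map_smul, k1, k2]
    simp
  have hconst : ∀ y ∈ Metric.ball z₀ ε, r y = r z₀ := by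
    intro y hy
    exact IsOpen.is_const_of_fderiv_eq_zero (𝕜 := ℝ) Metric.isOpen_ball (convex_ball z₀ ε).isPreconnected
      (fun z hz => (hrd z hz).differentiableWithinAt) (fun z hz => hr0 z hz) hy
      (Metric.mem_ball_self hε)
  obtain ⟨c, hc⟩ : ∃ c, c = r z₀ := ⟨_, rfl⟩
  refine ⟨-c, 1, Or.inr one_ne_zero, ?_⟩
  refine ucp hX m w la _ ((hU.smul (-c)).add (hV.smul 1)) (Metric.ball z₀ ε) Metric.isOpen_ball
    ⟨z₀, Metric.mem_ball_self hε⟩ fun y hy => ?_
  have h1 := hconst y hy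
  rw [← hc, hr] at h1
  have hyu : U.1 y ≠ 0 := hball hy
  have h2 : V.1 y = c * U.1 y := by
    have h3 : V.1 y / U.1 y = c := h1
    rw [← h3]
    field_simp
  show -c * U.1 y + 1 * V.1 y = 0
  rw [h2]
  ring

end QR
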