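import Pool.Agent.LibQR40.CU

/-! ROW DOb. Put auxiliary lemmas in this file, names starting with `DOb_`.
(differential operators: smoothness and L² bound). PLAN: `do_smooth`: T v equals the finite sum (funext). `do_bound`:
|T v z|² ≤ (card s) Σ_{l ∈ s} |c l z|² |Dw l v z|² and |c l| is bounded on Q R (`bdd_Q`); s ⊆ words k (`mem_words`). -/

open MeasureTheory Set Filter Topology
open scoped ContDiff ENNReal NNReal

namespace QR

open BGS

theorem do_smooth {k : ℕ} {T : (Pl → ℝ) → Pl → ℝ} (hT : IsDO k T) {v : Pl → ℝ}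
    (hv : ContDiff ℝ ∞ v) : ContDiff ℝ ∞ (T v) := by
  obtain ⟨s, c, hs, hc, h⟩ := hT
  have h1 : T v = fun z => ∑ l ∈ s, c l z * Dw l v z := funext fun z => h v hv z
  rw [h1]
  exact ContDiff.sum fun l _ => (hc l).mul (smooth_Dw hv l)

private theorem DOb_bdd {g : Pl → ℝ} (hg : Continuous g) (R : ℝ) :
    ∃ B : ℝ, 0 ≤ B ∧ ∀ z ∈ Q R, g z ^ 2 ≤ B := by
  have hcp : IsCompact (Q R) := isCompact_closedBall 0 R
  obtain ⟨B, hB⟩ := hcp.exists_bound_of_continuousOn (f := fun z => g z ^ 2)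
    (hg.pow 2).continuousOn
  refine ⟨max B 0, le_max_right _ _, fun z hz => le_trans ?_ (le_max_left _ _)⟩
  exact (le_abs_self _).trans (hB z hz)

theorem do_bound {k : ℕ} {T : (Pl → ℝ) → Pl → ℝ} (hT : IsDO k T) (R : ℝ) :
    ∃ C : ℝ, 0 < C ∧ ∀ v : Pl → ℝ, ContDiff ℝ ∞ v → n0 R (T v) ≤ C * ∑ l ∈ words k, n0 R (Dw l v) := by
  classical
  obtain ⟨s, c, hs, hc, h⟩ := hT
  choose B hB0 hB using fun l => DOb_bdd (hc l).continuous R
  refine ⟨∑ l ∈ s, B l + 1, ?_, fun v hv => ?_⟩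
  · have := Finset.sum_nonneg fun l (_ : l ∈ s) => hB0 l
    linarith
  · have hsum : Continuous fun z => ∑ l ∈ words k, Dw l v z ^ 2 :=
      continuous_finsetSum _ fun l _ => (smooth_Dw hv l).continuous.pow 2
    have h1 : T v = fun z => ∑ l ∈ s, c l z * Dw l v z := funext fun z => h v hv z
    have hTc : Continuous (T v) := by
      rw [h1]
      exact continuous_finsetSum _ fun l _ =>
        (hc l).continuous.mul (smooth_Dw hv l).continuous
    have h2 : ∀ z ∈ Q R, T v z ^ 2 ≤ (∑ l ∈ s, B l + 1) * ∑ l ∈ words k, Dw l v z ^ 2 := by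
      intro z hz
      rw [h v hv z]
      have h3 := Finset.sum_mul_sq_le_sq_mul_sq s (fun l => c l z) (fun l => Dw l v z)
      have h4 : ∑ l ∈ s, c l z ^ 2 ≤ ∑ l ∈ s, B l + 1 := by
        have := Finset.sum_le_sum fun l (_ : l ∈ s) => hB l z hz
        linarith
      have h5 : ∑ l ∈ s, Dw l v z ^ 2 ≤ ∑ l ∈ words k, Dw l v z ^ 2 := by
        refine Finset.sum_le_sum_of_subset_of_nonneg ?_ fun _ _ _ => sq_nonneg _
        intro l hl
        exact mem_words.2 (hs l hl)
      have h6 : 0 ≤ ∑ l ∈ s, Dw l v z ^ 2 := Finset.sum_nonneg fun _ _ => sq_nonneg _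
      have h7 : 0 ≤ ∑ l ∈ s, B l + 1 := by
        have := Finset.sum_nonneg fun l (_ : l ∈ s) => hB0 l
        linarith
      exact h3.trans (mul_le_mul h4 h5 h6 h7)
    have h3 : n0 R (T v) ≤ ∫ z in Q R, (∑ l ∈ s, B l + 1) * ∑ l ∈ words k, Dw l v z ^ 2 := by
      have hm : MeasurableSet (Q R) := measurableSet_closedBall
      exact setIntegral_mono_on (intQ (hTc.pow 2) R) ((intQ hsum R).const_mul _) hm h2
    refine h3.trans (le_of_eq ?_)
    rw [integral_const_mul, integral_finsetSum]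
    · rfl
    · intro l _
      exact intQ ((smooth_Dw hv l).continuous.pow 2) R

end QR
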