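import Pool.Agent.LibQR40.CU

/-! ROW DOa. Put auxiliary lemmas in this file, names starting with `DOa_`.
(differential operators; algebra). PLAN: closure properties of `IsDO`: sums (union of the index sets, take
coefficients `if l ∈ s then c l else 0` + ...), composition with `pd b` on the left (order + 1: pd b (c Dw l v) =
(pd b c) Dw l v + c Dw (b :: l) v), multiplication by a smooth function, `Dw l` itself, monotone in the order, and the
difference of two operators. `do_mulV`: by induction on l. `commutator`: by induction on l with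
Lu A (pd b g) - pd b (Lu A g) = - dx (pd b a dx g + pd b b dy g) - dy (pd b b dx g + pd b c dy g) (an operator of order 2 in
g, order ≤ |l| + 2 in v; note |b :: l| + 1 = |l| + 2) applied to g = Dw l v, and pd b of the commutator of l.
CAREFUL: second derivatives commute, `Egr_symm`; words are applied from the right: Dw (b :: l) v = pd b (Dw l v); to write
`Dw l' (Dw l v)` as `Dw (l' ++ l) v` use `List` induction. `do_bound`: |T v z|² ≤ (card s) Σ |c l z|² |Dw l v z|² and sup of
|c l| on Q R. -/

open MeasureTheory Set Filter Topology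
open scoped ContDiff ENNReal NNReal

namespace QR

open BGS

theorem DOa_mono {k k' : ℕ} (h : k ≤ k') {T : (Pl → ℝ) → Pl → ℝ} (hT : IsDO k T) : IsDO k' T := by
  obtain ⟨s, c, h1, h2, h3⟩ := hT
  exact ⟨s, c, fun l hl => (h1 l hl).trans h, h2, h3⟩

theorem DOa_congr {k : ℕ} {T T' : (Pl → ℝ) → Pl → ℝ}
    (h : ∀ v, ContDiff ℝ ∞ v → ∀ z, T' v z = T v z) (hT : IsDO k T) : IsDO k T' := by
  obtain ⟨s, c, h1, h2, h3⟩ := hT
  exact ⟨s, c, h1, h2, fun v hv z => (h v hv z).trans (h3 v hv z)⟩

theorem DOa_zero (k : ℕ) : IsDO k (fun _ _ => 0) :=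
  ⟨∅, fun _ _ => 0, fun l hl => absurd hl (Finset.notMem_empty l), fun _ => contDiff_const,
    fun v _ z => by rw [Finset.sum_empty]⟩

theorem DOa_Dw (l : List Bool) : IsDO l.length (fun v z => Dw l v z) :=
  ⟨{l}, fun _ _ => 1, fun m hm => by rw [Finset.mem_singleton.1 hm], fun _ => contDiff_const,
    fun v _ z => by rw [Finset.sum_singleton, one_mul]⟩

theorem DOa_smul {k : ℕ} {T : (Pl → ℝ) → Pl → ℝ} {f : Pl → ℝ} (hf : ContDiff ℝ ∞ f)
    (hT : IsDO k T) : IsDO k (fun v z => f z * T v z) := by
  obtain ⟨s, c, h1, h2, h3⟩ := hT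
  refine ⟨s, fun l z => f z * c l z, h1, fun l => hf.mul (h2 l), fun v hv z => ?_⟩
  show f z * T v z = _
  rw [h3 v hv z, Finset.mul_sum]
  exact Finset.sum_congr rfl fun l _ => by ring

theorem DOa_add {k : ℕ} {T T' : (Pl → ℝ) → Pl → ℝ} (hT : IsDO k T) (hT' : IsDO k T') :
    IsDO k (fun v z => T v z + T' v z) := by
  classical
  obtain ⟨s, c, h1, h2, h3⟩ := hT
  obtain ⟨s', c', h1', h2', h3'⟩ := hT'
  refine ⟨s ∪ s', fun l z => (if l ∈ s then c l z else 0) + (if l ∈ s' then c' l z else 0),
    ?_, ?_, ?_⟩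
  · intro l hl
    rcases Finset.mem_union.1 hl with h | h
    · exact h1 l h
    · exact h1' l h
  · intro l
    apply ContDiff.add
    · by_cases h : l ∈ s
      · simp only [if_pos h]
        exact h2 l
      · simp only [if_neg h]
        exact contDiff_const
    · by_cases h : l ∈ s'
      · simp only [if_pos h]
        exact h2' l
      · simp only [if_neg h]
        exact contDiff_const
  · intro v hv z
    show T v z + T' v z = _
    rw [h3 v hv z, h3' v hv z]
    simp only [add_mul, Finset.sum_add_distrib]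
    congr 1
    · rw [← Finset.sum_subset (Finset.subset_union_left : s ⊆ s ∪ s')]
      · exact Finset.sum_congr rfl fun l hl => by rw [if_pos hl]
      · intro l _ hl
        rw [if_neg hl, zero_mul]
    · rw [← Finset.sum_subset (Finset.subset_union_right : s' ⊆ s ∪ s')]
      · exact Finset.sum_congr rfl fun l hl => by rw [if_pos hl]
      · intro l _ hl
        rw [if_neg hl, zero_mul]

theorem DOa_sub {k : ℕ} {T T' : (Pl → ℝ) → Pl → ℝ} (hT : IsDO k T) (hT' : IsDO k T') :
    IsDO k (fun v z => T v z - T' v z) := by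
  refine DOa_congr (fun v _ z => ?_)
    (DOa_add hT (DOa_smul (contDiff_const (c := (-1 : ℝ))) hT'))
  ring

theorem DOa_sum {ι : Type} {k : ℕ} (s : Finset ι) {T : ι → (Pl → ℝ) → Pl → ℝ}
    (hT : ∀ i ∈ s, IsDO k (T i)) : IsDO k (fun v z => ∑ i ∈ s, T i v z) := by
  classical
  induction s using Finset.induction_on with
  | empty =>
    simp only [Finset.sum_empty]
    exact DOa_zero k
  | insert i s hi ih =>
    simp only [Finset.sum_insert hi]
    exact DOa_add (hT i (Finset.mem_insert_self i s))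
      (ih fun j hj => hT j (Finset.mem_insert_of_mem hj))

theorem DOa_pd_zero (b : Bool) (z : Pl) : pd b (fun _ => 0) z = 0 := by
  have h := pd_sub (f := fun _ => 0) (g := fun _ => 0) contDiff_const contDiff_const b z
  rw [sub_self, sub_self] at h
  exact h

theorem DOa_smooth_sum {ι : Type} (s : Finset ι) {F : ι → Pl → ℝ}
    (hF : ∀ i ∈ s, ContDiff ℝ ∞ (F i)) : ContDiff ℝ ∞ (fun y => ∑ i ∈ s, F i y) :=
  ContDiff.sum hF

theorem DOa_pd_sum {ι : Type} (b : Bool) (s : Finset ι) {F : ι → Pl → ℝ}
    (hF : ∀ i ∈ s, ContDiff ℝ ∞ (F i)) (z : Pl) :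
    pd b (fun y => ∑ i ∈ s, F i y) z = ∑ i ∈ s, pd b (F i) z := by
  classical
  induction s using Finset.induction_on with
  | empty =>
    simp only [Finset.sum_empty]
    exact DOa_pd_zero b z
  | insert i s hi ih =>
    simp only [Finset.sum_insert hi]
    rw [pd_add (hF i (Finset.mem_insert_self i s))
      (DOa_smooth_sum s fun j hj => hF j (Finset.mem_insert_of_mem hj)),
      ih fun j hj => hF j (Finset.mem_insert_of_mem hj)]

theorem DOa_pd {k : ℕ} {T : (Pl → ℝ) → Pl → ℝ} (b : Bool) (hT : IsDO k T) :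
    IsDO (k + 1) (fun v z => pd b (T v) z) := by
  obtain ⟨s, c, h1, h2, h3⟩ := hT
  have h4 : IsDO (k + 1) (fun v z => ∑ l ∈ s, (pd b (c l) z * Dw l v z +
      c l z * Dw (b :: l) v z)) := by
    refine DOa_sum s fun l hl => DOa_add ?_ ?_
    · exact DOa_smul (smooth_pd (h2 l) b) (DOa_mono ((h1 l hl).trans (Nat.le_succ k)) (DOa_Dw l))
    · refine DOa_smul (h2 l) (DOa_mono ?_ (DOa_Dw (b :: l)))
      rw [List.length_cons]
      exact Nat.succ_le_succ (h1 l hl)
  refine DOa_congr (fun v hv z => ?_) h4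
  have h5 : T v = fun y => ∑ l ∈ s, c l y * Dw l v y := funext fun y => h3 v hv y
  show pd b (T v) z = _
  rw [h5, DOa_pd_sum b s (fun l _ => (h2 l).mul (smooth_Dw hv l))]
  exact Finset.sum_congr rfl fun l _ => pd_mul (h2 l) (smooth_Dw hv l) b z

theorem DOa_true (v : Pl → ℝ) : pd true v = dx v := rfl

theorem DOa_false (v : Pl → ℝ) : pd false v = dy v := rfl

theorem DOa_pd_comm {g : Pl → ℝ} (hg : ContDiff ℝ ∞ g) (b b' : Bool) :
    pd b (pd b' g) = pd b' (pd b g) := by
  funext z
  cases b <;> cases b'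
  · rfl
  · exact Egr_symm hg z
  · exact (Egr_symm hg z).symm
  · rfl

/-- commutator of `div (A ∇)` with one derivative -/
theorem DOa_comm1 (A : Coef) (b : Bool) {g : Pl → ℝ} (hg : ContDiff ℝ ∞ g) (z : Pl) :
    Lu A (pd b g) z - pd b (Lu A g) z =
      - pd true (fun y => pd b A.a y * pd true g y + pd b A.b y * pd false g y) z -
        pd false (fun y => pd b A.b y * pd true g y + pd b A.c y * pd false g y) z := by
  have hgt : ContDiff ℝ ∞ (pd true g) := smooth_pd hg true
  have hgf : ContDiff ℝ ∞ (pd false g) := smooth_pd hg false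
  have hP : ∀ p q : Pl → ℝ, ContDiff ℝ ∞ p → ContDiff ℝ ∞ q →
      ContDiff ℝ ∞ (fun y => pd b p y * pd true g y + pd b q y * pd false g y) := fun p q hp hq =>
    ((smooth_pd hp b).mul hgt).add ((smooth_pd hq b).mul hgf)
  have hR : ∀ p q : Pl → ℝ, ContDiff ℝ ∞ p → ContDiff ℝ ∞ q →
      ContDiff ℝ ∞ (fun y => p y * pd true (pd b g) y + q y * pd false (pd b g) y) :=
    fun p q hp hq =>
    (hp.mul (smooth_pd (smooth_pd hg b) true)).add (hq.mul (smooth_pd (smooth_pd hg b) false))
  have key : ∀ p q : Pl → ℝ, ContDiff ℝ ∞ p → ContDiff ℝ ∞ q →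
      pd b (fun y => p y * pd true g y + q y * pd false g y) = fun y =>
        (pd b p y * pd true g y + pd b q y * pd false g y) +
          (p y * pd true (pd b g) y + q y * pd false (pd b g) y) := by
    intro p q hp hq
    funext y
    rw [pd_add (hp.mul hgt) (hq.mul hgf), pd_mul hp hgt, pd_mul hq hgf, DOa_pd_comm hg b true,
      DOa_pd_comm hg b false]
    ring
  have hx : pd b (fx A g) = fun y =>
        (pd b A.a y * pd true g y + pd b A.b y * pd false g y) +
          (A.a y * pd true (pd b g) y + A.b y * pd false (pd b g) y) := key A.a A.b A.ha A.hb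
  have hy : pd b (fy A g) = fun y =>
        (pd b A.b y * pd true g y + pd b A.c y * pd false g y) +
          (A.b y * pd true (pd b g) y + A.c y * pd false (pd b g) y) := key A.b A.c A.hb A.hc
  have h1 : pd b (Lu A g) z = pd b (pd true (fx A g)) z + pd b (pd false (fy A g)) z :=
    pd_add (smooth_pd (smooth_fx A hg) true) (smooth_pd (smooth_fy A hg) false) b z
  have h2 : Lu A (pd b g) z =
      pd true (fun y => A.a y * pd true (pd b g) y + A.b y * pd false (pd b g) y) z +
      pd false (fun y => A.b y * pd true (pd b g) y + A.c y * pd false (pd b g) y) z := rfl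
  rw [h1, DOa_pd_comm (smooth_fx A hg) b true, DOa_pd_comm (smooth_fy A hg) b false, hx, hy, h2,
    pd_add (hP _ _ A.ha A.hb) (hR _ _ A.ha A.hb), pd_add (hP _ _ A.hb A.hc) (hR _ _ A.hb A.hc)]
  ring

theorem do_mulV {V : Pl → ℝ} (hV : ContDiff ℝ ∞ V) (l : List Bool) :
    IsDO l.length (fun v z => Dw l (fun y => V y * v y) z) := by
  induction l with
  | nil => exact DOa_smul hV (DOa_Dw [])
  | cons b l ih => exact DOa_pd b ih

theorem commutator (A : Coef) (l : List Bool) :
    IsDO (l.length + 1) (fun v z => Lu A (Dw l v) z - Dw l (Lu A v) z) := by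
  induction l with
  | nil =>
    refine DOa_congr (fun v _ z => ?_) (DOa_zero _)
    exact sub_self _
  | cons b l ih =>
    have hQ : ∀ p q : Pl → ℝ, ContDiff ℝ ∞ p → ContDiff ℝ ∞ q → IsDO (l.length + 1)
        (fun v y => pd b p y * Dw (true :: l) v y + pd b q y * Dw (false :: l) v y) :=
      fun p q hp hq => DOa_add (DOa_smul (smooth_pd hp b) (DOa_Dw (true :: l)))
        (DOa_smul (smooth_pd hq b) (DOa_Dw (false :: l)))
    have h1 := DOa_pd true (hQ A.a A.b A.ha A.hb)
    have h2 := DOa_pd false (hQ A.b A.c A.hb A.hc)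
    have h3 := DOa_pd b ih
    rw [List.length_cons]
    refine DOa_congr (fun v hv z => ?_) (DOa_sub (DOa_sub h3 h1) h2)
    have h4 := DOa_comm1 A b (smooth_Dw hv l) z
    have h5 := pd_sub (smooth_Lu A (smooth_Dw hv l)) (smooth_Dw (smooth_Lu A hv) l) b z
    show Lu A (pd b (Dw l v)) z - pd b (Dw l (Lu A v)) z =
      pd b (fun z => Lu A (Dw l v) z - Dw l (Lu A v) z) z -
        pd true (fun y => pd b A.a y * pd true (Dw l v) y + pd b A.b y * pd false (Dw l v) y) z -
        pd false (fun y => pd b A.b y * pd true (Dw l v) y + pd b A.c y * pd false (Dw l v) y) z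
    rw [h5]
    linarith

end QR
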