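import Pool.Agent.LibBGR.AE_Defs
import Pool.Agent.LibBGR.Frc
import Pool.Agent.LibBGR.Per
import Pool.Agent.LibBGS.Egr

/-! Elliptic regularity and unique continuation in the plane: definitions. -/

open MeasureTheory Set Filter Topology
open scoped ContDiff ENNReal NNReal

namespace QR

open BGS

/-- The partial derivatives: `true` is `dx`, `false` is `dy`. -/
noncomputable def pd (b : Bool) (v : Pl → ℝ) : Pl → ℝ := if b then dx v else dy v

/-- Iterated partial derivatives. -/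
noncomputable def Dw : List Bool → (Pl → ℝ) → Pl → ℝ
  | [], v => v
  | b :: l, v => pd b (Dw l v)

/-- The closed square with centre `0` and half side `R` (the norm of `ℝ × ℝ` is the sup norm). -/
def Q (R : ℝ) : Set Pl := Metric.closedBall (0 : Pl) R

/-- Squared gradient. -/
noncomputable def G1 (v : Pl → ℝ) (z : Pl) : ℝ := dx v z ^ 2 + dy v z ^ 2

/-- Squared Hessian. -/
noncomputable def G2 (v : Pl → ℝ) (z : Pl) : ℝ :=
  dx (dx v) z ^ 2 + dx (dy v) z ^ 2 + dy (dy v) z ^ 2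

/-- Squared norms on a square. -/
noncomputable def n0 (R : ℝ) (v : Pl → ℝ) : ℝ := ∫ z in Q R, v z ^ 2

noncomputable def n1 (R : ℝ) (v : Pl → ℝ) : ℝ := ∫ z in Q R, G1 v z

noncomputable def n2 (R : ℝ) (v : Pl → ℝ) : ℝ := ∫ z in Q R, G2 v z

/-- Coefficients of a second order operator in divergence form, normalised by determinant one. -/
structure Coef where
  a : Pl → ℝ
  b : Pl → ℝ
  c : Pl → ℝ
  ha : ContDiff ℝ ∞ a
  hb : ContDiff ℝ ∞ b
  hc : ContDiff ℝ ∞ c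
  pos : ∀ z, 0 < a z
  det : ∀ z, a z * c z - b z ^ 2 = 1

/-- The flux `A ∇ u`. -/
noncomputable def fx (A : Coef) (u : Pl → ℝ) (z : Pl) : ℝ := A.a z * dx u z + A.b z * dy u z

noncomputable def fy (A : Coef) (u : Pl → ℝ) (z : Pl) : ℝ := A.b z * dx u z + A.c z * dy u z

/-- `div (A ∇ u)`. -/
noncomputable def Lu (A : Coef) (u : Pl → ℝ) (z : Pl) : ℝ := dx (fx A u) z + dy (fy A u) z

/-- `A ∇ u · ∇ v`. -/
noncomputable def q2 (A : Coef) (u v : Pl → ℝ) (z : Pl) : ℝ :=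
  fx A u z * dx v z + fy A u z * dy v z

/-- The bump function behind the mollifier. -/
noncomputable def bmp0 : ContDiffBump (0 : Pl) := ⟨1 / 2, 1, by norm_num, by norm_num⟩

/-- The mollifier. -/
noncomputable def rho : Pl → ℝ := bmp0.normed volume

theorem rho_smooth : ContDiff ℝ ∞ rho := bmp0.contDiff_normed

theorem rho_nonneg (z : Pl) : 0 ≤ rho z := bmp0.nonneg_normed z

theorem rho_int : ∫ z, rho z = 1 := bmp0.integral_normed

theorem rho_tsupp : tsupport rho = Q 1 := bmp0.tsupport_normed_eq (μ := volume)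

theorem rho_cpt : HasCompactSupport rho := bmp0.hasCompactSupport_normed

theorem rho_zero {z : Pl} (h : 1 < ‖z‖) : rho z = 0 := by
  apply image_eq_zero_of_notMem_tsupport
  rw [rho_tsupp, Q, mem_closedBall_zero_iff]
  exact not_le.2 h

/-- Mollification: `J ε v x = ∫ rho z v (x - ε z) dz`. -/
noncomputable def J (ε : ℝ) (v : Pl → ℝ) (x : Pl) : ℝ := ∫ z, rho z * v (x - ε • z)

/-- The Friedrichs commutator `a J v - J (a v)`. -/
noncomputable def Cm (ε : ℝ) (a v : Pl → ℝ) (x : Pl) : ℝ := a x * J ε v x - J ε (fun y => a y * v y) x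

/-- Cauchy in `L²` of every square. -/
def CauchyL (u : ℕ → Pl → ℝ) : Prop :=
  ∀ R : ℝ, ∀ δ : ℝ, 0 < δ → ∃ N : ℕ, ∀ n, N ≤ n → ∀ m, N ≤ m → n0 R (fun z => u n z - u m z) ≤ δ

/-- Locally uniform convergence of all derivatives to a smooth function. -/
def ULim (v : ℕ → Pl → ℝ) (V : Pl → ℝ) : Prop :=
  ContDiff ℝ ∞ V ∧ ∀ (l : List Bool) (R δ : ℝ), 0 < δ →
    ∃ N : ℕ, ∀ n, N ≤ n → ∀ z ∈ Q R, |Dw l (v n) z - Dw l V z| ≤ δ

/-- All words of length at most `k`. -/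
noncomputable def words : ℕ → Finset (List Bool)
  | 0 => {[]}
  | k + 1 => insert [] ((words k).image (List.cons true) ∪ (words k).image (List.cons false))

theorem mem_words {k : ℕ} {l : List Bool} : l ∈ words k ↔ l.length ≤ k := by
  induction k generalizing l with
  | zero => simp [words]
  | succ k ih =>
    cases l with
    | nil => simp [words]
    | cons b l =>
      cases b <;> simp [words, ih]

/-- Differential operators with smooth coefficients of order at most `k`. -/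
def IsDO (k : ℕ) (T : (Pl → ℝ) → Pl → ℝ) : Prop :=
  ∃ (s : Finset (List Bool)) (c : List Bool → Pl → ℝ), (∀ l ∈ s, l.length ≤ k) ∧
    (∀ l, ContDiff ℝ ∞ (c l)) ∧
    ∀ v, ContDiff ℝ ∞ v → ∀ z, T v z = ∑ l ∈ s, c l z * Dw l v z

/-- A test function. -/
def IsT (χ : Pl → ℝ) : Prop := ContDiff ℝ ∞ χ ∧ HasCompactSupport χ

/-- Uniform bounds for the derivatives of order at most `k` of the mollified limits. -/
def Bd (u : ℕ → Pl → ℝ) (k : ℕ) : Prop :=
  ∀ l : List Bool, l.length ≤ k → ∀ R : ℝ, ∃ C : ℝ, 0 < C ∧ ∀ (ε : ℝ) (V : Pl → ℝ), 0 < ε → ε ≤ 1 →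
    ULim (fun n => J ε (u n)) V → n0 R (Dw l V) ≤ C

theorem smooth_pd {v : Pl → ℝ} (hv : ContDiff ℝ ∞ v) (b : Bool) : ContDiff ℝ ∞ (pd b v) := by
  cases b
  · exact Egr_smooth_dy hv
  · exact Egr_smooth_dx hv

theorem smooth_Dw {v : Pl → ℝ} (hv : ContDiff ℝ ∞ v) (l : List Bool) : ContDiff ℝ ∞ (Dw l v) := by
  induction l with
  | nil => exact hv
  | cons b l ih => exact smooth_pd ih b

theorem smooth_fx {u : Pl → ℝ} (A : Coef) (hu : ContDiff ℝ ∞ u) : ContDiff ℝ ∞ (fx A u) :=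
  (A.ha.mul (Egr_smooth_dx hu)).add (A.hb.mul (Egr_smooth_dy hu))

theorem smooth_fy {u : Pl → ℝ} (A : Coef) (hu : ContDiff ℝ ∞ u) : ContDiff ℝ ∞ (fy A u) :=
  (A.hb.mul (Egr_smooth_dx hu)).add (A.hc.mul (Egr_smooth_dy hu))

theorem smooth_Lu {u : Pl → ℝ} (A : Coef) (hu : ContDiff ℝ ∞ u) : ContDiff ℝ ∞ (Lu A u) :=
  (Egr_smooth_dx (smooth_fx A hu)).add (Egr_smooth_dy (smooth_fy A hu))

theorem smooth_q2 {u v : Pl → ℝ} (A : Coef) (hu : ContDiff ℝ ∞ u) (hv : ContDiff ℝ ∞ v) :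
    ContDiff ℝ ∞ (q2 A u v) :=
  ((smooth_fx A hu).mul (Egr_smooth_dx hv)).add ((smooth_fy A hu).mul (Egr_smooth_dy hv))

theorem smooth_G1 {v : Pl → ℝ} (hv : ContDiff ℝ ∞ v) : ContDiff ℝ ∞ (G1 v) :=
  ((Egr_smooth_dx hv).pow 2).add ((Egr_smooth_dy hv).pow 2)

theorem smooth_G2 {v : Pl → ℝ} (hv : ContDiff ℝ ∞ v) : ContDiff ℝ ∞ (G2 v) :=
  (((Egr_smooth_dx (Egr_smooth_dx hv)).pow 2).add ((Egr_smooth_dx (Egr_smooth_dy hv)).pow 2)).add
    ((Egr_smooth_dy (Egr_smooth_dy hv)).pow 2)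

theorem intQ {g : Pl → ℝ} (hg : Continuous g) (R : ℝ) : IntegrableOn g (Q R) :=
  hg.continuousOn.integrableOn_compact (isCompact_closedBall 0 R)

theorem n0_nonneg (R : ℝ) (v : Pl → ℝ) : 0 ≤ n0 R v := integral_nonneg fun _ => sq_nonneg _

theorem n1_nonneg (R : ℝ) (v : Pl → ℝ) : 0 ≤ n1 R v :=
  integral_nonneg fun _ => add_nonneg (sq_nonneg _) (sq_nonneg _)

theorem n2_nonneg (R : ℝ) (v : Pl → ℝ) : 0 ≤ n2 R v :=
  integral_nonneg fun _ => add_nonneg (add_nonneg (sq_nonneg _) (sq_nonneg _)) (sq_nonneg _)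

theorem Q_mono {R S : ℝ} (h : R ≤ S) : Q R ⊆ Q S := Metric.closedBall_subset_closedBall h

theorem n0_mono {R S : ℝ} (h : R ≤ S) {v : Pl → ℝ} (hv : Continuous v) : n0 R v ≤ n0 S v :=
  setIntegral_mono_set (intQ (hv.pow 2) S) (ae_of_all _ fun _ => sq_nonneg _)
    (Q_mono h).eventuallyLE

theorem n1_mono {R S : ℝ} (h : R ≤ S) {v : Pl → ℝ} (hv : ContDiff ℝ ∞ v) : n1 R v ≤ n1 S v :=
  setIntegral_mono_set (intQ (smooth_G1 hv).continuous S)
    (ae_of_all _ fun _ => add_nonneg (sq_nonneg _) (sq_nonneg _)) (Q_mono h).eventuallyLE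

theorem n2_mono {R S : ℝ} (h : R ≤ S) {v : Pl → ℝ} (hv : ContDiff ℝ ∞ v) : n2 R v ≤ n2 S v :=
  setIntegral_mono_set (intQ (smooth_G2 hv).continuous S)
    (ae_of_all _ fun _ => add_nonneg (add_nonneg (sq_nonneg _) (sq_nonneg _)) (sq_nonneg _))
    (Q_mono h).eventuallyLE

/-- Cauchy–Schwarz on a square. -/
theorem n0_add_le (R : ℝ) {u v : Pl → ℝ} (hu : Continuous u) (hv : Continuous v) :
    n0 R (fun z => u z + v z) ≤ 2 * n0 R u + 2 * n0 R v := by
  have hu2 : Continuous fun z => u z ^ 2 := hu.pow 2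
  have hv2 : Continuous fun z => v z ^ 2 := hv.pow 2
  have huv : Continuous fun z => (u z + v z) ^ 2 := (hu.add hv).pow 2
  unfold n0
  rw [← integral_const_mul, ← integral_const_mul,
    ← integral_add ((intQ hu2 R).const_mul 2) ((intQ hv2 R).const_mul 2)]
  apply integral_mono (intQ huv R) (((intQ hu2 R).const_mul 2).add ((intQ hv2 R).const_mul 2))
  intro z
  show (u z + v z) ^ 2 ≤ 2 * u z ^ 2 + 2 * v z ^ 2
  nlinarith [sq_nonneg (u z - v z)]

end QR
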