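import Pool.Agent.LibQR40.Defs

/-! The operator of a metric, eigenfunctions on the surface, first order operators in the plane. -/

open MeasureTheory Set Filter Topology
open scoped ContDiff ENNReal NNReal

namespace QR

open BGS

variable {Γ : Type} [Group Γ] [MulAction Γ Pl] {D : Set Pl}

/-- The area density. -/
noncomputable def vol (m : Mt Γ D) (z : Pl) : ℝ := √(dt (m.1.1 z))

theorem vol_pos (m : Mt Γ D) (z : Pl) : 0 < vol m z := Real.sqrt_pos.2 (m.2.pos z).2

theorem vol_sq (m : Mt Γ D) (z : Pl) : vol m z ^ 2 = dt (m.1.1 z) := Real.sq_sqrt (m.2.pos z).2.le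

theorem smooth_dt (m : Mt Γ D) : ContDiff ℝ ∞ fun z => dt (m.1.1 z) := by
  have h := m.1.2
  unfold dt
  exact (h.fst.mul h.snd.snd).sub (h.snd.fst.pow 2)

theorem smooth_vol (m : Mt Γ D) : ContDiff ℝ ∞ (vol m) :=
  (smooth_dt m).sqrt fun z => (m.2.pos z).2.ne'

/-- The normalised coefficients of the Laplacian of a metric: `(G, -F, E) / √(E G - F²)`. -/
noncomputable def coefM (m : Mt Γ D) : Coef where
  a := fun z => (m.1.1 z).2.2 / vol m z
  b := fun z => -(m.1.1 z).2.1 / vol m z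
  c := fun z => (m.1.1 z).1 / vol m z
  ha := m.1.2.snd.snd.div (smooth_vol m) fun z => (vol_pos m z).ne'
  hb := m.1.2.snd.fst.neg.div (smooth_vol m) fun z => (vol_pos m z).ne'
  hc := m.1.2.fst.div (smooth_vol m) fun z => (vol_pos m z).ne'
  pos := fun z => by
    have h := m.2.pos z
    have h2 : 0 < (m.1.1 z).1 * (m.1.1 z).2.2 := by
      have := h.2
      unfold dt at this
      nlinarith [sq_nonneg (m.1.1 z).2.1]
    exact div_pos (pos_of_mul_pos_right (by linarith) h.1.le) (vol_pos m z)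
  det := fun z => by
    have h1 := vol_sq m z
    have h2 := vol_pos m z
    have h3 : vol m z ≠ 0 := h2.ne'
    unfold dt at h1
    field_simp
    linarith

/-- Eigenfunctions (weak form). -/
def IsEig (hX : Surface Γ D) (m : Mt Γ D) (w : TestS Γ) (la : ℝ) (U : TestS Γ) : Prop :=
  ∀ h : TestS Γ, aF hX m U h = la * bF hX m w U h

theorem IsEig.add {hX : Surface Γ D} {m : Mt Γ D} {w : TestS Γ} {la : ℝ} {U V : TestS Γ}
    (hU : IsEig hX m w la U) (hV : IsEig hX m w la V) : IsEig hX m w la (U + V) := by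
  intro h
  rw [map_add, map_add, LinearMap.add_apply, LinearMap.add_apply, hU h, hV h]
  ring

theorem IsEig.smul {hX : Surface Γ D} {m : Mt Γ D} {w : TestS Γ} {la : ℝ} {U : TestS Γ}
    (hU : IsEig hX m w la U) (c : ℝ) : IsEig hX m w la (c • U) := by
  intro h
  rw [map_smul, map_smul, LinearMap.smul_apply, LinearMap.smul_apply, hU h, smul_eq_mul, smul_eq_mul]
  ring

/-- Euclidean squared distance. -/
def qq (z₀ z : Pl) : ℝ := (z.1 - z₀.1) ^ 2 + (z.2 - z₀.2) ^ 2

/-- Complex valued partial derivatives. -/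
noncomputable def cdx (f : Pl → ℂ) (z : Pl) : ℂ := fderiv ℝ f z (1, 0)

noncomputable def cdy (f : Pl → ℂ) (z : Pl) : ℂ := fderiv ℝ f z (0, 1)

/-- The first order operator `∂x - (α + i β) ∂y`. -/
noncomputable def Dop (al be : Pl → ℝ) (f : Pl → ℂ) (z : Pl) : ℂ :=
  cdx f z - ((al z : ℂ) + Complex.I * (be z : ℂ)) * cdy f z

/-- The real vector fields `X = ∂x - α ∂y` and `Y = β ∂y`. -/
noncomputable def XX (al : Pl → ℝ) (f : Pl → ℝ) (z : Pl) : ℝ := dx f z - al z * dy f z

noncomputable def YY (be : Pl → ℝ) (f : Pl → ℝ) (z : Pl) : ℝ := be z * dy f z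

/-- Compactly supported smooth complex functions with support in the annulus `r² ≤ |z - z₀|² ≤ S²`. -/
def InAnn (z₀ : Pl) (r S : ℝ) (f : Pl → ℂ) : Prop :=
  ContDiff ℝ ∞ f ∧ HasCompactSupport f ∧ ∀ z ∈ tsupport f, r ^ 2 ≤ qq z₀ z ∧ qq z₀ z ≤ S ^ 2

/-- The periodisation of a test function. -/
noncomputable def perT (hX : Surface Γ D) {χ : Pl → ℝ} (hχ : IsT χ) : TestS Γ :=
  ⟨per Γ χ, per_mem hX hχ.1 hχ.2⟩

/-- `α = -b/a`, `β = 1/a`. -/
noncomputable def alA (A : Coef) (z : Pl) : ℝ := -A.b z / A.a z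

noncomputable def beA (A : Coef) (z : Pl) : ℝ := 1 / A.a z

theorem smooth_alA (A : Coef) : ContDiff ℝ ∞ (alA A) := A.hb.neg.div A.ha fun z => (A.pos z).ne'

theorem smooth_beA (A : Coef) : ContDiff ℝ ∞ (beA A) := contDiff_const.div A.ha fun z => (A.pos z).ne'

theorem beA_pos (A : Coef) (z : Pl) : 0 < beA A z := one_div_pos.2 (A.pos z)

/-- `W = (∂x - conj Λ ∂y) v`. -/
noncomputable def Wf (A : Coef) (v : Pl → ℝ) (z : Pl) : ℂ :=
  ((dx v z - alA A z * dy v z : ℝ) : ℂ) + Complex.I * ((beA A z * dy v z : ℝ) : ℂ)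

end QR
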