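import Pool.Agent.LibQR40.Defs

/-! ROW E1a. Put auxiliary lemmas in this file, names starting with `E1a_`.
(potentials of closed forms). PLAN: F (x, y) = ∫_0^x f (s, 0) ds + ∫_0^y g (x, t) dt. F is smooth: its derivative is
f dx + g dy (differentiate under the integral: dx of the second term is ∫_0^y dx g (x,t) dt = ∫_0^y dy f (x,t) dt = f(x,y) - f(x,0)), and a function with
smooth partial derivatives is smooth (`contDiff_infty_iff_fderiv`, fderiv F z = f z • fst + g z • snd). Alternatively F z = ∫_0^1 (z.1 f (t z) + z.2 g (t z)) dt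
(Poincaré lemma; check whether Mathlib has it). -/

open MeasureTheory Set Filter Topology
open scoped ContDiff ENNReal NNReal

namespace QR

open BGS

theorem E1a_lin (u : Pl → ℝ) (z x : Pl) : fderiv ℝ u z x = x.1 * dx u z + x.2 * dy u z := by
  have h : x = x.1 • ((1, 0) : Pl) + x.2 • ((0, 1) : Pl) := by
    ext <;> simp
  conv_lhs => rw [h]
  rw [map_add, map_smul, map_smul, smul_eq_mul, smul_eq_mul]
  rfl

theorem potential {f g : Pl → ℝ} (hf : ContDiff ℝ ∞ f) (hg : ContDiff ℝ ∞ g)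
    (h : ∀ z, dy f z = dx g z) : ∃ F : Pl → ℝ, ContDiff ℝ ∞ F ∧ (∀ z, dx F z = f z) ∧ ∀ z, dy F z = g z := by
  set om : Pl → Pl →L[ℝ] ℝ := fun z => f z • ContinuousLinearMap.fst ℝ ℝ ℝ +
    g z • ContinuousLinearMap.snd ℝ ℝ ℝ with hom
  have hfd : Differentiable ℝ f := hf.differentiable (by simp)
  have hgd : Differentiable ℝ g := hg.differentiable (by simp)
  have homs : ContDiff ℝ ∞ om := (hf.smul contDiff_const).add (hg.smul contDiff_const)
  have homd : Differentiable ℝ om := homs.differentiable (by simp)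
  have hder : ∀ a x y : Pl, fderiv ℝ om a x y = fderiv ℝ f a x * y.1 + fderiv ℝ g a x * y.2 := by
    intro a x y
    have h1 : HasFDerivAt om ((fderiv ℝ f a).smulRight (ContinuousLinearMap.fst ℝ ℝ ℝ) +
        (fderiv ℝ g a).smulRight (ContinuousLinearMap.snd ℝ ℝ ℝ)) a :=
      ((hfd a).hasFDerivAt.smul_const (ContinuousLinearMap.fst ℝ ℝ ℝ : Pl →L[ℝ] ℝ)).add
        ((hgd a).hasFDerivAt.smul_const (ContinuousLinearMap.snd ℝ ℝ ℝ : Pl →L[ℝ] ℝ))
    rw [h1.fderiv]
    simp
  obtain ⟨F, hF⟩ := Convex.exists_forall_hasFDerivAt_of_fderiv_symmetric 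
    (convex_univ : Convex ℝ (univ : Set Pl)) isOpen_univ homd.differentiableOn (by
      intro a _ x y
      rw [hder, hder, E1a_lin f a x, E1a_lin g a x, E1a_lin f a y, E1a_lin g a y, h a]
      ring)
  have hF' : ∀ a, HasFDerivAt F (om a) a := fun a => hF a (mem_univ a)
  have hfd2 : fderiv ℝ F = om := funext fun a => (hF' a).fderiv
  refine ⟨F, ?_, ?_, ?_⟩
  · rw [contDiff_infty_iff_fderiv]
    exact ⟨fun a => (hF' a).differentiableAt, by rw [hfd2]; exact homs⟩
  · intro z
    show fderiv ℝ F z (1, 0) = f z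
    rw [hfd2]
    simp [hom]
  · intro z
    show fderiv ℝ F z (0, 1) = g z
    rw [hfd2]
    simp [hom]

end QR
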