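import Pool.Agent.LibQR40.IP

/-! ROW EE. Put auxiliary lemmas in this file, names starting with `EE_`.
(elliptic estimate for compactly supported functions).
PLAN: `A` is positive definite on the compact square: with T = sup over Q R of a + c (a, c > 0, ac - b² = 1) one has
a p² + 2 b p q + c q² ≥ (1/T) (p² + q²) [the eigenvalues of A have product 1 and sum ≤ T, so the small one is ≥ 1/T:
T (a p² + 2 b p q + c q²) ≥ p² + q² follows from (T a - 1)(T c - 1) ≥ T² b², i.e. T² - T (a + c) + 1 ≥ 0... ok].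
For b : Bool let g = pd b w (a test function). Then (1/T) ∫ G1 g ≤ ∫ q2 A g g = - ∫ Lu A g * g (`ip_q2`), and
Lu A (pd b w) = pd b (Lu A w) - dx (pd b a * dx w + pd b b * dy w) - dy (pd b b * dx w + pd b c * dy w) (second
derivatives commute: `Egr_symm`), so with `ip_mul`
- ∫ Lu A g * g = ∫ Lu A w * pd b (pd b w) - ∫ ((pd b a * dx w + pd b b * dy w) dx g + (pd b b * dx w + pd b c * dy w) dy g)
≤ (1/(4T)) ∫ G1 g + C (∫ (Lu A w)² + ∫ G1 w) (Young; pd b g is one of dx g, dy g). Sum over b; G2 w ≤ sum of G1 (pd b w).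
All integrals are over the plane, all integrands have support in Q R. -/

open MeasureTheory Set Filter Topology
open scoped ContDiff ENNReal NNReal

namespace QR

open BGS

theorem EE_comm {v : Pl → ℝ} (hv : ContDiff ℝ ∞ v) (b b' : Bool) (z : Pl) :
    pd b (pd b' v) z = pd b' (pd b v) z := by
  cases b <;> cases b'
  · rfl
  · exact Egr_symm hv z
  · exact (Egr_symm hv z).symm
  · rfl

theorem EE_i {χ : Pl → ℝ} (h : IsT χ) : Integrable χ :=
  h.1.continuous.integrable_of_hasCompactSupport h.2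

theorem EE_pd_add {f g : Pl → ℝ} (hf : ContDiff ℝ ∞ f) (hg : ContDiff ℝ ∞ g) (b : Bool) (z : Pl) :
    pd b (fun y => f y + g y) z = pd b f z + pd b g z := by
  have h1 := hf.differentiable (by simp) z
  have h2 := hg.differentiable (by simp) z
  cases b
  · show fderiv ℝ (fun y => f y + g y) z (0, 1) = fderiv ℝ f z (0, 1) + fderiv ℝ g z (0, 1)
    rw [fderiv_fun_add h1 h2]; rfl
  · show fderiv ℝ (fun y => f y + g y) z (1, 0) = fderiv ℝ f z (1, 0) + fderiv ℝ g z (1, 0)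
    rw [fderiv_fun_add h1 h2]; rfl

theorem EE_pd_sub {f g : Pl → ℝ} (hf : ContDiff ℝ ∞ f) (hg : ContDiff ℝ ∞ g) (b : Bool) (z : Pl) :
    pd b (fun y => f y - g y) z = pd b f z - pd b g z := by
  have h1 := hf.differentiable (by simp) z
  have h2 := hg.differentiable (by simp) z
  cases b
  · show fderiv ℝ (fun y => f y - g y) z (0, 1) = fderiv ℝ f z (0, 1) - fderiv ℝ g z (0, 1)
    rw [fderiv_fun_sub h1 h2]; rfl
  · show fderiv ℝ (fun y => f y - g y) z (1, 0) = fderiv ℝ f z (1, 0) - fderiv ℝ g z (1, 0)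
    rw [fderiv_fun_sub h1 h2]; rfl

theorem EE_pd_mul {f g : Pl → ℝ} (hf : ContDiff ℝ ∞ f) (hg : ContDiff ℝ ∞ g) (b : Bool) (z : Pl) :
    pd b (fun y => f y * g y) z = pd b f z * g z + f z * pd b g z := by
  have h1 := hf.differentiable (by simp) z
  have h2 := hg.differentiable (by simp) z
  cases b
  · show fderiv ℝ (fun y => f y * g y) z (0, 1) = fderiv ℝ f z (0, 1) * g z + f z * fderiv ℝ g z (0, 1)
    rw [fderiv_fun_mul h1 h2]
    simp only [ContinuousLinearMap.add_apply, ContinuousLinearMap.smul_apply, smul_eq_mul]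
    ring
  · show fderiv ℝ (fun y => f y * g y) z (1, 0) = fderiv ℝ f z (1, 0) * g z + f z * fderiv ℝ g z (1, 0)
    rw [fderiv_fun_mul h1 h2]
    simp only [ContinuousLinearMap.add_apply, ContinuousLinearMap.smul_apply, smul_eq_mul]
    ring

/-- first error term -/
noncomputable def EE_P (A : Coef) (b : Bool) (w : Pl → ℝ) (z : Pl) : ℝ :=
  pd b A.a z * dx w z + pd b A.b z * dy w z

/-- second error term -/
noncomputable def EE_S (A : Coef) (b : Bool) (w : Pl → ℝ) (z : Pl) : ℝ :=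
  pd b A.b z * dx w z + pd b A.c z * dy w z

theorem EE_smooth_P (A : Coef) (b : Bool) {w : Pl → ℝ} (hw : ContDiff ℝ ∞ w) :
    ContDiff ℝ ∞ (EE_P A b w) :=
  ((smooth_pd A.ha b).mul (Egr_smooth_dx hw)).add ((smooth_pd A.hb b).mul (Egr_smooth_dy hw))

theorem EE_smooth_S (A : Coef) (b : Bool) {w : Pl → ℝ} (hw : ContDiff ℝ ∞ w) :
    ContDiff ℝ ∞ (EE_S A b w) :=
  ((smooth_pd A.hb b).mul (Egr_smooth_dx hw)).add ((smooth_pd A.hc b).mul (Egr_smooth_dy hw))

theorem EE_fx (A : Coef) (b : Bool) {w : Pl → ℝ} (hw : ContDiff ℝ ∞ w) (z : Pl) :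
    fx A (pd b w) z = pd b (fx A w) z - EE_P A b w z := by
  have h1 := EE_pd_add (A.ha.mul (Egr_smooth_dx hw)) (A.hb.mul (Egr_smooth_dy hw)) b z
  have h2 := EE_pd_mul A.ha (Egr_smooth_dx hw) b z
  have h3 := EE_pd_mul A.hb (Egr_smooth_dy hw) b z
  have h4 : pd b (dx w) z = dx (pd b w) z := EE_comm hw b true z
  have h5 : pd b (dy w) z = dy (pd b w) z := EE_comm hw b false z
  have h6 : pd b (fx A w) z = pd b (fun y => A.a y * dx w y) z + pd b (fun y => A.b y * dy w y) z :=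
    h1
  rw [h6, h2, h3, h4, h5, EE_P, fx]
  ring

theorem EE_fy (A : Coef) (b : Bool) {w : Pl → ℝ} (hw : ContDiff ℝ ∞ w) (z : Pl) :
    fy A (pd b w) z = pd b (fy A w) z - EE_S A b w z := by
  have h1 := EE_pd_add (A.hb.mul (Egr_smooth_dx hw)) (A.hc.mul (Egr_smooth_dy hw)) b z
  have h2 := EE_pd_mul A.hb (Egr_smooth_dx hw) b z
  have h3 := EE_pd_mul A.hc (Egr_smooth_dy hw) b z
  have h4 : pd b (dx w) z = dx (pd b w) z := EE_comm hw b true z
  have h5 : pd b (dy w) z = dy (pd b w) z := EE_comm hw b false z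
  have h6 : pd b (fy A w) z = pd b (fun y => A.b y * dx w y) z + pd b (fun y => A.c y * dy w y) z :=
    h1
  rw [h6, h2, h3, h4, h5, EE_S, fy]
  ring

/-- the commutator of `Lu` with a derivative -/
theorem EE_Lu (A : Coef) (b : Bool) {w : Pl → ℝ} (hw : ContDiff ℝ ∞ w) (z : Pl) :
    Lu A (pd b w) z = pd b (Lu A w) z - dx (EE_P A b w) z - dy (EE_S A b w) z := by
  have e1 : fx A (pd b w) = fun y => pd b (fx A w) y - EE_P A b w y := funext (EE_fx A b hw)
  have e2 : fy A (pd b w) = fun y => pd b (fy A w) y - EE_S A b w y := funext (EE_fy A b hw)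
  have h1 := EE_pd_sub (smooth_pd (smooth_fx A hw) b) (EE_smooth_P A b hw) true z
  have h2 := EE_pd_sub (smooth_pd (smooth_fy A hw) b) (EE_smooth_S A b hw) false z
  have h3 : dx (fun y => pd b (fx A w) y - EE_P A b w y) z =
      dx (pd b (fx A w)) z - dx (EE_P A b w) z := h1
  have h4 : dy (fun y => pd b (fy A w) y - EE_S A b w y) z =
      dy (pd b (fy A w)) z - dy (EE_S A b w) z := h2
  have h5 : dx (pd b (fx A w)) z = pd b (dx (fx A w)) z := EE_comm (smooth_fx A hw) true b z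
  have h6 : dy (pd b (fy A w)) z = pd b (dy (fy A w)) z := EE_comm (smooth_fy A hw) false b z
  have h7 := EE_pd_add (Egr_smooth_dx (smooth_fx A hw)) (Egr_smooth_dy (smooth_fy A hw)) b z
  have h8 : pd b (Lu A w) z = pd b (dx (fx A w)) z + pd b (dy (fy A w)) z := h7
  rw [Lu, e1, e2, h3, h4, h5, h6, h8]
  ring

theorem EE_bdd {f : Pl → ℝ} (hf : Continuous f) (R : ℝ) :
    ∃ C : ℝ, 0 < C ∧ ∀ z ∈ Q R, |f z| ≤ C := by
  obtain ⟨C, hC⟩ := (isCompact_closedBall (0 : Pl) R).exists_bound_of_continuousOn hf.continuousOn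
  exact ⟨max C 1, lt_max_of_lt_right one_pos, fun z hz => (hC z hz).trans (le_max_left _ _)⟩

/-- ellipticity -/
theorem EE_ell {a b c T p q : ℝ} (ha : 0 < a) (hdet : a * c - b ^ 2 = 1) (hT : a + c ≤ T) :
    p ^ 2 + q ^ 2 ≤ T * (a * p ^ 2 + 2 * b * p * q + c * q ^ 2) := by
  have hc : 0 < c := by
    by_contra h
    push Not at h
    nlinarith [sq_nonneg b, mul_nonneg ha.le (neg_nonneg.2 h)]
  have hT0 : 0 < T := by linarith
  have h1 : 1 ≤ a * c := by nlinarith [sq_nonneg b]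
  have h2 : 0 < T * a - 1 + a := by nlinarith
  have h3 : 0 ≤ T * a - 1 := by nlinarith [sq_nonneg a]
  have h4 : 0 ≤ T * c - 1 := by nlinarith [sq_nonneg c]
  have h50 : (T * a - 1) * (T * c - 1) - (T * b) ^ 2 =
      T ^ 2 * (a * c - b ^ 2) - T * (a + c) + 1 := by ring
  have h5 : (T * b) ^ 2 ≤ (T * a - 1) * (T * c - 1) := by
    rw [hdet] at h50
    nlinarith [mul_nonneg hT0.le (sub_nonneg.2 hT)]
  -- `(T a - 1) X = ((T a - 1) p + T b q)² + (…) q²`
  have h3' : 0 < T * a - 1 := by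
    rcases h3.lt_or_eq with h | h
    · exact h
    · exfalso
      nlinarith [sq_nonneg a]
  have h6 : 0 ≤ (T * a - 1) * (T * (a * p ^ 2 + 2 * b * p * q + c * q ^ 2) - (p ^ 2 + q ^ 2)) := by
    have h7 : (T * a - 1) * (T * (a * p ^ 2 + 2 * b * p * q + c * q ^ 2) - (p ^ 2 + q ^ 2)) =
        ((T * a - 1) * p + T * b * q) ^ 2 + ((T * a - 1) * (T * c - 1) - (T * b) ^ 2) * q ^ 2 := by
      ring
    rw [h7]
    have := mul_nonneg (sub_nonneg.2 h5) (sq_nonneg q)
    positivity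
  have h8 := nonneg_of_mul_nonneg_right h6 h3'
  linarith

/-- outside the support everything vanishes -/
theorem EE_zero {w : Pl → ℝ} {R : ℝ} (hs : tsupport w ⊆ Q R) {z : Pl} (hz : z ∉ Q R) :
    dx w z = 0 ∧ dy w z = 0 := by
  have h1 : z ∉ tsupport w := fun h => hz (hs h)
  have h2 : fderiv ℝ w z = 0 := by
    apply image_eq_zero_of_notMem_tsupport
    exact fun h3 => h1 (tsupport_fderiv_subset ℝ h3)
  constructor
  · show fderiv ℝ w z (1, 0) = 0
    rw [h2]; rfl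
  · show fderiv ℝ w z (0, 1) = 0
    rw [h2]; rfl

theorem EE_supp_pd {w : Pl → ℝ} {R : ℝ} (hs : tsupport w ⊆ Q R) (b : Bool) :
    tsupport (pd b w) ⊆ Q R := by
  refine closure_minimal ?_ Metric.isClosed_closedBall
  intro z hz
  by_contra h
  obtain ⟨h1, h2⟩ := EE_zero hs h
  apply hz
  cases b
  · exact h2
  · exact h1

theorem EE_T_sq {χ : Pl → ℝ} (h : IsT χ) : IsT fun z => χ z ^ 2 := by
  have h1 := cpt_mul h h.1
  have h2 : (fun z => χ z ^ 2) = fun z => χ z * χ z := funext fun z => sq _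
  rw [h2]
  exact h1

theorem EE_T_add {χ ψ : Pl → ℝ} (h : IsT χ) (h' : IsT ψ) : IsT fun z => χ z + ψ z :=
  ⟨h.1.add h'.1, h.2.add h'.2⟩

/-- one derivative -/
theorem EE_one (A : Coef) (R : ℝ) (b : Bool) : ∃ C : ℝ, 0 < C ∧ ∀ w : Pl → ℝ, ContDiff ℝ ∞ w →
    tsupport w ⊆ Q R → ∫ z, G1 (pd b w) z ≤ C * ((∫ z, Lu A w z ^ 2) + ∫ z, G1 w z) := by
  obtain ⟨Ta, hTa0, hTa⟩ := EE_bdd A.ha.continuous R
  obtain ⟨Tc, hTc0, hTc⟩ := EE_bdd A.hc.continuous R
  obtain ⟨Ka, hKa0, hKa⟩ := EE_bdd (smooth_pd A.ha b).continuous R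
  obtain ⟨Kb, hKb0, hKb⟩ := EE_bdd (smooth_pd A.hb b).continuous R
  obtain ⟨Kc, hKc0, hKc⟩ := EE_bdd (smooth_pd A.hc b).continuous R
  set T := Ta + Tc with hT
  have hT0 : 0 < T := by positivity
  set K := Ka + Kb + Kc with hK
  have hK0 : 0 < K := by positivity
  refine ⟨2 * T ^ 2 * (1 + 4 * K ^ 2), by positivity, ?_⟩
  intro w hw hs
  have hcw : HasCompactSupport w :=
    (isCompact_closedBall (0 : Pl) R).of_isClosed_subset (isClosed_tsupport w) hs
  have hTw : IsT w := ⟨hw, hcw⟩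
  have hg : IsT (pd b w) := cpt_pd hTw b
  have hgx : IsT (dx (pd b w)) := cpt_pd hg true
  have hgy : IsT (dy (pd b w)) := cpt_pd hg false
  have hgb : IsT (pd b (pd b w)) := cpt_pd hg b
  have hwx : IsT (dx w) := cpt_pd hTw true
  have hwy : IsT (dy w) := cpt_pd hTw false
  have hL : IsT (Lu A w) := cpt_Lu A hTw
  have hP : IsT (EE_P A b w) := EE_T_add (cpt_mul hwx (smooth_pd A.ha b)) (cpt_mul hwy (smooth_pd A.hb b))
  have hS : IsT (EE_S A b w) := EE_T_add (cpt_mul hwx (smooth_pd A.hb b)) (cpt_mul hwy (smooth_pd A.hc b))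
  have iG : Integrable (G1 (pd b w)) := EE_i (EE_T_add (EE_T_sq hgx) (EE_T_sq hgy))
  have iGw : Integrable (G1 w) := EE_i (EE_T_add (EE_T_sq hwx) (EE_T_sq hwy))
  have iL : Integrable fun z => Lu A w z ^ 2 := EE_i (EE_T_sq hL)
  have iP : Integrable fun z => EE_P A b w z ^ 2 := EE_i (EE_T_sq hP)
  have iS : Integrable fun z => EE_S A b w z ^ 2 := EE_i (EE_T_sq hS)
  have iq : Integrable (q2 A (pd b w) (pd b w)) := by
    refine EE_i (EE_T_add ?_ ?_)
    · exact cpt_mul hgx (smooth_fx A hg.1)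
    · exact cpt_mul hgy (smooth_fy A hg.1)
  have hsg := EE_supp_pd hs b
  -- ellipticity
  have h1 : ∫ z, G1 (pd b w) z ≤ T * ∫ z, q2 A (pd b w) (pd b w) z := by
    rw [← integral_const_mul]
    refine integral_mono iG (iq.const_mul _) fun z => ?_
    by_cases hz : z ∈ Q R
    · have h2 := EE_ell (p := dx (pd b w) z) (q := dy (pd b w) z) (A.pos z) (A.det z) (T := T) (by
        have := le_abs_self (A.a z)
        have := le_abs_self (A.c z)
        have := hTa z hz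
        have := hTc z hz
        linarith)
      show dx (pd b w) z ^ 2 + dy (pd b w) z ^ 2 ≤ T * q2 A (pd b w) (pd b w) z
      rw [q2, fx, fy]
      linarith
    · obtain ⟨h2, h3⟩ := EE_zero hsg hz
      show dx (pd b w) z ^ 2 + dy (pd b w) z ^ 2 ≤ T * q2 A (pd b w) (pd b w) z
      rw [q2, fx, fy, h2, h3]
      simp
  -- integration by parts
  have i1 : Integrable fun z => pd b (Lu A w) z * pd b w z := EE_i (cpt_mul hg (smooth_pd hL.1 b))
  have i2 : Integrable fun z => dx (EE_P A b w) z * pd b w z :=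
    EE_i (cpt_mul hg (Egr_smooth_dx hP.1))
  have i3 : Integrable fun z => dy (EE_S A b w) z * pd b w z :=
    EE_i (cpt_mul hg (Egr_smooth_dy hS.1))
  have h4 : ∫ z, q2 A (pd b w) (pd b w) z = (∫ z, Lu A w z * pd b (pd b w) z) -
      (∫ z, EE_P A b w z * dx (pd b w) z) - ∫ z, EE_S A b w z * dy (pd b w) z := by
    rw [ip_q2 A hg.1 hg]
    have h5 : ∀ z, Lu A (pd b w) z * pd b w z = pd b (Lu A w) z * pd b w z -
        dx (EE_P A b w) z * pd b w z - dy (EE_S A b w) z * pd b w z := by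
      intro z
      rw [EE_Lu A b hw z]
      ring
    simp_rw [h5]
    have i4 : Integrable fun z => pd b (Lu A w) z * pd b w z - dx (EE_P A b w) z * pd b w z :=
      i1.sub i2
    rw [integral_sub i4 i3, integral_sub i1 i2]
    have h6 := ip_mul hL.1 hg b
    have h7 : ∫ z, dx (EE_P A b w) z * pd b w z = - ∫ z, EE_P A b w z * dx (pd b w) z :=
      ip_mul hP.1 hg true
    have h8 : ∫ z, dy (EE_S A b w) z * pd b w z = - ∫ z, EE_S A b w z * dy (pd b w) z :=
      ip_mul hS.1 hg false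
    rw [h6, h7, h8]
    ring
  -- Young
  have hy : ∀ x y : ℝ, x * y ≤ T * x ^ 2 + y ^ 2 / (4 * T) := by
    intro x y
    have h9 : 0 ≤ (2 * T * x - y) ^ 2 / (4 * T) := by positivity
    have h10 : (2 * T * x - y) ^ 2 / (4 * T) = T * x ^ 2 + y ^ 2 / (4 * T) - x * y := by
      field_simp
      ring
    linarith
  have j1 : Integrable fun z => Lu A w z * pd b (pd b w) z := EE_i (cpt_mul hgb hL.1)
  have j2 : Integrable fun z => EE_P A b w z * dx (pd b w) z := EE_i (cpt_mul hgx hP.1)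
  have j3 : Integrable fun z => EE_S A b w z * dy (pd b w) z := EE_i (cpt_mul hgy hS.1)
  have h11 : ∫ z, q2 A (pd b w) (pd b w) z ≤ T * (∫ z, Lu A w z ^ 2) +
      T * ((∫ z, EE_P A b w z ^ 2) + ∫ z, EE_S A b w z ^ 2) +
        (1 / (2 * T)) * ∫ z, G1 (pd b w) z := by
    rw [h4, ← integral_sub j1 j2]
    have j4 : Integrable fun z => Lu A w z * pd b (pd b w) z - EE_P A b w z * dx (pd b w) z :=
      j1.sub j2
    rw [← integral_sub j4 j3, ← integral_add iP iS, ← integral_const_mul, ← integral_const_mul,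
      ← integral_const_mul]
    have k1 : Integrable fun z => T * Lu A w z ^ 2 := iL.const_mul _
    have k2 : Integrable fun z => T * (EE_P A b w z ^ 2 + EE_S A b w z ^ 2) :=
      (iP.add iS).const_mul _
    have k3 : Integrable fun z => 1 / (2 * T) * G1 (pd b w) z := iG.const_mul _
    have k4 : Integrable fun z => T * Lu A w z ^ 2 + T * (EE_P A b w z ^ 2 + EE_S A b w z ^ 2) :=
      k1.add k2
    rw [← integral_add k1 k2, ← integral_add k4 k3]
    refine integral_mono (j4.sub j3) (k4.add k3) fun z => ?_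
    have h12 := hy (Lu A w z) (pd b (pd b w) z)
    have h13 := hy (-EE_P A b w z) (dx (pd b w) z)
    have h14 := hy (-EE_S A b w z) (dy (pd b w) z)
    have h15 : pd b (pd b w) z ^ 2 ≤ G1 (pd b w) z := by
      rw [G1]
      cases b
      · have : pd false (pd false w) z = dy (pd false w) z := rfl
        rw [this]
        nlinarith [sq_nonneg (dx (pd false w) z)]
      · have : pd true (pd true w) z = dx (pd true w) z := rfl
        rw [this]
        nlinarith [sq_nonneg (dy (pd true w) z)]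
    have h16 : pd b (pd b w) z ^ 2 / (4 * T) ≤ G1 (pd b w) z / (4 * T) :=
      div_le_div_of_nonneg_right h15 (by positivity)
    have h17 : G1 (pd b w) z / (4 * T) = dx (pd b w) z ^ 2 / (4 * T) +
        dy (pd b w) z ^ 2 / (4 * T) := by rw [G1]; ring
    have h18 : 1 / (2 * T) * G1 (pd b w) z = 2 * (G1 (pd b w) z / (4 * T)) := by
      field_simp
      ring
    show Lu A w z * pd b (pd b w) z - EE_P A b w z * dx (pd b w) z -
      EE_S A b w z * dy (pd b w) z ≤ T * Lu A w z ^ 2 + T * (EE_P A b w z ^ 2 +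
        EE_S A b w z ^ 2) + 1 / (2 * T) * G1 (pd b w) z
    rw [h18]
    nlinarith
  -- the error terms
  have h20 : (∫ z, EE_P A b w z ^ 2) + ∫ z, EE_S A b w z ^ 2 ≤ 4 * K ^ 2 * ∫ z, G1 w z := by
    rw [← integral_add iP iS, ← integral_const_mul]
    refine integral_mono (iP.add iS) (iGw.const_mul _) fun z => ?_
    show EE_P A b w z ^ 2 + EE_S A b w z ^ 2 ≤ 4 * K ^ 2 * G1 w z
    by_cases hz : z ∈ Q R
    · have a1 : |pd b A.a z| ≤ K := (hKa z hz).trans (by rw [hK]; linarith)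
      have a2 : |pd b A.b z| ≤ K := (hKb z hz).trans (by rw [hK]; linarith)
      have a3 : |pd b A.c z| ≤ K := (hKc z hz).trans (by rw [hK]; linarith)
      have b1 : pd b A.a z ^ 2 ≤ K ^ 2 := by rw [← sq_abs]; exact pow_le_pow_left₀ (abs_nonneg _) a1 2
      have b2 : pd b A.b z ^ 2 ≤ K ^ 2 := by rw [← sq_abs]; exact pow_le_pow_left₀ (abs_nonneg _) a2 2
      have b3 : pd b A.c z ^ 2 ≤ K ^ 2 := by rw [← sq_abs]; exact pow_le_pow_left₀ (abs_nonneg _) a3 2
      rw [EE_P, EE_S, G1]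
      have c1 : (pd b A.a z * dx w z + pd b A.b z * dy w z) ^ 2 ≤
          2 * (pd b A.a z ^ 2 * dx w z ^ 2) + 2 * (pd b A.b z ^ 2 * dy w z ^ 2) := by
        nlinarith [sq_nonneg (pd b A.a z * dx w z - pd b A.b z * dy w z)]
      have c2 : (pd b A.b z * dx w z + pd b A.c z * dy w z) ^ 2 ≤
          2 * (pd b A.b z ^ 2 * dx w z ^ 2) + 2 * (pd b A.c z ^ 2 * dy w z ^ 2) := by
        nlinarith [sq_nonneg (pd b A.b z * dx w z - pd b A.c z * dy w z)]
      have d1 := mul_le_mul_of_nonneg_right b1 (sq_nonneg (dx w z))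
      have d2 := mul_le_mul_of_nonneg_right b2 (sq_nonneg (dy w z))
      have d3 := mul_le_mul_of_nonneg_right b2 (sq_nonneg (dx w z))
      have d4 := mul_le_mul_of_nonneg_right b3 (sq_nonneg (dy w z))
      linarith
    · obtain ⟨e1, e2⟩ := EE_zero hs hz
      rw [EE_P, EE_S, G1, e1, e2]
      simp
  -- conclusion
  have h21 : ∫ z, G1 (pd b w) z ≤ T * (T * (∫ z, Lu A w z ^ 2) +
      T * (4 * K ^ 2 * ∫ z, G1 w z) + (1 / (2 * T)) * ∫ z, G1 (pd b w) z) := by
    refine h1.trans (mul_le_mul_of_nonneg_left (h11.trans ?_) hT0.le)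
    have := mul_le_mul_of_nonneg_left h20 hT0.le
    linarith
  have h22 : T * ((1 / (2 * T)) * ∫ z, G1 (pd b w) z) = (∫ z, G1 (pd b w) z) / 2 := by
    field_simp
  have h23 : 0 ≤ ∫ z, Lu A w z ^ 2 := integral_nonneg fun _ => sq_nonneg _
  have h24 : 0 ≤ ∫ z, G1 w z := integral_nonneg fun _ => add_nonneg (sq_nonneg _) (sq_nonneg _)
  have h25 : ∫ z, G1 (pd b w) z ≤ 2 * T ^ 2 * (∫ z, Lu A w z ^ 2) +
      2 * T ^ 2 * (4 * K ^ 2) * ∫ z, G1 w z := by
    nlinarith
  refine h25.trans ?_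
  have h26 : 0 ≤ 2 * T ^ 2 * (4 * K ^ 2) * ∫ z, Lu A w z ^ 2 := by positivity
  have h27 : 0 ≤ 2 * T ^ 2 * ∫ z, G1 w z := by positivity
  nlinarith

theorem elliptic_cpt (A : Coef) (R : ℝ) : ∃ C : ℝ, 0 < C ∧ ∀ w : Pl → ℝ, ContDiff ℝ ∞ w →
    tsupport w ⊆ Q R → ∫ z, G2 w z ≤ C * ((∫ z, Lu A w z ^ 2) + ∫ z, G1 w z) := by
  obtain ⟨C1, hC10, hC1⟩ := EE_one A R true
  obtain ⟨C2, hC20, hC2⟩ := EE_one A R false
  refine ⟨C1 + C2, by positivity, ?_⟩
  intro w hw hs
  have hcw : HasCompactSupport w :=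
    (isCompact_closedBall (0 : Pl) R).of_isClosed_subset (isClosed_tsupport w) hs
  have hTw : IsT w := ⟨hw, hcw⟩
  have hwx : IsT (dx w) := cpt_pd hTw true
  have hwy : IsT (dy w) := cpt_pd hTw false
  have i1 : Integrable (G1 (dx w)) :=
    EE_i (EE_T_add (EE_T_sq (cpt_pd hwx true)) (EE_T_sq (cpt_pd hwx false)))
  have i2 : Integrable (G1 (dy w)) :=
    EE_i (EE_T_add (EE_T_sq (cpt_pd hwy true)) (EE_T_sq (cpt_pd hwy false)))
  have i3 : Integrable (G2 w) :=
    EE_i (EE_T_add (EE_T_add (EE_T_sq (cpt_pd hwx true)) (EE_T_sq (cpt_pd hwy true)))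
      (EE_T_sq (cpt_pd hwy false)))
  have h1 := hC1 w hw hs
  have h2 := hC2 w hw hs
  have h3 : ∫ z, G2 w z ≤ (∫ z, G1 (dx w) z) + ∫ z, G1 (dy w) z := by
    rw [← integral_add i1 i2]
    refine integral_mono i3 (i1.add i2) fun z => ?_
    show dx (dx w) z ^ 2 + dx (dy w) z ^ 2 + dy (dy w) z ^ 2 ≤
      (dx (dx w) z ^ 2 + dy (dx w) z ^ 2) + (dx (dy w) z ^ 2 + dy (dy w) z ^ 2)
    nlinarith [sq_nonneg (dy (dx w) z)]
  have h4 : ∫ z, G1 (dx w) z ≤ C1 * ((∫ z, Lu A w z ^ 2) + ∫ z, G1 w z) := h1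
  have h5 : ∫ z, G1 (dy w) z ≤ C2 * ((∫ z, Lu A w z ^ 2) + ∫ z, G1 w z) := h2
  calc ∫ z, G2 w z ≤ _ := h3
    _ ≤ C1 * ((∫ z, Lu A w z ^ 2) + ∫ z, G1 w z) + C2 * ((∫ z, Lu A w z ^ 2) + ∫ z, G1 w z) :=
        add_le_add h4 h5
    _ = (C1 + C2) * ((∫ z, Lu A w z ^ 2) + ∫ z, G1 w z) := by ring

end QR
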