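import Pool.Agent.LibQR40.EE
import Pool.Agent.LibQR40.CU

/-! ROW EI. Put auxiliary lemmas in this file, names starting with `EI_`.
(interior elliptic estimate). PLAN: w = χ v with the cut-off χ of `exists_cut R one_pos` (= 1 near Q R,
support in Q (R+1)); G2 w = G2 v on Q R (w = v on an open set containing Q R), so n2 R v ≤ ∫ G2 w ≤
C (∫ (Lu A w)² + ∫ G1 w) by `elliptic_cpt` with the square Q (R+1); Lu A w = χ Lu A v + 2 q2 A χ v + v Lu A χ (`Lu_mul`),
all vanish outside Q (R+1) and the coefficients are bounded there (`bdd_Q`). -/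

open MeasureTheory Set Filter Topology
open scoped ContDiff ENNReal NNReal

namespace QR

open BGS

private theorem EI_loc {f g : Pl → ℝ} {z : Pl} (h : f =ᶠ[𝓝 z] g) (b : Bool) :
    pd b f =ᶠ[𝓝 z] pd b g := by
  have h1 : fderiv ℝ f =ᶠ[𝓝 z] fderiv ℝ g := h.fderiv
  cases b
  · exact h1.fun_comp fun L => L (0, 1)
  · exact h1.fun_comp fun L => L (1, 0)

private theorem EI_pd0 (b : Bool) : pd b (fun _ : Pl => (0 : ℝ)) = fun _ => 0 := by
  funext z
  cases b
  · show fderiv ℝ (fun _ : Pl => (0 : ℝ)) z (0, 1) = 0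
    rw [fderiv_const_apply]
    rfl
  · show fderiv ℝ (fun _ : Pl => (0 : ℝ)) z (1, 0) = 0
    rw [fderiv_const_apply]
    rfl

private theorem EI_zero {f : Pl → ℝ} {z : Pl} (h : f =ᶠ[𝓝 z] fun _ => 0) (b : Bool) :
    pd b f =ᶠ[𝓝 z] fun _ => 0 := by
  have h1 := EI_loc h b
  rwa [EI_pd0] at h1

theorem elliptic_int (A : Coef) (R : ℝ) : ∃ C : ℝ, 0 < C ∧ ∀ v : Pl → ℝ, ContDiff ℝ ∞ v →
    n2 R v ≤ C * (n0 (R + 1) (Lu A v) + n1 (R + 1) v + n0 (R + 1) v) := by
  obtain ⟨C0, hC0, hell⟩ := elliptic_cpt A (R + 1)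
  obtain ⟨χ, hχ, hχ0, hχ1, ⟨U, hUo, hUQ, hU1⟩, hts⟩ := exists_cut R one_pos
  obtain ⟨K1, hK1, hb1⟩ := bdd_Q (smooth_Lu A hχ.1).continuous (R + 1)
  obtain ⟨K2, hK2, hb2⟩ := bdd_Q (smooth_fx A hχ.1).continuous (R + 1)
  obtain ⟨K3, hK3, hb3⟩ := bdd_Q (smooth_fy A hχ.1).continuous (R + 1)
  obtain ⟨K4, hK4, hb4⟩ := bdd_Q (smooth_pd hχ.1 true).continuous (R + 1)
  obtain ⟨K5, hK5, hb5⟩ := bdd_Q (smooth_pd hχ.1 false).continuous (R + 1)
  obtain ⟨K, hK⟩ : ∃ K : ℝ, K = 1 + K1 + K2 + K3 + K4 + K5 := ⟨_, rfl⟩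
  have hK1' : K1 ≤ K := by rw [hK]; linarith
  have hK2' : K2 ≤ K := by rw [hK]; linarith
  have hK3' : K3 ≤ K := by rw [hK]; linarith
  have hK4' : K4 ≤ K := by rw [hK]; linarith
  have hK5' : K5 ≤ K := by rw [hK]; linarith
  have hKone : 1 ≤ K := by rw [hK]; linarith
  have hK0 : 0 < K := by linarith
  have sqK : ∀ {x B : ℝ}, |x| ≤ B → B ≤ K → x ^ 2 ≤ K ^ 2 := by
    intro x B h1 h2
    rw [← sq_abs]
    exact pow_le_pow_left₀ (abs_nonneg _) (h1.trans h2) 2
  refine ⟨C0 * (32 * K ^ 2), by positivity, fun v hv => ?_⟩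
  obtain ⟨w, hw⟩ : ∃ w : Pl → ℝ, w = fun z => χ z * v z := ⟨_, rfl⟩
  have hws : ContDiff ℝ ∞ w := by
    rw [hw]
    exact hχ.1.mul hv
  have hwt : tsupport w ⊆ Q (R + 1) := by
    refine subset_trans ?_ hts
    rw [hw]
    exact tsupport_mul_subset_left
  have hwc : HasCompactSupport w := by
    rw [hw]
    exact hχ.2.mul_right
  have hwT : IsT w := ⟨hws, hwc⟩
  have twx := cpt_pd hwT true
  have twy := cpt_pd hwT false
  -- the germs
  have hin : ∀ z ∈ Q R, w =ᶠ[𝓝 z] v := by
    intro z hz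
    filter_upwards [hUo.mem_nhds (hUQ hz)] with y hy
    rw [hw]
    show χ y * v y = v y
    rw [hU1 y hy, one_mul]
  have hout : ∀ z, z ∉ Q (R + 1) → w =ᶠ[𝓝 z] fun _ => 0 := by
    intro z hz
    exact notMem_tsupport_iff_eventuallyEq.mp fun h => hz (hwt h)
  -- first step
  have iG2 : Integrable (fun z => G2 w z) volume := by
    have j1 : Integrable (fun z => pd true (pd true w) z * pd true (pd true w) z) volume :=
      ((cpt_pd twx true).1.continuous.mul
        (cpt_pd twx true).1.continuous).integrable_of_hasCompactSupport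
        (cpt_pd twx true).2.mul_left
    have j2 : Integrable (fun z => pd true (pd false w) z * pd true (pd false w) z) volume :=
      ((cpt_pd twy true).1.continuous.mul
        (cpt_pd twy true).1.continuous).integrable_of_hasCompactSupport
        (cpt_pd twy true).2.mul_left
    have j3 : Integrable (fun z => pd false (pd false w) z * pd false (pd false w) z) volume :=
      ((cpt_pd twy false).1.continuous.mul
        (cpt_pd twy false).1.continuous).integrable_of_hasCompactSupport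
        (cpt_pd twy false).2.mul_left
    refine ((j1.add j2).add j3).congr (ae_of_all _ fun z => ?_)
    show dx (dx w) z * dx (dx w) z + dx (dy w) z * dx (dy w) z + dy (dy w) z * dy (dy w) z =
      dx (dx w) z ^ 2 + dx (dy w) z ^ 2 + dy (dy w) z ^ 2
    ring
  have s1 : n2 R v ≤ ∫ z, G2 w z := by
    have e : n2 R v = ∫ z in Q R, G2 w z := by
      unfold n2
      refine setIntegral_congr_fun measurableSet_closedBall fun z hz => ?_
      have g0 := hin z hz
      have gx := EI_loc g0 true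
      have gy := EI_loc g0 false
      have gxx : pd true (pd true w) z = pd true (pd true v) z := (EI_loc gx true).self_of_nhds
      have gxy : pd true (pd false w) z = pd true (pd false v) z := (EI_loc gy true).self_of_nhds
      have gyy : pd false (pd false w) z = pd false (pd false v) z :=
        (EI_loc gy false).self_of_nhds
      show pd true (pd true v) z ^ 2 + pd true (pd false v) z ^ 2 + pd false (pd false v) z ^ 2 =
        pd true (pd true w) z ^ 2 + pd true (pd false w) z ^ 2 + pd false (pd false w) z ^ 2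
      rw [gxx, gxy, gyy]
    rw [e]
    exact setIntegral_le_integral iG2 (ae_of_all _ fun z =>
      add_nonneg (add_nonneg (sq_nonneg _) (sq_nonneg _)) (sq_nonneg _))
  have s2 := hell w hws hwt
  -- the integrals over the plane are integrals over the square
  have i0 := intQ (hv.continuous.pow 2) (R + 1)
  have i1 := intQ (smooth_G1 hv).continuous (R + 1)
  have i2 := intQ ((smooth_Lu A hv).continuous.pow 2) (R + 1)
  have i0' : Integrable (fun z => v z ^ 2) (volume.restrict (Q (R + 1))) := i0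
  have i1' : Integrable (fun z => G1 v z) (volume.restrict (Q (R + 1))) := i1
  have i2' : Integrable (fun z => Lu A v z ^ 2) (volume.restrict (Q (R + 1))) := i2
  have i21 : Integrable (fun z => Lu A v z ^ 2 + G1 v z) (volume.restrict (Q (R + 1))) :=
    i2'.add i1'
  have i210 : Integrable (fun z => Lu A v z ^ 2 + G1 v z + v z ^ 2)
    (volume.restrict (Q (R + 1))) := i21.add i0'
  have hsum : ∫ z in Q (R + 1), (16 * K ^ 2) * (Lu A v z ^ 2 + G1 v z + v z ^ 2) =
      (16 * K ^ 2) * (n0 (R + 1) (Lu A v) + n1 (R + 1) v + n0 (R + 1) v) := by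
    rw [integral_const_mul, integral_add i21 i0', integral_add i2' i1']
    rfl
  have s3 : ∫ z, Lu A w z ^ 2 ≤
      (16 * K ^ 2) * (n0 (R + 1) (Lu A v) + n1 (R + 1) v + n0 (R + 1) v) := by
    have e : ∫ z, Lu A w z ^ 2 = ∫ z in Q (R + 1), Lu A w z ^ 2 := by
      refine (setIntegral_eq_integral_of_forall_compl_eq_zero fun z hz => ?_).symm
      have g0 := hout z hz
      have gx := EI_zero g0 true
      have gy := EI_zero g0 false
      have gfx : fx A w =ᶠ[𝓝 z] fun _ => 0 := by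
        filter_upwards [gx, gy] with y h1 h2
        show A.a y * pd true w y + A.b y * pd false w y = 0
        rw [h1, h2]
        ring
      have gfy : fy A w =ᶠ[𝓝 z] fun _ => 0 := by
        filter_upwards [gx, gy] with y h1 h2
        show A.b y * pd true w y + A.c y * pd false w y = 0
        rw [h1, h2]
        ring
      have k1 : pd true (fx A w) z = 0 := (EI_zero gfx true).self_of_nhds
      have k2 : pd false (fy A w) z = 0 := (EI_zero gfy false).self_of_nhds
      have k3 : Lu A w z = pd true (fx A w) z + pd false (fy A w) z := rfl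
      rw [k3, k1, k2]
      ring
    rw [e, ← hsum]
    refine setIntegral_mono_on (intQ ((smooth_Lu A hws).continuous.pow 2) (R + 1))
      (i210.const_mul _) measurableSet_closedBall fun z hz => ?_
    show Lu A w z ^ 2 ≤ (16 * K ^ 2) * (Lu A v z ^ 2 + G1 v z + v z ^ 2)
    rw [hw, Lu_mul A hχ.1 hv]
    have q1 : q2 A χ v z = fx A χ z * dx v z + fy A χ z * dy v z := rfl
    have q2' : G1 v z = dx v z ^ 2 + dy v z ^ 2 := rfl
    rw [q1, q2']
    have c1 := sqK (hb1 z hz) hK1'
    have c2 := sqK (hb2 z hz) hK2'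
    have c3 := sqK (hb3 z hz) hK3'
    have c4 : χ z ^ 2 ≤ K ^ 2 := by
      have : χ z ^ 2 ≤ 1 := pow_le_one₀ (hχ0 z) (hχ1 z)
      nlinarith
    have d1 := mul_le_mul_of_nonneg_right c1 (sq_nonneg (v z))
    have d2 := mul_le_mul_of_nonneg_right c2 (sq_nonneg (dx v z))
    have d3 := mul_le_mul_of_nonneg_right c3 (sq_nonneg (dy v z))
    have d4 := mul_le_mul_of_nonneg_right c4 (sq_nonneg (Lu A v z))
    have four : ∀ p q r s : ℝ, (p + 2 * (q + r) + s) ^ 2 ≤
        4 * (p ^ 2 + 4 * q ^ 2 + 4 * r ^ 2 + s ^ 2) := by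
      intro p q r s
      nlinarith [sq_nonneg (p - 2 * q), sq_nonneg (p - 2 * r), sq_nonneg (p - s),
        sq_nonneg (q - r), sq_nonneg (2 * q - s), sq_nonneg (2 * r - s)]
    refine (four _ _ _ _).trans ?_
    have e1 : (Lu A χ z * v z) ^ 2 = Lu A χ z ^ 2 * v z ^ 2 := by ring
    have e2 : (fx A χ z * dx v z) ^ 2 = fx A χ z ^ 2 * dx v z ^ 2 := by ring
    have e3 : (fy A χ z * dy v z) ^ 2 = fy A χ z ^ 2 * dy v z ^ 2 := by ring
    have e4 : (χ z * Lu A v z) ^ 2 = χ z ^ 2 * Lu A v z ^ 2 := by ring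
    rw [e1, e2, e3, e4]
    have p1 : 0 ≤ K ^ 2 * v z ^ 2 := by positivity
    have p2 : 0 ≤ K ^ 2 * Lu A v z ^ 2 := by positivity
    linarith
  have s4 : ∫ z, G1 w z ≤
      (16 * K ^ 2) * (n0 (R + 1) (Lu A v) + n1 (R + 1) v + n0 (R + 1) v) := by
    have e : ∫ z, G1 w z = ∫ z in Q (R + 1), G1 w z := by
      refine (setIntegral_eq_integral_of_forall_compl_eq_zero fun z hz => ?_).symm
      have g0 := hout z hz
      have k1 : pd true w z = 0 := (EI_zero g0 true).self_of_nhds
      have k2 : pd false w z = 0 := (EI_zero g0 false).self_of_nhds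
      show pd true w z ^ 2 + pd false w z ^ 2 = 0
      rw [k1, k2]
      ring
    rw [e, ← hsum]
    refine setIntegral_mono_on (intQ (smooth_G1 hws).continuous (R + 1))
      (i210.const_mul _) measurableSet_closedBall fun z hz => ?_
    show pd true w z ^ 2 + pd false w z ^ 2 ≤
      (16 * K ^ 2) * (Lu A v z ^ 2 + (pd true v z ^ 2 + pd false v z ^ 2) + v z ^ 2)
    rw [hw, pd_mul hχ.1 hv, pd_mul hχ.1 hv]
    have c1 := sqK (hb4 z hz) hK4'
    have c2 := sqK (hb5 z hz) hK5'
    have c4 : χ z ^ 2 ≤ K ^ 2 := by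
      have : χ z ^ 2 ≤ 1 := pow_le_one₀ (hχ0 z) (hχ1 z)
      nlinarith
    have d1 := mul_le_mul_of_nonneg_right c1 (sq_nonneg (v z))
    have d2 := mul_le_mul_of_nonneg_right c2 (sq_nonneg (v z))
    have d3 := mul_le_mul_of_nonneg_right c4 (sq_nonneg (pd true v z))
    have d4 := mul_le_mul_of_nonneg_right c4 (sq_nonneg (pd false v z))
    have two : ∀ p q : ℝ, (p + q) ^ 2 ≤ 2 * (p ^ 2 + q ^ 2) := by
      intro p q
      nlinarith [sq_nonneg (p - q)]
    refine (add_le_add (two _ _) (two _ _)).trans ?_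
    have e1 : (pd true χ z * v z) ^ 2 = pd true χ z ^ 2 * v z ^ 2 := by ring
    have e2 : (pd false χ z * v z) ^ 2 = pd false χ z ^ 2 * v z ^ 2 := by ring
    have e3 : (χ z * pd true v z) ^ 2 = χ z ^ 2 * pd true v z ^ 2 := by ring
    have e4 : (χ z * pd false v z) ^ 2 = χ z ^ 2 * pd false v z ^ 2 := by ring
    rw [e1, e2, e3, e4]
    have p1 : 0 ≤ K ^ 2 * v z ^ 2 := by positivity
    have p2 : 0 ≤ K ^ 2 * Lu A v z ^ 2 := by positivity
    have p3 : 0 ≤ K ^ 2 * pd true v z ^ 2 := by positivity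
    have p4 : 0 ≤ K ^ 2 * pd false v z ^ 2 := by positivity
    linarith
  refine s1.trans (s2.trans ?_)
  calc C0 * ((∫ z, Lu A w z ^ 2) + ∫ z, G1 w z)
      ≤ C0 * ((16 * K ^ 2) * (n0 (R + 1) (Lu A v) + n1 (R + 1) v + n0 (R + 1) v) +
        (16 * K ^ 2) * (n0 (R + 1) (Lu A v) + n1 (R + 1) v + n0 (R + 1) v)) :=
        mul_le_mul_of_nonneg_left (add_le_add s3 s4) hC0.le
    _ = _ := by ring

end QR
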