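import Pool.Agent.LibQR40.M1k
import Pool.Agent.LibQR40.CU

/-! ROW FR. Put auxiliary lemmas in this file, names starting with `FR_`.
(Friedrichs' lemma). `Cm ε a g = a J g - J (a g)`. PLAN: `J_pd_ker` for h = g and h = a g, and `pd_mul`, `pd_sub`, give
pd b (Cm ε a g) x = pd b a x * J ε g x + ε⁻¹ ∫ z, (pd b rho) z (a x - a (x - ε z)) g (x - ε z) dz.
For x ∈ Q R, z ∈ Q 1 (pd b rho = 0 outside Q 1): |a x - a (x - ε z)| ≤ K ε with K a Lipschitz constant of `a` on Q (R+1) (convex set, bounded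
derivative); so |pd b (Cm ε a g) x| ≤ K' ∫ z in Q 1, |g (x - ε z)| dz (K' = sup |pd b a| sup rho + K sup |pd b rho|), square,
Cauchy–Schwarz on Q 1 (volume 4), integrate over x ∈ Q R and exchange (Fubini, continuous on compact sets); for z ∈ Q 1 the translate of Q R
by - ε z is in Q (R+1): ≤ 16 K'^2 n0 (R+1) g. -/

open MeasureTheory Set Filter Topology
open scoped ContDiff ENNReal NNReal

namespace QR

open BGS

theorem FR_meas (R : ℝ) : MeasurableSet (Q R) := Metric.isClosed_closedBall.measurableSet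

theorem FR_rho_pd_zero {z : Pl} (b : Bool) (h : z ∉ Q 1) : pd b rho z = 0 := by
  have h1 : z ∉ tsupport rho := by rw [rho_tsupp]; exact h
  have h2 : fderiv ℝ rho z = 0 := by
    apply image_eq_zero_of_notMem_tsupport
    exact fun h3 => h1 (tsupport_fderiv_subset ℝ h3)
  cases b
  · show fderiv ℝ rho z (0, 1) = 0
    rw [h2]; rfl
  · show fderiv ℝ rho z (1, 0) = 0
    rw [h2]; rfl

theorem FR_rho_zero {z : Pl} (h : z ∉ Q 1) : rho z = 0 := by
  apply image_eq_zero_of_notMem_tsupport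
  rw [rho_tsupp]; exact h

/-- Lipschitz constant. -/
theorem FR_lip {a : Pl → ℝ} (ha : ContDiff ℝ ∞ a) (R : ℝ) : ∃ K : ℝ, 0 < K ∧
    ∀ x ∈ Q R, ∀ z ∈ Q 1, ∀ ε : ℝ, 0 < ε → ε ≤ 1 → |a x - a (x - ε • z)| ≤ K * ε := by
  have hc : Continuous (fderiv ℝ a) := (ha.continuous_fderiv (by simp))
  obtain ⟨K, hK⟩ := (isCompact_closedBall (0 : Pl) (R + 1)).exists_bound_of_continuousOn
    hc.continuousOn
  refine ⟨max K 1, lt_max_of_lt_right one_pos, ?_⟩
  intro x hx z hz ε hε hε1
  have hx' : ‖x‖ ≤ R := by simpa [Q] using hx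
  have hz' : ‖z‖ ≤ 1 := by simpa [Q] using hz
  have hez : ‖ε • z‖ ≤ ε := by
    rw [norm_smul, Real.norm_of_nonneg hε.le]
    exact mul_le_of_le_one_right hε.le hz'
  have h1 : x ∈ Metric.closedBall (0 : Pl) (R + 1) := by
    rw [mem_closedBall_zero_iff]; linarith
  have h2 : x - ε • z ∈ Metric.closedBall (0 : Pl) (R + 1) := by
    rw [mem_closedBall_zero_iff]
    calc ‖x - ε • z‖ ≤ ‖x‖ + ‖ε • z‖ := norm_sub_le _ _
      _ ≤ R + 1 := by linarith
  have h3 := (convex_closedBall (0 : Pl) (R + 1)).norm_image_sub_le_of_norm_fderiv_le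
    (f := a) (C := max K 1) (𝕜 := ℝ)
    (fun y _ => (ha.differentiable (by simp)) y) (fun y hy => (hK y hy).trans (le_max_left _ _))
    h2 h1
  have h4 : x - (x - ε • z) = ε • z := by abel
  rw [h4, Real.norm_eq_abs] at h3
  exact h3.trans (mul_le_mul_of_nonneg_left hez (le_max_of_le_right zero_le_one))

theorem FR_int {g : Pl → ℝ} (hg : Continuous g) {h : Pl → ℝ} (hh : Continuous h)
    (h0 : ∀ z, z ∉ Q 1 → h z = 0) (ε : ℝ) (x : Pl) : Integrable fun z => h z * g (x - ε • z) := by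
  have hc : Continuous fun z => h z * g (x - ε • z) := by fun_prop
  refine hc.integrable_of_hasCompactSupport ?_
  refine HasCompactSupport.intro (isCompact_closedBall (0 : Pl) 1) ?_
  intro z hz
  rw [h0 z hz, zero_mul]

/-- Cauchy–Schwarz. -/
theorem FR_cs {h : Pl → ℝ} (hh : Continuous h) :
    (∫ z in Q 1, |h z|) ^ 2 ≤ (volume (Q 1)).toReal * ∫ z in Q 1, h z ^ 2 := by
  set V := (volume (Q 1)).toReal with hV
  have hVpos : 0 < V := by
    rw [hV]
    refine ENNReal.toReal_pos ?_ (isCompact_closedBall (0 : Pl) 1).measure_lt_top.ne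
    exact (Metric.measure_closedBall_pos volume (0 : Pl) one_pos).ne'
  set A := ∫ z in Q 1, |h z| with hA
  set B := ∫ z in Q 1, h z ^ 2 with hB
  have h1 : IntegrableOn (fun z => |h z|) (Q 1) := intQ hh.abs 1
  have h2 : IntegrableOn (fun z => h z ^ 2) (Q 1) := intQ (hh.pow 2) 1
  have h3 : 0 ≤ ∫ z in Q 1, (|h z| - A / V) ^ 2 := integral_nonneg fun _ => sq_nonneg _
  have h4 : ∫ z in Q 1, (|h z| - A / V) ^ 2 = B - 2 * (A / V) * A + (A / V) ^ 2 * V := by
    have h5 : ∀ z, (|h z| - A / V) ^ 2 = (h z ^ 2 - 2 * (A / V) * |h z|) + (A / V) ^ 2 := by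
      intro z
      have : |h z| ^ 2 = h z ^ 2 := sq_abs _
      linear_combination this
    simp_rw [h5]
    have h6 : IntegrableOn (fun _ : Pl => (A / V) ^ 2) (Q 1) := intQ continuous_const 1
    have h7 : IntegrableOn (fun z => 2 * (A / V) * |h z|) (Q 1) := h1.const_mul _
    have h8 : IntegrableOn (fun z => h z ^ 2 - 2 * (A / V) * |h z|) (Q 1) := h2.sub h7
    rw [integral_add h8 h6, integral_sub h2 h7, integral_const_mul, setIntegral_const]
    simp only [smul_eq_mul, Measure.real]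
    rw [← hV]
    ring
  rw [h4] at h3
  have h7 : B - 2 * (A / V) * A + (A / V) ^ 2 * V = B - A ^ 2 / V := by
    field_simp
    ring
  rw [h7] at h3
  have h8 : A ^ 2 / V ≤ B := by linarith
  rwa [div_le_iff₀ hVpos, mul_comm] at h8

/-- Fubini. -/
theorem FR_fub {g : Pl → ℝ} (hg : Continuous g) (R ε : ℝ) (hε : 0 < ε) (hε1 : ε ≤ 1) :
    ∫ x in Q R, ∫ z in Q 1, g (x - ε • z) ^ 2 ≤ (volume (Q 1)).toReal * n0 (R + 1) g := by
  have hc : Continuous fun p : Pl × Pl => g (p.1 - ε • p.2) ^ 2 := by fun_prop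
  have hint : Integrable (fun p : Pl × Pl => g (p.1 - ε • p.2) ^ 2)
      ((volume.restrict (Q R)).prod (volume.restrict (Q 1))) := by
    rw [Measure.prod_restrict]
    exact hc.continuousOn.integrableOn_compact
      ((isCompact_closedBall 0 R).prod (isCompact_closedBall 0 1))
  have hsw : ∫ x in Q R, ∫ z in Q 1, g (x - ε • z) ^ 2 =
      ∫ z in Q 1, ∫ x in Q R, g (x - ε • z) ^ 2 := integral_integral_swap hint
  rw [hsw]
  have hb : ∀ z ∈ Q 1, ∫ x in Q R, g (x - ε • z) ^ 2 ≤ n0 (R + 1) g := by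
    intro z hz
    have hz' : ‖z‖ ≤ 1 := by simpa [Q] using hz
    have hez : ‖ε • z‖ ≤ 1 := by
      rw [norm_smul, Real.norm_of_nonneg hε.le]
      nlinarith [norm_nonneg z]
    have h1 : ∫ x in Q R, g (x - ε • z) ^ 2 =
        ∫ y in (fun y => y + ε • z) ⁻¹' (Q R), g y ^ 2 := by
      have h2 := (measurePreserving_add_right (volume : Measure Pl) (ε • z)).setIntegral_preimage_emb
        (MeasurableEquiv.addRight (ε • z)).measurableEmbedding (fun y => g (y - ε • z) ^ 2) (Q R)
      rw [← h2]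
      simp
    rw [h1, n0]
    refine setIntegral_mono_set (intQ (hg.pow 2) (R + 1)) (ae_of_all _ fun _ => sq_nonneg _)
      (HasSubset.Subset.eventuallyLE ?_)
    intro y hy
    have hy' : ‖y + ε • z‖ ≤ R := mem_closedBall_zero_iff.1 hy
    show y ∈ Metric.closedBall (0 : Pl) (R + 1)
    rw [mem_closedBall_zero_iff]
    calc ‖y‖ = ‖(y + ε • z) - ε • z‖ := by rw [add_sub_cancel_right]
      _ ≤ ‖y + ε • z‖ + ‖ε • z‖ := norm_sub_le _ _
      _ ≤ R + 1 := by linarith
  have hmono : ∫ z in Q 1, ∫ x in Q R, g (x - ε • z) ^ 2 ≤ ∫ _z in Q 1, n0 (R + 1) g := by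
    refine setIntegral_mono_on ?_ (intQ continuous_const 1) (FR_meas 1) hb
    exact hint.integral_prod_right
  refine hmono.trans (le_of_eq ?_)
  rw [setIntegral_const]
  simp [Measure.real]

theorem friedrichs {a : Pl → ℝ} (ha : ContDiff ℝ ∞ a) (R : ℝ) :
    ∃ C : ℝ, 0 < C ∧ ∀ ε : ℝ, 0 < ε → ε ≤ 1 → ∀ g : Pl → ℝ, ContDiff ℝ ∞ g → ∀ b : Bool,
      n0 R (pd b (Cm ε a g)) ≤ C * n0 (R + 1) g := by
  obtain ⟨K, hK0, hK⟩ := FR_lip ha R
  obtain ⟨A1, hA10, hA1⟩ := bdd_Q (smooth_pd ha true).continuous R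
  obtain ⟨A2, hA20, hA2⟩ := bdd_Q (smooth_pd ha false).continuous R
  obtain ⟨r0, hr00, hr0⟩ := bdd_Q rho_smooth.continuous 1
  obtain ⟨r1, hr10, hr1⟩ := bdd_Q (smooth_pd rho_smooth true).continuous 1
  obtain ⟨r2, hr20, hr2⟩ := bdd_Q (smooth_pd rho_smooth false).continuous 1
  set V := (volume (Q 1)).toReal with hV
  set L := (A1 + A2) * r0 + K * (r1 + r2) with hL
  have hL0 : 0 < L := by positivity
  refine ⟨L ^ 2 * V ^ 2 + 1, by positivity, ?_⟩
  intro ε hε hε1 g hg b
  have hgc := hg.continuous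
  have hag : ContDiff ℝ ∞ fun y => a y * g y := ha.mul hg
  have hA : ∀ x ∈ Q R, |pd b a x| ≤ A1 + A2 := by
    intro x hx
    cases b
    · exact (hA2 x hx).trans (by linarith)
    · exact (hA1 x hx).trans (by linarith)
  have hr : ∀ z ∈ Q 1, |pd b rho z| ≤ r1 + r2 := by
    intro z hz
    cases b
    · exact (hr2 z hz).trans (by linarith)
    · exact (hr1 z hz).trans (by linarith)
  have hJ1 : ContDiff ℝ ∞ (J ε g) := J_smooth hε hg
  have hJ2 : ContDiff ℝ ∞ (J ε fun y => a y * g y) := J_smooth hε hag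
  have hpt : ∀ x ∈ Q R, |pd b (Cm ε a g) x| ≤ L * ∫ z in Q 1, |g (x - ε • z)| := by
    intro x hx
    have e1 : pd b (Cm ε a g) x = (pd b a x * J ε g x + a x * pd b (J ε g) x) -
        pd b (J ε fun y => a y * g y) x := by
      have h1 := pd_sub (ha.mul hJ1) hJ2 b x
      have h2 := pd_mul ha hJ1 b x
      rw [← h2]
      exact h1
    have i1 : Integrable fun z => rho z * g (x - ε • z) :=
      FR_int hgc rho_smooth.continuous (fun z => FR_rho_zero) ε x
    have i2 : Integrable fun z => pd b rho z * g (x - ε • z) :=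
      FR_int hgc (smooth_pd rho_smooth b).continuous (fun z => FR_rho_pd_zero b) ε x
    have i3 : Integrable fun z => pd b rho z * (a (x - ε • z) * g (x - ε • z)) :=
      FR_int (g := fun y => a y * g y) hag.continuous (smooth_pd rho_smooth b).continuous
        (fun z => FR_rho_pd_zero b) ε x
    have e2 : pd b (Cm ε a g) x = ∫ z, (pd b a x * (rho z * g (x - ε • z)) +
        ε⁻¹ * (a x * (pd b rho z * g (x - ε • z)) -
          pd b rho z * (a (x - ε • z) * g (x - ε • z)))) := by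
      have j1 : Integrable fun z => pd b a x * (rho z * g (x - ε • z)) := i1.const_mul _
      have j2 : Integrable fun z => a x * (pd b rho z * g (x - ε • z)) := i2.const_mul _
      have j3 : Integrable fun z => a x * (pd b rho z * g (x - ε • z)) -
          pd b rho z * (a (x - ε • z) * g (x - ε • z)) := j2.sub i3
      have j4 : Integrable fun z => ε⁻¹ * (a x * (pd b rho z * g (x - ε • z)) -
          pd b rho z * (a (x - ε • z) * g (x - ε • z))) := j3.const_mul _
      rw [integral_add j1 j4, integral_const_mul, integral_const_mul, integral_sub j2 i3,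
        integral_const_mul, e1, J_pd_ker hε hg, J_pd_ker hε hag]
      rw [J]
      ring
    have e3 : ∀ z, (pd b a x * (rho z * g (x - ε • z)) +
        ε⁻¹ * (a x * (pd b rho z * g (x - ε • z)) -
          pd b rho z * (a (x - ε • z) * g (x - ε • z)))) =
        (pd b a x * rho z + ε⁻¹ * pd b rho z * (a x - a (x - ε • z))) * g (x - ε • z) := by
      intro z; ring
    have e4 : pd b (Cm ε a g) x = ∫ z in Q 1,
        (pd b a x * rho z + ε⁻¹ * pd b rho z * (a x - a (x - ε • z))) * g (x - ε • z) := by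
      rw [e2]
      simp_rw [e3]
      refine (setIntegral_eq_integral_of_forall_compl_eq_zero ?_).symm
      intro z hz
      rw [FR_rho_zero hz, FR_rho_pd_zero b hz]
      ring
    rw [e4, ← integral_const_mul, ← Real.norm_eq_abs]
    refine norm_integral_le_of_norm_le ?_ ?_
    · have : Continuous fun z => L * |g (x - ε • z)| := by fun_prop
      exact intQ this 1
    · rw [ae_restrict_iff' (FR_meas 1)]
      refine ae_of_all _ fun z hz => ?_
      rw [Real.norm_eq_abs, abs_mul]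
      refine mul_le_mul_of_nonneg_right ?_ (abs_nonneg _)
      refine (abs_add_le _ _).trans ?_
      rw [abs_mul, abs_mul, abs_mul, abs_of_pos (inv_pos.2 hε), hL]
      have h1 : |pd b a x| * |rho z| ≤ (A1 + A2) * r0 :=
        mul_le_mul (hA x hx) (hr0 z hz) (abs_nonneg _) (by positivity)
      have h2 : ε⁻¹ * |pd b rho z| * |a x - a (x - ε • z)| ≤ K * (r1 + r2) := by
        calc ε⁻¹ * |pd b rho z| * |a x - a (x - ε • z)|
            ≤ ε⁻¹ * (r1 + r2) * (K * ε) := by
              refine mul_le_mul (mul_le_mul_of_nonneg_left (hr z hz) (inv_pos.2 hε).le)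
                (hK x hx z hz ε hε hε1) (abs_nonneg _) (by positivity)
          _ = K * (r1 + r2) := by field_simp
      linarith
  have hCm : ContDiff ℝ ∞ (Cm ε a g) := (ha.mul hJ1).sub hJ2
  have hcI : Continuous fun p : Pl × Pl => g (p.1 - ε • p.2) ^ 2 := by fun_prop
  have hint : Integrable (fun p : Pl × Pl => g (p.1 - ε • p.2) ^ 2)
      ((volume.restrict (Q R)).prod (volume.restrict (Q 1))) := by
    rw [Measure.prod_restrict]
    exact hcI.continuousOn.integrableOn_compact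
      ((isCompact_closedBall 0 R).prod (isCompact_closedBall 0 1))
  have hV0 : 0 ≤ V := ENNReal.toReal_nonneg
  have hn : n0 R (pd b (Cm ε a g)) ≤
      ∫ x in Q R, L ^ 2 * V * ∫ z in Q 1, g (x - ε • z) ^ 2 := by
    refine setIntegral_mono_on (intQ ((smooth_pd hCm b).continuous.pow 2) R)
      (hint.integral_prod_left.const_mul _) (FR_meas R) ?_
    intro x hx
    have h1 := hpt x hx
    have h2 : Continuous fun z => g (x - ε • z) := by fun_prop
    have h3 := FR_cs h2
    have h4 : 0 ≤ ∫ z in Q 1, |g (x - ε • z)| := integral_nonneg fun _ => abs_nonneg _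
    calc pd b (Cm ε a g) x ^ 2 = |pd b (Cm ε a g) x| ^ 2 := (sq_abs _).symm
      _ ≤ (L * ∫ z in Q 1, |g (x - ε • z)|) ^ 2 := pow_le_pow_left₀ (abs_nonneg _) h1 2
      _ = L ^ 2 * (∫ z in Q 1, |g (x - ε • z)|) ^ 2 := by ring
      _ ≤ L ^ 2 * (V * ∫ z in Q 1, g (x - ε • z) ^ 2) :=
          mul_le_mul_of_nonneg_left h3 (sq_nonneg _)
      _ = L ^ 2 * V * ∫ z in Q 1, g (x - ε • z) ^ 2 := by ring
  rw [integral_const_mul] at hn
  have hf := FR_fub hgc R ε hε hε1
  rw [← hV] at hf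
  have hn0 := n0_nonneg (R + 1) g
  calc n0 R (pd b (Cm ε a g)) ≤ L ^ 2 * V * ∫ x in Q R, ∫ z in Q 1, g (x - ε • z) ^ 2 := hn
    _ ≤ L ^ 2 * V * (V * n0 (R + 1) g) := mul_le_mul_of_nonneg_left hf (by positivity)
    _ ≤ (L ^ 2 * V ^ 2 + 1) * n0 (R + 1) g := by nlinarith

end QR
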