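import Pool.Agent.LibQR40.IP
import Pool.Agent.LibQR40.CU

/-! ROW INTb. Put auxiliary lemmas in this file, names starting with `INTb_`.
(pointwise interpolation). PLAN: w = χ v (`exists_cut R one_pos`), support in Q (R+1), w = v on Q R. For z ∈ Q R:
v z ^ 2 = w z ^ 2 = ∫_{s ≤ z.1} ∫_{t ≤ z.2} dy (dx (w²)) (s,t) dt ds (fundamental theorem of calculus twice, compact support)
≤ ∫ |2 (w dy dx w + dx w dy w)| ≤ 2 sqrt(∫ w²) sqrt(∫ (dx dy w)²) + ∫ G1 w. And ∫ G1 w = - ∫ w (dx dx w + dy dy w) (`ip_mul` twice)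
≤ sqrt(∫ w²) sqrt(∫ (dx dx w + dy dy w)²). The second derivatives of χ v are bounded by C (|v| + |∇v| + |∇²v|) on Q (R+1) and vanish outside,
so all is ≤ C sqrt(n0 (R+1) v) sqrt((n0 + n1 + n2)(R+1, v)). -/

open MeasureTheory Set Filter Topology
open scoped ContDiff ENNReal NNReal

namespace QR

open BGS

/-- Cauchy–Schwarz on a square. -/
private theorem INTb_cs {u g : Pl → ℝ} (hu : Continuous u) (hg : Continuous g) (S : ℝ) :
    |∫ z in Q S, u z * g z| ≤ √(∫ z in Q S, u z ^ 2) * √(∫ z in Q S, g z ^ 2) := by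
  have i1 := intQ (hu.pow 2) S
  have i2 := intQ (hu.mul hg) S
  have i3 := intQ (hg.pow 2) S
  have hA : 0 ≤ ∫ z in Q S, u z ^ 2 := integral_nonneg fun _ => sq_nonneg _
  have hD : 0 ≤ ∫ z in Q S, g z ^ 2 := integral_nonneg fun _ => sq_nonneg _
  have key : ∀ t : ℝ, 0 ≤ (∫ z in Q S, u z ^ 2) * (t * t) + (2 * ∫ z in Q S, u z * g z) * t +
      ∫ z in Q S, g z ^ 2 := by
    intro t
    have h0 : 0 ≤ ∫ z in Q S, (t * u z + g z) ^ 2 := integral_nonneg fun _ => sq_nonneg _
    have e : ∫ z in Q S, (t * u z + g z) ^ 2 =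
        (∫ z in Q S, u z ^ 2) * (t * t) + (2 * ∫ z in Q S, u z * g z) * t +
        ∫ z in Q S, g z ^ 2 := by
      have e1 : ∀ z, (t * u z + g z) ^ 2 = ((t * t) * u z ^ 2 + (2 * t) * (u z * g z)) +
          g z ^ 2 := fun z => by ring
      rw [integral_congr_ae (ae_of_all _ e1)]
      have j1 : Integrable (fun z => (t * t) * u z ^ 2) (volume.restrict (Q S)) :=
        Integrable.const_mul i1 _
      have j2 : Integrable (fun z => (2 * t) * (u z * g z)) (volume.restrict (Q S)) :=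
        Integrable.const_mul i2 _
      have j3 : Integrable (fun z => g z ^ 2) (volume.restrict (Q S)) := i3
      have j4 : Integrable (fun z => (t * t) * u z ^ 2 + (2 * t) * (u z * g z))
        (volume.restrict (Q S)) := j1.add j2
      rw [integral_add j4 j3, integral_add j1 j2, integral_const_mul,
        integral_const_mul]
      ring
    rw [e] at h0
    exact h0
  have hd := discrim_le_zero key
  unfold discrim at hd
  rw [← Real.sqrt_mul hA]
  refine Real.abs_le_sqrt ?_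
  nlinarith

/-- One variable: a function with compact support. -/
private theorem INTb_one {g g' : ℝ → ℝ} (hg : ∀ x, HasDerivAt g (g' x) x) (hg' : Continuous g')
    (hc : HasCompactSupport g) (hc' : HasCompactSupport g') (b : ℝ) : |g b| ≤ ∫ s, |g' s| := by
  have hi : Integrable g' volume := hg'.integrable_of_hasCompactSupport hc'
  have e : deriv g = g' := funext fun x => (hg x).deriv
  have hcd : ContDiff ℝ 1 g := by
    rw [contDiff_one_iff_deriv]
    refine ⟨fun x => (hg x).differentiableAt, ?_⟩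
    rw [e]
    exact hg'
  have h1 := hc.integral_Iic_deriv_eq hcd b
  rw [e] at h1
  rw [← h1]
  calc |∫ x in Iic b, g' x| ≤ ∫ x in Iic b, |g' x| := abs_integral_le_integral_abs
    _ ≤ ∫ x, |g' x| := setIntegral_le_integral hi.abs (ae_of_all _ fun _ => abs_nonneg _)

/-- Two variables: a function with compact support. -/
private theorem INTb_two {f : Pl → ℝ} (h : IsT f) (z : Pl) :
    |f z| ≤ ∫ y, |pd false (pd true f) y| := by
  have hx := cpt_pd h true
  have hxy := cpt_pd hx false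
  -- the supports are in a square
  have hbig : ∀ {k : Pl → ℝ}, IsT k → ∃ S : ℝ, ∀ y : Pl, k y ≠ 0 → ‖y‖ ≤ S := by
    intro k hk
    obtain ⟨S, hS⟩ := hk.2.isCompact.isBounded.exists_norm_le
    exact ⟨S, fun y hy => hS y (subset_tsupport _ hy)⟩
  have slice1 : ∀ {k : Pl → ℝ}, IsT k → ∀ t : ℝ, HasCompactSupport fun s : ℝ => k (s, t) := by
    intro k hk t
    obtain ⟨S, hS⟩ := hbig hk
    refine HasCompactSupport.intro (isCompact_closedBall (0 : ℝ) S) fun s hs => ?_
    by_contra hne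
    have h1 := hS (s, t) hne
    have h2 : ‖s‖ ≤ ‖((s, t) : Pl)‖ := norm_fst_le (s, t)
    exact hs (mem_closedBall_zero_iff.2 (h2.trans h1))
  have slice2 : ∀ {k : Pl → ℝ}, IsT k → ∀ s : ℝ, HasCompactSupport fun t : ℝ => k (s, t) := by
    intro k hk s
    obtain ⟨S, hS⟩ := hbig hk
    refine HasCompactSupport.intro (isCompact_closedBall (0 : ℝ) S) fun t ht => ?_
    by_contra hne
    have h1 := hS (s, t) hne
    have h2 : ‖t‖ ≤ ‖((s, t) : Pl)‖ := norm_snd_le (s, t)
    exact ht (mem_closedBall_zero_iff.2 (h2.trans h1))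
  have d1 : ∀ {k : Pl → ℝ}, IsT k → ∀ s t : ℝ,
      HasDerivAt (fun s => k (s, t)) (pd true k (s, t)) s := by
    intro k hk s t
    have e1 : HasFDerivAt k (fderiv ℝ k (s, t)) (s, t) :=
      ((hk.1.differentiable (by simp)) (s, t)).hasFDerivAt
    have e2 : HasDerivAt (fun s : ℝ => ((s, t) : Pl)) ((1, 0) : Pl) s :=
      (hasDerivAt_id s).prodMk (hasDerivAt_const s t)
    exact e1.comp_hasDerivAt s e2
  have d2 : ∀ {k : Pl → ℝ}, IsT k → ∀ s t : ℝ,
      HasDerivAt (fun t => k (s, t)) (pd false k (s, t)) t := by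
    intro k hk s t
    have e1 : HasFDerivAt k (fderiv ℝ k (s, t)) (s, t) :=
      ((hk.1.differentiable (by simp)) (s, t)).hasFDerivAt
    have e2 : HasDerivAt (fun t : ℝ => ((s, t) : Pl)) ((0, 1) : Pl) t :=
      (hasDerivAt_const t s).prodMk (hasDerivAt_id t)
    exact e1.comp_hasDerivAt t e2
  have c1 : ∀ {k : Pl → ℝ}, IsT k → ∀ t : ℝ, Continuous fun s : ℝ => k (s, t) := by
    intro k hk t
    exact hk.1.continuous.comp (by fun_prop)
  have c2 : ∀ {k : Pl → ℝ}, IsT k → ∀ s : ℝ, Continuous fun t : ℝ => k (s, t) := by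
    intro k hk s
    exact hk.1.continuous.comp (by fun_prop)
  have s1 : |f z| ≤ ∫ s, |pd true f (s, z.2)| :=
    INTb_one (g := fun s => f (s, z.2)) (fun s => d1 h s z.2) (c1 hx z.2) (slice1 h z.2)
      (slice1 hx z.2) z.1
  have s2 : ∀ s : ℝ, |pd true f (s, z.2)| ≤ ∫ t, |pd false (pd true f) (s, t)| := fun s =>
    INTb_one (g := fun t => pd true f (s, t)) (fun t => d2 hx s t) (c2 hxy s) (slice2 hx s)
      (slice2 hxy s) z.2
  have hint : Integrable (fun y : ℝ × ℝ => |pd false (pd true f) y|)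
      ((volume : Measure ℝ).prod (volume : Measure ℝ)) :=
    (hxy.1.continuous.integrable_of_hasCompactSupport hxy.2).abs
  have hint1 : Integrable (fun s => |pd true f (s, z.2)|) volume :=
    ((c1 hx z.2).integrable_of_hasCompactSupport (slice1 hx z.2)).abs
  have hint2 : Integrable (fun s => ∫ t, |pd false (pd true f) (s, t)|) volume :=
    hint.integral_prod_left
  have e : ∫ y, |pd false (pd true f) y| = ∫ s, ∫ t, |pd false (pd true f) (s, t)| :=
    integral_prod (fun y : ℝ × ℝ => |pd false (pd true f) y|) hint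
  rw [e]
  exact s1.trans (integral_mono hint1 hint2 s2)

private theorem INTb_loc {f g : Pl → ℝ} {z : Pl} (h : f =ᶠ[𝓝 z] g) (b : Bool) :
    pd b f =ᶠ[𝓝 z] pd b g := by
  have h1 : fderiv ℝ f =ᶠ[𝓝 z] fderiv ℝ g := h.fderiv
  cases b
  · exact h1.fun_comp fun L => L (0, 1)
  · exact h1.fun_comp fun L => L (1, 0)

private theorem INTb_pd0 (b : Bool) : pd b (fun _ : Pl => (0 : ℝ)) = fun _ => 0 := by
  funext z
  cases b
  · show fderiv ℝ (fun _ : Pl => (0 : ℝ)) z (0, 1) = 0
    rw [fderiv_const_apply]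
    rfl
  · show fderiv ℝ (fun _ : Pl => (0 : ℝ)) z (1, 0) = 0
    rw [fderiv_const_apply]
    rfl

private theorem INTb_zero {f : Pl → ℝ} {z : Pl} (h : f =ᶠ[𝓝 z] fun _ => 0) (b : Bool) :
    pd b f =ᶠ[𝓝 z] fun _ => 0 := by
  have h1 := INTb_loc h b
  rwa [INTb_pd0] at h1

private theorem INTb_pdG1 (v : Pl → ℝ) (b : Bool) (z : Pl) : pd b v z ^ 2 ≤ G1 v z := by
  cases b
  · show dy v z ^ 2 ≤ dx v z ^ 2 + dy v z ^ 2
    nlinarith [sq_nonneg (dx v z)]
  · show dx v z ^ 2 ≤ dx v z ^ 2 + dy v z ^ 2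
    nlinarith [sq_nonneg (dy v z)]

private theorem INTb_pdG2 {v : Pl → ℝ} (hv : ContDiff ℝ ∞ v) (b c : Bool) (z : Pl) :
    pd b (pd c v) z ^ 2 ≤ G2 v z := by
  have h1 : 0 ≤ dx (dx v) z ^ 2 := sq_nonneg _
  have h2 : 0 ≤ dx (dy v) z ^ 2 := sq_nonneg _
  have h3 : 0 ≤ dy (dy v) z ^ 2 := sq_nonneg _
  cases b <;> cases c
  · show dy (dy v) z ^ 2 ≤ dx (dx v) z ^ 2 + dx (dy v) z ^ 2 + dy (dy v) z ^ 2
    linarith
  · show dy (dx v) z ^ 2 ≤ dx (dx v) z ^ 2 + dx (dy v) z ^ 2 + dy (dy v) z ^ 2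
    rw [Egr_symm hv z]
    linarith
  · show dx (dy v) z ^ 2 ≤ dx (dx v) z ^ 2 + dx (dy v) z ^ 2 + dy (dy v) z ^ 2
    linarith
  · show dx (dx v) z ^ 2 ≤ dx (dx v) z ^ 2 + dx (dy v) z ^ 2 + dy (dy v) z ^ 2
    linarith

theorem interp2 (R : ℝ) : ∃ C : ℝ, 0 < C ∧ ∀ v : Pl → ℝ, ContDiff ℝ ∞ v → ∀ z ∈ Q R,
    v z ^ 2 ≤ C * (√(n0 (R + 1) v) * √(n0 (R + 1) v + n1 (R + 1) v + n2 (R + 1) v)) := by
  obtain ⟨χ, hχ, hχ0, hχ1, ⟨U, hUo, hUQ, hU1⟩, hts⟩ := exists_cut R one_pos
  -- a common bound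
  have hKex : ∃ K : ℝ, 1 ≤ K ∧ (∀ b, ∀ z ∈ Q (R + 1), |pd b χ z| ≤ K) ∧
      ∀ b c, ∀ z ∈ Q (R + 1), |pd b (pd c χ) z| ≤ K := by
    obtain ⟨K1, hK1, hb1⟩ := bdd_Q (smooth_pd hχ.1 true).continuous (R + 1)
    obtain ⟨K2, hK2, hb2⟩ := bdd_Q (smooth_pd hχ.1 false).continuous (R + 1)
    obtain ⟨K3, hK3, hb3⟩ := bdd_Q (smooth_pd (smooth_pd hχ.1 true) true).continuous (R + 1)
    obtain ⟨K4, hK4, hb4⟩ := bdd_Q (smooth_pd (smooth_pd hχ.1 false) true).continuous (R + 1)
    obtain ⟨K5, hK5, hb5⟩ := bdd_Q (smooth_pd (smooth_pd hχ.1 true) false).continuous (R + 1)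
    obtain ⟨K6, hK6, hb6⟩ := bdd_Q (smooth_pd (smooth_pd hχ.1 false) false).continuous (R + 1)
    refine ⟨1 + K1 + K2 + K3 + K4 + K5 + K6, by linarith, ?_, ?_⟩
    · intro b z hz
      cases b
      · exact (hb2 z hz).trans (by linarith)
      · exact (hb1 z hz).trans (by linarith)
    · intro b c z hz
      cases b <;> cases c
      · exact (hb6 z hz).trans (by linarith)
      · exact (hb5 z hz).trans (by linarith)
      · exact (hb4 z hz).trans (by linarith)
      · exact (hb3 z hz).trans (by linarith)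
  obtain ⟨K, hKone, hKb, hKbc⟩ := hKex
  have hK0 : 0 < K := by linarith
  have sqK : ∀ {x : ℝ}, |x| ≤ K → x ^ 2 ≤ K ^ 2 := by
    intro x h1
    rw [← sq_abs]
    exact pow_le_pow_left₀ (abs_nonneg _) h1 2
  refine ⟨16 * K, by positivity, fun v hv z₀ hz₀ => ?_⟩
  obtain ⟨w, hw⟩ : ∃ w : Pl → ℝ, w = fun z => χ z * v z := ⟨_, rfl⟩
  have hws : ContDiff ℝ ∞ w := by
    rw [hw]
    exact hχ.1.mul hv
  have hwt : tsupport w ⊆ Q (R + 1) := by
    refine subset_trans ?_ hts
    rw [hw]
    exact tsupport_mul_subset_left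
  have hwc : HasCompactSupport w := by
    rw [hw]
    exact hχ.2.mul_right
  have hwT : IsT w := ⟨hws, hwc⟩
  have tw := fun b => cpt_pd hwT b
  have tw2 := fun b c => cpt_pd (cpt_pd hwT c) b
  have hout : ∀ z, z ∉ Q (R + 1) → w =ᶠ[𝓝 z] fun _ => 0 := by
    intro z hz
    exact notMem_tsupport_iff_eventuallyEq.mp fun h => hz (hwt h)
  -- the total
  obtain ⟨N, hN⟩ : ∃ N : ℝ, N = n0 (R + 1) v + n1 (R + 1) v + n2 (R + 1) v := ⟨_, rfl⟩
  have i0 : Integrable (fun z => v z ^ 2) (volume.restrict (Q (R + 1))) :=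
    intQ (hv.continuous.pow 2) (R + 1)
  have i1 : Integrable (fun z => G1 v z) (volume.restrict (Q (R + 1))) :=
    intQ (smooth_G1 hv).continuous (R + 1)
  have i2 : Integrable (fun z => G2 v z) (volume.restrict (Q (R + 1))) :=
    intQ (smooth_G2 hv).continuous (R + 1)
  have i01 : Integrable (fun z => v z ^ 2 + G1 v z) (volume.restrict (Q (R + 1))) := i0.add i1
  have i012 : Integrable (fun z => v z ^ 2 + G1 v z + G2 v z)
    (volume.restrict (Q (R + 1))) := i01.add i2
  have hsum : ∀ c : ℝ, ∫ z in Q (R + 1), c * (v z ^ 2 + G1 v z + G2 v z) = c * N := by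
    intro c
    rw [integral_const_mul, integral_add i01 i2, integral_add i0 i1, hN]
    rfl
  -- the second derivatives
  have key : ∀ b c, ∀ z ∈ Q (R + 1), pd b (pd c w) z ^ 2 ≤
      8 * K ^ 2 * (v z ^ 2 + G1 v z + G2 v z) := by
    intro b c z hz
    have e1 : pd c w = fun y => pd c χ y * v y + χ y * pd c v y := by
      funext y
      rw [hw]
      exact pd_mul hχ.1 hv c y
    have e2 : pd b (pd c w) z = (pd b (pd c χ) z * v z + pd c χ z * pd b v z) +
        (pd b χ z * pd c v z + χ z * pd b (pd c v) z) := by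
      rw [e1, pd_add ((smooth_pd hχ.1 c).mul hv) (hχ.1.mul (smooth_pd hv c)),
        pd_mul (smooth_pd hχ.1 c) hv, pd_mul hχ.1 (smooth_pd hv c)]
    rw [e2]
    have four : ∀ p q r s : ℝ, ((p + q) + (r + s)) ^ 2 ≤
        4 * (p ^ 2 + q ^ 2 + r ^ 2 + s ^ 2) := by
      intro p q r s
      nlinarith [sq_nonneg (p - q), sq_nonneg (p - r), sq_nonneg (p - s), sq_nonneg (q - r),
        sq_nonneg (q - s), sq_nonneg (r - s)]
    refine (four _ _ _ _).trans ?_
    have a1 := sqK (hKbc b c z hz)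
    have a2 := sqK (hKb c z hz)
    have a3 := sqK (hKb b z hz)
    have a4 : χ z ^ 2 ≤ K ^ 2 := by
      have : χ z ^ 2 ≤ 1 := pow_le_one₀ (hχ0 z) (hχ1 z)
      nlinarith
    have b1 : (pd b (pd c χ) z * v z) ^ 2 ≤ K ^ 2 * v z ^ 2 := by
      rw [mul_pow]
      exact mul_le_mul_of_nonneg_right a1 (sq_nonneg _)
    have b2 : (pd c χ z * pd b v z) ^ 2 ≤ K ^ 2 * G1 v z := by
      rw [mul_pow]
      exact mul_le_mul a2 (INTb_pdG1 v b z) (sq_nonneg _) (sq_nonneg _)
    have b3 : (pd b χ z * pd c v z) ^ 2 ≤ K ^ 2 * G1 v z := by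
      rw [mul_pow]
      exact mul_le_mul a3 (INTb_pdG1 v c z) (sq_nonneg _) (sq_nonneg _)
    have b4 : (χ z * pd b (pd c v) z) ^ 2 ≤ K ^ 2 * G2 v z := by
      rw [mul_pow]
      exact mul_le_mul a4 (INTb_pdG2 hv b c z) (sq_nonneg _) (sq_nonneg _)
    have g2 : 0 ≤ K ^ 2 * G2 v z := by
      have : 0 ≤ G2 v z :=
        add_nonneg (add_nonneg (sq_nonneg _) (sq_nonneg _)) (sq_nonneg _)
      positivity
    have g0 : 0 ≤ K ^ 2 * v z ^ 2 := by positivity
    linarith
  have keyI : ∀ b c, ∫ z in Q (R + 1), pd b (pd c w) z ^ 2 ≤ 8 * K ^ 2 * N := by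
    intro b c
    rw [← hsum]
    exact setIntegral_mono_on (intQ ((tw2 b c).1.continuous.pow 2) (R + 1))
      (i012.const_mul _) measurableSet_closedBall (key b c)
  have hN0 : 0 ≤ N := by
    rw [hN]
    exact add_nonneg (add_nonneg (n0_nonneg _ _) (n1_nonneg _ _)) (n2_nonneg _ _)
  have hw0 : ∫ z in Q (R + 1), w z ^ 2 ≤ n0 (R + 1) v := by
    refine setIntegral_mono_on (intQ (hws.continuous.pow 2) (R + 1))
      (intQ (hv.continuous.pow 2) (R + 1)) measurableSet_closedBall fun z _ => ?_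
    rw [hw]
    show (χ z * v z) ^ 2 ≤ v z ^ 2
    rw [mul_pow]
    have : χ z ^ 2 ≤ 1 := pow_le_one₀ (hχ0 z) (hχ1 z)
    nlinarith [sq_nonneg (v z)]
  -- the integral of the product of `w` and a second derivative
  have prod : ∀ b c, |∫ z in Q (R + 1), w z * pd b (pd c w) z| ≤
      √(n0 (R + 1) v) * (3 * K * √N) := by
    intro b c
    refine (INTb_cs hws.continuous (tw2 b c).1.continuous (R + 1)).trans ?_
    refine mul_le_mul (Real.sqrt_le_sqrt hw0) ?_ (Real.sqrt_nonneg _) (Real.sqrt_nonneg _)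
    refine (Real.sqrt_le_sqrt (keyI b c)).trans ?_
    refine Real.sqrt_le_iff.mpr ⟨by positivity, ?_⟩
    rw [mul_pow, mul_pow, Real.sq_sqrt hN0]
    have : 0 ≤ K ^ 2 * N := by positivity
    linarith
  -- the absolute value
  have prodabs : ∫ z in Q (R + 1), |w z * pd false (pd true w) z| ≤
      √(n0 (R + 1) v) * (3 * K * √N) := by
    have e : ∀ z, |w z * pd false (pd true w) z| = |w z| * |pd false (pd true w) z| :=
      fun z => abs_mul _ _
    rw [integral_congr_ae (ae_of_all _ e)]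
    refine (le_abs_self _).trans ?_
    refine (INTb_cs hws.continuous.abs (tw2 false true).1.continuous.abs (R + 1)).trans ?_
    simp only [sq_abs]
    refine mul_le_mul (Real.sqrt_le_sqrt hw0) ?_ (Real.sqrt_nonneg _) (Real.sqrt_nonneg _)
    refine (Real.sqrt_le_sqrt (keyI false true)).trans ?_
    refine Real.sqrt_le_iff.mpr ⟨by positivity, ?_⟩
    rw [mul_pow, mul_pow, Real.sq_sqrt hN0]
    have : 0 ≤ K ^ 2 * N := by positivity
    linarith
  -- the gradient
  have hG1 : ∫ z in Q (R + 1), G1 w z ≤ 2 * (√(n0 (R + 1) v) * (3 * K * √N)) := by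
    have ip : ∀ b, ∫ z, pd b w z * pd b w z = - ∫ z, w z * pd b (pd b w) z := fun b =>
      ip_mul hws (tw b) b
    have eQ : ∀ b, ∫ z, w z * pd b (pd b w) z = ∫ z in Q (R + 1), w z * pd b (pd b w) z := by
      intro b
      refine (setIntegral_eq_integral_of_forall_compl_eq_zero fun z hz => ?_).symm
      rw [(hout z hz).self_of_nhds, zero_mul]
    have j : ∀ b, Integrable (fun z => pd b w z * pd b w z) volume := fun b =>
      ((tw b).1.continuous.mul (tw b).1.continuous).integrable_of_hasCompactSupport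
        (tw b).2.mul_left
    have e1 : ∫ z, G1 w z = (∫ z, pd true w z * pd true w z) +
        ∫ z, pd false w z * pd false w z := by
      rw [← integral_add (j true) (j false)]
      refine integral_congr_ae (ae_of_all _ fun z => ?_)
      show dx w z ^ 2 + dy w z ^ 2 = dx w z * dx w z + dy w z * dy w z
      ring
    have e2 : ∫ z in Q (R + 1), G1 w z ≤ ∫ z, G1 w z := by
      refine setIntegral_le_integral ?_ (ae_of_all _ fun z =>
        add_nonneg (sq_nonneg _) (sq_nonneg _))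
      refine ((j true).add (j false)).congr (ae_of_all _ fun z => ?_)
      show dx w z * dx w z + dy w z * dy w z = dx w z ^ 2 + dy w z ^ 2
      ring
    rw [e1, ip, ip, eQ, eQ] at e2
    have p1 := (abs_le.mp (prod true true)).1
    have p2 := (abs_le.mp (prod false false)).1
    linarith
  -- the square of `w`
  have hT : IsT fun z => w z * w z := cpt_mul hwT hws
  have s1 := INTb_two hT z₀
  have e1 : pd true (fun z => w z * w z) = fun z => 2 * (w z * pd true w z) := by
    funext z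
    rw [pd_mul hws hws]
    ring
  have e2 : ∀ z, pd false (pd true (fun z => w z * w z)) z =
      2 * (pd false w z * pd true w z + w z * pd false (pd true w) z) := by
    intro z
    have e3 : pd true (fun z => w z * w z) = fun z => (w z * pd true w z) + (w z * pd true w z) := by
      rw [e1]
      funext y
      ring
    have hs : ContDiff ℝ ∞ fun z => w z * pd true w z := hws.mul (tw true).1
    rw [e3, pd_add hs hs, pd_mul hws (tw true).1]
    ring
  have hTT := cpt_pd (cpt_pd hT true) false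
  have s2 : ∫ y, |pd false (pd true (fun z => w z * w z)) y| =
      ∫ y in Q (R + 1), |pd false (pd true (fun z => w z * w z)) y| := by
    refine (setIntegral_eq_integral_of_forall_compl_eq_zero fun z hz => ?_).symm
    rw [e2, (hout z hz).self_of_nhds, (INTb_zero (hout z hz) false).self_of_nhds]
    simp
  have s3 : ∫ y in Q (R + 1), |pd false (pd true (fun z => w z * w z)) y| ≤
      ∫ y in Q (R + 1), (G1 w y + 2 * |w y * pd false (pd true w) y|) := by
    have k1 : IntegrableOn (fun y => G1 w y + 2 * |w y * pd false (pd true w) y|) (Q (R + 1)) :=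
      intQ ((smooth_G1 hws).continuous.add
        (continuous_const.mul (hws.continuous.mul (tw2 false true).1.continuous).abs)) (R + 1)
    refine setIntegral_mono_on (intQ hTT.1.continuous.abs (R + 1)) k1
      measurableSet_closedBall fun z _ => ?_
    rw [e2, abs_mul, abs_of_pos (by norm_num : (0 : ℝ) < 2)]
    have t1 := abs_add_le (pd false w z * pd true w z) (w z * pd false (pd true w) z)
    have t2 : 2 * |pd false w z * pd true w z| ≤ G1 w z := by
      show 2 * |pd false w z * pd true w z| ≤ pd true w z ^ 2 + pd false w z ^ 2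
      rw [abs_mul, ← sq_abs (pd true w z), ← sq_abs (pd false w z)]
      nlinarith [sq_nonneg (|pd false w z| - |pd true w z|)]
    linarith
  have s4 : ∫ y in Q (R + 1), (G1 w y + 2 * |w y * pd false (pd true w) y|) =
      (∫ y in Q (R + 1), G1 w y) + 2 * ∫ y in Q (R + 1), |w y * pd false (pd true w) y| := by
    have k1 : Integrable (fun y => G1 w y) (volume.restrict (Q (R + 1))) :=
      intQ (smooth_G1 hws).continuous (R + 1)
    have k2 : Integrable (fun y => 2 * |w y * pd false (pd true w) y|)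
        (volume.restrict (Q (R + 1))) :=
      intQ (continuous_const.mul (hws.continuous.mul (tw2 false true).1.continuous).abs) (R + 1)
    rw [integral_add k1 k2, integral_const_mul]
  have hwz : w z₀ = v z₀ := by
    rw [hw]
    show χ z₀ * v z₀ = v z₀
    rw [hU1 z₀ (hUQ hz₀), one_mul]
  have s5 : |w z₀ * w z₀| = v z₀ ^ 2 := by
    rw [hwz, abs_mul_self]
    ring
  have s6 : 0 ≤ K * (√(n0 (R + 1) v) * √N) := by positivity
  rw [← hN]
  calc v z₀ ^ 2 = |w z₀ * w z₀| := s5.symm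
    _ ≤ ∫ y, |pd false (pd true (fun z => w z * w z)) y| := s1
    _ ≤ 2 * (√(n0 (R + 1) v) * (3 * K * √N)) + 2 * (√(n0 (R + 1) v) * (3 * K * √N)) := by
        rw [s2]
        refine s3.trans ?_
        rw [s4]
        linarith
    _ ≤ 16 * K * (√(n0 (R + 1) v) * √N) := by
        have : 2 * (√(n0 (R + 1) v) * (3 * K * √N)) + 2 * (√(n0 (R + 1) v) * (3 * K * √N)) =
          12 * (K * (√(n0 (R + 1) v) * √N)) := by ring
        rw [this]
        linarith

end QR
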