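import Pool.Agent.LibQR40.IP
import Pool.Agent.LibQR40.CU

/-! ROW INTa. Put auxiliary lemmas in this file, names starting with `INTa_`.
(interpolation). PLAN: w = χ v (`exists_cut R one_pos`), support in Q (R+1), w = v on an open set containing Q R.
∫ G1 w = - ∫ w (dx dx w + dy dy w) (`ip_mul` twice) ≤ sqrt(∫ w²) sqrt(∫ (dx dx w + dy dy w)²) (Cauchy–Schwarz); the second
derivatives of χ v are bounded by C (|v| + |∇v| + |∇²v|) on Q (R+1) and vanish outside, so ∫ (..)² ≤ C (n0 + n1 + n2)(R+1, v), and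
n1 R v ≤ ∫ G1 w, ∫ w² ≤ n0 (R+1) v. -/

open MeasureTheory Set Filter Topology
open scoped ContDiff ENNReal NNReal

namespace QR

open BGS

/-- Cauchy–Schwarz on a square. -/
private theorem INTa_cs {u g : Pl → ℝ} (hu : Continuous u) (hg : Continuous g) (S : ℝ) :
    |∫ z in Q S, u z * g z| ≤ √(∫ z in Q S, u z ^ 2) * √(∫ z in Q S, g z ^ 2) := by
  have i1 := intQ (hu.pow 2) S
  have i2 := intQ (hu.mul hg) S
  have i3 := intQ (hg.pow 2) S
  have hA : 0 ≤ ∫ z in Q S, u z ^ 2 := integral_nonneg fun _ => sq_nonneg _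
  have hD : 0 ≤ ∫ z in Q S, g z ^ 2 := integral_nonneg fun _ => sq_nonneg _
  have key : ∀ t : ℝ, 0 ≤ (∫ z in Q S, u z ^ 2) * (t * t) + (2 * ∫ z in Q S, u z * g z) * t +
      ∫ z in Q S, g z ^ 2 := by
    intro t
    have h0 : 0 ≤ ∫ z in Q S, (t * u z + g z) ^ 2 := integral_nonneg fun _ => sq_nonneg _
    have e : ∫ z in Q S, (t * u z + g z) ^ 2 =
        (∫ z in Q S, u z ^ 2) * (t * t) + (2 * ∫ z in Q S, u z * g z) * t +
        ∫ z in Q S, g z ^ 2 := by
      have e1 : ∀ z, (t * u z + g z) ^ 2 = ((t * t) * u z ^ 2 + (2 * t) * (u z * g z)) +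
          g z ^ 2 := fun z => by ring
      rw [integral_congr_ae (ae_of_all _ e1)]
      have j1 : Integrable (fun z => (t * t) * u z ^ 2) (volume.restrict (Q S)) :=
        Integrable.const_mul i1 _
      have j2 : Integrable (fun z => (2 * t) * (u z * g z)) (volume.restrict (Q S)) :=
        Integrable.const_mul i2 _
      have j3 : Integrable (fun z => g z ^ 2) (volume.restrict (Q S)) := i3
      have j4 : Integrable (fun z => (t * t) * u z ^ 2 + (2 * t) * (u z * g z))
        (volume.restrict (Q S)) := j1.add j2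
      rw [integral_add j4 j3, integral_add j1 j2, integral_const_mul,
        integral_const_mul]
      ring
    rw [e] at h0
    exact h0
  have hd := discrim_le_zero key
  unfold discrim at hd
  rw [← Real.sqrt_mul hA]
  refine Real.abs_le_sqrt ?_
  nlinarith

theorem interp1 (R : ℝ) : ∃ C : ℝ, 0 < C ∧ ∀ v : Pl → ℝ, ContDiff ℝ ∞ v →
    n1 R v ≤ C * (√(n0 (R + 1) v) * √(n0 (R + 1) v + n1 (R + 1) v + n2 (R + 1) v)) := by
  obtain ⟨χ, hχ, hχ0, hχ1, ⟨U, -, hUQ, hU1⟩, hts⟩ := exists_cut R one_pos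
  obtain ⟨C1, hC1, hb1⟩ := bdd_Q (cpt_pd hχ true).1.continuous (R + 1)
  obtain ⟨C2, hC2, hb2⟩ := bdd_Q (cpt_pd hχ false).1.continuous (R + 1)
  refine ⟨2 * (2 + C1 + C2), by positivity, fun v hv => ?_⟩
  have sx := smooth_pd hv true
  have sy := smooth_pd hv false
  have sxx := smooth_pd sx true
  have syy := smooth_pd sy false
  have tx := cpt_mul hχ sx
  have ty := cpt_mul hχ sy
  -- first step
  have hG : Continuous fun z => G1 v z := (smooth_G1 hv).continuous
  have hG0 : ∀ z, 0 ≤ G1 v z := fun z => add_nonneg (sq_nonneg _) (sq_nonneg _)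
  have iG : Integrable (fun z => G1 v z * χ z) volume :=
    (hG.mul hχ.1.continuous).integrable_of_hasCompactSupport hχ.2.mul_left
  have s1 : n1 R v ≤ ∫ z, G1 v z * χ z := by
    have e : n1 R v = ∫ z in Q R, G1 v z * χ z := by
      unfold n1
      refine setIntegral_congr_fun measurableSet_closedBall fun z hz => ?_
      show G1 v z = G1 v z * χ z
      rw [hU1 z (hUQ hz), mul_one]
    rw [e]
    exact setIntegral_le_integral iG (ae_of_all _ fun z => mul_nonneg (hG0 z) (hχ0 z))
  -- integration by parts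
  have ix : Integrable (fun z => pd true v z * (pd true v z * χ z)) volume :=
    (sx.continuous.mul tx.1.continuous).integrable_of_hasCompactSupport tx.2.mul_left
  have iy : Integrable (fun z => pd false v z * (pd false v z * χ z)) volume :=
    (sy.continuous.mul ty.1.continuous).integrable_of_hasCompactSupport ty.2.mul_left
  have dtx := cpt_pd tx true
  have dty := cpt_pd ty false
  have jx : Integrable (fun z => v z * pd true (fun z => pd true v z * χ z) z) volume :=
    (hv.continuous.mul dtx.1.continuous).integrable_of_hasCompactSupport dtx.2.mul_left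
  have jy : Integrable (fun z => v z * pd false (fun z => pd false v z * χ z) z) volume :=
    (hv.continuous.mul dty.1.continuous).integrable_of_hasCompactSupport dty.2.mul_left
  obtain ⟨g, hg⟩ : ∃ g : Pl → ℝ, g = fun z => pd true (fun z => pd true v z * χ z) z +
      pd false (fun z => pd false v z * χ z) z := ⟨_, rfl⟩
  have hgc : Continuous g := by
    rw [hg]
    exact dtx.1.continuous.add dty.1.continuous
  have hgv : ∀ z, g z = (pd true (pd true v) z * χ z + pd true v z * pd true χ z) +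
      (pd false (pd false v) z * χ z + pd false v z * pd false χ z) := by
    intro z
    rw [hg]
    show pd true (fun z => pd true v z * χ z) z + pd false (fun z => pd false v z * χ z) z = _
    rw [pd_mul sx hχ.1, pd_mul sy hχ.1]
  have s2 : ∫ z, G1 v z * χ z = - ∫ z, v z * g z := by
    have e1 : ∫ z, G1 v z * χ z = (∫ z, pd true v z * (pd true v z * χ z)) +
        ∫ z, pd false v z * (pd false v z * χ z) := by
      rw [← integral_add ix iy]
      refine integral_congr_ae (ae_of_all _ fun z => ?_)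
      show (dx v z ^ 2 + dy v z ^ 2) * χ z = dx v z * (dx v z * χ z) + dy v z * (dy v z * χ z)
      ring
    have e2 : ∫ z, v z * g z = (∫ z, v z * pd true (fun z => pd true v z * χ z) z) +
        ∫ z, v z * pd false (fun z => pd false v z * χ z) z := by
      rw [← integral_add jx jy]
      refine integral_congr_ae (ae_of_all _ fun z => ?_)
      rw [hg]
      exact mul_add _ _ _
    rw [e1, e2, ip_mul hv tx true, ip_mul hv ty false]
    ring
  -- outside the square
  have hout : ∀ z, z ∉ Q (R + 1) → g z = 0 := by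
    intro z hz
    have h1 : z ∉ tsupport χ := fun h => hz (hts h)
    have h2 : χ z = 0 := image_eq_zero_of_notMem_tsupport h1
    have h3 : ∀ b, pd b χ z = 0 := by
      intro b
      have h4 : fderiv ℝ χ z = 0 := by
        have h5 : z ∉ tsupport (fderiv ℝ χ) := fun h => h1 (tsupport_fderiv_subset ℝ h)
        exact image_eq_zero_of_notMem_tsupport h5
      cases b
      · show fderiv ℝ χ z (0, 1) = 0
        rw [h4]
        rfl
      · show fderiv ℝ χ z (1, 0) = 0
        rw [h4]
        rfl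
    rw [hgv, h2, h3, h3]
    ring
  have s3 : ∫ z, v z * g z = ∫ z in Q (R + 1), v z * g z := by
    refine (setIntegral_eq_integral_of_forall_compl_eq_zero fun z hz => ?_).symm
    rw [hout z hz, mul_zero]
  have s4 := INTa_cs hv.continuous hgc (R + 1)
  -- the size of g
  have s5 : ∫ z in Q (R + 1), g z ^ 2 ≤ (2 * (2 + C1 + C2)) ^ 2 *
      (n0 (R + 1) v + n1 (R + 1) v + n2 (R + 1) v) := by
    have i1 := intQ (smooth_G1 hv).continuous (R + 1)
    have i2 := intQ (smooth_G2 hv).continuous (R + 1)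
    have h1 : ∫ z in Q (R + 1), g z ^ 2 ≤
        ∫ z in Q (R + 1), (2 * (2 + C1 + C2)) ^ 2 * (G1 v z + G2 v z) := by
      refine setIntegral_mono_on (intQ (hgc.pow 2) (R + 1)) ((i1.add i2).const_mul _)
        measurableSet_closedBall fun z hz => ?_
      rw [hgv]
      have c1 := hb1 z hz
      have c2 := hb2 z hz
      have c3 : |χ z| ≤ 1 := by
        rw [abs_of_nonneg (hχ0 z)]
        exact hχ1 z
      have k1 : (pd true (pd true v) z * χ z) ^ 2 ≤ G2 v z := by
        rw [mul_pow, ← sq_abs (χ z)]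
        have : |χ z| ^ 2 ≤ 1 := pow_le_one₀ (abs_nonneg _) c3
        have h2 : pd true (pd true v) z ^ 2 * |χ z| ^ 2 ≤ pd true (pd true v) z ^ 2 * 1 :=
          mul_le_mul_of_nonneg_left this (sq_nonneg _)
        have h3 : pd true (pd true v) z ^ 2 ≤ G2 v z := by
          show dx (dx v) z ^ 2 ≤ dx (dx v) z ^ 2 + dx (dy v) z ^ 2 + dy (dy v) z ^ 2
          nlinarith [sq_nonneg (dx (dy v) z), sq_nonneg (dy (dy v) z)]
        linarith
      have k2 : (pd false (pd false v) z * χ z) ^ 2 ≤ G2 v z := by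
        rw [mul_pow, ← sq_abs (χ z)]
        have : |χ z| ^ 2 ≤ 1 := pow_le_one₀ (abs_nonneg _) c3
        have h2 : pd false (pd false v) z ^ 2 * |χ z| ^ 2 ≤ pd false (pd false v) z ^ 2 * 1 :=
          mul_le_mul_of_nonneg_left this (sq_nonneg _)
        have h3 : pd false (pd false v) z ^ 2 ≤ G2 v z := by
          show dy (dy v) z ^ 2 ≤ dx (dx v) z ^ 2 + dx (dy v) z ^ 2 + dy (dy v) z ^ 2
          nlinarith [sq_nonneg (dx (dy v) z), sq_nonneg (dx (dx v) z)]
        linarith
      have k3 : (pd true v z * pd true χ z) ^ 2 ≤ C1 ^ 2 * G1 v z := by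
        rw [mul_pow, ← sq_abs (pd true χ z)]
        have h2 : |pd true χ z| ^ 2 ≤ C1 ^ 2 := pow_le_pow_left₀ (abs_nonneg _) c1 2
        have h3 : pd true v z ^ 2 ≤ G1 v z := by
          show dx v z ^ 2 ≤ dx v z ^ 2 + dy v z ^ 2
          nlinarith [sq_nonneg (dy v z)]
        calc pd true v z ^ 2 * |pd true χ z| ^ 2 ≤ G1 v z * C1 ^ 2 :=
              mul_le_mul h3 h2 (sq_nonneg _) (hG0 z)
          _ = _ := mul_comm _ _
      have k4 : (pd false v z * pd false χ z) ^ 2 ≤ C2 ^ 2 * G1 v z := by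
        rw [mul_pow, ← sq_abs (pd false χ z)]
        have h2 : |pd false χ z| ^ 2 ≤ C2 ^ 2 := pow_le_pow_left₀ (abs_nonneg _) c2 2
        have h3 : pd false v z ^ 2 ≤ G1 v z := by
          show dy v z ^ 2 ≤ dx v z ^ 2 + dy v z ^ 2
          nlinarith [sq_nonneg (dx v z)]
        calc pd false v z ^ 2 * |pd false χ z| ^ 2 ≤ G1 v z * C2 ^ 2 :=
              mul_le_mul h3 h2 (sq_nonneg _) (hG0 z)
          _ = _ := mul_comm _ _
      have four : ∀ p q r s : ℝ, ((p + q) + (r + s)) ^ 2 ≤
          4 * (p ^ 2 + q ^ 2 + r ^ 2 + s ^ 2) := by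
        intro p q r s
        nlinarith [sq_nonneg (p - q), sq_nonneg (p - r), sq_nonneg (p - s), sq_nonneg (q - r),
          sq_nonneg (q - s), sq_nonneg (r - s)]
      refine (four _ _ _ _).trans ?_
      have hG2 : 0 ≤ G2 v z :=
        add_nonneg (add_nonneg (sq_nonneg _) (sq_nonneg _)) (sq_nonneg _)
      have m1 : C1 ^ 2 + C2 ^ 2 ≤ (2 + C1 + C2) ^ 2 := by nlinarith [mul_pos hC1 hC2]
      have m2 : 2 ≤ (2 + C1 + C2) ^ 2 := by nlinarith [mul_pos hC1 hC2]
      have m3 := mul_le_mul_of_nonneg_right m1 (hG0 z)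
      have m4 := mul_le_mul_of_nonneg_right m2 hG2
      have m5 : (2 * (2 + C1 + C2)) ^ 2 * (G1 v z + G2 v z) =
          4 * ((2 + C1 + C2) ^ 2 * G1 v z) + 4 * ((2 + C1 + C2) ^ 2 * G2 v z) := by ring
      rw [m5]
      linarith
    refine h1.trans ?_
    rw [integral_const_mul, integral_add i1 i2]
    refine mul_le_mul_of_nonneg_left ?_ (sq_nonneg _)
    have := n0_nonneg (R + 1) v
    show n1 (R + 1) v + n2 (R + 1) v ≤ _
    linarith
  -- the end
  have s6 : √(∫ z in Q (R + 1), g z ^ 2) ≤ 2 * (2 + C1 + C2) *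
      √(n0 (R + 1) v + n1 (R + 1) v + n2 (R + 1) v) := by
    refine (Real.sqrt_le_sqrt s5).trans (le_of_eq ?_)
    rw [Real.sqrt_mul (sq_nonneg _), Real.sqrt_sq (by positivity)]
  calc n1 R v ≤ ∫ z, G1 v z * χ z := s1
    _ = - ∫ z in Q (R + 1), v z * g z := by rw [s2, s3]
    _ ≤ |∫ z in Q (R + 1), v z * g z| := neg_le_abs _
    _ ≤ √(n0 (R + 1) v) * √(∫ z in Q (R + 1), g z ^ 2) := s4
    _ ≤ √(n0 (R + 1) v) * (2 * (2 + C1 + C2) *
        √(n0 (R + 1) v + n1 (R + 1) v + n2 (R + 1) v)) :=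
      mul_le_mul_of_nonneg_left s6 (Real.sqrt_nonneg _)
    _ = _ := by ring

end QR
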