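import Pool.Agent.LibQR40.M3

/-! ROW IT1b. Put auxiliary lemmas in this file, names starting with `IT1b_`.
(mollifying the mollified limits). PLAN: `J_Ue`: Dw l (J ε (Ue k)) - Dw l (J ε (u n)) = Dw l (J ε (Ue k - u n)) on Q R is at most
sqrt(C n0 (R+1) (Ue k - u n)) (`J_kernel`; linearity `J_sub`, `Dw_sub`), which is ≤ C'/(k+1) for n ≥ N(k) (`Ue_close`), and
Dw l (J ε (u n)) → Dw l V uniformly on Q R. `Ue_cauchy`: n0 R (Ue j - Ue k) ≤ 2 n0 R (Ue j - u n) + 2 n0 R (Ue k - u n), n large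
(`Ue_close`, `n0_add_le`). -/

open MeasureTheory Set Filter Topology
open scoped ContDiff ENNReal NNReal

namespace QR

open BGS

theorem IT1b_small {C δ : ℝ} (hC : 0 < C) (hδ : 0 < δ) :
    ∃ N : ℕ, ∀ k : ℕ, N ≤ k → C * (1 / ((k : ℝ) + 1)) ^ 2 ≤ δ := by
  obtain ⟨N, hN⟩ := exists_nat_gt (C / δ)
  refine ⟨N, fun k hk => ?_⟩
  have h1 : (0 : ℝ) < (k : ℝ) + 1 := by positivity
  have h2 : C / δ < (k : ℝ) + 1 := by
    have : (N : ℝ) ≤ k := by exact_mod_cast hk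
    linarith
  have h3 : C < ((k : ℝ) + 1) * δ := (div_lt_iff₀ hδ).1 h2
  have h4 : (1 : ℝ) ≤ (k : ℝ) + 1 := by
    have : (0 : ℝ) ≤ k := Nat.cast_nonneg k
    linarith
  rw [div_pow, one_pow, mul_one_div, div_le_iff₀ (by positivity)]
  nlinarith [mul_pos h1 hδ]

theorem IT1b_eps (k : ℕ) : (0 : ℝ) < 1 / ((k : ℝ) + 1) ∧ 1 / ((k : ℝ) + 1) ≤ 1 := by
  have h1 : (0 : ℝ) ≤ k := Nat.cast_nonneg k
  refine ⟨by positivity, ?_⟩
  rw [div_le_one (by positivity)]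
  linarith

/-- Mollifying the mollified limits: for fixed `ε`, `J ε (Ue k) → V` if `J ε (u n) → V`. -/
theorem J_Ue (u : ℕ → Pl → ℝ) (hu : ∀ n, ContDiff ℝ ∞ (u n))
    (he : ∀ R : ℝ, ∃ C : ℝ, ∀ n, n1 R (u n) ≤ C)
    (Ue : ℕ → Pl → ℝ) (hUe : ∀ k : ℕ, ULim (fun n => J (1 / ((k : ℝ) + 1)) (u n)) (Ue k))
    {ε : ℝ} (hε : 0 < ε) (hε1 : ε ≤ 1) {V : Pl → ℝ} (h : ULim (fun n => J ε (u n)) V) :
    ULim (fun k => J ε (Ue k)) V := by
  refine ⟨h.1, fun l R δ hδ => ?_⟩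
  obtain ⟨C₁, hC₁, hk⟩ := J_kernel hε hε1 R l
  obtain ⟨C₂, hC₂, hc⟩ := Ue_close u hu he (R + 1)
  obtain ⟨M, hM⟩ := h.2 l R (δ / 2) (by positivity)
  obtain ⟨N, hN⟩ := IT1b_small (mul_pos hC₁ hC₂) (show (0 : ℝ) < (δ / 2) ^ 2 by positivity)
  refine ⟨N, fun k hkN z hz => ?_⟩
  obtain ⟨e0, e1⟩ := IT1b_eps k
  obtain ⟨N', hN'⟩ := hc (1 / ((k : ℝ) + 1)) (Ue k) e0 e1 (hUe k)
  have hUk : ContDiff ℝ ∞ (Ue k) := (hUe k).1
  let n := max N' M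
  have h1 := hN' n (le_max_left _ _)
  have h2 := hM n (le_max_right _ _) z hz
  have h3 := hk (fun y => Ue k y - u n y) (hUk.sub (hu n)) z hz
  have h4 : Dw l (J ε (fun y => Ue k y - u n y)) z =
      Dw l (J ε (Ue k)) z - Dw l (J ε (u n)) z := by
    have e : J ε (fun y => Ue k y - u n y) = fun y => J ε (Ue k) y - J ε (u n) y :=
      funext fun x => J_sub hUk.continuous (hu n).continuous x
    rw [e]
    exact Dw_sub (J_smooth hε hUk) (J_smooth hε (hu n)) l z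
  rw [h4] at h3
  have h5 : (Dw l (J ε (Ue k)) z - Dw l (J ε (u n)) z) ^ 2 ≤ (δ / 2) ^ 2 := by
    refine h3.trans ((mul_le_mul_of_nonneg_left h1 hC₁.le).trans ?_)
    rw [← mul_assoc]
    exact hN k hkN
  have h6 : |Dw l (J ε (Ue k)) z - Dw l (J ε (u n)) z| ≤ δ / 2 :=
    abs_le_of_sq_le_sq h5 (by positivity)
  calc |Dw l (J ε (Ue k)) z - Dw l V z|
      ≤ |Dw l (J ε (Ue k)) z - Dw l (J ε (u n)) z| + |Dw l (J ε (u n)) z - Dw l V z| :=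
        abs_sub_le _ _ _
    _ ≤ δ / 2 + δ / 2 := add_le_add h6 h2
    _ = δ := by ring

/-- `Ue` is Cauchy in `L²`. -/
theorem Ue_cauchy (u : ℕ → Pl → ℝ) (hu : ∀ n, ContDiff ℝ ∞ (u n))
    (he : ∀ R : ℝ, ∃ C : ℝ, ∀ n, n1 R (u n) ≤ C)
    (Ue : ℕ → Pl → ℝ) (hUe : ∀ k : ℕ, ULim (fun n => J (1 / ((k : ℝ) + 1)) (u n)) (Ue k)) :
    CauchyL Ue := by
  intro R δ hδ
  obtain ⟨C, hC, hc⟩ := Ue_close u hu he R
  obtain ⟨N, hN⟩ := IT1b_small hC (show (0 : ℝ) < δ / 4 by positivity)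
  refine ⟨N, fun j hj k hk => ?_⟩
  obtain ⟨a0, a1⟩ := IT1b_eps j
  obtain ⟨b0, b1⟩ := IT1b_eps k
  obtain ⟨Nj, hNj⟩ := hc (1 / ((j : ℝ) + 1)) (Ue j) a0 a1 (hUe j)
  obtain ⟨Nk, hNk⟩ := hc (1 / ((k : ℝ) + 1)) (Ue k) b0 b1 (hUe k)
  let n := max Nj Nk
  have h1 := hNj n (le_max_left _ _)
  have h2 := hNk n (le_max_right _ _)
  have h3 := n0_add_le R (u := fun z => Ue j z - u n z) (v := fun z => u n z - Ue k z)
    ((hUe j).1.continuous.sub (hu n).continuous) ((hu n).continuous.sub (hUe k).1.continuous)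
  have e1 : (fun z => (Ue j z - u n z) + (u n z - Ue k z)) = fun z => Ue j z - Ue k z := by
    funext z
    ring
  have e2 : n0 R (fun z => u n z - Ue k z) = n0 R (fun z => Ue k z - u n z) := by
    unfold n0
    congr 1
    funext z
    ring
  rw [e1, e2] at h3
  have h4 := hN j hj
  have h5 := hN k hk
  linarith

end QR
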