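import Pool.Agent.LibQR40.M3
import Pool.Agent.LibQR40.IP

/-! ROW IT1a. Put auxiliary lemmas in this file, names starting with `IT1a_`.
(the weak equation for the mollified limits). Setting: u n smooth, L²-Cauchy, bounded energy, weak equation
with f n = V u n; `Ue k` smooth with ULim (J (1/(k+1)) (u ·)) (Ue k). PLAN: for a test function χ:
∫ (q2 A (Ue k) χ - V Ue k χ) = - ∫ Ue k (Lu A χ + V χ) (`ip_sym`), same for u n, so the difference is
- ∫ (Ue k - u n)(Lu A χ + V χ), at most sqrt(n0 S (Ue k - u n)) sqrt(∫ (Lu A χ + V χ)²) (support of χ in Q S), and by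
`Ue_close` this is ≤ C/(k+1) for n large; let n → ∞ (`hw`), so |∫ (q2 A (Ue k) χ - V Ue k χ)| ≤ C/(k+1). -/

open MeasureTheory Set Filter Topology
open scoped ContDiff ENNReal NNReal

namespace QR

open BGS

theorem IT1a_int {χ : Pl → ℝ} (h : IsT χ) : Integrable χ :=
  h.1.continuous.integrable_of_hasCompactSupport h.2

theorem IT1a_test (A : Coef) {V : Pl → ℝ} (hV : ContDiff ℝ ∞ V) {χ : Pl → ℝ} (hχ : IsT χ) :
    IsT (fun z => Lu A χ z + V z * χ z) :=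
  ⟨(cpt_Lu A hχ).1.add (cpt_mul hχ hV).1, (cpt_Lu A hχ).2.add (cpt_mul hχ hV).2⟩

theorem IT1a_eq (A : Coef) {V : Pl → ℝ} (hV : ContDiff ℝ ∞ V) {f : Pl → ℝ} (hf : ContDiff ℝ ∞ f)
    {χ : Pl → ℝ} (hχ : IsT χ) : ∫ z, (q2 A f χ z - V z * f z * χ z) =
      -∫ z, f z * (Lu A χ z + V z * χ z) := by
  have h1 : IsT (fun z => fx A f z * dx χ z) := cpt_mul (cpt_pd hχ true) (smooth_fx A hf)
  have h2 : IsT (fun z => fy A f z * dy χ z) := cpt_mul (cpt_pd hχ false) (smooth_fy A hf)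
  have h3 : Integrable (q2 A f χ) := (IT1a_int h1).add (IT1a_int h2)
  have h4 : Integrable (fun z => V z * f z * χ z) := IT1a_int (cpt_mul hχ (hV.mul hf))
  have h5 : Integrable (fun z => f z * Lu A χ z) := IT1a_int (cpt_mul (cpt_Lu A hχ) hf)
  rw [integral_sub h3 h4, ip_sym A hf hχ]
  have e : ∫ z, f z * (Lu A χ z + V z * χ z) = (∫ z, f z * Lu A χ z) + ∫ z, V z * f z * χ z := by
    rw [← integral_add h5 h4]
    congr 1
    funext z
    ring
  rw [e]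
  ring

theorem IT1a_bd {g ψ : Pl → ℝ} (hg : Continuous g) (hψ : Continuous ψ) {S : ℝ}
    (hS : ∀ z, z ∉ Q S → ψ z = 0) {t : ℝ} (ht : 0 < t) :
    |∫ z, g z * ψ z| ≤ 1 / 2 * (t * n0 S g + t⁻¹ * n0 S ψ) := by
  have h1 : ∫ z, g z * ψ z = ∫ z in Q S, g z * ψ z :=
    (setIntegral_eq_integral_of_forall_compl_eq_zero fun z hz => by rw [hS z hz, mul_zero]).symm
  rw [h1]
  have hg2 : Continuous fun z => g z ^ 2 := hg.pow 2
  have hψ2 : Continuous fun z => ψ z ^ 2 := hψ.pow 2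
  have hgψ : Continuous fun z => |g z * ψ z| := (hg.mul hψ).abs
  have h2 : |∫ z in Q S, g z * ψ z| ≤ ∫ z in Q S, |g z * ψ z| := abs_integral_le_integral_abs
  refine h2.trans ?_
  unfold n0
  rw [← integral_const_mul, ← integral_const_mul,
    ← integral_add ((intQ hg2 S).const_mul t) ((intQ hψ2 S).const_mul t⁻¹), ← integral_const_mul]
  refine integral_mono (intQ hgψ S)
    ((((intQ hg2 S).const_mul t).add ((intQ hψ2 S).const_mul t⁻¹)).const_mul (1 / 2)) fun z => ?_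
  show |g z * ψ z| ≤ 1 / 2 * (t * g z ^ 2 + t⁻¹ * ψ z ^ 2)
  have h3 : 0 ≤ (t * |g z| - |ψ z|) ^ 2 := sq_nonneg _
  have h4 : |g z| ^ 2 = g z ^ 2 := sq_abs _
  have h5 : |ψ z| ^ 2 = ψ z ^ 2 := sq_abs _
  rw [abs_mul]
  have h6 : 2 * t * (|g z| * |ψ z|) ≤ t ^ 2 * g z ^ 2 + ψ z ^ 2 := by
    rw [← h4, ← h5]
    nlinarith
  have h7 : |g z| * |ψ z| = t⁻¹ * (2 * t * (|g z| * |ψ z|)) * (1 / 2) := by
    field_simp
  rw [h7]
  calc t⁻¹ * (2 * t * (|g z| * |ψ z|)) * (1 / 2) ≤ t⁻¹ * (t ^ 2 * g z ^ 2 + ψ z ^ 2) * (1 / 2) := by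
        gcongr
    _ = 1 / 2 * (t * g z ^ 2 + t⁻¹ * ψ z ^ 2) := by
        field_simp

theorem weak_Ue (A : Coef) {V : Pl → ℝ} (hV : ContDiff ℝ ∞ V) (u : ℕ → Pl → ℝ)
    (hu : ∀ n, ContDiff ℝ ∞ (u n)) (he : ∀ R : ℝ, ∃ C : ℝ, ∀ n, n1 R (u n) ≤ C)
    (hw : ∀ χ : Pl → ℝ, IsT χ →
      Tendsto (fun n => ∫ z, (q2 A (u n) χ z - V z * u n z * χ z)) atTop (𝓝 0))
    (Ue : ℕ → Pl → ℝ) (hUe : ∀ k : ℕ, ULim (fun n => J (1 / ((k : ℝ) + 1)) (u n)) (Ue k))
    (χ : Pl → ℝ) (hχ : IsT χ) :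
    Tendsto (fun k => ∫ z, (q2 A (Ue k) χ z - V z * Ue k z * χ z)) atTop (𝓝 0) := by
  let ψ : Pl → ℝ := fun z => Lu A χ z + V z * χ z
  have hψ : IsT ψ := IT1a_test A hV hχ
  obtain ⟨S, hS⟩ := hψ.2.isCompact.isBounded.subset_closedBall (0 : Pl)
  have hS' : ∀ z, z ∉ Q S → ψ z = 0 := fun z hz =>
    image_eq_zero_of_notMem_tsupport fun h => hz (hS h)
  obtain ⟨C, hC, hc⟩ := Ue_close u hu he S
  have key : ∀ k : ℕ, |∫ z, (q2 A (Ue k) χ z - V z * Ue k z * χ z)| ≤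
      1 / 2 * (C + n0 S ψ) * (1 / ((k : ℝ) + 1)) := by
    intro k
    have h1 : (0 : ℝ) < (k : ℝ) + 1 := by positivity
    have e0 : (0 : ℝ) < 1 / ((k : ℝ) + 1) := by positivity
    have e1 : 1 / ((k : ℝ) + 1) ≤ 1 := by
      rw [div_le_one h1]
      have : (0 : ℝ) ≤ k := Nat.cast_nonneg k
      linarith
    obtain ⟨N, hN⟩ := hc (1 / ((k : ℝ) + 1)) (Ue k) e0 e1 (hUe k)
    have hUk : ContDiff ℝ ∞ (Ue k) := (hUe k).1
    have h2 : ∀ n, N ≤ n → |(∫ z, (q2 A (Ue k) χ z - V z * Ue k z * χ z)) -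
        ∫ z, (q2 A (u n) χ z - V z * u n z * χ z)| ≤
          1 / 2 * (C + n0 S ψ) * (1 / ((k : ℝ) + 1)) := by
      intro n hn
      have i1 : Integrable (fun z => Ue k z * ψ z) := IT1a_int (cpt_mul hψ hUk)
      have i2 : Integrable (fun z => u n z * ψ z) := IT1a_int (cpt_mul hψ (hu n))
      rw [IT1a_eq A hV hUk hχ, IT1a_eq A hV (hu n) hχ]
      have e2 : (-∫ z, Ue k z * (Lu A χ z + V z * χ z)) -
          (-∫ z, u n z * (Lu A χ z + V z * χ z)) =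
          -∫ z, (Ue k z - u n z) * ψ z := by
        have e3 : ∫ z, (Ue k z - u n z) * ψ z = (∫ z, Ue k z * ψ z) - ∫ z, u n z * ψ z := by
          rw [← integral_sub i1 i2]
          congr 1
          funext z
          ring
        rw [e3]
        ring
      rw [e2, abs_neg]
      have h3 := IT1a_bd (g := fun z => Ue k z - u n z) (ψ := ψ)
        (hUk.continuous.sub (hu n).continuous) hψ.1.continuous hS' h1
      refine h3.trans ?_
      have h4 := hN n hn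
      have h5 : ((k : ℝ) + 1) * n0 S (fun z => Ue k z - u n z) ≤ C * (1 / ((k : ℝ) + 1)) := by
        calc ((k : ℝ) + 1) * n0 S (fun z => Ue k z - u n z)
            ≤ ((k : ℝ) + 1) * (C * (1 / ((k : ℝ) + 1)) ^ 2) :=
              mul_le_mul_of_nonneg_left h4 h1.le
          _ = C * (1 / ((k : ℝ) + 1)) := by
              field_simp
      have h6 : ((k : ℝ) + 1)⁻¹ * n0 S ψ = n0 S ψ * (1 / ((k : ℝ) + 1)) := by
        rw [one_div, mul_comm]
      rw [h6]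
      linarith
    have h7 := (tendsto_const_nhds (x := ∫ z, (q2 A (Ue k) χ z - V z * Ue k z * χ z))).sub (hw χ hχ)
    rw [sub_zero] at h7
    refine le_of_tendsto h7.abs ?_
    filter_upwards [eventually_ge_atTop N] with n hn
    exact h2 n hn
  refine squeeze_zero_norm key ?_
  have h8 := (tendsto_one_div_add_atTop_nhds_zero_nat (𝕜 := ℝ)).const_mul (1 / 2 * (C + n0 S ψ))
  rwa [mul_zero] at h8

end QR
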