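import Pool.Agent.LibQR40.INT
import Pool.Agent.LibQR40.IT1

/-! ROW IT2a. Put auxiliary lemmas in this file, names starting with `IT2a_`.
(the derivatives of the mollified limits are L²-Cauchy). PLAN: induction on l. Base: `Ue_cauchy`. Step l = b :: l': apply `interp1` to
Dw l' (Ue j) - Dw l' (Ue i) = Dw l' (Ue j - Ue i) (`Dw_sub`): n0 R (Dw l (Ue j) - Dw l (Ue i)) ≤ n1 R (Dw l' (Ue j - Ue i)) ≤
C sqrt(n0 (R+1)) sqrt(n0 + n1 + n2): the first factor is small by induction, the second bounded by `hB` (words of length |l'|, |l'|+1,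
|l'|+2 = |l|+1 ≤ k; `Bd` is applied with ε = 1/(i+1), V = Ue i; n0 of a difference ≤ 2 n0 + 2 n0). -/

open MeasureTheory Set Filter Topology
open scoped ContDiff ENNReal NNReal

namespace QR

open BGS

theorem IT2a_sub_le (R : ℝ) {u v : Pl → ℝ} (hu : Continuous u) (hv : Continuous v) :
    n0 R (fun z => u z - v z) ≤ 2 * n0 R u + 2 * n0 R v := by
  have h1 : n0 R (fun z => u z + -v z) ≤ 2 * n0 R u + 2 * n0 R (fun z => -v z) :=
    n0_add_le R hu hv.neg
  have h2 : n0 R (fun z => -v z) = n0 R v := by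
    unfold n0
    congr 1
    funext z
    ring
  have h3 : n0 R (fun z => u z + -v z) = n0 R (fun z => u z - v z) := by
    unfold n0
    congr 1
  rw [h3, h2] at h1
  exact h1

theorem IT2a_app (w l : List Bool) (f : Pl → ℝ) : Dw w (Dw l f) = Dw (w ++ l) f := by
  induction w with
  | nil => rfl
  | cons b w ih =>
    show pd b (Dw w (Dw l f)) = pd b (Dw (w ++ l) f)
    rw [ih]

theorem IT2a_bd {u : ℕ → Pl → ℝ} {k : ℕ} (hB : Bd u k) {Ue : ℕ → Pl → ℝ}
    (hUe : ∀ k : ℕ, ULim (fun n => J (1 / ((k : ℝ) + 1)) (u n)) (Ue k)) (w l : List Bool)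
    (hl : (w ++ l).length ≤ k) (R : ℝ) : ∃ M : ℝ, 0 < M ∧ ∀ j i : ℕ,
      n0 R (Dw w fun z => Dw l (Ue j) z - Dw l (Ue i) z) ≤ M := by
  obtain ⟨C, hC, h⟩ := hB (w ++ l) hl R
  refine ⟨4 * C, by linarith, fun j i => ?_⟩
  have hj : ∀ j : ℕ, n0 R (Dw (w ++ l) (Ue j)) ≤ C := by
    intro j
    refine h (1 / ((j : ℝ) + 1)) (Ue j) (by positivity) ?_ (hUe j)
    rw [div_le_one (by positivity)]
    have : (0 : ℝ) ≤ j := Nat.cast_nonneg j
    linarith
  have h1 : (Dw w fun z => Dw l (Ue j) z - Dw l (Ue i) z) =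
      fun z => Dw (w ++ l) (Ue j) z - Dw (w ++ l) (Ue i) z := by
    funext z
    rw [Dw_sub (smooth_Dw (hUe j).1 l) (smooth_Dw (hUe i).1 l), IT2a_app, IT2a_app]
  rw [h1]
  have h2 := IT2a_sub_le R (smooth_Dw (hUe j).1 (w ++ l)).continuous
    (smooth_Dw (hUe i).1 (w ++ l)).continuous
  have h3 := hj j
  have h4 := hj i
  linarith

theorem IT2a_n1 (R : ℝ) {v : Pl → ℝ} (hv : ContDiff ℝ ∞ v) :
    n1 R v = n0 R (Dw [true] v) + n0 R (Dw [false] v) := by
  have h1 : IntegrableOn (fun z => Dw [true] v z ^ 2) (Q R) :=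
    intQ ((smooth_Dw hv [true]).continuous.pow 2) R
  have h2 : IntegrableOn (fun z => Dw [false] v z ^ 2) (Q R) :=
    intQ ((smooth_Dw hv [false]).continuous.pow 2) R
  unfold n1 n0
  rw [← integral_add h1 h2]
  rfl

theorem IT2a_n2 (R : ℝ) {v : Pl → ℝ} (hv : ContDiff ℝ ∞ v) :
    n2 R v = n0 R (Dw [true, true] v) + n0 R (Dw [true, false] v) +
      n0 R (Dw [false, false] v) := by
  have h1 : IntegrableOn (fun z => Dw [true, true] v z ^ 2) (Q R) :=
    intQ ((smooth_Dw hv [true, true]).continuous.pow 2) R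
  have h2 : IntegrableOn (fun z => Dw [true, false] v z ^ 2) (Q R) :=
    intQ ((smooth_Dw hv [true, false]).continuous.pow 2) R
  have h3 : IntegrableOn (fun z => Dw [false, false] v z ^ 2) (Q R) :=
    intQ ((smooth_Dw hv [false, false]).continuous.pow 2) R
  have h4 : IntegrableOn (fun z => Dw [true, true] v z ^ 2 + Dw [true, false] v z ^ 2) (Q R) :=
    h1.add h2
  unfold n2 n0
  rw [← integral_add h1 h2, ← integral_add h4 h3]
  rfl

theorem IT2a_pd (R : ℝ) {v : Pl → ℝ} (hv : ContDiff ℝ ∞ v) (b : Bool) :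
    n0 R (pd b v) ≤ n1 R v := by
  rw [IT2a_n1 R hv]
  have h1 := n0_nonneg R (Dw [true] v)
  have h2 := n0_nonneg R (Dw [false] v)
  cases b
  · have h3 : n0 R (pd false v) = n0 R (Dw [false] v) := rfl
    linarith
  · have h3 : n0 R (pd true v) = n0 R (Dw [true] v) := rfl
    linarith

theorem cauchy_Dw (u : ℕ → Pl → ℝ) (hu : ∀ n, ContDiff ℝ ∞ (u n))
    (he : ∀ R : ℝ, ∃ C : ℝ, ∀ n, n1 R (u n) ≤ C) {k : ℕ} (hB : Bd u k) (Ue : ℕ → Pl → ℝ)
    (hUe : ∀ k : ℕ, ULim (fun n => J (1 / ((k : ℝ) + 1)) (u n)) (Ue k)) (l : List Bool)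
    (hl : l.length + 1 ≤ k) : CauchyL fun k' => Dw l (Ue k') := by
  induction l with
  | nil => exact Ue_cauchy u hu he Ue hUe
  | cons b l ih =>
    rw [List.length_cons] at hl
    have ih' := ih (by omega)
    intro R δ hδ
    obtain ⟨C, hC, hint⟩ := interp1 R
    obtain ⟨M0, hM0, h0⟩ := IT2a_bd hB hUe [] l (by simp only [List.nil_append]; omega) (R + 1)
    obtain ⟨M1, hM1, h1⟩ := IT2a_bd hB hUe [true] l
      (by simp only [List.length_append, List.length_cons, List.length_nil]; omega) (R + 1)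
    obtain ⟨M2, hM2, h2⟩ := IT2a_bd hB hUe [false] l
      (by simp only [List.length_append, List.length_cons, List.length_nil]; omega) (R + 1)
    obtain ⟨M3, hM3, h3⟩ := IT2a_bd hB hUe [true, true] l
      (by simp only [List.length_append, List.length_cons, List.length_nil]; omega) (R + 1)
    obtain ⟨M4, hM4, h4⟩ := IT2a_bd hB hUe [true, false] l
      (by simp only [List.length_append, List.length_cons, List.length_nil]; omega) (R + 1)
    obtain ⟨M5, hM5, h5⟩ := IT2a_bd hB hUe [false, false] l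
      (by simp only [List.length_append, List.length_cons, List.length_nil]; omega) (R + 1)
    set M : ℝ := M0 + (M1 + M2) + (M3 + M4 + M5) with hM
    have hsM : 0 ≤ √M := Real.sqrt_nonneg M
    set η : ℝ := δ / (C * (√M + 1)) with hη
    have hη0 : 0 < η := by positivity
    obtain ⟨N, hN⟩ := ih' (R + 1) (η ^ 2) (by positivity)
    refine ⟨N, fun n hn m hm => ?_⟩
    have hsm : ∀ n m : ℕ, ContDiff ℝ ∞ fun z => Dw l (Ue n) z - Dw l (Ue m) z := fun n m =>
      (smooth_Dw (hUe n).1 l).sub (smooth_Dw (hUe m).1 l)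
    have e1 : (fun z => Dw (b :: l) (Ue n) z - Dw (b :: l) (Ue m) z) =
        pd b fun z => Dw l (Ue n) z - Dw l (Ue m) z := by
      funext z
      rw [pd_sub (smooth_Dw (hUe n).1 l) (smooth_Dw (hUe m).1 l)]
      rfl
    rw [e1]
    refine (IT2a_pd R (hsm n m) b).trans ((hint _ (hsm n m)).trans ?_)
    have h6 : √(n0 (R + 1) fun z => Dw l (Ue n) z - Dw l (Ue m) z) ≤ η := by
      rw [Real.sqrt_le_left hη0.le]
      exact hN n hn m hm
    have h7 : √(n0 (R + 1) (fun z => Dw l (Ue n) z - Dw l (Ue m) z) +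
        n1 (R + 1) (fun z => Dw l (Ue n) z - Dw l (Ue m) z) +
        n2 (R + 1) fun z => Dw l (Ue n) z - Dw l (Ue m) z) ≤ √M := by
      apply Real.sqrt_le_sqrt
      rw [IT2a_n1 _ (hsm n m), IT2a_n2 _ (hsm n m)]
      have g0 := h0 n m
      have g1 := h1 n m
      have g2 := h2 n m
      have g3 := h3 n m
      have g4 := h4 n m
      have g5 := h5 n m
      have g6 : n0 (R + 1) (Dw [] fun z => Dw l (Ue n) z - Dw l (Ue m) z) =
        n0 (R + 1) fun z => Dw l (Ue n) z - Dw l (Ue m) z := rfl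
      rw [g6] at g0
      linarith
    calc C * (√(n0 (R + 1) fun z => Dw l (Ue n) z - Dw l (Ue m) z) *
          √(n0 (R + 1) (fun z => Dw l (Ue n) z - Dw l (Ue m) z) +
            n1 (R + 1) (fun z => Dw l (Ue n) z - Dw l (Ue m) z) +
            n2 (R + 1) fun z => Dw l (Ue n) z - Dw l (Ue m) z))
        ≤ C * (η * √M) := by
          refine mul_le_mul_of_nonneg_left ?_ hC.le
          exact mul_le_mul h6 h7 (Real.sqrt_nonneg _) hη0.le
      _ ≤ C * (η * (√M + 1)) := by
          refine mul_le_mul_of_nonneg_left ?_ hC.le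
          exact mul_le_mul_of_nonneg_left (by linarith) hη0.le
      _ = δ := by
          rw [hη]
          field_simp

end QR
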