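import Pool.Agent.LibQR40.IP

/-! ROW IT2b. Put auxiliary lemmas in this file, names starting with `IT2b_`.
(adjoint of Dw l). PLAN: induction on l generalizing χ: ∫ pd b (Dw l g) χ = - ∫ Dw l g (pd b χ) (`ip_mul`, `smooth_Dw`),
and - pd b χ is a test function (`cpt_pd`). -/

open MeasureTheory Set Filter Topology
open scoped ContDiff ENNReal NNReal

namespace QR

open BGS

/-- The formal adjoint of `Dw l`. -/
theorem adj_Dw (l : List Bool) {χ : Pl → ℝ} (hχ : IsT χ) : ∃ χ' : Pl → ℝ, IsT χ' ∧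
    ∀ g : Pl → ℝ, ContDiff ℝ ∞ g → ∫ z, Dw l g z * χ z = ∫ z, g z * χ' z := by
  induction l generalizing χ with
  | nil => exact ⟨χ, hχ, fun g _ => rfl⟩
  | cons b l ih =>
    have h1 : IsT (fun z => (-1 : ℝ) * pd b χ z) := cpt_mul (cpt_pd hχ b) contDiff_const
    obtain ⟨χ', h2, h3⟩ := ih h1
    refine ⟨χ', h2, fun g hg => ?_⟩
    rw [← h3 g hg]
    have h4 := ip_mul (smooth_Dw hg l) hχ b
    have h5 : ∫ z, Dw (b :: l) g z * χ z = ∫ z, pd b (Dw l g) z * χ z := rfl
    rw [h5, h4, ← integral_neg]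
    congr 1
    funext z
    ring

end QR
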