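import Pool.Agent.LibQR40.OS
import Pool.Agent.LibQR40.DO
import Pool.Agent.LibQR40.IT2a
import Pool.Agent.LibQR40.IT2b

/-! ROW IT2. Put auxiliary lemmas in this file, names starting with `IT2_`.
(the induction step: one more derivative is bounded). Let l be a word with |l| + 1 ≤ k (|l| = k - 1). PLAN: choose Ue k'
(`exists_Ue`, ε = 1/(k'+1)). Apply `one_step` to u' n := Dw l (Ue n) and f' n := Dw l (V * Ue n) - K_l (Ue n), K_l v = Lu A (Dw l v) - Dw l (Lu A v)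
(`commutator`, order |l|+1 ≤ k): hf, hf2 from `do_smooth`, `do_bound`, `do_mulV` and Bd k; hc from `cauchy_Dw`; he from Bd k; weak equation:
∫ (q2 A (Dw l U) χ - f' χ) = - ∫ (Lu A (Dw l U) + Dw l (V U) - K_l U) χ = - ∫ Dw l (Lu A U + V U) χ (U = Ue n; `ip_q2`; Dw l is additive)
= - ∫ (Lu A U + V U) χ' (`adj_Dw`) = ∫ (q2 A U χ' - V U χ') → 0 by `weak_Ue`.
The mollified limit of u': J ε (Dw l (Ue n)) = Dw l (J ε (Ue n)) (`J_Dw`) → Dw l V by `J_Ue` and `ULim_Dw`; so one_step gives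
n2 R (Dw l V) ≤ C for all ε, V, i.e. all words of length |l| + 2 of the form b :: b' :: l with bb' = tt, tf, ff (and ft by
`Egr_symm`). Every word of length k+1 is of this form with |l| = k - 1; shorter words by hB. -/

open MeasureTheory Set Filter Topology
open scoped ContDiff ENNReal NNReal

namespace QR

open BGS

theorem IT2_n1 (R : ℝ) {v : Pl → ℝ} (hv : ContDiff ℝ ∞ v) :
    n1 R v = n0 R (Dw [true] v) + n0 R (Dw [false] v) := by
  unfold n1 n0 G1
  exact integral_add (intQ ((smooth_Dw hv [true]).continuous.pow 2) R)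
    (intQ ((smooth_Dw hv [false]).continuous.pow 2) R)

theorem IT2_n2 (R : ℝ) {v : Pl → ℝ} (hv : ContDiff ℝ ∞ v) :
    n2 R v = n0 R (Dw [true, true] v) + n0 R (Dw [true, false] v) + n0 R (Dw [false, false] v) := by
  have h1 := intQ ((smooth_Dw hv [true, true]).continuous.pow 2) R
  have h2 := intQ ((smooth_Dw hv [true, false]).continuous.pow 2) R
  have h3 := intQ ((smooth_Dw hv [false, false]).continuous.pow 2) R
  have e1 : ∫ z in Q R, (Dw [true, true] v z ^ 2 + Dw [true, false] v z ^ 2) =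
      (∫ z in Q R, Dw [true, true] v z ^ 2) + ∫ z in Q R, Dw [true, false] v z ^ 2 :=
    integral_add h1 h2
  have e2 : ∫ z in Q R, ((Dw [true, true] v z ^ 2 + Dw [true, false] v z ^ 2) + Dw [false, false] v z ^ 2) =
      (∫ z in Q R, (Dw [true, true] v z ^ 2 + Dw [true, false] v z ^ 2)) +
        ∫ z in Q R, Dw [false, false] v z ^ 2 :=
    integral_add (h1.add h2) h3
  rw [e1] at e2
  exact e2

/-- Every second derivative is controlled by `n2`. -/
theorem IT2_two (R : ℝ) {v : Pl → ℝ} (hv : ContDiff ℝ ∞ v) (b b' : Bool) :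
    n0 R (Dw [b, b'] v) ≤ n2 R v := by
  rw [IT2_n2 R hv]
  have h1 := n0_nonneg R (Dw [true, true] v)
  have h2 := n0_nonneg R (Dw [true, false] v)
  have h3 := n0_nonneg R (Dw [false, false] v)
  cases b <;> cases b'
  · linarith
  · have e : Dw [false, true] v = Dw [true, false] v := by
      funext z
      exact Egr_symm hv z
    rw [e]
    linarith
  · linarith
  · linarith

theorem IT2_n0_sub_le (R : ℝ) {u v : Pl → ℝ} (hu : Continuous u) (hv : Continuous v) :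
    n0 R (fun z => u z - v z) ≤ 2 * n0 R u + 2 * n0 R v := by
  have h := n0_add_le R hu hv.neg
  have e1 : (fun z => u z + (-v) z) = fun z => u z - v z := by
    funext z
    simp [sub_eq_add_neg]
  have e2 : n0 R (-v) = n0 R v := by
    unfold n0
    simp
  rw [e2] at h
  rw [← e1]
  exact h

/-- Bounds for the derivatives of the functions `Ue`. -/
theorem IT2_bd {u : ℕ → Pl → ℝ} {k : ℕ} (hB : Bd u k) {Ue : ℕ → Pl → ℝ}
    (hUe : ∀ k : ℕ, ULim (fun n => J (1 / ((k : ℝ) + 1)) (u n)) (Ue k)) {l : List Bool}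
    (hl : l.length ≤ k) (R : ℝ) : ∃ C : ℝ, 0 < C ∧ ∀ n, n0 R (Dw l (Ue n)) ≤ C := by
  obtain ⟨C, hC, h⟩ := hB l hl R
  refine ⟨C, hC, fun n => h (1 / ((n : ℝ) + 1)) (Ue n) (by positivity) ?_ (hUe n)⟩
  rw [div_le_one (by positivity)]
  linarith [(Nat.cast_nonneg n : (0 : ℝ) ≤ n)]

theorem IT2_sum_bd {u : ℕ → Pl → ℝ} {k : ℕ} (hB : Bd u k) {Ue : ℕ → Pl → ℝ}
    (hUe : ∀ k : ℕ, ULim (fun n => J (1 / ((k : ℝ) + 1)) (u n)) (Ue k)) {j : ℕ}
    (hj : j ≤ k) (R : ℝ) : ∃ C : ℝ, ∀ n, ∑ l ∈ words j, n0 R (Dw l (Ue n)) ≤ C := by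
  classical
  have h : ∀ l : List Bool, ∃ C : ℝ, l ∈ words j → ∀ n, n0 R (Dw l (Ue n)) ≤ C := by
    intro l
    by_cases hl : l ∈ words j
    · obtain ⟨C, _, h⟩ := IT2_bd hB hUe ((mem_words.1 hl).trans hj) R
      exact ⟨C, fun _ => h⟩
    · exact ⟨0, fun h => absurd h hl⟩
  choose C hC using h
  exact ⟨∑ l ∈ words j, C l, fun n => Finset.sum_le_sum fun l hl => hC l hl n⟩

theorem IT2_append (l : List Bool) (v : Pl → ℝ) (b b' : Bool) :
    Dw (b :: b' :: l) v = Dw [b, b'] (Dw l v) := rfl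

theorem bd_step (A : Coef) {V : Pl → ℝ} (hV : ContDiff ℝ ∞ V) (u : ℕ → Pl → ℝ)
    (hu : ∀ n, ContDiff ℝ ∞ (u n)) (hc : CauchyL u) (he : ∀ R : ℝ, ∃ C : ℝ, ∀ n, n1 R (u n) ≤ C)
    (hw : ∀ χ : Pl → ℝ, IsT χ →
      Tendsto (fun n => ∫ z, (q2 A (u n) χ z - V z * u n z * χ z)) atTop (𝓝 0)) {k : ℕ} (hk : 1 ≤ k)
    (hB : Bd u k) : Bd u (k + 1) := by
  intro w hwl R
  by_cases hwk : w.length ≤ k
  · exact hB w hwk R
  -- the long words
  obtain ⟨b, b', l, rfl⟩ : ∃ b b' l, w = b :: b' :: l := by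
    match w, hwk with
    | [], h => exact absurd (Nat.zero_le _) h
    | [b], h => exact absurd (by simpa using hk) h
    | b :: b' :: l, _ => exact ⟨b, b', l, rfl⟩
  have hl : l.length + 1 ≤ k := by
    simp only [List.length_cons] at hwl
    omega
  have hU : ∀ k : ℕ, ∃ V : Pl → ℝ, ULim (fun n => J (1 / ((k : ℝ) + 1)) (u n)) V := fun k =>
    exists_Ue u hu hc (by positivity) (by
      rw [div_le_one (by positivity)]
      linarith [(Nat.cast_nonneg k : (0 : ℝ) ≤ k)])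
  choose Ue hUe using hU
  have hUs : ∀ n, ContDiff ℝ ∞ (Ue n) := fun n => (hUe n).1
  have hMV := do_mulV hV l
  have hK := commutator A l
  have hsm1 : ∀ n, ContDiff ℝ ∞ (fun z => Dw l (fun y => V y * Ue n y) z) := fun n =>
    do_smooth hMV (hUs n)
  have hsm2 : ∀ n, ContDiff ℝ ∞ (fun z => Lu A (Dw l (Ue n)) z - Dw l (Lu A (Ue n)) z) := fun n =>
    do_smooth hK (hUs n)
  set u' : ℕ → Pl → ℝ := fun n => Dw l (Ue n) with hu'
  set f' : ℕ → Pl → ℝ := fun n z => Dw l (fun y => V y * Ue n y) z -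
    (Lu A (Dw l (Ue n)) z - Dw l (Lu A (Ue n)) z) with hf'
  have h1 : ∀ n, ContDiff ℝ ∞ (u' n) := fun n => smooth_Dw (hUs n) l
  have h2 : ∀ n, ContDiff ℝ ∞ (f' n) := fun n => (hsm1 n).sub (hsm2 n)
  have h3 : CauchyL u' := cauchy_Dw u hu he hB Ue hUe l hl
  have h4 : ∀ R : ℝ, ∃ C : ℝ, ∀ n, n1 R (u' n) ≤ C := by
    intro R
    obtain ⟨C₁, _, hC₁⟩ := IT2_bd hB hUe (l := true :: l) hl R
    obtain ⟨C₂, _, hC₂⟩ := IT2_bd hB hUe (l := false :: l) hl R
    refine ⟨C₁ + C₂, fun n => ?_⟩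
    rw [IT2_n1 R (h1 n)]
    exact add_le_add (hC₁ n) (hC₂ n)
  have h5 : ∀ R : ℝ, ∃ C : ℝ, ∀ n, n0 R (f' n) ≤ C := by
    intro R
    obtain ⟨C₁, hC₁, h₁⟩ := do_bound hMV R
    obtain ⟨C₂, hC₂, h₂⟩ := do_bound hK R
    obtain ⟨B₁, hB₁⟩ := IT2_sum_bd hB hUe (j := l.length) (by omega) R
    obtain ⟨B₂, hB₂⟩ := IT2_sum_bd hB hUe (j := l.length + 1) hl R
    refine ⟨2 * (C₁ * B₁) + 2 * (C₂ * B₂), fun n => ?_⟩
    refine (IT2_n0_sub_le R (hsm1 n).continuous (hsm2 n).continuous).trans ?_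
    have e1 := (h₁ (Ue n) (hUs n)).trans (mul_le_mul_of_nonneg_left (hB₁ n) hC₁.le)
    have e2 := (h₂ (Ue n) (hUs n)).trans (mul_le_mul_of_nonneg_left (hB₂ n) hC₂.le)
    linarith
  have h6 : ∀ χ : Pl → ℝ, IsT χ →
      Tendsto (fun n => ∫ z, (q2 A (u' n) χ z - f' n z * χ z)) atTop (𝓝 0) := by
    intro χ hχ
    obtain ⟨χ', hχ', hadj⟩ := adj_Dw l hχ
    have hlim := weak_Ue A hV u hu he hw Ue hUe χ' hχ'
    have key : ∀ n, ∫ z, (q2 A (u' n) χ z - f' n z * χ z) =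
        ∫ z, (q2 A (Ue n) χ' z - V z * Ue n z * χ' z) := by
      intro n
      have hLs : ContDiff ℝ ∞ (Lu A (Ue n)) := smooth_Lu A (hUs n)
      have hVU : ContDiff ℝ ∞ (fun y => V y * Ue n y) := hV.mul (hUs n)
      have i1 : Integrable (fun z => q2 A (u' n) χ z) := by
        have : Continuous (fun z => q2 A (u' n) χ z) := (smooth_q2 A (h1 n) hχ.1).continuous
        refine this.integrable_of_hasCompactSupport ?_
        have c1 := (cpt_mul (cpt_pd hχ true) (smooth_fx A (h1 n))).2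
        have c2 := (cpt_mul (cpt_pd hχ false) (smooth_fy A (h1 n))).2
        exact c1.add c2
      have i2 : ∀ g : Pl → ℝ, ContDiff ℝ ∞ g → Integrable (fun z => g z * χ z) := fun g hg =>
        (cpt_mul hχ hg).1.continuous.integrable_of_hasCompactSupport (cpt_mul hχ hg).2
      have i3 : ∀ g : Pl → ℝ, ContDiff ℝ ∞ g → Integrable (fun z => g z * χ' z) := fun g hg =>
        (cpt_mul hχ' hg).1.continuous.integrable_of_hasCompactSupport (cpt_mul hχ' hg).2
      have i4 : Integrable (fun z => q2 A (Ue n) χ' z) := by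
        have : Continuous (fun z => q2 A (Ue n) χ' z) := (smooth_q2 A (hUs n) hχ'.1).continuous
        refine this.integrable_of_hasCompactSupport ?_
        have c1 := (cpt_mul (cpt_pd hχ' true) (smooth_fx A (hUs n))).2
        have c2 := (cpt_mul (cpt_pd hχ' false) (smooth_fy A (hUs n))).2
        exact c1.add c2
      have e1 : ∫ z, (q2 A (u' n) χ z - f' n z * χ z) =
          (∫ z, q2 A (u' n) χ z) - ∫ z, f' n z * χ z := integral_sub i1 (i2 _ (h2 n))
      have e2 : ∫ z, (q2 A (Ue n) χ' z - V z * Ue n z * χ' z) =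
          (∫ z, q2 A (Ue n) χ' z) - ∫ z, V z * Ue n z * χ' z := integral_sub i4 (i3 _ hVU)
      have e4 : (∫ z, Lu A (Dw l (Ue n)) z * χ z) - ∫ z, Dw l (Lu A (Ue n)) z * χ z =
          ∫ z, (Lu A (Dw l (Ue n)) z * χ z - Dw l (Lu A (Ue n)) z * χ z) :=
        (integral_sub (i2 _ (smooth_Lu A (h1 n))) (i2 _ (smooth_Dw hLs l))).symm
      have i5 : Integrable (fun z => Lu A (Dw l (Ue n)) z * χ z - Dw l (Lu A (Ue n)) z * χ z) :=
        (i2 _ (smooth_Lu A (h1 n))).sub (i2 _ (smooth_Dw hLs l))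
      have e5 : (∫ z, Dw l (fun y => V y * Ue n y) z * χ z) -
          ∫ z, (Lu A (Dw l (Ue n)) z * χ z - Dw l (Lu A (Ue n)) z * χ z) =
          ∫ z, (Dw l (fun y => V y * Ue n y) z * χ z -
            (Lu A (Dw l (Ue n)) z * χ z - Dw l (Lu A (Ue n)) z * χ z)) :=
        (integral_sub (i2 _ (hsm1 n)) i5).symm
      have e3 : ∫ z, f' n z * χ z = (∫ z, Dw l (fun y => V y * Ue n y) z * χ z) -
          ((∫ z, Lu A (Dw l (Ue n)) z * χ z) - ∫ z, Dw l (Lu A (Ue n)) z * χ z) := by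
        rw [e4, e5]
        refine integral_congr_ae (ae_of_all _ fun z => ?_)
        simp only [hf']
        ring
      rw [e1, e2, e3, ip_q2 A (h1 n) hχ, ip_q2 A (hUs n) hχ', hadj _ hVU, hadj _ hLs]
      ring
    simp only [key]
    exact hlim
  obtain ⟨C, hC, hfin⟩ := one_step A u' f' h1 h2 h3 h4 h5 h6 R
  refine ⟨C, hC, fun ε V₀ hε hε1 hV₀ => ?_⟩
  have g1 : ULim (fun k => J ε (Ue k)) V₀ := J_Ue u hu he Ue hUe hε hε1 hV₀
  have g2 : ULim (fun k => J ε (u' k)) (Dw l V₀) := by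
    have := ULim_Dw g1 l
    have e : (fun n => Dw l (J ε (Ue n))) = fun n => J ε (u' n) := by
      funext n x
      exact J_Dw hε (hUs n) l x
    rw [e] at this
    exact this
  have g3 := hfin ε (Dw l V₀) hε hε1 g2
  rw [IT2_append]
  exact (IT2_two R (smooth_Dw hV₀.1 l) b b').trans g3

end QR
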