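import Pool.Agent.LibQR40.Defs

/-! ROW M1. Put auxiliary lemmas in this file, names starting with `M1_`.
(mollifier commutes with derivatives). PLAN: for `ε > 0` the function `J ε v` is a convolution:
substitute y = x - ε z; or directly: `J ε v x = ∫ z, rho z * v (x - ε • z)` is a parametric integral over the
compact set `Q 1` (rho = 0 outside) of a smooth integrand. Suggested: `J ε v = (rhoε ⋆ v)` with
`rhoε y = ε⁻¹ ^ 2 * rho (ε⁻¹ • y)` (change of variables `MeasureTheory.Measure.integral_comp_smul` etc.), smooth by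
`HasCompactSupport.contDiff_convolution_left`/`_right`, derivative by `HasCompactSupport.hasFDerivAt_convolution_right`
(derivative on `v`: `v` is smooth, `rhoε` has compact support and is integrable). Alternatively
`hasFDerivAt_integral_of_dominated_of_fderiv_le` for `x ↦ ∫ z in Q 1, rho z * v (x - ε • z)` gives
`fderiv (J ε v) x = ∫ z, rho z • fderiv v (x - ε • z)`, hence `J_pd`, and smoothness by `contDiff_infty_iff_fderiv`-type
induction, or by the convolution lemma. `J_Dw` by induction on the word. `J_lin`: integrals are linear. -/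

open MeasureTheory Set Filter Topology
open scoped ContDiff ENNReal NNReal

namespace QR

open BGS

theorem M1_int {E : Type} [NormedAddCommGroup E] [NormedSpace ℝ E] {g : Pl → E}
    (hg : Continuous g) : Integrable fun z => rho z • g z := by
  have hc : Continuous fun z => rho z • g z := rho_smooth.continuous.smul hg
  exact hc.integrable_of_hasCompactSupport (rho_cpt.smul_right (f' := g))

theorem J_integrable {ε : ℝ} {v : Pl → ℝ} (hv : Continuous v) (x : Pl) :
    Integrable fun z => rho z * v (x - ε • z) := by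
  have h : Continuous fun z : Pl => v (x - ε • z) := hv.comp (by fun_prop)
  exact M1_int h

theorem M1_conv {ε : ℝ} (hε : 0 < ε) (v : Pl → ℝ) (x : Pl) :
    J ε v x = (MeasureTheory.convolution rho (fun y => v (ε • y)) (ContinuousLinearMap.mul ℝ ℝ)
      volume) (ε⁻¹ • x) := by
  unfold J MeasureTheory.convolution
  refine integral_congr_ae (ae_of_all _ fun z => ?_)
  show rho z * v (x - ε • z) = rho z * v (ε • (ε⁻¹ • x - z))
  rw [smul_sub, smul_inv_smul₀ hε.ne']

theorem J_smooth {ε : ℝ} (hε : 0 < ε) {v : Pl → ℝ} (hv : ContDiff ℝ ∞ v) : ContDiff ℝ ∞ (J ε v) := by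
  have h0 : Continuous fun y : Pl => v (ε • y) := hv.continuous.comp (by fun_prop)
  have h1 : ContDiff ℝ ∞ (MeasureTheory.convolution rho (fun y => v (ε • y))
      (ContinuousLinearMap.mul ℝ ℝ) volume) :=
    rho_cpt.contDiff_convolution_left _ rho_smooth h0.locallyIntegrable
  have h2 : J ε v = fun x => (MeasureTheory.convolution rho (fun y => v (ε • y))
      (ContinuousLinearMap.mul ℝ ℝ) volume) (ε⁻¹ • x) := funext (M1_conv hε v)
  have h3 : ContDiff ℝ ∞ (fun x : Pl => ε⁻¹ • x) := by fun_prop
  rw [h2]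
  exact h1.comp h3

theorem M1_fderiv {ε : ℝ} {v : Pl → ℝ} (hv : ContDiff ℝ ∞ v) (x : Pl) :
    Integrable (fun z => rho z • fderiv ℝ v (x - ε • z)) ∧
    HasFDerivAt (J ε v) (∫ z, rho z • fderiv ℝ v (x - ε • z)) x := by
  have hv1 : Continuous (fderiv ℝ v) := hv.continuous_fderiv (by simp)
  have hv2 : Continuous fun z : Pl => fderiv ℝ v (x - ε • z) := hv1.comp (by fun_prop)
  obtain ⟨C, hC⟩ : ∃ C, ∀ y ∈ Metric.closedBall (0 : Pl) (‖x‖ + 1 + |ε|), ‖fderiv ℝ v y‖ ≤ C :=
    (isCompact_closedBall _ _).exists_bound_of_continuousOn hv1.continuousOn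
  refine ⟨M1_int hv2, ?_⟩
  refine hasFDerivAt_integral_of_dominated_of_fderiv_le (𝕜 := ℝ) (μ := volume)
    (F := fun (y : Pl) (z : Pl) => rho z * v (y - ε • z))
    (F' := fun (y : Pl) (z : Pl) => rho z • fderiv ℝ v (y - ε • z)) (s := Metric.ball x 1)
    (bound := fun z => rho z * C) (Metric.ball_mem_nhds x one_pos) ?_ ?_ ?_ ?_ ?_ ?_
  · exact Filter.Eventually.of_forall fun y =>
      (J_integrable hv.continuous y).aestronglyMeasurable
  · exact J_integrable hv.continuous x
  · exact (M1_int hv2).aestronglyMeasurable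
  · refine ae_of_all _ fun z y hy => ?_
    rw [norm_smul, Real.norm_eq_abs, abs_of_nonneg (rho_nonneg z)]
    rcases le_or_gt ‖z‖ 1 with hz | hz
    · refine mul_le_mul_of_nonneg_left (hC _ ?_) (rho_nonneg z)
      rw [mem_closedBall_zero_iff]
      have h1 : ‖y‖ ≤ ‖x‖ + 1 := by
        rw [Metric.mem_ball, dist_eq_norm] at hy
        have := norm_sub_norm_le y x
        linarith
      have h2 : ‖ε • z‖ ≤ |ε| := by
        rw [norm_smul, Real.norm_eq_abs]
        nlinarith [abs_nonneg ε]
      have h3 := norm_sub_le y (ε • z)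
      linarith
    · rw [rho_zero hz, zero_mul, zero_mul]
  · exact (M1_int (continuous_const (y := C)) : Integrable fun z => rho z • C)
  · refine ae_of_all _ fun z y _ => ?_
    have h1 : HasFDerivAt v (fderiv ℝ v (y - ε • z)) (y - ε • z) :=
      (hv.differentiable (by simp) _).hasFDerivAt
    have h2 : HasFDerivAt (fun y => v (y - ε • z)) (fderiv ℝ v (y - ε • z)) y := by
      have h3 := h1.comp y ((hasFDerivAt_id y).sub_const (ε • z))
      rw [ContinuousLinearMap.comp_id] at h3
      exact h3
    exact h2.const_mul (rho z)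

theorem J_pd {ε : ℝ} (hε : 0 < ε) {v : Pl → ℝ} (hv : ContDiff ℝ ∞ v) (b : Bool) (x : Pl) :
    pd b (J ε v) x = J ε (pd b v) x := by
  have _ := hε
  obtain ⟨h1, h2⟩ := M1_fderiv (ε := ε) hv x
  have h3 := h2.fderiv
  cases b
  · show fderiv ℝ (J ε v) x (0, 1) = ∫ z, rho z * fderiv ℝ v (x - ε • z) (0, 1)
    rw [h3, ContinuousLinearMap.integral_apply h1]
    rfl
  · show fderiv ℝ (J ε v) x (1, 0) = ∫ z, rho z * fderiv ℝ v (x - ε • z) (1, 0)
    rw [h3, ContinuousLinearMap.integral_apply h1]
    rfl

theorem J_Dw {ε : ℝ} (hε : 0 < ε) {v : Pl → ℝ} (hv : ContDiff ℝ ∞ v) (l : List Bool) (x : Pl) :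
    Dw l (J ε v) x = J ε (Dw l v) x := by
  induction l generalizing x with
  | nil => rfl
  | cons b l ih =>
    show pd b (Dw l (J ε v)) x = J ε (pd b (Dw l v)) x
    rw [funext ih]
    exact J_pd hε (smooth_Dw hv l) b x

theorem J_add {ε : ℝ} {u v : Pl → ℝ} (hu : Continuous u) (hv : Continuous v) (x : Pl) :
    J ε (fun y => u y + v y) x = J ε u x + J ε v x := by
  unfold J
  rw [← integral_add (J_integrable hu x) (J_integrable hv x)]
  refine integral_congr_ae (ae_of_all _ fun z => ?_)
  show rho z * (u (x - ε • z) + v (x - ε • z)) = rho z * u (x - ε • z) + rho z * v (x - ε • z)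
  ring

theorem J_sub {ε : ℝ} {u v : Pl → ℝ} (hu : Continuous u) (hv : Continuous v) (x : Pl) :
    J ε (fun y => u y - v y) x = J ε u x - J ε v x := by
  unfold J
  rw [← integral_sub (J_integrable hu x) (J_integrable hv x)]
  refine integral_congr_ae (ae_of_all _ fun z => ?_)
  show rho z * (u (x - ε • z) - v (x - ε • z)) = rho z * u (x - ε • z) - rho z * v (x - ε • z)
  ring

end QR
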