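import Pool.Agent.LibQR40.M1
import Pool.Agent.LibQR40.IP

/-! ROW M1k. Put auxiliary lemmas in this file, names starting with `M1k_`.
(kernel forms of the mollifier). PLAN: `J_ker`: substitute y = x - ε z (dimension 2; `MeasureTheory.Measure.integral_comp_smul`,
`integral_sub_left_eq_self`). `kerT`: smooth, support = {y : ‖x - y‖ ≤ ε}. `J_pd_ker`: J ε (pd b h) x = ∫ rho z (pd b h)(x - ε z) dz
(`J_pd`) and (pd b h)(x - ε z) = - ε⁻¹ ∂_b [z ↦ h (x - ε z)]; integrate by parts with `ip_mul` (f := z ↦ h (x - ε z), χ := rho). -/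

open MeasureTheory Set Filter Topology
open scoped ContDiff ENNReal NNReal

namespace QR

open BGS

theorem J_ker {ε : ℝ} (hε : 0 < ε) {v : Pl → ℝ} (hv : Continuous v) (x : Pl) :
    J ε v x = ∫ y, (ε ^ 2)⁻¹ * rho (ε⁻¹ • (x - y)) * v y := by
  have h1 : J ε v x = ∫ z, (fun w : Pl => rho (ε⁻¹ • w) * v (x - w)) (ε • z) := by
    unfold J
    refine integral_congr_ae (ae_of_all _ fun z => ?_)
    show rho z * v (x - ε • z) = rho (ε⁻¹ • (ε • z)) * v (x - ε • z)
    rw [smul_smul, inv_mul_cancel₀ hε.ne', one_smul]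
  have h2 : Module.finrank ℝ Pl = 2 := by
    show Module.finrank ℝ (ℝ × ℝ) = 2
    rw [Module.finrank_prod, Module.finrank_self]
  have h4 := Measure.integral_comp_smul (volume : Measure Pl)
    (fun w : Pl => rho (ε⁻¹ • w) * v (x - w)) ε
  rw [h1, h4, h2, abs_of_pos (by positivity), smul_eq_mul, ← integral_const_mul]
  have h3 := integral_sub_left_eq_self
    (fun y : Pl => (ε ^ 2)⁻¹ * rho (ε⁻¹ • (x - y)) * v y) (volume : Measure Pl) x
  rw [← h3]
  refine integral_congr_ae (ae_of_all _ fun z => ?_)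
  show (ε ^ 2)⁻¹ * (rho (ε⁻¹ • z) * v (x - z)) =
    (ε ^ 2)⁻¹ * rho (ε⁻¹ • (x - (x - z))) * v (x - z)
  rw [sub_sub_cancel, mul_assoc]

theorem kerT {ε : ℝ} (hε : 0 < ε) (x : Pl) : IsT fun y => (ε ^ 2)⁻¹ * rho (ε⁻¹ • (x - y)) := by
  refine ⟨contDiff_const.mul (rho_smooth.comp (ContDiff.const_smul ε⁻¹ (contDiff_const.sub contDiff_id))),
    HasCompactSupport.intro (isCompact_closedBall x ε) fun y hy => ?_⟩
  have h1 : ε < ‖x - y‖ := by
    rw [Metric.mem_closedBall, not_le, dist_comm, dist_eq_norm] at hy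
    exact hy
  have h2 : 1 < ‖ε⁻¹ • (x - y)‖ := by
    rw [norm_smul, Real.norm_eq_abs, abs_of_pos (inv_pos.2 hε), ← div_eq_inv_mul, lt_div_iff₀ hε,
      one_mul]
    exact h1
  show (ε ^ 2)⁻¹ * rho (ε⁻¹ • (x - y)) = 0
  rw [rho_zero h2, mul_zero]

private theorem M1k_fd {ε : ℝ} {h : Pl → ℝ} (hh : ContDiff ℝ ∞ h) (x z w : Pl) :
    fderiv ℝ (fun z : Pl => h (x - ε • z)) z w = -ε * fderiv ℝ h (x - ε • z) w := by
  have h1 : HasFDerivAt (fun z : Pl => x - ε • z) (-(ε • ContinuousLinearMap.id ℝ Pl)) z :=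
    ((hasFDerivAt_id z).const_smul ε).const_sub x
  have h2 : HasFDerivAt h (fderiv ℝ h (x - ε • z)) (x - ε • z) :=
    (hh.differentiable (by simp)).differentiableAt.hasFDerivAt
  have h3 := HasFDerivAt.comp z h2 h1
  have h4 : fderiv ℝ (fun z : Pl => h (x - ε • z)) z =
      (fderiv ℝ h (x - ε • z)).comp (-(ε • ContinuousLinearMap.id ℝ Pl)) := h3.fderiv
  rw [h4]
  show fderiv ℝ h (x - ε • z) (-(ε • w)) = _
  rw [map_neg, map_smul, smul_eq_mul, neg_mul]

private theorem M1k_pd {ε : ℝ} {h : Pl → ℝ} (hh : ContDiff ℝ ∞ h) (b : Bool) (x z : Pl) :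
    pd b (fun z : Pl => h (x - ε • z)) z = -ε * pd b h (x - ε • z) := by
  cases b
  · exact M1k_fd hh x z (0, 1)
  · exact M1k_fd hh x z (1, 0)

theorem J_pd_ker {ε : ℝ} (hε : 0 < ε) {h : Pl → ℝ} (hh : ContDiff ℝ ∞ h) (b : Bool) (x : Pl) :
    pd b (J ε h) x = ε⁻¹ * ∫ z, pd b rho z * h (x - ε • z) := by
  have hf : ContDiff ℝ ∞ fun z : Pl => h (x - ε • z) :=
    hh.comp (contDiff_const.sub (ContDiff.const_smul ε contDiff_id))
  have h1 := ip_mul hf ⟨rho_smooth, rho_cpt⟩ b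
  have h2 : ∫ z, pd b (fun z : Pl => h (x - ε • z)) z * rho z = -ε * J ε (pd b h) x := by
    unfold J
    rw [← integral_const_mul]
    refine integral_congr_ae (ae_of_all _ fun z => ?_)
    show pd b (fun z : Pl => h (x - ε • z)) z * rho z = -ε * (rho z * pd b h (x - ε • z))
    rw [M1k_pd hh]
    ring
  have h3 : ∫ z, (fun z : Pl => h (x - ε • z)) z * pd b rho z = ∫ z, pd b rho z * h (x - ε • z) :=
    integral_congr_ae (ae_of_all _ fun z => mul_comm _ _)
  rw [h2, h3] at h1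
  rw [J_pd hε hh]
  have h4 : ε * J ε (pd b h) x = ∫ z, pd b rho z * h (x - ε • z) := by linarith
  rw [← h4, ← mul_assoc, inv_mul_cancel₀ hε.ne', one_mul]

end QR
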