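import Pool.Agent.LibQR40.M1

/-! ROW M2b. Put auxiliary lemmas in this file, names starting with `M2b_`.
(J ε v - v). PLAN: v(x - ε z) - v(x) = - ε ∫_0^1 (z.1 dx v + z.2 dy v)(x - s ε z) ds (fundamental theorem of calculus on [0,1]),
so for z ∈ Q 1: (v(x - ε z) - v x)² ≤ 2 ε² ∫_0^1 G1 v (x - s ε z) ds, and (J ε v x - v x)² = (∫ rho z (v(x - ε z) - v x) dz)²
≤ ∫ rho z (v(x - ε z) - v x)² dz ≤ 2 ε² ∫ rho z ∫_0^1 G1 v (x - s ε z) ds dz; integrate over x ∈ Q R and exchange: ≤ 2 ε² n1 (R+1) v. -/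

open MeasureTheory Set Filter Topology
open scoped ContDiff ENNReal NNReal

namespace QR

open BGS

/-- Fubini on a product of two compact sets -/
private theorem M2b_swap {Y : Type} [TopologicalSpace Y] [SecondCountableTopology Y]
    [MeasureSpace Y] [OpensMeasurableSpace Y] [SFinite (volume : Measure Y)]
    [IsFiniteMeasureOnCompacts (volume : Measure Y)] [T2Space Y]
    {A : Set Pl} {B : Set Y} (hA : IsCompact A) (hB : IsCompact B) {H : Pl → Y → ℝ}
    (hH : Continuous (Function.uncurry H)) :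
    Integrable (Function.uncurry H) ((volume.restrict A).prod (volume.restrict B)) := by
  rw [Measure.prod_restrict]
  exact hH.continuousOn.integrableOn_compact (hA.prod hB)

/-- translation -/
private theorem M2b_trans {w : Pl → ℝ} (hw : Continuous w) (h0 : ∀ x, 0 ≤ w x) (R : ℝ) {a : Pl}
    (ha : ‖a‖ ≤ 1) : ∫ x in Q R, w (x - a) ≤ ∫ x in Q (R + 1), w x := by
  have e1 : ∫ x in Q R, w (x - a) = ∫ y in (fun y => y + a) ⁻¹' Q R, w y := by
    have hmQ : MeasurableSet (Q R) := Metric.isClosed_closedBall.measurableSet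
    have hm : MeasurableSet ((fun y : Pl => y + a) ⁻¹' Q R) :=
      hmQ.preimage (measurable_add_const a)
    rw [← integral_indicator hmQ, ← integral_indicator hm,
      ← integral_add_right_eq_self (fun x => (Q R).indicator (fun x => w (x - a)) x) a]
    refine integral_congr_ae (ae_of_all _ fun y => ?_)
    by_cases hy : y + a ∈ Q R
    · show (Q R).indicator (fun x => w (x - a)) (y + a) = _
      rw [indicator_of_mem hy, indicator_of_mem (show y ∈ (fun y : Pl => y + a) ⁻¹' Q R from hy),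
        add_sub_cancel_right]
    · show (Q R).indicator (fun x => w (x - a)) (y + a) = _
      rw [indicator_of_notMem hy,
        indicator_of_notMem (show y ∉ (fun y : Pl => y + a) ⁻¹' Q R from hy)]
  rw [e1]
  refine setIntegral_mono_set (intQ hw (R + 1)) (ae_of_all _ h0) (Eventually.of_forall ?_)
  intro y hy
  have h1 : ‖y + a‖ ≤ R := mem_closedBall_zero_iff.1 hy
  refine mem_closedBall_zero_iff.2 ?_
  calc ‖y‖ = ‖(y + a) - a‖ := by rw [add_sub_cancel_right]
    _ ≤ ‖y + a‖ + ‖a‖ := norm_sub_le _ _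
    _ ≤ R + 1 := add_le_add h1 ha

private theorem M2b_intrho : Integrable rho := by
  by_contra h
  have h1 := rho_int
  rw [integral_undef h] at h1
  exact zero_ne_one h1

/-- Cauchy–Schwarz for the mollifier -/
private theorem M2b_cs {ε : ℝ} {w : Pl → ℝ} (hw : Continuous w) (x : Pl) :
    J ε w x ^ 2 ≤ ∫ z in Q 1, rho z * w (x - ε • z) ^ 2 := by
  have e1 : ∫ z in Q 1, rho z * w (x - ε • z) ^ 2 = ∫ z, rho z * w (x - ε • z) ^ 2 := by
    refine setIntegral_eq_integral_of_forall_compl_eq_zero fun z hz => ?_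
    have hz' : 1 < ‖z‖ := by
      by_contra h
      exact hz (mem_closedBall_zero_iff.2 (not_lt.1 h))
    rw [rho_zero hz', zero_mul]
  rw [e1]
  set m := J ε w x with hm
  have i1 : Integrable fun z => rho z * w (x - ε • z) := J_integrable hw x
  have i2 : Integrable fun z => rho z * w (x - ε • z) ^ 2 :=
    J_integrable (v := fun y => w y ^ 2) (hw.pow 2) x
  have h0 : 0 ≤ ∫ z, rho z * (w (x - ε • z) - m) ^ 2 :=
    integral_nonneg fun z => mul_nonneg (rho_nonneg z) (sq_nonneg _)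
  have e2 : ∫ z, rho z * (w (x - ε • z) - m) ^ 2 =
      (∫ z, rho z * w (x - ε • z) ^ 2) - 2 * m * (∫ z, rho z * w (x - ε • z)) +
        m ^ 2 * ∫ z, rho z := by
    have i3 : Integrable fun z => rho z * w (x - ε • z) ^ 2 -
        2 * m * (rho z * w (x - ε • z)) := i2.sub (i1.const_mul _)
    have i4 : Integrable fun z => m ^ 2 * rho z := M2b_intrho.const_mul _
    rw [← integral_const_mul, ← integral_const_mul, ← integral_sub i2 (i1.const_mul _),
      ← integral_add i3 i4]
    refine integral_congr_ae (ae_of_all _ fun z => ?_)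
    show rho z * (w (x - ε • z) - m) ^ 2 =
      rho z * w (x - ε • z) ^ 2 - 2 * m * (rho z * w (x - ε • z)) + m ^ 2 * rho z
    ring
  have e3 : ∫ z, rho z * w (x - ε • z) = m := rfl
  rw [e2, e3, rho_int] at h0
  nlinarith

private theorem M2b_rho1 : ∫ z in Q 1, rho z = 1 := by
  refine (setIntegral_eq_integral_of_forall_compl_eq_zero fun z hz => ?_).trans rho_int
  have hz' : 1 < ‖z‖ := by
    by_contra h
    exact hz (mem_closedBall_zero_iff.2 (not_lt.1 h))
  exact rho_zero hz'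

/-- the double integral -/
private theorem M2b_main {R C : ℝ} {F : Pl → ℝ} {H : Pl → Pl → ℝ}
    (hH : Continuous (Function.uncurry H)) (hF0 : ∀ x, 0 ≤ F x)
    (hF : ∀ x, F x ≤ ∫ z in Q 1, rho z * H x z) (hH0 : ∀ x z, 0 ≤ H x z)
    (hC : ∀ z ∈ Q 1, ∫ x in Q R, H x z ≤ C) : ∫ x in Q R, F x ≤ C := by
  have hQ : ∀ r : ℝ, IsCompact (Q r) := fun r => isCompact_closedBall 0 r
  have hHc : Continuous (Function.uncurry fun (x : Pl) (z : Pl) => rho z * H x z) :=
    (rho_smooth.continuous.comp continuous_snd).mul hH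
  have hi := M2b_swap (hQ R) (hQ 1) hHc
  have h1 : ∫ x in Q R, F x ≤ ∫ x in Q R, ∫ z in Q 1, rho z * H x z :=
    integral_mono_of_nonneg (ae_of_all _ hF0) hi.integral_prod_left (ae_of_all _ hF)
  refine h1.trans ?_
  rw [integral_integral_swap hi]
  have h2 : ∫ z in Q 1, ∫ x in Q R, rho z * H x z ≤ ∫ z in Q 1, rho z * C := by
    refine integral_mono_of_nonneg (ae_of_all _ fun z => ?_) ?_ ?_
    · exact integral_nonneg fun x => mul_nonneg (rho_nonneg z) (hH0 x z)
    · exact (M2b_intrho.mul_const C).integrableOn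
    · refine (ae_restrict_iff' (hQ 1).measurableSet).2 (ae_of_all _ fun z hz => ?_)
      show ∫ x in Q R, rho z * H x z ≤ rho z * C
      rw [integral_const_mul]
      exact mul_le_mul_of_nonneg_left (hC z hz) (rho_nonneg z)
  refine h2.trans (le_of_eq ?_)
  rw [integral_mul_const, M2b_rho1, one_mul]

private theorem M2b_ftc {v : Pl → ℝ} (hv : ContDiff ℝ ∞ v) (x z : Pl) (ε : ℝ) (hz : ‖z‖ ≤ 1) :
    (v (x - ε • z) - v x) ^ 2 ≤
      ∫ s in Icc (0 : ℝ) 1, 2 * ε ^ 2 * G1 v (x - (s * ε) • z) := by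
  set g' : ℝ → ℝ := fun s => -ε * (z.1 * dx v (x - (s * ε) • z) + z.2 * dy v (x - (s * ε) • z))
    with hg'
  have hline : Continuous fun s : ℝ => x - (s * ε) • z :=
    continuous_const.sub ((continuous_id.mul continuous_const).smul continuous_const)
  have hg'c : Continuous g' :=
    continuous_const.mul ((continuous_const.mul ((Egr_smooth_dx hv).continuous.comp hline)).add
      (continuous_const.mul ((Egr_smooth_dy hv).continuous.comp hline)))
  have hder : ∀ s : ℝ, HasDerivAt (fun s : ℝ => v (x - (s * ε) • z)) (g' s) s := by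
    intro s
    have h1 : HasDerivAt (fun s : ℝ => x - (s * ε) • z) (-(ε • z)) s := by
      have h2 : HasDerivAt (fun s : ℝ => (s * ε) • z) (ε • z) s := by
        have h3 : HasDerivAt (fun s : ℝ => s * ε) ε s := by
          simpa using (hasDerivAt_id s).mul_const ε
        exact h3.smul_const z
      simpa using h2.const_sub x
    have h4 : HasFDerivAt v (fderiv ℝ v (x - (s * ε) • z)) (x - (s * ε) • z) :=
      (hv.differentiable (by simp)).differentiableAt.hasFDerivAt
    have h5 := h4.comp_hasDerivAt s h1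
    have h6 : fderiv ℝ v (x - (s * ε) • z) (-(ε • z)) = g' s := by
      have h7 : -(ε • z) = (-ε * z.1) • ((1 : ℝ), (0 : ℝ)) + (-ε * z.2) • ((0 : ℝ), (1 : ℝ)) := by
        ext <;> simp
      rw [h7, map_add, map_smul, map_smul, smul_eq_mul, smul_eq_mul]
      simp only [hg', dx, dy]
      ring
    rw [← h6]
    exact h5
  have hftc : ∫ s in (0 : ℝ)..1, g' s = v (x - ε • z) - v x := by
    rw [intervalIntegral.integral_eq_sub_of_hasDerivAt (fun s _ => hder s)
      (hg'c.intervalIntegrable 0 1)]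
    simp
  have hIcc : ∫ s in Icc (0 : ℝ) 1, g' s = v (x - ε • z) - v x := by
    rw [← hftc, intervalIntegral.integral_of_le zero_le_one, integral_Icc_eq_integral_Ioc]
  set m := v (x - ε • z) - v x with hm
  have i1 : IntegrableOn g' (Icc (0 : ℝ) 1) := hg'c.integrableOn_Icc
  have i2 : IntegrableOn (fun s => g' s ^ 2) (Icc (0 : ℝ) 1) := (hg'c.pow 2).integrableOn_Icc
  have i3 : IntegrableOn (fun _ : ℝ => m ^ 2) (Icc (0 : ℝ) 1) :=
    (continuous_const (y := m ^ 2)).integrableOn_Icc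
  have h0 : 0 ≤ ∫ s in Icc (0 : ℝ) 1, (g' s - m) ^ 2 := integral_nonneg fun s => sq_nonneg _
  have e2 : ∫ s in Icc (0 : ℝ) 1, (g' s - m) ^ 2 =
      (∫ s in Icc (0 : ℝ) 1, g' s ^ 2) - 2 * m * (∫ s in Icc (0 : ℝ) 1, g' s) +
        ∫ s in Icc (0 : ℝ) 1, m ^ 2 := by
    have i4 : IntegrableOn (fun s => g' s ^ 2 - 2 * m * g' s) (Icc (0 : ℝ) 1) :=
      i2.sub (i1.const_mul _)
    rw [← integral_const_mul, ← integral_sub i2 (i1.const_mul _), ← integral_add i4 i3]
    refine integral_congr_ae (ae_of_all _ fun s => ?_)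
    show (g' s - m) ^ 2 = g' s ^ 2 - 2 * m * g' s + m ^ 2
    ring
  have e3 : ∫ s in Icc (0 : ℝ) 1, m ^ 2 = m ^ 2 := by simp
  rw [e2, hIcc, e3] at h0
  have h8 : m ^ 2 ≤ ∫ s in Icc (0 : ℝ) 1, g' s ^ 2 := by nlinarith
  refine h8.trans ?_
  have hG : Continuous fun s : ℝ => 2 * ε ^ 2 * G1 v (x - (s * ε) • z) :=
    continuous_const.mul ((smooth_G1 hv).continuous.comp hline)
  refine integral_mono i2 hG.integrableOn_Icc fun s => ?_
  show g' s ^ 2 ≤ 2 * ε ^ 2 * G1 v (x - (s * ε) • z)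
  simp only [hg', G1]
  generalize dx v (x - (s * ε) • z) = p
  generalize dy v (x - (s * ε) • z) = q
  have hz1 : |z.1| ≤ 1 := (norm_fst_le z).trans hz
  have hz2 : |z.2| ≤ 1 := (norm_snd_le z).trans hz
  have a1 : z.1 ^ 2 ≤ 1 := by
    rw [← sq_abs]
    nlinarith [abs_nonneg z.1]
  have a2 : z.2 ^ 2 ≤ 1 := by
    rw [← sq_abs]
    nlinarith [abs_nonneg z.2]
  have a3 : (z.1 * p + z.2 * q) ^ 2 ≤ 2 * (p ^ 2 + q ^ 2) := by
    have b1 : (z.1 * p + z.2 * q) ^ 2 ≤ 2 * ((z.1 * p) ^ 2 + (z.2 * q) ^ 2) := by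
      nlinarith [sq_nonneg (z.1 * p - z.2 * q)]
    have b2 : (z.1 * p) ^ 2 ≤ p ^ 2 := by
      rw [mul_pow]
      nlinarith [sq_nonneg p]
    have b3 : (z.2 * q) ^ 2 ≤ q ^ 2 := by
      rw [mul_pow]
      nlinarith [sq_nonneg q]
    linarith
  have a4 : (-ε * (z.1 * p + z.2 * q)) ^ 2 = ε ^ 2 * (z.1 * p + z.2 * q) ^ 2 := by ring
  rw [a4]
  nlinarith [sq_nonneg ε]

theorem J_sub_L2 {ε : ℝ} (hε : 0 < ε) (hε1 : ε ≤ 1) (R : ℝ) {v : Pl → ℝ} (hv : ContDiff ℝ ∞ v) :
    n0 R (fun x => J ε v x - v x) ≤ 2 * ε ^ 2 * n1 (R + 1) v := by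
  unfold n0
  have hvc : Continuous v := hv.continuous
  have hc : Continuous (Function.uncurry fun (x z : Pl) => (v (x - ε • z) - v x) ^ 2) :=
    ((hvc.comp (continuous_fst.sub (continuous_snd.const_smul ε))).sub
      (hvc.comp continuous_fst)).pow 2
  refine M2b_main hc (fun x => sq_nonneg _) (fun x => ?_) (fun x z => sq_nonneg _) ?_
  · have h1 := M2b_cs (ε := ε) (w := fun y => v y - v x) (hvc.sub continuous_const) x
    have h2 : J ε (fun y => v y - v x) x = J ε v x - v x := by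
      unfold J
      have h3 : ∫ z, rho z * v x = v x := by
        rw [integral_mul_const, rho_int, one_mul]
      calc ∫ z, rho z * (v (x - ε • z) - v x)
          = ∫ z, (rho z * v (x - ε • z) - rho z * v x) := by
            refine integral_congr_ae (ae_of_all _ fun z => ?_)
            show rho z * (v (x - ε • z) - v x) = rho z * v (x - ε • z) - rho z * v x
            ring
        _ = (∫ z, rho z * v (x - ε • z)) - ∫ z, rho z * v x :=
            integral_sub (J_integrable hvc x) (M2b_intrho.mul_const _)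
        _ = _ := by rw [h3]
    rw [h2] at h1
    exact h1
  · intro z hz
    have hz1 : ‖z‖ ≤ 1 := mem_closedBall_zero_iff.1 hz
    have hG := (smooth_G1 hv).continuous
    have hHc : Continuous (Function.uncurry fun (x : Pl) (s : ℝ) =>
        2 * ε ^ 2 * G1 v (x - (s * ε) • z)) :=
      continuous_const.mul (hG.comp (continuous_fst.sub
        ((continuous_snd.mul continuous_const).smul continuous_const)))
    have hi := M2b_swap (isCompact_closedBall (0 : Pl) R) (isCompact_Icc (a := (0 : ℝ)) (b := 1))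
      hHc
    have h1 : ∫ x in Q R, (v (x - ε • z) - v x) ^ 2 ≤
        ∫ x in Q R, ∫ s in Icc (0 : ℝ) 1, 2 * ε ^ 2 * G1 v (x - (s * ε) • z) :=
      integral_mono_of_nonneg (ae_of_all _ fun x => sq_nonneg _) hi.integral_prod_left
        (ae_of_all _ fun x => M2b_ftc hv x z ε hz1)
    refine h1.trans ?_
    have h2 : ∫ x in Q R, ∫ s in Icc (0 : ℝ) 1, 2 * ε ^ 2 * G1 v (x - (s * ε) • z) =
        ∫ s in Icc (0 : ℝ) 1, ∫ x in Q R, 2 * ε ^ 2 * G1 v (x - (s * ε) • z) :=
      integral_integral_swap hi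
    rw [h2]
    have h3 : ∫ s in Icc (0 : ℝ) 1, ∫ x in Q R, 2 * ε ^ 2 * G1 v (x - (s * ε) • z) ≤
        ∫ s in Icc (0 : ℝ) 1, 2 * ε ^ 2 * n1 (R + 1) v := by
      refine integral_mono_of_nonneg (ae_of_all _ fun s => ?_) ?_ ?_
      · refine integral_nonneg fun x => ?_
        have : 0 ≤ G1 v (x - (s * ε) • z) := add_nonneg (sq_nonneg _) (sq_nonneg _)
        show 0 ≤ 2 * ε ^ 2 * G1 v (x - (s * ε) • z)
        positivity
      · exact (continuous_const (y := 2 * ε ^ 2 * n1 (R + 1) v)).integrableOn_Icc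
      · refine (ae_restrict_iff' measurableSet_Icc).2 (ae_of_all _ fun s hs => ?_)
        show ∫ x in Q R, 2 * ε ^ 2 * G1 v (x - (s * ε) • z) ≤ 2 * ε ^ 2 * n1 (R + 1) v
        rw [integral_const_mul]
        refine mul_le_mul_of_nonneg_left ?_ (by positivity)
        refine M2b_trans hG (fun x => add_nonneg (sq_nonneg _) (sq_nonneg _)) R ?_
        rw [norm_smul, Real.norm_of_nonneg (mul_nonneg hs.1 hε.le)]
        have h4 : s * ε ≤ 1 := by nlinarith [hs.1, hs.2]
        have h5 : 0 ≤ s * ε := mul_nonneg hs.1 hε.le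
        nlinarith [norm_nonneg z]
    refine h3.trans (le_of_eq ?_)
    simp

end QR
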