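import Pool.Agent.LibQR40.M1k

/-! ROW M2c. Put auxiliary lemmas in this file, names starting with `M2c_`.
(kernel bound). PLAN: by induction on l: there is a continuous function k_l with compact support (support in Q 1) with
Dw l (J ε v) x = ∫ z, k_l z * v (x - ε z) dz for all smooth v (start k_[] = rho; step: as in `J_pd_ker`: k_{b::l} = ε⁻¹ pd b k_l for smooth
k_l; so keep k_l smooth with tsupport ⊆ Q 1; note Dw (b :: l) (J ε v) = pd b (Dw l (J ε v)) = Dw l (J ε (pd b v)) by `J_Dw` and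
commuting, or differentiate under the integral). Then for x ∈ Q R only x - ε z ∈ Q (R+1) matters; Cauchy–Schwarz with
∫ k_l² and the substitution y = x - ε z gives the bound with C = ε⁻² ∫ k_l² (+ 1). Alternatively use `J_ker`:
Dw l (J ε v) x = ∫ y, (Dw l of x ↦ (ε ^ 2)⁻¹ rho (ε⁻¹ • (x - y))) v y. Alternative by `J_Dw`, `J_ker` and integration by parts:
Dw l (J ε v) x = J ε (Dw l v) x = ∫ y, χx y * Dw l v y with the test function χx y = (ε ^ 2)⁻¹ rho (ε⁻¹ • (x - y)) (`kerT`), `ip_mul` |l| times gives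
± ∫ (Dw l.reverse χx) v, and Dw _ χx y = (-1)^|l| ε^(-2-|l|) (Dw _ rho)(ε⁻¹ • (x - y)), bounded by a constant, supported in Q (R+1). -/

open MeasureTheory Set Filter Topology
open scoped ContDiff ENNReal NNReal

namespace QR

open BGS

theorem M2c_pd_comp {h : Pl → ℝ} (hh : ContDiff ℝ ∞ h) (ε : ℝ) (x : Pl) (b : Bool) (z : Pl) :
    pd b (fun z => h (x - ε • z)) z = -ε * pd b h (x - ε • z) := by
  have h1 : HasFDerivAt (fun z : Pl => x - ε • z) (-(ε • ContinuousLinearMap.id ℝ Pl)) z := by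
    have := ((hasFDerivAt_id (𝕜 := ℝ) z).const_smul ε).const_sub x
    exact this
  have h2 : HasFDerivAt h (fderiv ℝ h (x - ε • z)) (x - ε • z) :=
    (hh.differentiable (by simp) (x - ε • z)).hasFDerivAt
  have h3 := h2.comp z h1
  have h4 : fderiv ℝ (fun z => h (x - ε • z)) z =
      (fderiv ℝ h (x - ε • z)).comp (-(ε • ContinuousLinearMap.id ℝ Pl)) := h3.fderiv
  have h5 : ∀ w : Pl, fderiv ℝ (fun z => h (x - ε • z)) z w =
      -ε * fderiv ℝ h (x - ε • z) w := by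
    intro w
    rw [h4]
    simp [neg_mul]
  cases b
  · exact h5 (0, 1)
  · exact h5 (1, 0)

theorem M2c_step {ε : ℝ} (hε : 0 < ε) {h : Pl → ℝ} (hh : ContDiff ℝ ∞ h) {χ : Pl → ℝ}
    (hχ : IsT χ) (b : Bool) (x : Pl) :
    ∫ z, χ z * pd b h (x - ε • z) = ε⁻¹ * ∫ z, pd b χ z * h (x - ε • z) := by
  have hf : ContDiff ℝ ∞ (fun z : Pl => h (x - ε • z)) :=
    hh.comp (contDiff_const.sub (contDiff_id.const_smul ε))
  have h1 := ip_mul hf hχ b
  simp only [M2c_pd_comp hh] at h1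
  have h2 : ∫ z, -ε * pd b h (x - ε • z) * χ z = -ε * ∫ z, χ z * pd b h (x - ε • z) := by
    rw [← integral_const_mul]
    congr 1
    funext z
    ring
  have h3 : ∫ z, h (x - ε • z) * pd b χ z = ∫ z, pd b χ z * h (x - ε • z) := by
    congr 1
    funext z
    ring
  rw [h2, h3] at h1
  rw [eq_inv_mul_iff_mul_eq₀ hε.ne']
  linarith

/-- the derivatives moved to the test function -/
noncomputable def M2c_R : List Bool → (Pl → ℝ) → Pl → ℝ
  | [], χ => χ
  | b :: l, χ => M2c_R l (pd b χ)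

theorem M2c_move {ε : ℝ} (hε : 0 < ε) {v : Pl → ℝ} (hv : ContDiff ℝ ∞ v) (l : List Bool)
    (x : Pl) : ∀ χ : Pl → ℝ, IsT χ → ∫ z, χ z * Dw l v (x - ε • z) =
      ε⁻¹ ^ l.length * ∫ z, M2c_R l χ z * v (x - ε • z) := by
  induction l with
  | nil =>
    intro χ _
    simp [Dw, M2c_R]
  | cons b l ih =>
    intro χ hχ
    have h1 := M2c_step hε (smooth_Dw hv l) hχ b x
    have h2 := ih (pd b χ) (cpt_pd hχ b)
    show ∫ z, χ z * pd b (Dw l v) (x - ε • z) = _
    rw [h1, h2, List.length_cons, pow_succ, M2c_R]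
    ring

theorem M2c_R_T (l : List Bool) : ∀ χ : Pl → ℝ, IsT χ → IsT (M2c_R l χ) := by
  induction l with
  | nil => intro χ h; exact h
  | cons b l ih => intro χ h; exact ih _ (cpt_pd h b)

theorem M2c_pd_zero {χ : Pl → ℝ} (h : ∀ z : Pl, 1 < ‖z‖ → χ z = 0) (b : Bool) :
    ∀ z : Pl, 1 < ‖z‖ → pd b χ z = 0 := by
  intro z hz
  have h1 : χ =ᶠ[𝓝 z] fun _ => 0 := by
    have h2 : {z : Pl | 1 < ‖z‖} ∈ 𝓝 z := (isOpen_lt continuous_const continuous_norm).mem_nhds hz
    filter_upwards [h2] with w hw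
    exact h w hw
  have h3 : fderiv ℝ χ z = 0 := by
    rw [h1.fderiv_eq]
    simp
  cases b
  · show fderiv ℝ χ z (0, 1) = 0
    rw [h3]; rfl
  · show fderiv ℝ χ z (1, 0) = 0
    rw [h3]; rfl

theorem M2c_R_zero (l : List Bool) : ∀ χ : Pl → ℝ, (∀ z : Pl, 1 < ‖z‖ → χ z = 0) →
    ∀ z : Pl, 1 < ‖z‖ → M2c_R l χ z = 0 := by
  induction l with
  | nil => intro χ h; exact h
  | cons b l ih => intro χ h; exact ih _ (M2c_pd_zero h b)

theorem M2c_cs {k w : Pl → ℝ} (hk : Continuous k) (hw : Continuous w) :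
    (∫ z in Q 1, k z * w z) ^ 2 ≤ (∫ z in Q 1, k z ^ 2) * ∫ z in Q 1, w z ^ 2 := by
  have h1 : ∀ t : ℝ, 0 ≤ (∫ z in Q 1, k z ^ 2) * (t * t) + (-2 * ∫ z in Q 1, k z * w z) * t +
      ∫ z in Q 1, w z ^ 2 := by
    intro t
    have e1 : IntegrableOn (fun z => k z ^ 2) (Q 1) := intQ (hk.pow 2) 1
    have e2 : IntegrableOn (fun z => k z * w z) (Q 1) := intQ (hk.mul hw) 1
    have e3 : IntegrableOn (fun z => w z ^ 2) (Q 1) := intQ (hw.pow 2) 1
    have e4 : IntegrableOn (fun z => t * t * k z ^ 2 + -2 * t * (k z * w z)) (Q 1) :=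
      (e1.const_mul (t * t)).add (e2.const_mul (-2 * t))
    have h2 : ∫ z in Q 1, (t * k z - w z) ^ 2 = (∫ z in Q 1, k z ^ 2) * (t * t) +
        (-2 * ∫ z in Q 1, k z * w z) * t + ∫ z in Q 1, w z ^ 2 := by
      have h3 : ∀ z, (t * k z - w z) ^ 2 = (t * t) * k z ^ 2 + (-2 * t) * (k z * w z) +
          w z ^ 2 := by
        intro z
        ring
      simp only [h3]
      rw [integral_add e4 e3,
        integral_add (e1.const_mul (t * t)) (e2.const_mul (-2 * t)), integral_const_mul,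
        integral_const_mul]
      ring
    rw [← h2]
    exact integral_nonneg fun z => sq_nonneg _
  have h4 := discrim_le_zero h1
  rw [discrim] at h4
  nlinarith

theorem M2c_sub {ε : ℝ} (hε : 0 < ε) (hε1 : ε ≤ 1) {R : ℝ} {v : Pl → ℝ} (hv : Continuous v)
    {x : Pl} (hx : x ∈ Q R) :
    ∫ z in Q 1, v (x - ε • z) ^ 2 ≤ (ε ^ 2)⁻¹ * n0 (R + 1) v := by
  set g : Pl → ℝ := (Q (R + 1)).indicator fun y => v y ^ 2 with hg
  have hQm : MeasurableSet (Q (R + 1)) := Metric.isClosed_closedBall.measurableSet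
  have hgi : Integrable g := (intQ (hv.pow 2) (R + 1)).integrable_indicator hQm
  have h1 : ∫ y, g y = n0 (R + 1) v := by
    rw [hg, integral_indicator hQm, n0]
  have h2 : ∫ z, g (x - ε • z) = (ε ^ 2)⁻¹ * ∫ y, g y := by
    have h3 := Measure.integral_comp_smul (volume : Measure Pl) (fun y => g (x - y)) ε
    rw [h3, integral_sub_left_eq_self g volume x, smul_eq_mul]
    have h4 : Module.finrank ℝ Pl = 2 := by
      rw [Module.finrank_prod, Module.finrank_self]
    rw [h4, abs_of_nonneg (by positivity)]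
  have hint : Integrable fun z => g (x - ε • z) := by
    have h5 : Integrable fun y => g (x - y) := hgi.comp_sub_left x
    exact h5.comp_smul hε.ne'
  have hg0 : ∀ y, 0 ≤ g y := by
    intro y
    rw [hg]
    exact indicator_nonneg (fun y _ => sq_nonneg _) y
  rw [← h1, ← h2]
  calc ∫ z in Q 1, v (x - ε • z) ^ 2 = ∫ z in Q 1, g (x - ε • z) := by
        refine setIntegral_congr_fun Metric.isClosed_closedBall.measurableSet fun z hz => ?_
        have hz1 : ‖z‖ ≤ 1 := mem_closedBall_zero_iff.1 hz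
        have hx1 : ‖x‖ ≤ R := mem_closedBall_zero_iff.1 hx
        have h6 : x - ε • z ∈ Q (R + 1) := by
          rw [Q, mem_closedBall_zero_iff]
          refine (norm_sub_le _ _).trans ?_
          rw [norm_smul, Real.norm_eq_abs, abs_of_pos hε]
          nlinarith [norm_nonneg z]
        show _ = g (x - ε • z)
        rw [hg, indicator_of_mem h6]
    _ ≤ ∫ z, g (x - ε • z) := setIntegral_le_integral hint (ae_of_all _ fun z => hg0 _)

theorem J_kernel {ε : ℝ} (hε : 0 < ε) (hε1 : ε ≤ 1) (R : ℝ) (l : List Bool) :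
    ∃ C : ℝ, 0 < C ∧ ∀ v : Pl → ℝ, ContDiff ℝ ∞ v → ∀ x ∈ Q R,
      Dw l (J ε v) x ^ 2 ≤ C * n0 (R + 1) v := by
  set k : Pl → ℝ := M2c_R l rho with hk
  have hkT : IsT k := M2c_R_T l rho ⟨rho_smooth, rho_cpt⟩
  have hk0 : ∀ z : Pl, 1 < ‖z‖ → k z = 0 := M2c_R_zero l rho fun z hz => rho_zero hz
  set K : ℝ := ∫ z in Q 1, k z ^ 2 with hK
  have hK0 : 0 ≤ K := integral_nonneg fun z => sq_nonneg _
  refine ⟨(ε⁻¹ ^ l.length) ^ 2 * (K * (ε ^ 2)⁻¹) + 1, by positivity, fun v hv x hx => ?_⟩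
  have h1 : Dw l (J ε v) x = ε⁻¹ ^ l.length * ∫ z, k z * v (x - ε • z) := by
    rw [J_Dw hε hv l x]
    exact M2c_move hε hv l x rho ⟨rho_smooth, rho_cpt⟩
  have h2 : ∫ z, k z * v (x - ε • z) = ∫ z in Q 1, k z * v (x - ε • z) := by
    refine (setIntegral_eq_integral_of_forall_compl_eq_zero fun z hz => ?_).symm
    have hz1 : 1 < ‖z‖ := by
      by_contra hcon
      exact hz (mem_closedBall_zero_iff.2 (not_lt.1 hcon))
    rw [hk0 z hz1, zero_mul]
  have hw : Continuous fun z : Pl => v (x - ε • z) :=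
    hv.continuous.comp (continuous_const.sub (continuous_id.const_smul ε))
  have h3 := M2c_cs hkT.1.continuous hw
  have h4 := M2c_sub hε hε1 hv.continuous hx
  have h5 := n0_nonneg (R + 1) v
  rw [h1, h2, mul_pow]
  calc (ε⁻¹ ^ l.length) ^ 2 * (∫ z in Q 1, k z * v (x - ε • z)) ^ 2
      ≤ (ε⁻¹ ^ l.length) ^ 2 * (K * ((ε ^ 2)⁻¹ * n0 (R + 1) v)) := by
        refine mul_le_mul_of_nonneg_left (h3.trans ?_) (by positivity)
        exact mul_le_mul_of_nonneg_left h4 hK0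
    _ ≤ ((ε⁻¹ ^ l.length) ^ 2 * (K * (ε ^ 2)⁻¹) + 1) * n0 (R + 1) v := by
        nlinarith

end QR
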