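import Pool.Agent.LibQR40.M1

/-! ROW M2a. Put auxiliary lemmas in this file, names starting with `M2a_`.
(L² bound of the mollifier). PLAN: Cauchy–Schwarz with the probability density `rho`: (J ε v x)² ≤ ∫ rho z v(x - ε z)² dz
(e.g. 0 ≤ ∫ rho z (v(x - ε z) - J ε v x)² dz); integrate over x ∈ Q R and exchange (Fubini on the compact set Q R × Q 1:
continuous integrand, `integral_integral_swap` with integrability on the product, or Tonelli with lintegral); for z ∈ Q 1 the
translate of Q R by - ε z is contained in Q (R+1). -/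

open MeasureTheory Set Filter Topology
open scoped ContDiff ENNReal NNReal

namespace QR

open BGS

/-- Fubini on a product of two compact sets -/
private theorem M2a_swap {Y : Type} [TopologicalSpace Y] [SecondCountableTopology Y]
    [MeasureSpace Y] [OpensMeasurableSpace Y] [SFinite (volume : Measure Y)]
    [IsFiniteMeasureOnCompacts (volume : Measure Y)] [T2Space Y]
    {A : Set Pl} {B : Set Y} (hA : IsCompact A) (hB : IsCompact B) {H : Pl → Y → ℝ}
    (hH : Continuous (Function.uncurry H)) :
    Integrable (Function.uncurry H) ((volume.restrict A).prod (volume.restrict B)) := by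
  rw [Measure.prod_restrict]
  exact hH.continuousOn.integrableOn_compact (hA.prod hB)

/-- translation -/
private theorem M2a_trans {w : Pl → ℝ} (hw : Continuous w) (h0 : ∀ x, 0 ≤ w x) (R : ℝ) {a : Pl}
    (ha : ‖a‖ ≤ 1) : ∫ x in Q R, w (x - a) ≤ ∫ x in Q (R + 1), w x := by
  have e1 : ∫ x in Q R, w (x - a) = ∫ y in (fun y => y + a) ⁻¹' Q R, w y := by
    have hmQ : MeasurableSet (Q R) := Metric.isClosed_closedBall.measurableSet
    have hm : MeasurableSet ((fun y : Pl => y + a) ⁻¹' Q R) :=
      hmQ.preimage (measurable_add_const a)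
    rw [← integral_indicator hmQ, ← integral_indicator hm,
      ← integral_add_right_eq_self (fun x => (Q R).indicator (fun x => w (x - a)) x) a]
    refine integral_congr_ae (ae_of_all _ fun y => ?_)
    by_cases hy : y + a ∈ Q R
    · show (Q R).indicator (fun x => w (x - a)) (y + a) = _
      rw [indicator_of_mem hy, indicator_of_mem (show y ∈ (fun y : Pl => y + a) ⁻¹' Q R from hy),
        add_sub_cancel_right]
    · show (Q R).indicator (fun x => w (x - a)) (y + a) = _
      rw [indicator_of_notMem hy,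
        indicator_of_notMem (show y ∉ (fun y : Pl => y + a) ⁻¹' Q R from hy)]
  rw [e1]
  refine setIntegral_mono_set (intQ hw (R + 1)) (ae_of_all _ h0) (Eventually.of_forall ?_)
  intro y hy
  have h1 : ‖y + a‖ ≤ R := mem_closedBall_zero_iff.1 hy
  refine mem_closedBall_zero_iff.2 ?_
  calc ‖y‖ = ‖(y + a) - a‖ := by rw [add_sub_cancel_right]
    _ ≤ ‖y + a‖ + ‖a‖ := norm_sub_le _ _
    _ ≤ R + 1 := add_le_add h1 ha

private theorem M2a_intrho : Integrable rho := by
  by_contra h
  have h1 := rho_int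
  rw [integral_undef h] at h1
  exact zero_ne_one h1

/-- Cauchy–Schwarz for the mollifier -/
private theorem M2a_cs {ε : ℝ} {w : Pl → ℝ} (hw : Continuous w) (x : Pl) :
    J ε w x ^ 2 ≤ ∫ z in Q 1, rho z * w (x - ε • z) ^ 2 := by
  have e1 : ∫ z in Q 1, rho z * w (x - ε • z) ^ 2 = ∫ z, rho z * w (x - ε • z) ^ 2 := by
    refine setIntegral_eq_integral_of_forall_compl_eq_zero fun z hz => ?_
    have hz' : 1 < ‖z‖ := by
      by_contra h
      exact hz (mem_closedBall_zero_iff.2 (not_lt.1 h))
    rw [rho_zero hz', zero_mul]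
  rw [e1]
  set m := J ε w x with hm
  have i1 : Integrable fun z => rho z * w (x - ε • z) := J_integrable hw x
  have i2 : Integrable fun z => rho z * w (x - ε • z) ^ 2 :=
    J_integrable (v := fun y => w y ^ 2) (hw.pow 2) x
  have h0 : 0 ≤ ∫ z, rho z * (w (x - ε • z) - m) ^ 2 :=
    integral_nonneg fun z => mul_nonneg (rho_nonneg z) (sq_nonneg _)
  have e2 : ∫ z, rho z * (w (x - ε • z) - m) ^ 2 =
      (∫ z, rho z * w (x - ε • z) ^ 2) - 2 * m * (∫ z, rho z * w (x - ε • z)) +
        m ^ 2 * ∫ z, rho z := by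
    have i3 : Integrable fun z => rho z * w (x - ε • z) ^ 2 -
        2 * m * (rho z * w (x - ε • z)) := i2.sub (i1.const_mul _)
    have i4 : Integrable fun z => m ^ 2 * rho z := M2a_intrho.const_mul _
    rw [← integral_const_mul, ← integral_const_mul, ← integral_sub i2 (i1.const_mul _),
      ← integral_add i3 i4]
    refine integral_congr_ae (ae_of_all _ fun z => ?_)
    show rho z * (w (x - ε • z) - m) ^ 2 =
      rho z * w (x - ε • z) ^ 2 - 2 * m * (rho z * w (x - ε • z)) + m ^ 2 * rho z
    ring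
  have e3 : ∫ z, rho z * w (x - ε • z) = m := rfl
  rw [e2, e3, rho_int] at h0
  nlinarith

private theorem M2a_rho1 : ∫ z in Q 1, rho z = 1 := by
  refine (setIntegral_eq_integral_of_forall_compl_eq_zero fun z hz => ?_).trans rho_int
  have hz' : 1 < ‖z‖ := by
    by_contra h
    exact hz (mem_closedBall_zero_iff.2 (not_lt.1 h))
  exact rho_zero hz'

/-- the double integral -/
private theorem M2a_main {R C : ℝ} {F : Pl → ℝ} {H : Pl → Pl → ℝ}
    (hH : Continuous (Function.uncurry H)) (hF0 : ∀ x, 0 ≤ F x)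
    (hF : ∀ x, F x ≤ ∫ z in Q 1, rho z * H x z) (hH0 : ∀ x z, 0 ≤ H x z)
    (hC : ∀ z ∈ Q 1, ∫ x in Q R, H x z ≤ C) : ∫ x in Q R, F x ≤ C := by
  have hQ : ∀ r : ℝ, IsCompact (Q r) := fun r => isCompact_closedBall 0 r
  have hHc : Continuous (Function.uncurry fun (x : Pl) (z : Pl) => rho z * H x z) :=
    (rho_smooth.continuous.comp continuous_snd).mul hH
  have hi := M2a_swap (hQ R) (hQ 1) hHc
  have h1 : ∫ x in Q R, F x ≤ ∫ x in Q R, ∫ z in Q 1, rho z * H x z :=
    integral_mono_of_nonneg (ae_of_all _ hF0) hi.integral_prod_left (ae_of_all _ hF)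
  refine h1.trans ?_
  rw [integral_integral_swap hi]
  have h2 : ∫ z in Q 1, ∫ x in Q R, rho z * H x z ≤ ∫ z in Q 1, rho z * C := by
    refine integral_mono_of_nonneg (ae_of_all _ fun z => ?_) ?_ ?_
    · exact integral_nonneg fun x => mul_nonneg (rho_nonneg z) (hH0 x z)
    · exact (M2a_intrho.mul_const C).integrableOn
    · refine (ae_restrict_iff' (hQ 1).measurableSet).2 (ae_of_all _ fun z hz => ?_)
      show ∫ x in Q R, rho z * H x z ≤ rho z * C
      rw [integral_const_mul]
      exact mul_le_mul_of_nonneg_left (hC z hz) (rho_nonneg z)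
  refine h2.trans (le_of_eq ?_)
  rw [integral_mul_const, M2a_rho1, one_mul]

theorem J_L2 {ε : ℝ} (hε : 0 < ε) (hε1 : ε ≤ 1) (R : ℝ) {v : Pl → ℝ} (hv : Continuous v) :
    n0 R (J ε v) ≤ n0 (R + 1) v := by
  unfold n0
  have hc : Continuous (Function.uncurry fun (x z : Pl) => v (x - ε • z) ^ 2) :=
    (hv.comp (continuous_fst.sub (continuous_snd.const_smul ε))).pow 2
  refine M2a_main hc (fun x => sq_nonneg _) (fun x => M2a_cs hv x) (fun x z => sq_nonneg _) ?_
  intro z hz
  have hz1 : ‖z‖ ≤ 1 := mem_closedBall_zero_iff.1 hz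
  refine M2a_trans (w := fun y => v y ^ 2) (hv.pow 2) (fun x => sq_nonneg _) R ?_
  rw [norm_smul, Real.norm_of_nonneg hε.le]
  nlinarith [norm_nonneg z]

end QR
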