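import Pool.Agent.LibQR40.Defs

/-! ROW SLb. Put auxiliary lemmas in this file, names starting with `SLb_`.
(easy facts on `ULim`). `ULim_unique`: l = [] and uniqueness of limits. `ULim_Dw`: Dw l' (Dw l v) = Dw (l' ++ l) v.
`ULim_n0`: uniform convergence on the compact set Q R (finite measure). -/

open MeasureTheory Set Filter Topology
open scoped ContDiff ENNReal NNReal

namespace QR

open BGS

private theorem SLb_tend {v : ℕ → Pl → ℝ} {V : Pl → ℝ} (h : ULim v V) (l : List Bool) (z : Pl) :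
    Tendsto (fun n => Dw l (v n) z) atTop (𝓝 (Dw l V z)) := by
  rw [Metric.tendsto_atTop]
  intro ε hε
  obtain ⟨N, hN⟩ := h.2 l ‖z‖ (ε / 2) (half_pos hε)
  refine ⟨N, fun n hn => ?_⟩
  have h1 := hN n hn z (by rw [Q, mem_closedBall_zero_iff])
  rw [Real.dist_eq]
  linarith

private theorem SLb_Dw_append (l' l : List Bool) (v : Pl → ℝ) : Dw l' (Dw l v) = Dw (l' ++ l) v := by
  induction l' with
  | nil => rfl
  | cons b l' ih =>
    show pd b (Dw l' (Dw l v)) = pd b (Dw (l' ++ l) v)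
    rw [ih]

private theorem SLb_dom (R : ℝ) (F : ℕ → Pl → ℝ) (f bound : Pl → ℝ) (hF : ∀ n, Continuous (F n))
    (hb : Continuous bound) (hle : ∃ N : ℕ, ∀ n, N ≤ n → ∀ z ∈ Q R, |F n z| ≤ bound z)
    (hlim : ∀ z, Tendsto (fun n => F n z) atTop (𝓝 (f z))) :
    Tendsto (fun n => ∫ z in Q R, F n z) atTop (𝓝 (∫ z in Q R, f z)) := by
  refine tendsto_integral_filter_of_dominated_convergence bound ?_ ?_ (intQ hb R) ?_
  · exact Eventually.of_forall fun n => (hF n).aestronglyMeasurable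
  · obtain ⟨N, hN⟩ := hle
    filter_upwards [eventually_ge_atTop N] with n hn
    have hm : MeasurableSet (Q R) := measurableSet_closedBall
    refine (ae_restrict_iff' hm).2 (ae_of_all _ fun z hz => ?_)
    rw [Real.norm_eq_abs]
    exact hN n hn z hz
  · exact ae_of_all _ fun z => hlim z

/-- The limit is unique. -/
theorem ULim_unique {v : ℕ → Pl → ℝ} {V W : Pl → ℝ} (h : ULim v V) (h' : ULim v W) : V = W := by
  funext z
  exact tendsto_nhds_unique (SLb_tend h [] z) (SLb_tend h' [] z)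

/-- Derivatives of a limit. -/
theorem ULim_Dw {v : ℕ → Pl → ℝ} {V : Pl → ℝ} (h : ULim v V) (l : List Bool) :
    ULim (fun n => Dw l (v n)) (Dw l V) := by
  refine ⟨smooth_Dw h.1 l, fun l' R δ hδ => ?_⟩
  obtain ⟨N, hN⟩ := h.2 (l' ++ l) R δ hδ
  refine ⟨N, fun n hn z hz => ?_⟩
  rw [SLb_Dw_append, SLb_Dw_append]
  exact hN n hn z hz

/-- The `L²` norms converge. -/
theorem ULim_n0 {v : ℕ → Pl → ℝ} {V : Pl → ℝ} (hv : ∀ n, ContDiff ℝ ∞ (v n)) (h : ULim v V)
    (l : List Bool) (R : ℝ) :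
    Tendsto (fun n => n0 R (fun z => Dw l (v n) z - Dw l V z)) atTop (𝓝 0) ∧
      Tendsto (fun n => n0 R (Dw l (v n))) atTop (𝓝 (n0 R (Dw l V))) := by
  have hV : Continuous (Dw l V) := (smooth_Dw h.1 l).continuous
  have hvn : ∀ n, Continuous (Dw l (v n)) := fun n => (smooth_Dw (hv n) l).continuous
  obtain ⟨N, hN⟩ := h.2 l R 1 one_pos
  constructor
  · have h1 := SLb_dom R (fun n z => (Dw l (v n) z - Dw l V z) ^ 2) (fun _ => 0) (fun _ => 1)
      (fun n => ((hvn n).sub hV).pow 2) continuous_const ?_ ?_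
    · rw [integral_zero] at h1
      exact h1
    · refine ⟨N, fun n hn z hz => ?_⟩
      have h2 := hN n hn z hz
      rw [abs_of_nonneg (sq_nonneg _), ← sq_abs]
      nlinarith [abs_nonneg (Dw l (v n) z - Dw l V z)]
    · intro z
      have h2 := ((SLb_tend h l z).sub_const (Dw l V z)).pow 2
      rw [sub_self] at h2
      simpa using h2
  · refine SLb_dom R (fun n z => Dw l (v n) z ^ 2) (fun z => Dw l V z ^ 2)
      (fun z => (|Dw l V z| + 1) ^ 2) (fun n => (hvn n).pow 2)
      ((hV.abs.add continuous_const).pow 2) ?_ ?_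
    · refine ⟨N, fun n hn z hz => ?_⟩
      have h2 := hN n hn z hz
      have h3 : |Dw l (v n) z| ≤ |Dw l V z| + 1 := by
        have h4 := abs_sub_abs_le_abs_sub (Dw l (v n) z) (Dw l V z)
        linarith
      rw [abs_of_nonneg (sq_nonneg _), ← sq_abs]
      exact pow_le_pow_left₀ (abs_nonneg _) h3 2
    · intro z
      exact (SLb_tend h l z).pow 2

end QR
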