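import Pool.Agent.LibQR40.M2
import Pool.Agent.LibQR40.SL
import Pool.Agent.LibQR40.CU

/-! ROW M3. Put auxiliary lemmas in this file, names starting with `M3_`.
(the mollified limit). `exists_Ue`: by `J_kernel` applied to `u n - u m` (J and Dw are linear:
`J_sub`, and Dw l of a difference of smooth functions) the sequence J ε (u n) satisfies the hypothesis of `smooth_limit`.
`Ue_close`: n0 R (V - u n) ≤ 2 n0 R (V - J ε (u n)) + 2 n0 R (J ε (u n) - u n) ≤ small + 4 ε² n1 (R+1) (u n)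
(`ULim_n0` with l = [], `J_sub_L2`). -/

open MeasureTheory Set Filter Topology
open scoped ContDiff ENNReal NNReal

namespace QR

open BGS

theorem exists_Ue (u : ℕ → Pl → ℝ) (hu : ∀ n, ContDiff ℝ ∞ (u n)) (hc : CauchyL u) {ε : ℝ}
    (hε : 0 < ε) (hε1 : ε ≤ 1) : ∃ V : Pl → ℝ, ULim (fun n => J ε (u n)) V := by
  refine smooth_limit _ (fun n => J_smooth hε (hu n)) fun l R δ hδ => ?_
  obtain ⟨C, hC, hk⟩ := J_kernel hε hε1 R l
  obtain ⟨N, hN⟩ := hc (R + 1) (δ ^ 2 / C) (by positivity)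
  refine ⟨N, fun n hn m hm z hz => ?_⟩
  have h1 : (J ε fun y => u n y - u m y) = fun y => J ε (u n) y - J ε (u m) y := by
    funext x
    exact J_sub (hu n).continuous (hu m).continuous x
  have h2 := hk (fun y => u n y - u m y) ((hu n).sub (hu m)) z hz
  rw [h1, Dw_sub (J_smooth hε (hu n)) (J_smooth hε (hu m))] at h2
  have h3 : C * n0 (R + 1) (fun y => u n y - u m y) ≤ δ ^ 2 := by
    refine (mul_le_mul_of_nonneg_left (hN n hn m hm) hC.le).trans_eq ?_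
    field_simp
  exact abs_le_of_sq_le_sq (h2.trans h3) hδ.le

theorem Ue_close (u : ℕ → Pl → ℝ) (hu : ∀ n, ContDiff ℝ ∞ (u n))
    (he : ∀ R : ℝ, ∃ C : ℝ, ∀ n, n1 R (u n) ≤ C) (R : ℝ) :
    ∃ C : ℝ, 0 < C ∧ ∀ (ε : ℝ) (V : Pl → ℝ), 0 < ε → ε ≤ 1 → ULim (fun n => J ε (u n)) V →
      ∃ N : ℕ, ∀ n, N ≤ n → n0 R (fun z => V z - u n z) ≤ C * ε ^ 2 := by
  obtain ⟨C₀, hC₀⟩ := he (R + 1)
  have hC₀' : 0 ≤ C₀ := (n1_nonneg _ _).trans (hC₀ 0)
  refine ⟨4 * C₀ + 1, by linarith, fun ε V hε hε1 hV => ?_⟩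
  have h1 := (ULim_n0 (fun n => J_smooth hε (hu n)) hV [] R).1
  have hε2 : 0 < ε ^ 2 / 2 := by positivity
  obtain ⟨N, hN⟩ := eventually_atTop.1 (h1.eventually_lt_const hε2)
  refine ⟨N, fun n hn => ?_⟩
  have h2 : n0 R (fun z => V z - J ε (u n) z) < ε ^ 2 / 2 := by
    refine lt_of_eq_of_lt ?_ (hN n hn)
    unfold n0
    refine setIntegral_congr_fun measurableSet_closedBall fun z _ => ?_
    show (V z - J ε (u n) z) ^ 2 = (J ε (u n) z - V z) ^ 2
    ring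
  have h3 := J_sub_L2 hε hε1 R (hu n)
  have h4 := n0_add_le R (u := fun z => V z - J ε (u n) z) (v := fun z => J ε (u n) z - u n z)
    (hV.1.continuous.sub (J_smooth hε (hu n)).continuous)
    ((J_smooth hε (hu n)).continuous.sub (hu n).continuous)
  have h5 : (fun z => V z - J ε (u n) z + (J ε (u n) z - u n z)) = fun z => V z - u n z := by
    funext z
    ring
  rw [h5] at h4
  have h6 : 2 * ε ^ 2 * n1 (R + 1) (u n) ≤ 2 * ε ^ 2 * C₀ :=
    mul_le_mul_of_nonneg_left (hC₀ n) (by positivity)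
  have h7 : (4 * C₀ + 1) * ε ^ 2 = 2 * (ε ^ 2 / 2) + 2 * (2 * ε ^ 2 * C₀) := by ring
  linarith

private theorem M3_n1 (R : ℝ) {v : Pl → ℝ} (hv : ContDiff ℝ ∞ v) :
    n1 R v = n0 R (pd true v) + n0 R (pd false v) := by
  have h1 : Continuous fun z => pd true v z ^ 2 := (smooth_pd hv true).continuous.pow 2
  have h2 : Continuous fun z => pd false v z ^ 2 := (smooth_pd hv false).continuous.pow 2
  unfold n0
  rw [← integral_add (intQ h1 R) (intQ h2 R)]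
  rfl

private theorem M3_le (R : ℝ) {v : Pl → ℝ} (hv : ContDiff ℝ ∞ v) (b : Bool) :
    n0 R (pd b v) ≤ n1 R v := by
  rw [M3_n1 R hv]
  cases b
  · linarith [n0_nonneg R (pd true v)]
  · linarith [n0_nonneg R (pd false v)]

private theorem M3_b (u : ℕ → Pl → ℝ) (hu : ∀ n, ContDiff ℝ ∞ (u n)) (R : ℝ) {C₀ : ℝ}
    (hC₀ : ∀ n, n1 (R + 1) (u n) ≤ C₀) {ε : ℝ} {V : Pl → ℝ} (hε : 0 < ε) (hε1 : ε ≤ 1)
    (hV : ULim (fun n => J ε (u n)) V) (b : Bool) : n0 R (pd b V) ≤ C₀ := by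
  have h1 := (ULim_n0 (fun n => J_smooth hε (hu n)) hV [b] R).2
  refine le_of_tendsto' h1 fun n => ?_
  have h2 : Dw [b] (J ε (u n)) = J ε (pd b (u n)) := by
    funext x
    exact J_pd hε (hu n) b x
  show n0 R (Dw [b] (J ε (u n))) ≤ C₀
  rw [h2]
  exact (J_L2 hε hε1 R (smooth_pd (hu n) b).continuous).trans
    ((M3_le (R + 1) (hu n) b).trans (hC₀ n))

/-- First derivatives of the mollified limit are bounded, uniformly in `ε`. -/
theorem Ue_one (u : ℕ → Pl → ℝ) (hu : ∀ n, ContDiff ℝ ∞ (u n)) (hc : CauchyL u)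
    (he : ∀ R : ℝ, ∃ C : ℝ, ∀ n, n1 R (u n) ≤ C) (R : ℝ) :
    ∃ C : ℝ, 0 < C ∧ ∀ (ε : ℝ) (V : Pl → ℝ), 0 < ε → ε ≤ 1 → ULim (fun n => J ε (u n)) V →
      n0 R V ≤ C ∧ n1 R V ≤ C := by
  obtain ⟨C₀, hC₀⟩ := he (R + 1)
  have hC₀' : 0 ≤ C₀ := (n1_nonneg _ _).trans (hC₀ 0)
  obtain ⟨N, hN⟩ := hc (R + 1) 1 one_pos
  have hD : 0 ≤ n0 (R + 1) (u N) := n0_nonneg _ _
  refine ⟨2 * C₀ + (2 + 2 * n0 (R + 1) (u N)), by linarith, fun ε V hε hε1 hV => ⟨?_, ?_⟩⟩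
  · have h1 := (ULim_n0 (fun n => J_smooth hε (hu n)) hV [] R).2
    have h2 : n0 R V ≤ 2 + 2 * n0 (R + 1) (u N) := by
      refine le_of_tendsto h1 (eventually_atTop.2 ⟨N, fun n hn => ?_⟩)
      show n0 R (J ε (u n)) ≤ 2 + 2 * n0 (R + 1) (u N)
      refine (J_L2 hε hε1 R (hu n).continuous).trans ?_
      have h3 := n0_add_le (R + 1) (u := fun z => u n z - u N z) (v := u N)
        ((hu n).continuous.sub (hu N).continuous) (hu N).continuous
      have h4 : (fun z => u n z - u N z + u N z) = u n := by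
        funext z
        ring
      rw [h4] at h3
      have h5 := hN n hn N le_rfl
      linarith
    linarith
  · rw [M3_n1 R hV.1]
    have h1 := M3_b u hu R hC₀ hε hε1 hV true
    have h2 := M3_b u hu R hC₀ hε hε1 hV false
    linarith

end QR
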