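import Pool.Agent.LibQR40.M1k
import Pool.Agent.LibQR40.CU

/-! ROW OSa. Put auxiliary lemmas in this file, names starting with `OSa_`.
(the mollified equation). PLAN: `J_L`: fx A (J ε u) = J ε (fx A u) + Cm ε a (dx u) + Cm ε b (dy u) (pointwise; `J_pd`, `J_add` and the
definition of `Cm`), same for fy; then differentiate (`pd_add`; all functions smooth: `J_smooth`) and use `J_pd`, `J_add` again.
`J_weak`: χ y = (ε ^ 2)⁻¹ * rho (ε⁻¹ • (x - y)) (`kerT`), `J_ker` for Lu A u and f, and `ip_q2`. -/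

open MeasureTheory Set Filter Topology
open scoped ContDiff ENNReal NNReal

namespace QR

open BGS

theorem OSa_Cm_smooth {ε : ℝ} (hε : 0 < ε) {a v : Pl → ℝ} (ha : ContDiff ℝ ∞ a)
    (hv : ContDiff ℝ ∞ v) : ContDiff ℝ ∞ (Cm ε a v) :=
  (ha.mul (J_smooth hε hv)).sub (J_smooth hε (ha.mul hv))

theorem OSa_flux {ε : ℝ} (hε : 0 < ε) {a b u : Pl → ℝ} (ha : ContDiff ℝ ∞ a) (hb : ContDiff ℝ ∞ b)
    (hu : ContDiff ℝ ∞ u) (y : Pl) :
    a y * dx (J ε u) y + b y * dy (J ε u) y =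
      J ε (fun z => a z * dx u z + b z * dy u z) y + (Cm ε a (dx u) y + Cm ε b (dy u) y) := by
  have h1 : dx (J ε u) y = J ε (dx u) y := J_pd hε hu true y
  have h2 : dy (J ε u) y = J ε (dy u) y := J_pd hε hu false y
  have hdx : ContDiff ℝ ∞ (dx u) := smooth_pd hu true
  have hdy : ContDiff ℝ ∞ (dy u) := smooth_pd hu false
  rw [J_add (ha.mul hdx).continuous (hb.mul hdy).continuous, h1, h2, Cm, Cm]
  ring

theorem OSa_pd_flux {ε : ℝ} (hε : 0 < ε) {a b u : Pl → ℝ} (ha : ContDiff ℝ ∞ a)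
    (hb : ContDiff ℝ ∞ b) (hu : ContDiff ℝ ∞ u) (c : Bool) (x : Pl) :
    pd c (fun y => a y * dx (J ε u) y + b y * dy (J ε u) y) x =
      J ε (pd c (fun z => a z * dx u z + b z * dy u z)) x +
        pd c (fun y => Cm ε a (dx u) y + Cm ε b (dy u) y) x := by
  have hdx : ContDiff ℝ ∞ (dx u) := smooth_pd hu true
  have hdy : ContDiff ℝ ∞ (dy u) := smooth_pd hu false
  have hf : ContDiff ℝ ∞ (fun z => a z * dx u z + b z * dy u z) := (ha.mul hdx).add (hb.mul hdy)
  have e : (fun y => a y * dx (J ε u) y + b y * dy (J ε u) y) = fun y =>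
      J ε (fun z => a z * dx u z + b z * dy u z) y + (Cm ε a (dx u) y + Cm ε b (dy u) y) := by
    funext y
    exact OSa_flux hε ha hb hu y
  rw [e, pd_add (J_smooth hε hf)
    ((OSa_Cm_smooth hε ha hdx).add (OSa_Cm_smooth hε hb hdy)) c x, J_pd hε hf c x]

theorem J_L (A : Coef) {ε : ℝ} (hε : 0 < ε) {u : Pl → ℝ} (hu : ContDiff ℝ ∞ u) (x : Pl) :
    Lu A (J ε u) x = J ε (Lu A u) x
      + pd true (fun y => Cm ε A.a (dx u) y + Cm ε A.b (dy u) y) x
      + pd false (fun y => Cm ε A.b (dx u) y + Cm ε A.c (dy u) y) x := by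
  have h1 := OSa_pd_flux hε A.ha A.hb hu true x
  have h2 := OSa_pd_flux hε A.hb A.hc hu false x
  have h3 : J ε (Lu A u) x = J ε (pd true (fx A u)) x + J ε (pd false (fy A u)) x :=
    J_add (smooth_pd (smooth_fx A hu) true).continuous (smooth_pd (smooth_fy A hu) false).continuous x
  have h4 : Lu A (J ε u) x = pd true (fx A (J ε u)) x + pd false (fy A (J ε u)) x := rfl
  rw [h4, h3]
  have h5 : pd true (fx A (J ε u)) x = J ε (pd true (fx A u)) x +
      pd true (fun y => Cm ε A.a (dx u) y + Cm ε A.b (dy u) y) x := h1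
  have h6 : pd false (fy A (J ε u)) x = J ε (pd false (fy A u)) x +
      pd false (fun y => Cm ε A.b (dx u) y + Cm ε A.c (dy u) y) x := h2
  rw [h5, h6]
  ring

theorem OSa_int {χ : Pl → ℝ} (h : IsT χ) : Integrable χ :=
  h.1.continuous.integrable_of_hasCompactSupport h.2

theorem J_weak (A : Coef) {ε : ℝ} (hε : 0 < ε) (x : Pl) : ∃ χ : Pl → ℝ, IsT χ ∧
    ∀ u f : Pl → ℝ, ContDiff ℝ ∞ u → ContDiff ℝ ∞ f →
      J ε (Lu A u) x + J ε f x = - ∫ y, (q2 A u χ y - f y * χ y) := by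
  refine ⟨fun y => (ε ^ 2)⁻¹ * rho (ε⁻¹ • (x - y)), kerT hε x, fun u f hu hf => ?_⟩
  set χ : Pl → ℝ := fun y => (ε ^ 2)⁻¹ * rho (ε⁻¹ • (x - y)) with hχ
  have hT : IsT χ := kerT hε x
  have h1 : J ε (Lu A u) x = ∫ y, Lu A u y * χ y := by
    rw [J_ker hε (smooth_Lu A hu).continuous x]
    congr 1
    ext y
    rw [hχ]
    ring
  have h2 : J ε f x = ∫ y, f y * χ y := by
    rw [J_ker hε hf.continuous x]
    congr 1
    ext y
    rw [hχ]
    ring
  have h3 := ip_q2 A hu hT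
  have i1 : Integrable fun y => q2 A u χ y := by
    have a1 := OSa_int (cpt_mul (cpt_pd hT true) (smooth_fx A hu))
    have a2 := OSa_int (cpt_mul (cpt_pd hT false) (smooth_fy A hu))
    exact a1.add a2
  have i2 : Integrable fun y => f y * χ y := OSa_int (cpt_mul hT hf)
  rw [integral_sub i1 i2, h3, h1, h2]
  ring

end QR
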