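import Pool.Agent.LibQR40.Defs

/-! ROW OSb. Put auxiliary lemmas in this file, names starting with `OSb_`.
(Fatou for squares). PLAN: lintegral version: n0 R g = (∫⁻ z in Q R, ofReal (g z ^ 2)).toReal, `lintegral_liminf_le`, all functions
continuous on the compact set Q R (integrable: `intQ`). -/

open MeasureTheory Set Filter Topology
open scoped ContDiff ENNReal NNReal

namespace QR

open BGS

/-- Fatou for squares. -/
theorem fatou_n0 {R C : ℝ} {r : ℕ → Pl → ℝ} {g : Pl → ℝ} (hr : ∀ n, Continuous (r n)) (hg : Continuous g)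
    (hb : ∀ n, n0 R (r n) ≤ C) (h : ∀ x ∈ Q R, Tendsto (fun n => r n x) atTop (𝓝 (g x))) :
    n0 R g ≤ C := by
  have hC : 0 ≤ C := (n0_nonneg R (r 0)).trans (hb 0)
  have key : ∀ v : Pl → ℝ, Continuous v →
      ENNReal.ofReal (n0 R v) = ∫⁻ z in Q R, ENNReal.ofReal (v z ^ 2) := by
    intro v hv
    exact ofReal_integral_eq_lintegral_ofReal (intQ (hv.pow 2) R)
      (ae_of_all _ fun _ => sq_nonneg _)
  have h1 : ENNReal.ofReal (n0 R g) ≤ ENNReal.ofReal C := by
    rw [key g hg]
    calc ∫⁻ z in Q R, ENNReal.ofReal (g z ^ 2)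
        = ∫⁻ z in Q R, liminf (fun n => ENNReal.ofReal (r n z ^ 2)) atTop := by
          apply setLIntegral_congr_fun Metric.isClosed_closedBall.measurableSet
          intro z hz
          have h2 : Tendsto (fun n => ENNReal.ofReal (r n z ^ 2)) atTop
              (𝓝 (ENNReal.ofReal (g z ^ 2))) :=
            (ENNReal.continuous_ofReal.tendsto _).comp ((h z hz).pow 2)
          exact h2.liminf_eq.symm
      _ ≤ liminf (fun n => ∫⁻ z in Q R, ENNReal.ofReal (r n z ^ 2)) atTop :=
          lintegral_liminf_le (fun n => ((hr n).pow 2).measurable.ennreal_ofReal)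
      _ ≤ ENNReal.ofReal C := by
          apply Filter.liminf_le_of_frequently_le'
          apply Filter.Frequently.of_forall
          intro n
          rw [← key _ (hr n)]
          exact ENNReal.ofReal_le_ofReal (hb n)
  exact (ENNReal.ofReal_le_ofReal_iff hC).1 h1

end QR
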