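import Pool.Agent.LibQR40.M3
import Pool.Agent.LibQR40.FR
import Pool.Agent.LibQR40.EI
import Pool.Agent.LibQR40.OSa
import Pool.Agent.LibQR40.OSb

/-! ROW OS. Put auxiliary lemmas in this file, names starting with `OS_`.
(one step of the regularity theory: `H¹` to `H²`).
PLAN: by hypothesis `hw` with χ = the test function of `J_weak` (for ε, x): J ε (Lu A (u n)) x + J ε (f n) x → 0 for every x. Since
Lu A (J ε (u n)) x → Lu A V x (`ULim`, finitely many derivatives), the functions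
r n x := - J ε (f n) x + (the two pd-terms of `J_L` for u n) converge to Lu A V x for every x, and
n0 (R+1) (r n) ≤ C (n0 (R+2) (f n) + n1 (R+2) (u n)) ≤ C' (`J_L2`, `friedrichs`, `n0_add_le`), uniformly in n and ε; `fatou_n0`
gives n0 (R+1) (Lu A V) ≤ C'. Conclude with `elliptic_int` and `Ue_one`. -/

open MeasureTheory Set Filter Topology
open scoped ContDiff ENNReal NNReal

namespace QR

open BGS

theorem OS_Lu_words (A : Coef) {v : Pl → ℝ} (hv : ContDiff ℝ ∞ v) (z : Pl) :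
    Lu A v z = (pd true A.a z * Dw [true] v z + A.a z * Dw [true, true] v z) +
      (pd true A.b z * Dw [false] v z + A.b z * Dw [true, false] v z) +
      ((pd false A.b z * Dw [true] v z + A.b z * Dw [false, true] v z) +
      (pd false A.c z * Dw [false] v z + A.c z * Dw [false, false] v z)) := by
  have hx : ContDiff ℝ ∞ (dx v) := Egr_smooth_dx hv
  have hy : ContDiff ℝ ∞ (dy v) := Egr_smooth_dy hv
  have h1 : dx (fx A v) z = (pd true A.a z * dx v z + A.a z * dx (dx v) z) +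
      (pd true A.b z * dy v z + A.b z * dx (dy v) z) := by
    have e1 := pd_add (A.ha.mul hx) (A.hb.mul hy) true z
    have e2 := pd_mul A.ha hx true z
    have e3 := pd_mul A.hb hy true z
    have e0 : dx (fx A v) z = pd true (fun y => A.a y * dx v y + A.b y * dy v y) z := rfl
    rw [e0]
    refine e1.trans ?_
    rw [e2, e3]
    rfl
  have h2 : dy (fy A v) z = (pd false A.b z * dx v z + A.b z * dy (dx v) z) +
      (pd false A.c z * dy v z + A.c z * dy (dy v) z) := by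
    have e1 := pd_add (A.hb.mul hx) (A.hc.mul hy) false z
    have e2 := pd_mul A.hb hx false z
    have e3 := pd_mul A.hc hy false z
    have e0 : dy (fy A v) z = pd false (fun y => A.b y * dx v y + A.c y * dy v y) z := rfl
    rw [e0]
    refine e1.trans ?_
    rw [e2, e3]
    rfl
  show dx (fx A v) z + dy (fy A v) z = _
  rw [h1, h2]
  rfl

theorem OS_tendsto_Dw {v : ℕ → Pl → ℝ} {V : Pl → ℝ} (h : ULim v V) (l : List Bool) (x : Pl) :
    Tendsto (fun n => Dw l (v n) x) atTop (𝓝 (Dw l V x)) := by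
  rw [Metric.tendsto_atTop]
  intro δ hδ
  obtain ⟨N, hN⟩ := h.2 l ‖x‖ (δ / 2) (by linarith)
  refine ⟨N, fun n hn => ?_⟩
  rw [Real.dist_eq]
  have h1 := hN n hn x (by rw [Q, mem_closedBall_zero_iff])
  linarith

theorem OS_tendsto_Lu (A : Coef) {v : ℕ → Pl → ℝ} {V : Pl → ℝ} (h : ULim v V)
    (hv : ∀ n, ContDiff ℝ ∞ (v n)) (x : Pl) :
    Tendsto (fun n => Lu A (v n) x) atTop (𝓝 (Lu A V x)) := by
  have h1 := fun l => OS_tendsto_Dw h l x
  rw [OS_Lu_words A h.1]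
  have h2 : (fun n => Lu A (v n) x) = fun n =>
      (pd true A.a x * Dw [true] (v n) x + A.a x * Dw [true, true] (v n) x) +
      (pd true A.b x * Dw [false] (v n) x + A.b x * Dw [true, false] (v n) x) +
      ((pd false A.b x * Dw [true] (v n) x + A.b x * Dw [false, true] (v n) x) +
      (pd false A.c x * Dw [false] (v n) x + A.c x * Dw [false, false] (v n) x)) := by
    funext n
    exact OS_Lu_words A (hv n) x
  rw [h2]
  exact ((((h1 _).const_mul _).add ((h1 _).const_mul _)).add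
    (((h1 _).const_mul _).add ((h1 _).const_mul _))).add
    ((((h1 _).const_mul _).add ((h1 _).const_mul _)).add
    (((h1 _).const_mul _).add ((h1 _).const_mul _)))

theorem OS_smooth_Cm {ε : ℝ} (hε : 0 < ε) {a g : Pl → ℝ} (ha : ContDiff ℝ ∞ a)
    (hg : ContDiff ℝ ∞ g) : ContDiff ℝ ∞ (Cm ε a g) :=
  (ha.mul (J_smooth hε hg)).sub (J_smooth hε (ha.mul hg))

theorem OS_n0_neg (R : ℝ) (v : Pl → ℝ) : n0 R (fun z => -v z) = n0 R v := by
  unfold n0
  simp only [neg_sq]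

theorem OS_n0_dx (R : ℝ) {v : Pl → ℝ} (hv : ContDiff ℝ ∞ v) : n0 R (dx v) ≤ n1 R v := by
  unfold n0 n1
  apply setIntegral_mono (intQ ((Egr_smooth_dx hv).continuous.pow 2) R)
    (intQ (smooth_G1 hv).continuous R)
  intro z
  show dx v z ^ 2 ≤ dx v z ^ 2 + dy v z ^ 2
  nlinarith [sq_nonneg (dy v z)]

theorem OS_n0_dy (R : ℝ) {v : Pl → ℝ} (hv : ContDiff ℝ ∞ v) : n0 R (dy v) ≤ n1 R v := by
  unfold n0 n1
  apply setIntegral_mono (intQ ((Egr_smooth_dy hv).continuous.pow 2) R)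
    (intQ (smooth_G1 hv).continuous R)
  intro z
  show dy v z ^ 2 ≤ dx v z ^ 2 + dy v z ^ 2
  nlinarith [sq_nonneg (dx v z)]

theorem one_step (A : Coef) (u f : ℕ → Pl → ℝ) (hu : ∀ n, ContDiff ℝ ∞ (u n))
    (hf : ∀ n, ContDiff ℝ ∞ (f n)) (hc : CauchyL u) (he : ∀ R : ℝ, ∃ C : ℝ, ∀ n, n1 R (u n) ≤ C)
    (hf2 : ∀ R : ℝ, ∃ C : ℝ, ∀ n, n0 R (f n) ≤ C)
    (hw : ∀ χ : Pl → ℝ, IsT χ →
      Tendsto (fun n => ∫ z, (q2 A (u n) χ z - f n z * χ z)) atTop (𝓝 0)) (R : ℝ) :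
    ∃ C : ℝ, 0 < C ∧ ∀ (ε : ℝ) (V : Pl → ℝ), 0 < ε → ε ≤ 1 → ULim (fun n => J ε (u n)) V →
      n2 R V ≤ C := by
  obtain ⟨C1, hC1, hel⟩ := elliptic_int A R
  obtain ⟨C2, hC2, hUe⟩ := Ue_one u hu hc he (R + 1)
  obtain ⟨Ca, hCa, hfa⟩ := friedrichs A.ha (R + 1)
  obtain ⟨Cb, hCb, hfb⟩ := friedrichs A.hb (R + 1)
  obtain ⟨Cc, hCc, hfc⟩ := friedrichs A.hc (R + 1)
  obtain ⟨Cf, hCf⟩ := hf2 (R + 1 + 1)
  obtain ⟨Ce, hCe⟩ := he (R + 1 + 1)
  have hCf0 : 0 ≤ Cf := (n0_nonneg _ _).trans (hCf 0)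
  have hCe0 : 0 ≤ Ce := (n1_nonneg _ _).trans (hCe 0)
  obtain ⟨C', hC'⟩ : ∃ C', C' = 2 * Cf + 8 * ((Ca + Cb + Cb + Cc) * Ce) := ⟨_, rfl⟩
  have hC'0 : 0 ≤ C' := by rw [hC']; positivity
  refine ⟨C1 * (C' + C2 + C2), by positivity, fun ε V hε hε1 hV => ?_⟩
  obtain ⟨hV0, hV1⟩ := hUe ε V hε hε1 hV
  have hJs : ∀ n, ContDiff ℝ ∞ (J ε (u n)) := fun n => J_smooth hε (hu n)
  -- the pieces
  obtain ⟨T1, hT1⟩ : ∃ T1 : ℕ → Pl → ℝ, T1 = fun n => pd true (Cm ε A.a (dx (u n))) := ⟨_, rfl⟩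
  obtain ⟨T2, hT2⟩ : ∃ T2 : ℕ → Pl → ℝ, T2 = fun n => pd true (Cm ε A.b (dy (u n))) := ⟨_, rfl⟩
  obtain ⟨T3, hT3⟩ : ∃ T3 : ℕ → Pl → ℝ, T3 = fun n => pd false (Cm ε A.b (dx (u n))) := ⟨_, rfl⟩
  obtain ⟨T4, hT4⟩ : ∃ T4 : ℕ → Pl → ℝ, T4 = fun n => pd false (Cm ε A.c (dy (u n))) := ⟨_, rfl⟩
  have hdx : ∀ n, ContDiff ℝ ∞ (dx (u n)) := fun n => Egr_smooth_dx (hu n)
  have hdy : ∀ n, ContDiff ℝ ∞ (dy (u n)) := fun n => Egr_smooth_dy (hu n)
  have s1 : ∀ n, ContDiff ℝ ∞ (T1 n) := fun n => by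
    rw [hT1]; exact smooth_pd (OS_smooth_Cm hε A.ha (hdx n)) true
  have s2 : ∀ n, ContDiff ℝ ∞ (T2 n) := fun n => by
    rw [hT2]; exact smooth_pd (OS_smooth_Cm hε A.hb (hdy n)) true
  have s3 : ∀ n, ContDiff ℝ ∞ (T3 n) := fun n => by
    rw [hT3]; exact smooth_pd (OS_smooth_Cm hε A.hb (hdx n)) false
  have s4 : ∀ n, ContDiff ℝ ∞ (T4 n) := fun n => by
    rw [hT4]; exact smooth_pd (OS_smooth_Cm hε A.hc (hdy n)) false
  have sJ : ∀ n, ContDiff ℝ ∞ (J ε (f n)) := fun n => J_smooth hε (hf n)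
  have b1 : ∀ n, n0 (R + 1) (T1 n) ≤ Ca * Ce := fun n => by
    rw [hT1]
    exact (hfa ε hε hε1 _ (hdx n) true).trans (mul_le_mul_of_nonneg_left
      ((OS_n0_dx _ (hu n)).trans (hCe n)) hCa.le)
  have b2 : ∀ n, n0 (R + 1) (T2 n) ≤ Cb * Ce := fun n => by
    rw [hT2]
    exact (hfb ε hε hε1 _ (hdy n) true).trans (mul_le_mul_of_nonneg_left
      ((OS_n0_dy _ (hu n)).trans (hCe n)) hCb.le)
  have b3 : ∀ n, n0 (R + 1) (T3 n) ≤ Cb * Ce := fun n => by
    rw [hT3]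
    exact (hfb ε hε hε1 _ (hdx n) false).trans (mul_le_mul_of_nonneg_left
      ((OS_n0_dx _ (hu n)).trans (hCe n)) hCb.le)
  have b4 : ∀ n, n0 (R + 1) (T4 n) ≤ Cc * Ce := fun n => by
    rw [hT4]
    exact (hfc ε hε hε1 _ (hdy n) false).trans (mul_le_mul_of_nonneg_left
      ((OS_n0_dy _ (hu n)).trans (hCe n)) hCc.le)
  have bJ : ∀ n, n0 (R + 1) (J ε (f n)) ≤ Cf := fun n =>
    (J_L2 hε hε1 (R + 1) (hf n).continuous).trans (hCf n)
  obtain ⟨r, hr⟩ : ∃ r : ℕ → Pl → ℝ, r = fun n x =>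
    (-J ε (f n) x) + ((T1 n x + T2 n x) + (T3 n x + T4 n x)) := ⟨_, rfl⟩
  have hrc : ∀ n, Continuous (r n) := fun n => by
    rw [hr]
    exact (sJ n).continuous.neg.add (((s1 n).continuous.add (s2 n).continuous).add
      ((s3 n).continuous.add (s4 n).continuous))
  have hrb : ∀ n, n0 (R + 1) (r n) ≤ C' := by
    intro n
    have e1 := n0_add_le (R + 1) (sJ n).continuous.neg
      (((s1 n).continuous.add (s2 n).continuous).add ((s3 n).continuous.add (s4 n).continuous))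
    have e2 := n0_add_le (R + 1) ((s1 n).continuous.add (s2 n).continuous)
      ((s3 n).continuous.add (s4 n).continuous)
    have e3 := n0_add_le (R + 1) (s1 n).continuous (s2 n).continuous
    have e4 := n0_add_le (R + 1) (s3 n).continuous (s4 n).continuous
    have e5 := OS_n0_neg (R + 1) (J ε (f n))
    have e6 : n0 (R + 1) (r n) ≤ 2 * n0 (R + 1) (fun z => -J ε (f n) z) +
        2 * n0 (R + 1) (fun z => (T1 n z + T2 n z) + (T3 n z + T4 n z)) := by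
      rw [hr]
      exact e1
    have e2' : n0 (R + 1) (fun z => (T1 n z + T2 n z) + (T3 n z + T4 n z)) ≤
        2 * n0 (R + 1) (fun z => T1 n z + T2 n z) + 2 * n0 (R + 1) (fun z => T3 n z + T4 n z) := e2
    rw [e5] at e6
    have := b1 n
    have := b2 n
    have := b3 n
    have := b4 n
    have := bJ n
    rw [hC']
    linarith
  have hrt : ∀ x ∈ Q (R + 1), Tendsto (fun n => r n x) atTop (𝓝 (Lu A V x)) := by
    intro x _
    obtain ⟨χ, hχ, hχ2⟩ := J_weak A hε x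
    have t1 := OS_tendsto_Lu A hV hJs x
    have t2 := (hw χ hχ).neg
    have t3 := t1.sub t2
    rw [neg_zero, sub_zero] at t3
    refine t3.congr fun n => ?_
    rw [← hχ2 (u n) (f n) (hu n) (hf n), J_L A hε (hu n) x, hr, hT1, hT2, hT3, hT4]
    have p1 := pd_add (OS_smooth_Cm hε A.ha (hdx n)) (OS_smooth_Cm hε A.hb (hdy n)) true x
    have p2 := pd_add (OS_smooth_Cm hε A.hb (hdx n)) (OS_smooth_Cm hε A.hc (hdy n)) false x
    rw [p1, p2]
    ring
  have hfin := fatou_n0 hrc (smooth_Lu A hV.1).continuous hrb hrt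
  refine (hel V hV.1).trans (mul_le_mul_of_nonneg_left ?_ hC1.le)
  linarith

end QR
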