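import Pool.Agent.LibQR40.IT2

/-! ROW RGa. Put auxiliary lemmas in this file, names starting with `RGa_`.
(all derivatives are bounded). PLAN: induction from `Bd 1` (`Ue_one`; n0 R (dx V), n0 R (dy V) ≤ n1 R V) with `bd_step`;
Bd 0 follows from Bd 1. -/

open MeasureTheory Set Filter Topology
open scoped ContDiff ENNReal NNReal

namespace QR

open BGS

theorem RGa_pd {V : Pl → ℝ} (hV : ContDiff ℝ ∞ V) (R : ℝ) (b : Bool) : n0 R (pd b V) ≤ n1 R V := by
  have h1 : Continuous fun z => pd b V z ^ 2 := (smooth_pd hV b).continuous.pow 2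
  have h2 : Continuous (G1 V) := (smooth_G1 hV).continuous
  unfold n0 n1
  apply integral_mono (intQ h1 R) (intQ h2 R)
  intro z
  cases b
  · show dy V z ^ 2 ≤ dx V z ^ 2 + dy V z ^ 2
    nlinarith [sq_nonneg (dx V z)]
  · show dx V z ^ 2 ≤ dx V z ^ 2 + dy V z ^ 2
    nlinarith [sq_nonneg (dy V z)]

theorem RGa_one (u : ℕ → Pl → ℝ)
    (hu : ∀ n, ContDiff ℝ ∞ (u n)) (hc : CauchyL u) (he : ∀ R : ℝ, ∃ C : ℝ, ∀ n, n1 R (u n) ≤ C) :
    Bd u 1 := by
  intro l hl R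
  obtain ⟨C, hC, h⟩ := Ue_one u hu hc he R
  refine ⟨C, hC, fun ε V hε hε1 hV => ?_⟩
  obtain ⟨h0, h1⟩ := h ε V hε hε1 hV
  match l, hl with
  | [], _ => exact h0
  | [b], _ => exact (RGa_pd hV.1 R b).trans h1
  | _ :: _ :: _, hl =>
    exfalso
    simp only [List.length_cons] at hl
    omega

theorem bd_all (A : Coef) {V : Pl → ℝ} (hV : ContDiff ℝ ∞ V) (u : ℕ → Pl → ℝ)
    (hu : ∀ n, ContDiff ℝ ∞ (u n)) (hc : CauchyL u) (he : ∀ R : ℝ, ∃ C : ℝ, ∀ n, n1 R (u n) ≤ C)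
    (hw : ∀ χ : Pl → ℝ, IsT χ →
      Tendsto (fun n => ∫ z, (q2 A (u n) χ z - V z * u n z * χ z)) atTop (𝓝 0)) (k : ℕ) : Bd u k := by
  have key : ∀ k : ℕ, 1 ≤ k → Bd u k := by
    intro k hk
    induction k, hk using Nat.le_induction with
    | base => exact RGa_one u hu hc he
    | succ k hk ih => exact bd_step A hV u hu hc he hw hk ih
  rcases Nat.eq_zero_or_pos k with rfl | hk
  · intro l hl R
    exact RGa_one u hu hc he l (by omega) R
  · exact key k hk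

end QR
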