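import Pool.Agent.LibQR40.Defs

/-! ROW SLa. Put auxiliary lemmas in this file, names starting with `SLa_`.
(limits of smooth functions). If all derivatives `Dw l (v n)` are uniformly Cauchy on every square, there is a
smooth limit with `Dw l (v n) → Dw l V` uniformly on every square. PLAN: (1) one step: if v_n → V and
pd b v_n → W_b (b = true, false) locally uniformly, all v_n smooth, W_b continuous, then V has the derivative
(h,k) ↦ h W_true + k W_false: the full derivatives fderiv v_n z = dx v_n z • fst + dy v_n z • snd converge locally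
uniformly, use `hasFDerivAt_of_tendstoUniformlyOn` / `hasFDerivAt_of_tendstoLocallyUniformlyOn` (Mathlib.Analysis.Calculus.
UniformLimitsDeriv). So dx V = W_true, dy V = W_false. (2) Let W_l be the locally uniform limit of Dw l (v n) (complete,
continuous); by (1) applied to Dw l (v n): dx W_l = W_(true :: l), dy W_l = W_(false :: l). Hence ContDiff n (W_l) for all
n and l by induction on n (`contDiff_succ_iff_fderiv`: fderiv W_l z = W_(true::l) z • fst + W_(false::l) z • snd is C^n),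
so V = W_[] is C^∞ and Dw l V = W_l by induction on l. -/

open MeasureTheory Set Filter Topology
open scoped ContDiff ENNReal NNReal

namespace QR

open BGS

theorem SLa_norm (a b : ℝ) :
    ‖a • ContinuousLinearMap.fst ℝ ℝ ℝ + b • ContinuousLinearMap.snd ℝ ℝ ℝ‖ ≤ |a| + |b| := by
  refine (norm_add_le _ _).trans ?_
  rw [norm_smul, norm_smul, Real.norm_eq_abs, Real.norm_eq_abs]
  have h1 := ContinuousLinearMap.norm_fst_le ℝ ℝ ℝ
  have h2 := ContinuousLinearMap.norm_snd_le ℝ ℝ ℝ
  have h3 := mul_le_mul_of_nonneg_left h1 (abs_nonneg a)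
  have h4 := mul_le_mul_of_nonneg_left h2 (abs_nonneg b)
  linarith

theorem SLa_fderiv {f : Pl → ℝ} (z : Pl) :
    fderiv ℝ f z = dx f z • ContinuousLinearMap.fst ℝ ℝ ℝ + dy f z • ContinuousLinearMap.snd ℝ ℝ ℝ := by
  ext
  · simp [dx]
  · simp [dy]

theorem SLa_step {f : ℕ → Pl → ℝ} {F A B : Pl → ℝ} (hf : ∀ n, ContDiff ℝ ∞ (f n))
    (hF : ∀ z, Tendsto (fun n => f n z) atTop (𝓝 (F z)))
    (hA : ∀ R δ : ℝ, 0 < δ → ∃ N : ℕ, ∀ n, N ≤ n → ∀ z ∈ Q R, |dx (f n) z - A z| ≤ δ)
    (hB : ∀ R δ : ℝ, 0 < δ → ∃ N : ℕ, ∀ n, N ≤ n → ∀ z ∈ Q R, |dy (f n) z - B z| ≤ δ) (z : Pl) :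
    HasFDerivAt F (A z • ContinuousLinearMap.fst ℝ ℝ ℝ + B z • ContinuousLinearMap.snd ℝ ℝ ℝ) z := by
  set R : ℝ := ‖z‖ + 1 with hR
  have hz : z ∈ Metric.ball (0 : Pl) R := by
    rw [mem_ball_zero_iff]
    linarith
  refine hasFDerivAt_of_tendstoUniformlyOn (l := atTop) (f := f)
    (f' := fun n z => dx (f n) z • ContinuousLinearMap.fst ℝ ℝ ℝ +
      dy (f n) z • ContinuousLinearMap.snd ℝ ℝ ℝ)
    (g' := fun z => A z • ContinuousLinearMap.fst ℝ ℝ ℝ + B z • ContinuousLinearMap.snd ℝ ℝ ℝ)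
    Metric.isOpen_ball ?_ ?_ (fun x _ => hF x) hz
  · rw [Metric.tendstoUniformlyOn_iff]
    intro ε hε
    obtain ⟨N1, h1⟩ := hA R (ε / 4) (by positivity)
    obtain ⟨N2, h2⟩ := hB R (ε / 4) (by positivity)
    filter_upwards [eventually_ge_atTop (max N1 N2)] with n hn x hx
    have hxQ : x ∈ Q R := Metric.ball_subset_closedBall hx
    have e1 := h1 n ((le_max_left _ _).trans hn) x hxQ
    have e2 := h2 n ((le_max_right _ _).trans hn) x hxQ
    rw [dist_comm, dist_eq_norm]
    have e3 : (dx (f n) x • ContinuousLinearMap.fst ℝ ℝ ℝ +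
        dy (f n) x • ContinuousLinearMap.snd ℝ ℝ ℝ) -
        (A x • ContinuousLinearMap.fst ℝ ℝ ℝ + B x • ContinuousLinearMap.snd ℝ ℝ ℝ) =
        (dx (f n) x - A x) • ContinuousLinearMap.fst ℝ ℝ ℝ +
        (dy (f n) x - B x) • ContinuousLinearMap.snd ℝ ℝ ℝ := by
      ext <;> simp
    rw [e3]
    refine (SLa_norm _ _).trans_lt ?_
    linarith
  · intro n x _
    have h1 : DifferentiableAt ℝ (f n) x := (hf n).differentiable (by simp) x
    have h2 := h1.hasFDerivAt
    rwa [SLa_fderiv] at h2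

theorem smooth_limit (v : ℕ → Pl → ℝ) (hv : ∀ n, ContDiff ℝ ∞ (v n))
    (hc : ∀ (l : List Bool) (R δ : ℝ), 0 < δ → ∃ N : ℕ, ∀ n, N ≤ n → ∀ m, N ≤ m → ∀ z ∈ Q R,
      |Dw l (v n) z - Dw l (v m) z| ≤ δ) : ∃ V : Pl → ℝ, ULim v V := by
  have h1 : ∀ (l : List Bool) (z : Pl), ∃ w : ℝ, Tendsto (fun n => Dw l (v n) z) atTop (𝓝 w) := by
    intro l z
    apply cauchySeq_tendsto_of_complete
    rw [Metric.cauchySeq_iff]
    intro ε hε
    obtain ⟨N, hN⟩ := hc l ‖z‖ (ε / 2) (by positivity)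
    refine ⟨N, fun n hn m hm => ?_⟩
    rw [Real.dist_eq]
    refine (hN n hn m hm z ?_).trans_lt (by linarith)
    rw [Q, mem_closedBall_zero_iff]
  choose W hW using h1
  have h2 : ∀ (l : List Bool) (R δ : ℝ), 0 < δ → ∃ N : ℕ, ∀ n, N ≤ n → ∀ z ∈ Q R,
      |Dw l (v n) z - W l z| ≤ δ := by
    intro l R δ hδ
    obtain ⟨N, hN⟩ := hc l R δ hδ
    refine ⟨N, fun n hn z hz => ?_⟩
    have h3 : Tendsto (fun m => |Dw l (v n) z - Dw l (v m) z|) atTop
        (𝓝 |Dw l (v n) z - W l z|) := (tendsto_const_nhds.sub (hW l z)).abs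
    refine le_of_tendsto h3 ?_
    filter_upwards [eventually_ge_atTop N] with m hm
    exact hN n hn m hm z hz
  have h3 : ∀ (l : List Bool) (z : Pl), HasFDerivAt (W l)
      (W (true :: l) z • ContinuousLinearMap.fst ℝ ℝ ℝ +
        W (false :: l) z • ContinuousLinearMap.snd ℝ ℝ ℝ) z := by
    intro l z
    refine SLa_step (fun n => smooth_Dw (hv n) l) (hW l) (fun R δ hδ => ?_) (fun R δ hδ => ?_) z
    · exact h2 (true :: l) R δ hδ
    · exact h2 (false :: l) R δ hδ
  have h4 : ∀ (n : ℕ) (l : List Bool), ContDiff ℝ n (W l) := by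
    intro n
    induction n with
    | zero =>
      intro l
      have : Differentiable ℝ (W l) := fun z => (h3 l z).differentiableAt
      exact contDiff_zero.2 this.continuous
    | succ n ih =>
      intro l
      have h5 : fderiv ℝ (W l) = fun z => W (true :: l) z • ContinuousLinearMap.fst ℝ ℝ ℝ +
          W (false :: l) z • ContinuousLinearMap.snd ℝ ℝ ℝ := funext fun z => (h3 l z).fderiv
      have h6 : ContDiff ℝ ((n : WithTop ℕ∞) + 1) (W l) := by
        rw [contDiff_succ_iff_fderiv]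
        refine ⟨fun z => (h3 l z).differentiableAt, fun h => ?_, ?_⟩
        · exfalso
          exact absurd h (by simp)
        · rw [h5]
          exact ((ih (true :: l)).smul contDiff_const).add ((ih (false :: l)).smul contDiff_const)
      exact_mod_cast h6
  have h5 : ∀ l : List Bool, Dw l (W []) = W l := by
    intro l
    induction l with
    | nil => rfl
    | cons b l ih =>
      rw [Dw, ih]
      funext z
      cases b
      · change fderiv ℝ (W l) z (0, 1) = _
        rw [(h3 l z).fderiv]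
        simp
      · change fderiv ℝ (W l) z (1, 0) = _
        rw [(h3 l z).fderiv]
        simp
  refine ⟨W [], contDiff_infty.2 fun n => h4 n [], fun l R δ hδ => ?_⟩
  rw [h5 l]
  exact h2 l R δ hδ

end QR
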